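import Pool.Agent.Lib.MP_ccffa6_gt.U.BDef
import Pool.Agent.Lib.MP_ccffa6_gt.K.LinY

/-! Real destabilisation. -/

open Set Filter Topology Matrix Pool.Agent.Lib.MP_b7c8b0_gt
open scoped ContDiff ComplexConjugate

noncomputable section

namespace Pool.Agent.Lib.MP_ccffa6_gt.U

variable {P : Type} [NormedAddCommGroup P] [NormedSpace ℝ P] [FiniteDimensional ℝ P]
  {V : Type} [NormedAddCommGroup V] [NormedSpace ℝ V] [FiniteDimensional ℝ V]
  {K : Type} [NormedAddCommGroup K] [NormedSpace ℝ K] [FiniteDimensional ℝ K]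

/-- A covector with value one on `w` and on `d`. -/
theorem ub_lam (d : V) : ∃ lam : V → V →L[ℝ] ℝ,
    ∀ w, w ≠ 0 → (∀ c : ℝ, d ≠ c • w) → ContDiffAt ℝ ∞ lam w ∧ lam w w = 1 ∧ lam w d = 1 := by
  obtain ⟨B, hs, hp⟩ := exists_posdef (E := V)
  refine ⟨fun w => (B w w * B d d - B w d * B w d)⁻¹ •
    ((B d d - B w d) • B w + (B w w - B w d) • B d), fun w hw hd => ?_⟩
  have h0 := hp w hw
  have hx : B w w • d - B w d • w ≠ 0 := fun h => hd ((B w w)⁻¹ * B w d) (by
    rw [mul_smul, ← sub_eq_zero.1 h, smul_smul, inv_mul_cancel₀ h0.ne', one_smul])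
  have h1 := hp _ hx
  simp only [map_sub, map_smul, _root_.sub_apply, _root_.smul_apply, smul_eq_mul, hs d w] at h1
  have hΔ : B w w * B d d - B w d * B w d ≠ 0 := fun h => by
    have : B w w * (B w w * B d d - B w d * B w d) = 0 := by rw [h, mul_zero]
    nlinarith
  have s1 : ContDiff ℝ ∞ fun w => B w w := B.contDiff.clm_apply contDiff_id
  have s2 : ContDiff ℝ ∞ fun w => B w d := B.contDiff.clm_apply contDiff_const
  refine ⟨(((s1.mul contDiff_const).sub (s2.mul s2)).contDiffAt.inv hΔ).smul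
    (((contDiff_const.sub s2).smul B.contDiff).add
      ((s1.sub s2).smul contDiff_const)).contDiffAt, ?_, ?_⟩
  · simp only [_root_.smul_apply, _root_.add_apply, smul_eq_mul, hs d w]
    rw [inv_mul_eq_one₀ hΔ]
    ring
  · simp only [_root_.smul_apply, _root_.add_apply, smul_eq_mul]
    rw [inv_mul_eq_one₀ hΔ]
    ring

/-- One step. -/
theorem ub_ds1 (hd : Module.finrank ℝ P < Module.finrank ℝ V) {G : P → (V × ℝ) →L[ℝ] (V × ℝ)}
    (hG : ContDiff ℝ ∞ G) (hb : ∀ p, Function.Bijective (G p)) :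
    ∃ G' : P → V →L[ℝ] V, ContDiff ℝ ∞ G' ∧ (∀ p, Function.Bijective (G' p)) ∧
      ∀ p (L : V →L[ℝ] V), G p = L.prodMap (ContinuousLinearMap.id ℝ ℝ) → G' p = L := by
  have s0 : ContDiff ℝ ∞ fun p => G p (0, 1) := hG.clm_apply contDiff_const
  have s1 : ContDiff ℝ 1 fun z : P × ℝ => z.2 • G z.1 (0, 1) :=
    contDiff_snd.smul ((s0.of_le (by simp)).comp contDiff_fst)
  have hden := s1.dense_compl_range_of_finrank_lt_finrank (by
    simp only [Module.finrank_prod, Module.finrank_self]; omega)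
  have : Nontrivial V := Module.nontrivial_of_finrank_pos (R := ℝ) (by omega)
  obtain ⟨v, hv⟩ := exists_ne (0 : V)
  obtain ⟨d, hd1, hd2⟩ := hden.inter_open_nonempty {d : V × ℝ | d.1 ≠ 0}
    (isOpen_ne_fun continuous_fst continuous_const) ⟨(v, 0), hv⟩
  obtain ⟨lam, hlam⟩ := ub_lam d
  have h0 := hlam (0, 1) (by simp) fun c h => hd1 (by simp [h])
  have hu : ∀ p, ContDiffAt ℝ ∞ lam (G p (0, 1)) ∧ lam (G p (0, 1)) (G p (0, 1)) = 1 ∧
      lam (G p (0, 1)) d = 1 := fun p =>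
    hlam _ (fun h => by simpa using (hb p).1 (h.trans (map_zero _).symm))
      fun c h => hd2 ⟨(p, c), h.symm⟩
  let N : (V × ℝ) → (V × ℝ) →L[ℝ] (V × ℝ) := fun w => (lam w).smulRight (d - w)
  have nn : ∀ w, lam w w = 1 → lam w d = 1 → ∀ x, N w (N w x) = 0 := fun w h1 h2 x => by
    simp [N, h1, h2]
  let T : P → (V × ℝ) →L[ℝ] (V × ℝ) := fun p =>
    ((1 - N (0, 1)).comp (1 + N (G p (0, 1)))).comp (G p)
  have sT : ContDiff ℝ ∞ T := by
    refine (contDiff_const.clm_comp (contDiff_const.add ?_)).clm_comp hG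
    exact (ContinuousLinearMap.smulRightL ℝ (V × ℝ) (V × ℝ)).isBoundedBilinearMap.contDiff.comp
      ((contDiff_iff_contDiffAt.2 fun p => (hu p).1.comp p s0.contDiffAt).prodMk
        (contDiff_const.sub s0))
  have t1 : ∀ p, T p (0, 1) = (0, 1) := fun p => by
    have e1 : (1 + N (G p (0, 1))) (G p (0, 1)) = d := by simp [N, (hu p).2.1]
    have e2 : N (0, 1) d = d - (0, 1) := by simp only [N, ContinuousLinearMap.smulRight_apply,
      h0.2.2, one_smul]
    change (1 + N (G p (0, 1))) (G p (0, 1)) -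
      N (0, 1) ((1 + N (G p (0, 1))) (G p (0, 1))) = (0, 1)
    rw [e1, e2, sub_sub_cancel]
  have ti : ∀ p x, T p x = 0 → x = 0 := fun p x h => by
    have h1 : (1 + N (G p (0, 1))) (G p x) - N (0, 1) ((1 + N (G p (0, 1))) (G p x)) = 0 := h
    have h2 := congrArg (N (0, 1)) h1
    rw [map_sub, nn _ h0.2.1 h0.2.2, sub_zero, map_zero] at h2
    rw [h2, sub_zero] at h1
    have h3 : G p x + N (G p (0, 1)) (G p x) = 0 := h1
    have h4 := congrArg (N (G p (0, 1))) h3
    rw [map_add, nn _ (hu p).2.1 (hu p).2.2, add_zero, map_zero] at h4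
    rw [h4, add_zero] at h3
    exact (hb p).1 (h3.trans (map_zero _).symm)
  refine ⟨fun p => (ContinuousLinearMap.fst ℝ V ℝ).comp ((T p).comp (ContinuousLinearMap.inl ℝ V ℝ)),
    contDiff_const.clm_comp (sT.clm_comp contDiff_const), fun p => ?_, fun p L h => ?_⟩
  · have hi : Function.Injective ((ContinuousLinearMap.fst ℝ V ℝ).comp
        ((T p).comp (ContinuousLinearMap.inl ℝ V ℝ))) := by
      refine (injective_iff_map_eq_zero _).2 fun x hx => ?_
      have hx' : (T p (x, 0)).1 = 0 := hx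
      have := ti p ((x, 0) - (T p (x, 0)).2 • ((0, 1) : V × ℝ)) (by
        rw [map_sub, map_smul, t1]; ext <;> simp [hx'])
      simpa using congrArg Prod.fst this
    exact ⟨hi, LinearMap.injective_iff_surjective.1 hi⟩
  · have e : G p (0, 1) = (0, 1) := by simp [h]
    ext x
    have : T p (x, 0) = (L x, 0) := by
      have e2 : G p (x, 0) = (L x, 0) := by simp [h]
      change (1 + N (G p (0, 1))) (G p (x, 0)) -
        N (0, 1) ((1 + N (G p (0, 1))) (G p (x, 0))) = (L x, 0)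
      rw [e, e2, _root_.add_apply, map_add, nn _ h0.2.1 h0.2.2]
      simp
    exact congrArg Prod.fst this

omit [FiniteDimensional ℝ P] in
theorem ubds_conj {A A' : Type} [NormedAddCommGroup A] [NormedSpace ℝ A] [NormedAddCommGroup A']
    [NormedSpace ℝ A'] (e : A ≃L[ℝ] A') {G : P → A →L[ℝ] A} (hG : ContDiff ℝ ∞ G)
    (hb : ∀ p, Function.Bijective (G p)) :
    ContDiff ℝ ∞ (fun p => (e : A →L[ℝ] A').comp ((G p).comp (e.symm : A' →L[ℝ] A))) ∧
      ∀ p, Function.Bijective ((e : A →L[ℝ] A').comp ((G p).comp (e.symm : A' →L[ℝ] A))) :=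
  ⟨contDiff_const.clm_comp (hG.clm_comp contDiff_const),
    fun p => e.bijective.comp ((hb p).comp e.symm.bijective)⟩

theorem ubds_ind (hd : Module.finrank ℝ P < Module.finrank ℝ V) (j : ℕ) :
    ∀ (K : Type) [NormedAddCommGroup K] [NormedSpace ℝ K] [FiniteDimensional ℝ K],
      Module.finrank ℝ K = j → ∀ G : P → (V × K) →L[ℝ] (V × K), ContDiff ℝ ∞ G →
      (∀ p, Function.Bijective (G p)) →
      ∃ G' : P → V →L[ℝ] V, ContDiff ℝ ∞ G' ∧ (∀ p, Function.Bijective (G' p)) ∧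
        ∀ p (L : V →L[ℝ] V), G p = L.prodMap (ContinuousLinearMap.id ℝ K) → G' p = L := by
  induction j with
  | zero =>
    intro K _ _ _ hK G hG hb
    have : Subsingleton K := Module.finrank_zero_iff.1 hK
    have : Unique K := uniqueOfSubsingleton 0
    obtain ⟨h1, h2⟩ := ubds_conj (ContinuousLinearEquiv.prodUnique ℝ V K) hG hb
    exact ⟨_, h1, h2, fun p L h => by ext x; simp [h]⟩
  | succ j ih =>
    intro K _ _ _ hK G hG hb
    let e : K ≃L[ℝ] (Fin j → ℝ) × ℝ := ContinuousLinearEquiv.ofFinrankEq (by simp [hK])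
    let e' : (V × K) ≃L[ℝ] (V × (Fin j → ℝ)) × ℝ :=
      ((ContinuousLinearEquiv.refl ℝ V).prodCongr e).trans
        (ContinuousLinearEquiv.prodAssoc ℝ V (Fin j → ℝ) ℝ).symm
    obtain ⟨h1, h2⟩ := ubds_conj e' hG hb
    obtain ⟨G1, g1, g2, g3⟩ := ub_ds1 (V := V × (Fin j → ℝ))
      (by rw [Module.finrank_prod]; omega) h1 h2
    obtain ⟨G', g4, g5, g6⟩ := ih (Fin j → ℝ) (by simp) G1 g1 g2
    refine ⟨G', g4, g5, fun p L h => g6 p L (g3 p _ ?_)⟩
    refine ContinuousLinearMap.ext fun x => ?_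
    simp [h, e']
    rfl

/-- Destabilisation of a smooth family of isomorphisms. -/
theorem ub_ds (hd : Module.finrank ℝ P < Module.finrank ℝ V) {G : P → (V × K) →L[ℝ] (V × K)}
    (hG : ContDiff ℝ ∞ G) (hb : ∀ p, Function.Bijective (G p)) :
    ∃ G' : P → V →L[ℝ] V, ContDiff ℝ ∞ G' ∧ (∀ p, Function.Bijective (G' p)) ∧
      ∀ p (L : V →L[ℝ] V), G p = L.prodMap (ContinuousLinearMap.id ℝ K) → G' p = L := by
  exact ubds_ind hd _ K rfl G hG hb

theorem SG.ds {k : ℕ} (hd : k + 1 < Module.finrank ℝ V) {F : YY k → V →L[ℝ] V}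
    {G : ℝ × YY k → (V × K) →L[ℝ] (V × K)}
    (h : SG (fun y => (F y).prodMap (ContinuousLinearMap.id ℝ K)) G) : ∃ G', SG F G' := by
  obtain ⟨G', g1, g2, g3⟩ := ub_ds (P := ℝ × YY k) (by
    simp only [Module.finrank_prod, Module.finrank_self, Module.finrank_fin_fun]; omega) h.sm h.bij
  refine ⟨G', g1, g2, fun p hp => g3 p 1 ?_, fun p hp => g3 p _ (h.one p hp)⟩
  rw [h.out p hp]
  ext <;> simp

end Pool.Agent.Lib.MP_ccffa6_gt.U
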