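import Pool.Agent.Lib.MP_ccffa6_gt.U.BStep

/-! Real null-homotopies. -/

open Set Filter Topology Matrix Pool.Agent.Lib.MP_b7c8b0_gt
open scoped ContDiff ComplexConjugate

noncomputable section

namespace Pool.Agent.Lib.MP_ccffa6_gt.U

variable {n : Type} [Fintype n] [DecidableEq n] {k : ℕ}
  {V : Type} [NormedAddCommGroup V] [NormedSpace ℝ V] [FiniteDimensional ℝ V]
  {K : Type} [NormedAddCommGroup K] [NormedSpace ℝ K] [FiniteDimensional ℝ K]

theorem vm_one : vm (1 : Matrix n n ℂ) = 1 :=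
  ContinuousLinearMap.ext fun x => vecMul_one x

theorem vm_mul (M N : Matrix n n ℂ) : vm (M * N) = vm N * vm M :=
  ContinuousLinearMap.ext fun x => (vecMul_vecMul x M N).symm

/-- `continuous_clm_apply` -/
theorem continuous_vm : Continuous (vm : Matrix n n ℂ → _) :=
  continuous_clm_apply.2 fun _ => continuous_const.matrix_vecMul continuous_id

/-- `contDiff_clm_apply_iff`, `contDiff_pi` -/
theorem contDiff_vm {P : Type} [NormedAddCommGroup P] [NormedSpace ℝ P] {A : P → Matrix n n ℂ}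
    (hA : ∀ a b, ContDiff ℝ ∞ fun y => A y a b) : ContDiff ℝ ∞ fun y => vm (A y) :=
  contDiff_clm_apply_iff.2 fun x => contDiff_pi.2 fun b =>
    ContDiff.sum (s := Finset.univ) (f := fun a y => x a * A y a b)
      fun a _ => contDiff_const.mul (hA a b)

theorem vm_bij {M : Matrix n n ℂ} (h : M.det ≠ 0) : Function.Bijective (vm M) := by
  refine Function.bijective_iff_has_inverse.2 ⟨vm M⁻¹, fun x => ?_, fun x => ?_⟩
  · rw [vm_apply, vm_apply, vecMul_vecMul, mul_nonsing_inv _ h.isUnit, vecMul_one]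
  · rw [vm_apply, vm_apply, vecMul_vecMul, nonsing_inv_mul _ h.isUnit, vecMul_one]

theorem ubrot_inv {P : Type} [TopologicalSpace P] {A : P → Matrix n n ℂ} (hA : Continuous A)
    (h : ∀ y, (A y).det ≠ 0) : Continuous fun y => (A y)⁻¹ := by
  simp only [inv_def, Ring.inverse_eq_inv']
  exact (hA.matrix_det.inv₀ h).smul hA.matrix_adjugate

/-- `vm (K (s, y)) * vm (A y)⁻¹ * G (s, y)` -/
theorem RH.st1 {A A' : YY k → Matrix n n ℂ} (h : RH fun y => vm (A y)) (hs : St1 A A') :
    RH fun y => vm (A' y) := by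
  obtain ⟨G, g1, g2, g3, g4, g5⟩ := h
  obtain ⟨K, k1, k2, k3, k4, k5⟩ := hs
  have hd : ∀ y, (A y).det ≠ 0 := fun y => k4 y ▸ k2 0 y le_rfl zero_le_one
  have hA : Continuous A := (k1.comp (Continuous.prodMk_right 0)).congr k4
  refine ⟨fun p => vm (K p) * vm (A p.2)⁻¹ * G p, ((continuous_vm.comp k1).mul
    (continuous_vm.comp ((ubrot_inv hA hd).comp continuous_snd))).mul g1, fun s y h0 h1 => ?_,
    fun s y hy => ?_, fun y => ?_, fun y => ?_⟩
  · refine ((vm_bij (k2 s y h0 h1)).comp (vm_bij ?_)).comp (g2 s y h0 h1)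
    rw [det_nonsing_inv, Ring.inverse_eq_inv']
    exact inv_ne_zero (hd y)
  · simp only [← k4 y, k3 _ y hy, g3 s y hy, inv_one, vm_one, mul_one]
  · simp only [k4, g4, mul_one, ← vm_mul, nonsing_inv_mul _ (hd y).isUnit, vm_one]
  · simp only [k5, g5, ← vm_mul]
    rw [← Matrix.mul_assoc, mul_nonsing_inv _ (hd y).isUnit, Matrix.one_mul]

/-- Conjugation of the second block. -/
def ubrot_C (n : Type) [Fintype n] : (n ⊕ n → ℂ) →L[ℝ] (n ⊕ n → ℂ) :=
  ContinuousLinearMap.pi fun i => Sum.elim (fun a => ContinuousLinearMap.proj (Sum.inl a))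
    (fun b => (Complex.conjCLE : ℂ →L[ℝ] ℂ).comp (ContinuousLinearMap.proj (Sum.inr b))) i

omit [DecidableEq n] in
theorem ubrot_C_apply (x : n ⊕ n → ℂ) :
    ubrot_C n x = Sum.elim (x ∘ Sum.inl) (conj ∘ x ∘ Sum.inr) := by
  funext i
  cases i <;> rfl

omit [DecidableEq n] in
theorem ubrot_CC (x : n ⊕ n → ℂ) : ubrot_C n (ubrot_C n x) = x := by
  funext i
  cases i with
  | inl a => rfl
  | inr b => exact Complex.conj_conj _

/-- Conjugate the rotation `ub_rot` by the real involution `x ↦ Sum.elim (x ∘ inl) (conj ∘ x ∘ inr)`;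
`((g y).map conj)⁻¹ = (g y)⁻¹.map conj`. -/
theorem rh_conj {g : YY k → Matrix n n ℂ} (hg : GLGood g) (h0 : g 0 = 1) :
    RH fun y => vm (fromBlocks (g y) 0 0 ((g y).map conj)⁻¹) := by
  obtain ⟨K, k1, k2, k3, k4, k5⟩ := ub_rot hg h0
  have hC : ubrot_C n * ubrot_C n = 1 := ContinuousLinearMap.ext ubrot_CC
  have hb : Function.Bijective (ubrot_C n) := Function.Involutive.bijective ubrot_CC
  refine ⟨fun p => ubrot_C n * vm (K p) * ubrot_C n,
    (continuous_const.mul (continuous_vm.comp k1)).mul continuous_const,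
    fun s y h0 h1 => (hb.comp (vm_bij (k2 s y h0 h1))).comp hb, fun s y hy => ?_, fun y => ?_,
    fun y => ?_⟩
  · simp only [k3 s y hy, vm_one, mul_one, hC]
  · simp only [k4, vm_one, mul_one, hC]
  · have h1 : ((g y).map conj)⁻¹ = (g y)⁻¹.map conj := by
      refine inv_eq_right_inv ?_
      rw [← Matrix.map_mul, mul_nonsing_inv _ (hg.det y).isUnit]
      exact Matrix.map_one _ (map_zero _) (map_one _)
    refine ContinuousLinearMap.ext fun x => ?_
    show ubrot_C n (ubrot_C n x ᵥ* K (1, y)) = x ᵥ* _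
    rw [k5, h1, ubrot_C_apply, ubrot_C_apply, vecMul_fromBlocks, vecMul_fromBlocks]
    simp only [vecMul_zero, add_zero, zero_add, Sum.elim_comp_inl, Sum.elim_comp_inr]
    congr 1
    funext b
    rw [Function.comp_apply, RingHom.map_vecMul]
    congr 1
    funext a
    exact Complex.conj_conj _

/-- `ub_smooth` for `f (s, y) = G (max 0 (min s 1), y)`, `h (s, y) = (1 - σ s) • 1 + σ s • F y`,
`σ = smoothTransition`, `U` = the bijective maps (`det ≠ 0`, or units); `F = 1` on the outer region. -/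
theorem RH.sg {F : YY k → V →L[ℝ] V} (h : RH F) (hF : ContDiff ℝ ∞ F) : ∃ G, SG F G := by
  obtain ⟨G, g1, g2, g3, g4, g5⟩ := h
  have hU : IsOpen {L : V →L[ℝ] V | Function.Bijective L} := by
    simp only [← ContinuousLinearMap.isUnit_iff_bijective]
    exact Units.isOpen
  have hσ : ContDiff ℝ ∞ fun p : ℝ × YY k => Real.smoothTransition p.1 :=
    Real.smoothTransition.contDiff.comp contDiff_fst
  obtain ⟨H, h1, h2, h3⟩ := ub_smooth hU (f := fun p : ℝ × YY k => G (max 0 (min p.1 1), p.2))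
    (h := fun p => (1 - Real.smoothTransition p.1) • 1 + Real.smoothTransition p.1 • F p.2)
    (g1.comp (by fun_prop))
    (fun p => g2 _ _ (le_max_left _ _) (max_le zero_le_one (min_le_right _ _)))
    (((contDiff_const.sub hσ).smul contDiff_const).add (hσ.smul (hF.comp contDiff_snd)))
  refine ⟨H, h1, h2, fun p hp => ?_, fun p hp => ?_⟩
  · have e : (1 - Real.smoothTransition p.1) • (1 : V →L[ℝ] V) +
        Real.smoothTransition p.1 • F p.2 = 1 := by
      rcases hp with hp | hp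
      · rw [Real.smoothTransition.zero_of_nonpos hp, sub_zero, one_smul, zero_smul, add_zero]
      · rw [← g5, g3 1 _ hp, ← add_smul, sub_add_cancel, one_smul]
    refine (h3 p (Eq.trans ?_ e.symm)).trans e
    rcases hp with hp | hp
    · rw [max_eq_left ((min_le_left _ _).trans hp), g4]
    · exact g3 _ _ hp
  · have e : (1 - Real.smoothTransition p.1) • (1 : V →L[ℝ] V) +
        Real.smoothTransition p.1 • F p.2 = F p.2 := by
      rw [Real.smoothTransition.one_of_one_le hp, sub_self, one_smul, zero_smul, zero_add]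
    refine (h3 p (Eq.trans ?_ e.symm)).trans e
    rw [min_eq_right hp, max_eq_right zero_le_one, g5]

/-- The splitting of the coordinates. -/
def ubrot_Φ {a j : ℕ} (e : n ≃ Fin a ⊕ Fin j) : ((n → ℂ) × ℝ) ≃L[ℝ] (V0 a × (Fin j → ℂ)) :=
  LinearEquiv.toContinuousLinearEquiv
    { toFun := fun z => ((z.1 ∘ e.symm ∘ Sum.inl, z.2), z.1 ∘ e.symm ∘ Sum.inr)
      invFun := fun z => (Sum.elim z.1.1 z.2 ∘ e, z.1.2)
      map_add' := fun _ _ => rfl
      map_smul' := fun _ _ => rfl
      left_inv := fun z => Prod.ext (funext fun i => by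
        obtain ⟨b, rfl⟩ := e.symm.surjective i
        cases b <;> simp) rfl
      right_inv := fun z => Prod.ext (Prod.ext (funext fun i => by simp) rfl)
        (funext fun i => by simp) }

/-- `Φ ∘ (G ⊕ 1) ∘ Φ⁻¹` with the equivalence `Φ : (n → ℂ) × ℝ ≃ V0 a × (Fin j → ℂ)` given by `e`. -/
theorem SG.split {a j : ℕ} (e : n ≃ Fin a ⊕ Fin j) {A : YY k → Matrix (Fin a) (Fin a) ℂ}
    {G : ℝ × YY k → (n → ℂ) →L[ℝ] (n → ℂ)} (h : SG (fun y => vm (blk e (A y))) G) :
    ∃ G', SG (fun y => (vm1 (A y)).prodMap (ContinuousLinearMap.id ℝ (Fin j → ℂ))) G' := by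
  refine ⟨fun p => (ubrot_Φ e).toContinuousLinearMap.comp
    (((G p).prodMap (ContinuousLinearMap.id ℝ ℝ)).comp (ubrot_Φ e).symm.toContinuousLinearMap),
    contDiff_clm_apply_iff.2 fun v => (ubrot_Φ e).contDiff.comp
      ((h.sm.clm_apply contDiff_const).prodMk contDiff_const), fun p => (ubrot_Φ e).bijective.comp
      (((h.bij p).prodMap Function.bijective_id).comp (ubrot_Φ e).symm.bijective),
    fun p hp => ?_, fun p hp => ?_⟩
  · rw [h.out p hp]
    exact ContinuousLinearMap.ext fun v => (ubrot_Φ e).apply_symm_apply v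
  · rw [h.one p hp]
    refine ContinuousLinearMap.ext fun v => ?_
    have h1 : (Sum.elim v.1.1 v.2 ∘ e) ᵥ* blk e (A p.2) = Sum.elim (v.1.1 ᵥ* A p.2) v.2 ∘ e := by
      rw [blk, reindex_apply, Equiv.symm_symm, submatrix_vecMul_equiv, Function.comp_assoc,
        Equiv.self_comp_symm, Function.comp_id, vecMul_fromBlocks]
      simp
    show ubrot_Φ e ((Sum.elim v.1.1 v.2 ∘ e) ᵥ* blk e (A p.2), v.1.2) = _
    rw [h1]
    exact (ubrot_Φ e).apply_symm_apply ((v.1.1 ᵥ* A p.2, v.1.2), v.2)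

end Pool.Agent.Lib.MP_ccffa6_gt.U
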