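import Pool.Agent.Lib.MP_ccffa6_gt.U.BRec
import Pool.Agent.Lib.MP_ccffa6_gt.U.BRot
import Pool.Agent.Lib.MP_ccffa6_gt.U.BDs

/-! The complex family and its real null-homotopy. -/

open Set Filter Topology Matrix Pool.Agent.Lib.MP_b7c8b0_gt
open scoped ContDiff ComplexConjugate

noncomputable section

namespace Pool.Agent.Lib.MP_ccffa6_gt.U

/-- A family on the cube whose number differs from that of the conjugate family by a sign. -/
theorem ub_gY (m : ℕ) : ∃ (n : Type) (_ : Fintype n) (_ : DecidableEq n)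
    (g : YY (2 * m + 1) → Matrix n n ℂ) (c : ℂ), c ≠ 0 ∧ g 0 = 1 ∧ IsCh m g c ∧
      IsCh m (fun y => (g y).map conj) ((-1) ^ (m + 1) * c) := by
  obtain ⟨n, _, _, g, g', c, h1, h2, h3, h4, h5, h6, h7⟩ := ub_rec m (ub_nodup m) (ub_length m)
  obtain ⟨A, hA, h0, hP⟩ := ub_cut h1 h2 h4
  refine ⟨n, inferInstance, inferInstance, A, c, h5, h0, ⟨hA, g, hP, h6⟩,
    ⟨fun a b => Complex.conjCLE.contDiff.comp (hA.smooth a b), fun y => ?_, fun y hy => ?_⟩,
    g', fun x => by rw [h3, hP x], h7⟩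
  · have := RingHom.map_det (starRingEnd ℂ) (A y)
    rw [RingHom.mapMatrix_apply] at this
    rw [← this]
    exact (map_ne_zero _).2 (hA.det y)
  · simp only [hA.out y hy]

/-- The destabilised family and its real null-homotopy. -/
theorem ub_A {m : ℕ} (hm : Even m) :
    ∃ (A : YY (2 * m + 1) → Matrix (Fin (m + 1)) (Fin (m + 1)) ℂ) (c : ℂ)
      (G : ℝ × YY (2 * m + 1) → V0 (m + 1) →L[ℝ] V0 (m + 1)),
      IsCh m A c ∧ c ≠ 0 ∧ A 0 = 1 ∧ SG (fun y => vm1 (A y)) G := by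
  obtain ⟨n, _, _, g, c, hc, g0, h1, h2⟩ := ub_gY m
  let e₀ := Equiv.refl (n ⊕ Fin (m + 1))
  have h3 := h1.blk e₀
  have e1 : (fun y => (blk e₀ (g y)).map conj) = fun y => blk e₀ ((g y).map conj) := by
    funext y
    ext a b
    rcases a with a | a <;> rcases b with b | b <;> simp [blk, e₀, one_apply, apply_ite]
  have h4 := h2.blk e₀
  rw [← e1] at h4
  have h5 := h3.sum h4.inv
  have g1 : blk e₀ (g 0) = 1 := by simp [blk, e₀, g0]
  have hR := rh_conj h3.1.good g1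
  obtain ⟨j, hj⟩ : ∃ j, Fintype.card ((n ⊕ Fin (m + 1)) ⊕ (n ⊕ Fin (m + 1))) =
      Fintype.card (Fin (m + 1) ⊕ Fin j) :=
    ⟨2 * Fintype.card n + (m + 1), by simp only [Fintype.card_sum, Fintype.card_fin]; omega⟩
  let e := Fintype.equivOfCardEq hj
  obtain ⟨A, hA, A0, hs⟩ := ub_destab (by omega) e h5.1 (by simp [g1])
  obtain ⟨c', hc'⟩ := exists_isCh hA
  have h6 := h5.st1 (hc'.blk e) hs
  obtain ⟨G₁, hG₁⟩ := (hR.st1 hs).sg (contDiff_vm (hc'.blk e).1.smooth)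
  obtain ⟨G₂, hG₂⟩ := hG₁.split e
  obtain ⟨G₃, hG₃⟩ := hG₂.ds (by
    simp only [Module.finrank_prod, Module.finrank_self, Module.finrank_pi_fintype,
      Complex.finrank_real_complex, Finset.sum_const, Finset.card_univ, Fintype.card_fin,
      smul_eq_mul]
    omega)
  refine ⟨A, c', G₃, hc', ?_, A0, hG₃⟩
  rw [← h6, (hm.add_one).neg_one_pow]
  intro h
  apply hc
  linear_combination (1 / 2 : ℂ) * h

end Pool.Agent.Lib.MP_ccffa6_gt.U
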