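import Pool.Agent.Lib.MP_ccffa6_gt.U.BEu
import Pool.Agent.Lib.MP_ccffa6_gt.TOP.GP
import Pool.Agent.Lib.MP_b7c8b0_gt.PSard

/-! A generic covector. -/

open Set Filter Topology Matrix Pool.Agent.Lib.MP_b7c8b0_gt
open scoped ContDiff ComplexConjugate

noncomputable section

namespace Pool.Agent.Lib.MP_ccffa6_gt.U

theorem ubgen_ext {a : ℕ} {w w' : Fin a → ℂ} (h : ∀ x, (w ⬝ᵥ x).re = (w' ⬝ᵥ x).re) : w = w' := by
  funext i
  have h1 := h (Pi.single i 1)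
  have h2 := h (Pi.single i Complex.I)
  simp only [dotProduct_single, mul_one, Complex.mul_re, Complex.I_re, Complex.I_im, mul_zero,
    zero_sub, neg_inj] at h1 h2
  exact Complex.ext h1 h2

/-- The signed count of the zeros of a null-homotopy of `A v` is not zero. -/
theorem ub_euler {m : ℕ} {A : YY (2 * m + 1) → Matrix (Fin (m + 1)) (Fin (m + 1)) ℂ} {c : ℂ}
    (hA : IsCh m A c) (hc : c ≠ 0) {v : Fin (m + 1) → ℂ} (hv : v ≠ 0)
    {W : ℝ × YY (2 * m + 1) → (Fin (m + 1) → ℂ)} (hW : ContDiff ℝ ∞ W)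
    (h0 : ∀ p, p.1 ≤ 0 ∨ Out p.2 → W p = v) (h1 : ∀ p, 1 ≤ p.1 → W p = A p.2 *ᵥ v)
    {Z : Finset (ℝ × YY (2 * m + 1))} (hZ : ∀ p, W p = 0 ↔ p ∈ Z)
    (hr : ∀ p ∈ Z, Function.Injective (fderiv ℝ W p)) : NZ Z (fderiv ℝ W) := by
  obtain ⟨j0, hj⟩ : ∃ j0, v j0 ≠ 0 := Function.ne_iff.1 hv
  let B : Matrix (Fin (m + 1)) (Fin (m + 1)) ℂ := (1 : Matrix _ _ ℂ).updateCol j0 v
  have hB : B.det ≠ 0 := by
    have h := Matrix.cramer_apply (1 : Matrix (Fin (m + 1)) (Fin (m + 1)) ℂ) v j0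
    rw [Matrix.cramer_one] at h
    exact h ▸ hj
  have hA' := hA.mul (isCh_const (m := m) hB)
  rw [add_zero] at hA'
  let σ : (ℝ × YY (2 * m + 1)) ≃ (ℝ × YY (2 * m + 1)) :=
    Function.Involutive.toPerm (fun p => (1 - p.1, p.2)) fun p => by simp
  have hσ : ∀ p, σ p = (1 - p.1, p.2) := fun p => rfl
  have hσσ : ∀ p, σ (σ p) = p := fun p => by simp [hσ]
  let ρ : (ℝ × YY (2 * m + 1)) ≃L[ℝ] (ℝ × YY (2 * m + 1)) :=
    (ContinuousLinearEquiv.neg ℝ).prodCongr (ContinuousLinearEquiv.refl ℝ _)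
  have hρρ : ∀ x, ρ (ρ x) = x := fun x => by simp [ρ]
  have hd : ∀ p, HasFDerivAt σ (ρ : _ →L[ℝ] _) p := fun p => by
    have h : (σ : _ → _) = fun q => ((1 : ℝ), (0 : YY (2 * m + 1))) + ρ q := by
      funext q
      simp [hσ, ρ, sub_eq_add_neg]
    rw [h]
    exact ρ.hasFDerivAt.const_add _
  have hD : ∀ p, fderiv ℝ (W ∘ σ) p = (fderiv ℝ W (σ p)).comp (ρ : _ →L[ℝ] _) := fun p =>
    ((hW.differentiable (by simp) (σ p)).hasFDerivAt.comp p (hd p)).fderiv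
  have hz : ∀ p, W p = 0 → 0 < p.1 ∧ p.1 < 1 ∧ ¬ Out p.2 := fun p hp => by
    refine ⟨not_le.1 fun h => hv ((h0 p (Or.inl h)).symm.trans hp), not_le.1 fun h => hv ?_,
      fun h => hv ((h0 p (Or.inr h)).symm.trans hp)⟩
    exact Matrix.eq_zero_of_mulVec_eq_zero (hA.1.det p.2) ((h1 p h).symm.trans hp)
  have hm : ∀ (S : Finset (ℝ × YY (2 * m + 1))) p, p ∈ S.map σ.toEmbedding ↔ σ p ∈ S :=
    fun S p => Finset.mem_map_equiv
  have hO : Out (0 : YY (2 * m + 1)) := ⟨0, Or.inl (by norm_num)⟩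
  have hF : Fill (fun y => A y * B) j0 (W ∘ σ) (Z.map σ.toEmbedding) := by
    refine ⟨hW.comp ((contDiff_const.sub contDiff_fst).prodMk contDiff_snd), fun y a => ?_,
      fun y => ?_, fun s y hy => ?_, fun p => ?_, fun p hp => ?_⟩
    · show W (σ (0, y)) a = _
      rw [h1 _ (by simp [hσ])]
      simp [hσ, B, Matrix.mul_apply, Matrix.mulVec, dotProduct]
    · show W (σ (1, y)) = W (σ (1, 0))
      rw [h0 _ (Or.inl (by simp [hσ])), h0 _ (Or.inl (by simp [hσ]))]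
    · show W (σ (s, y)) = W (σ (s, 0))
      rw [h0 (σ (s, y)) (Or.inr hy), h0 (σ (s, 0)) (Or.inr hO)]
    · rw [hm, ← hZ]
      refine ⟨fun h => ⟨?_, h⟩, fun h => h.2⟩
      obtain ⟨a1, a2, -⟩ := hz _ h
      rw [hσ] at a1 a2
      exact ⟨by linarith, by linarith⟩
    · rw [hm] at hp
      obtain ⟨a1, a2, a3⟩ := hz _ ((hZ _).2 hp)
      rw [hσ] at a1 a2
      refine ⟨by linarith, by linarith, a3, ?_⟩
      rw [hD]
      exact (hr _ hp).comp ρ.injective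
  have h2 := (ub_fill hA' hc hF).map σ (M := fun q => fderiv ℝ (W ∘ σ) (σ q))
    fun p _ => by rw [hσσ]
  have h3 : (Z.map σ.toEmbedding).map σ.toEmbedding = Z := by
    ext p
    rw [hm, hm, hσσ]
  rw [h3] at h2
  refine h2.comp ρ (ContinuousLinearEquiv.refl ℝ _) fun p _ x => ?_
  rw [hD, hσσ]
  show _ = fderiv ℝ W p (ρ (ρ x))
  rw [hρρ]

/-- Real covectors on `ℂ^a` as complex vectors. -/
theorem ub_kappa (a : ℕ) : ∃ κ : ((Fin a → ℂ) →L[ℝ] ℝ) ≃L[ℝ] (Fin a → ℂ),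
    ∀ l x, (κ l ⬝ᵥ x).re = l x := by
  let φ₀ : (Fin a → ℂ) →ₗ[ℝ] (Fin a → ℂ) →ₗ[ℝ] ℝ := LinearMap.mk₂ ℝ (fun w x => (w ⬝ᵥ x).re)
    (fun _ _ _ => by simp [add_dotProduct]) (fun _ _ _ => by simp [smul_dotProduct])
    (fun _ _ _ => by simp [dotProduct_add]) (fun _ _ _ => by simp [dotProduct_smul])
  have hi : Function.Injective φ₀ := fun w w' h => ubgen_ext fun x => LinearMap.congr_fun h x
  let φ := (LinearMap.linearEquivOfInjective φ₀ hi Subspace.dual_finrank_eq.symm).trans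
    LinearMap.toContinuousLinearMap
  refine ⟨φ.symm.toContinuousLinearEquiv, fun l x => ?_⟩
  exact congrArg (fun k : (Fin a → ℂ) →L[ℝ] ℝ => k x) (φ.apply_symm_apply l)

/-- A generic covector has regular zeros whose signs do not cancel. -/
theorem ub_gen {m : ℕ} {A : YY (2 * m + 1) → Matrix (Fin (m + 1)) (Fin (m + 1)) ℂ} {c₀ : ℂ}
    (hA : IsCh m A c₀) (hc : c₀ ≠ 0) {G : ℝ × YY (2 * m + 1) → V0 (m + 1) →L[ℝ] V0 (m + 1)}
    (hG : SG (fun y => vm1 (A y)) G) :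
    ∃ (c : V0 (m + 1) →L[ℝ] ℝ) (Z : Finset (ℝ × YY (2 * m + 1))), c ≠ 0 ∧
      (∀ p, cv c (G p) = 0 ↔ p ∈ Z) ∧ NZ Z (fderiv ℝ fun p => cv c (G p)) := by
  obtain ⟨κ, hκ⟩ := ub_kappa (m + 1)
  let T : (V0 (m + 1) →L[ℝ] V0 (m + 1)) →
      (V0 (m + 1) →L[ℝ] ℝ) →L[ℝ] ((Fin (m + 1) → ℂ) →L[ℝ] ℝ) := fun g =>
    (ContinuousLinearMap.compL ℝ (Fin (m + 1) → ℂ) (V0 (m + 1)) ℝ).flip
      (g.comp (ContinuousLinearMap.inl ℝ (Fin (m + 1) → ℂ) ℝ))
  have hT : ∀ g, (fun c => cv c g) = T g := fun g => rfl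
  have hΦ : ContDiff ℝ ∞ fun q : (ℝ × YY (2 * m + 1)) × (V0 (m + 1) →L[ℝ] ℝ) => cv q.2 (G q.1) :=
    (contDiff_snd.clm_comp (hG.sm.comp contDiff_fst)).clm_comp contDiff_const
  have hdim : Module.finrank ℝ (ℝ × YY (2 * m + 1)) =
      Module.finrank ℝ ((Fin (m + 1) → ℂ) →L[ℝ] ℝ) := by
    rw [κ.toLinearEquiv.finrank_eq, Module.finrank_prod, Module.finrank_self,
      Module.finrank_fin_fun, Module.finrank_pi_fintype]
    simp [Complex.finrank_real_complex]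
    omega
  have hth := top_trans hdim isOpen_univ (hΦ.of_le (by simp)).contDiffOn fun x c _ _ l => by
    let g := (LinearEquiv.ofBijective (G x : V0 (m + 1) →ₗ[ℝ] V0 (m + 1))
      (hG.bij x)).toContinuousLinearEquiv
    refine ⟨(l.comp (ContinuousLinearMap.fst ℝ _ ℝ)).comp (g.symm : _ →L[ℝ] _), ?_⟩
    show fderiv ℝ (fun c => cv c (G x)) c _ = l
    rw [hT, ContinuousLinearMap.fderiv]
    ext1 y
    show l (g.symm (g (y, 0))).1 = l y
    rw [g.symm_apply_apply]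
  have hev : ∀ᶠ c in 𝓝 (((κ.symm 1).comp (ContinuousLinearMap.fst ℝ _ ℝ) : V0 (m + 1) →L[ℝ] ℝ)),
      cv c 1 ≠ 0 := by
    refine (T 1).continuous.continuousAt.eventually_ne ?_
    show κ.symm 1 ≠ 0
    rw [ne_eq, κ.symm.map_eq_zero_iff]
    exact one_ne_zero
  obtain ⟨c, hc1, hc2⟩ := hth.exists_of_eventually hev
  have hf : ContDiff ℝ ∞ fun p => cv c (G p) :=
    (contDiff_const.clm_comp hG.sm).clm_comp contDiff_const
  have hreg : ∀ p, cv c (G p) = 0 → Function.Injective (fderiv ℝ (fun p => cv c (G p)) p) :=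
    fun p hp => by
      by_contra h
      exact hc2 ⟨p, mem_univ _, hp, h⟩
  have hv : κ (cv c 1) ≠ 0 := fun h => hc1 (κ.map_eq_zero_iff.1 h)
  have h0 : ∀ p : ℝ × YY (2 * m + 1), p.1 ≤ 0 ∨ Out p.2 → κ (cv c (G p)) = κ (cv c 1) :=
    fun p hp => by rw [hG.out p hp]
  have h1 : ∀ p : ℝ × YY (2 * m + 1), 1 ≤ p.1 → κ (cv c (G p)) = A p.2 *ᵥ κ (cv c 1) :=
    fun p hp => by
      refine ubgen_ext fun x => ?_
      rw [hG.one p hp, hκ, dotProduct_comm, dotProduct_mulVec, dotProduct_comm, hκ]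
      rfl
  have hbox : ∀ p, cv c (G p) = 0 → p ∈ Icc (0 : ℝ × YY (2 * m + 1)) 1 := fun p hp => by
    have hp' : κ (cv c (G p)) = 0 := by rw [hp, map_zero]
    have a1 : ¬ (p.1 ≤ 0 ∨ Out p.2) := fun h => hv ((h0 p h).symm.trans hp')
    have a2 : ¬ 1 ≤ p.1 := fun h =>
      hv (Matrix.eq_zero_of_mulVec_eq_zero (hA.1.det p.2) ((h1 p h).symm.trans hp'))
    have a3 : ∀ i, 1 / 4 < p.2 i ∧ p.2 i < 3 / 4 := fun i =>
      ⟨not_le.1 fun h => a1 (Or.inr ⟨i, Or.inl h⟩), not_le.1 fun h => a1 (Or.inr ⟨i, Or.inr h⟩)⟩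
    refine ⟨⟨(not_le.1 fun h => a1 (Or.inl h)).le, fun i => ?_⟩, (not_le.1 a2).le, fun i => ?_⟩
    · show 0 ≤ p.2 i
      linarith [(a3 i).1]
    · show p.2 i ≤ 1
      linarith [(a3 i).2]
  have hfin := finite_zeros (K := Icc (0 : ℝ × YY (2 * m + 1)) 1) isCompact_Icc
    (hf.of_le (by simp)) fun p _ hp => hreg p hp
  have hZ : ∀ p, cv c (G p) = 0 ↔ p ∈ hfin.toFinset := fun p => by
    rw [Set.Finite.mem_toFinset]
    exact ⟨fun h => ⟨hbox p h, h⟩, fun h => h.2⟩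
  have hD : ∀ p, fderiv ℝ (κ ∘ fun p => cv c (G p)) p =
      (κ : _ →L[ℝ] _).comp (fderiv ℝ (fun p => cv c (G p)) p) := fun p => κ.comp_fderiv
  have hN := ub_euler (W := κ ∘ fun p => cv c (G p)) hA hc hv (κ.contDiff.comp hf) h0 h1
    (Z := hfin.toFinset) (fun p => κ.map_eq_zero_iff.trans (hZ p)) fun p hp => by
      rw [hD]
      exact κ.injective.comp (hreg p ((hZ p).2 hp))
  refine ⟨c, hfin.toFinset, fun h => hc1 (by rw [h]; rfl), hZ,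
    hN.comp (ContinuousLinearEquiv.refl ℝ _) κ.symm fun p _ x => ?_⟩
  rw [hD]
  exact (κ.symm_apply_apply _).symm

end Pool.Agent.Lib.MP_ccffa6_gt.U
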