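import Pool.Agent.Lib.MP_ccffa6_gt.U.BRot
import Pool.Agent.Lib.MP_ccffa6_gt.K.LinY
import Pool.Agent.Lib.MP_ccffa6_gt.K.LinX

/-! The family of forms on the model. -/

open Set Filter Topology Matrix Pool.Agent.Lib.MP_b7c8b0_gt
open scoped ContDiff ComplexConjugate

noncomputable section

namespace Pool.Agent.Lib.MP_ccffa6_gt.U

/-- the complex structure of the model -/
def ubmoda_J {a : ℕ} (u : V0 a × ℝ) : V0 a × ℝ := ((Complex.I • u.1.1, u.2), -u.1.2)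

theorem ubmoda_alt {a : ℕ} {w : Bil (V0 a × ℝ)}
    (hw : ∀ u v, w u v = (∑ i, (conj (u.1.1 i) * v.1.1 i).im) + (u.2 * v.1.2 - u.1.2 * v.2))
    (u : V0 a × ℝ) : w u u = 0 := by
  simp [hw, mul_comm]

theorem ubmoda_pos {a : ℕ} {w : Bil (V0 a × ℝ)}
    (hw : ∀ u v, w u v = (∑ i, (conj (u.1.1 i) * v.1.1 i).im) + (u.2 * v.1.2 - u.1.2 * v.2))
    {u : V0 a × ℝ} (hu : u ≠ 0) : 0 < w u (ubmoda_J u) := by
  have e : w u (ubmoda_J u) = (∑ i, Complex.normSq (u.1.1 i)) + (u.2 ^ 2 + u.1.2 ^ 2) := by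
    simp [hw, ubmoda_J, Complex.normSq_apply, sq]
  have n : 0 ≤ ∑ i, Complex.normSq (u.1.1 i) := Finset.sum_nonneg fun i _ => Complex.normSq_nonneg _
  rw [e]
  by_contra! h
  have h1 : ∑ i, Complex.normSq (u.1.1 i) = 0 := by nlinarith [sq_nonneg u.2, sq_nonneg u.1.2]
  rw [Finset.sum_eq_zero_iff_of_nonneg fun i _ => Complex.normSq_nonneg _] at h1
  exact hu (Prod.ext (Prod.ext (funext fun i => Complex.normSq_eq_zero.1 (h1 i (Finset.mem_univ i)))
    (pow_eq_zero_iff two_ne_zero |>.1 (by nlinarith [sq_nonneg u.2, sq_nonneg u.1.2])))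
    (pow_eq_zero_iff two_ne_zero |>.1 (by nlinarith [sq_nonneg u.2, sq_nonneg u.1.2])))

/-- interpolation between `w` and its transport by the inverse of `G` -/
theorem ub_forms {k a : ℕ} {A : YY k → Matrix (Fin a) (Fin a) ℂ} (hA : ∀ y, (A y).det ≠ 0)
    {G : ℝ × YY k → V0 a →L[ℝ] V0 a} (hG : SG (fun y => vm1 (A y)) G) {w : Bil (V0 a × ℝ)}
    (hw : ∀ u v, w u v = (∑ i, (conj (u.1.1 i) * v.1.1 i).im) + (u.2 * v.1.2 - u.1.2 * v.2)) :
    ∃ b : ℝ × YY k → Bil (V0 a × ℝ), ContDiff ℝ ∞ b ∧ (∀ p, ND ⊤ (b p)) ∧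
      (∀ p, 2 ≤ ‖p‖ → b p = w) ∧ ∀ p u r, b p (0, 1) (G p u, r) = u.2 := by
  have i (p) : (G p).IsInvertible :=
    ⟨(LinearEquiv.ofBijective (G p : V0 a →ₗ[ℝ] V0 a) (hG.bij p)).toContinuousLinearEquiv, rfl⟩
  obtain ⟨H, sH, h1, h2⟩ : ∃ H : ℝ × YY k → V0 a →L[ℝ] V0 a, ContDiff ℝ ∞ H ∧
      (∀ p u, H p (G p u) = u) ∧ ∀ p u, G p (H p u) = u :=
    ⟨fun p => (G p).inverse, contDiff_iff_contDiffAt.2 fun p =>
      (i p).contDiffAt_map_inverse.comp p hG.sm.contDiffAt,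
      fun p u => (i p).inverse_apply_eq.2 rfl, fun p u => ((i p).inverse_apply_eq.1 rfl).symm⟩
  let σ : ℝ × YY k → ℝ := fun p => Real.smoothTransition (p.1 - 1)
  have sσ : ContDiff ℝ ∞ σ := Real.smoothTransition.contDiff.comp (by fun_prop)
  let H' : ℝ × YY k → V0 a × ℝ →L[ℝ] V0 a × ℝ := fun p =>
    (H p).prodMap (ContinuousLinearMap.id ℝ ℝ)
  let b : ℝ × YY k → Bil (V0 a × ℝ) := fun p => (1 - σ p) • w.bilinearComp (H' p) (H' p) + σ p • w
  have e (p u v) : b p u v = (1 - σ p) * w (H p u.1, u.2) (H p v.1, v.2) + σ p * w u v := rfl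
  have z (p) (hp : p.1 ≤ 1) : σ p = 0 := Real.smoothTransition.zero_of_nonpos (sub_nonpos.2 hp)
  have n (p) {u : V0 a × ℝ} (hu : u ≠ 0) : (H p u.1, u.2) ≠ 0 := fun h => hu (Prod.ext
    (by rw [← h2 p u.1, show H p u.1 = 0 from congrArg Prod.fst h, map_zero]; rfl)
    (Prod.mk_eq_zero.1 h).2)
  refine ⟨b, contDiff_clm_apply_iff.2 fun u => contDiff_clm_apply_iff.2 fun v => ?_, fun p =>
    ND.of_tame (fun u _ => by rw [e, ubmoda_alt hw, ubmoda_alt hw]; ring) fun u _ hu => ?_,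
    fun p hp => ContinuousLinearMap.ext fun u => ContinuousLinearMap.ext fun v => ?_,
    fun p u r => ?_⟩
  · simp only [e]
    fun_prop
  · rcases le_total p.1 1 with c | c
    · refine ⟨(G p (ubmoda_J (H p u.1, u.2)).1, (ubmoda_J (H p u.1, u.2)).2), trivial, ?_⟩
      rw [e, z p c, h1]
      simpa using (ubmoda_pos hw (n p hu)).ne'
    · have g (v : V0 a) : G p v = (v.1 ᵥ* A p.2, v.2) := by rw [hG.one p c]; rfl
      have j : (H p (ubmoda_J u).1, (ubmoda_J u).2) = ubmoda_J (H p u.1, u.2) := by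
        have t := h2 p u.1
        rw [g] at t
        have t1 : (H p u.1).1 ᵥ* A p.2 = u.1.1 := congrArg Prod.fst t
        have t2 : (H p u.1).2 = u.1.2 := (Prod.ext_iff.1 t).2
        refine Prod.ext ((hG.bij p).1 ?_) (by simp [ubmoda_J, t2])
        rw [h2, g]
        simp [ubmoda_J, Matrix.smul_vecMul, t1]
      refine ⟨ubmoda_J u, trivial, ne_of_gt ?_⟩
      rw [e, j]
      have q1 := ubmoda_pos hw (n p hu)
      have q2 := ubmoda_pos hw hu
      have q3 : 0 ≤ σ p := Real.smoothTransition.nonneg _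
      rcases (show σ p ≤ 1 from Real.smoothTransition.le_one _).eq_or_lt with q | q
      · simpa [q] using q2
      · linarith [mul_pos (sub_pos.2 q) q1, mul_nonneg q3 q2.le]
  · by_cases c : 2 ≤ p.1
    · rw [e, show σ p = 1 from Real.smoothTransition.one_of_one_le (by linarith)]
      simp
    have g : G p = 1 := hG.out p (by
      by_contra! h
      refine not_lt.2 hp (max_lt (abs_lt.2 ⟨by linarith [h.1], not_le.1 c⟩)
        ((pi_norm_lt_iff two_pos).2 fun i => ?_))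
      have := not_or.1 fun t => h.2 ⟨i, t⟩
      exact abs_lt.2 ⟨by linarith [not_le.1 this.1], by linarith [not_le.1 this.2]⟩)
    have t (u) : H p u = u := by simpa [g] using h1 p u
    rw [e, t, t]
    ring
  · rw [e, h1, map_zero, hw, hw]
    rcases le_total p.1 1 with c | c
    · simp [z p c]
    · rw [hG.one p c]
      simp [vm1]
      ring

/-- the standard form of the model -/
theorem ub_std (a : ℕ) : ∃ w : Bil (V0 a × ℝ), ND ⊤ w ∧
    ∀ u v, w u v = (∑ i, (conj (u.1.1 i) * v.1.1 i).im) + (u.2 * v.1.2 - u.1.2 * v.2) := by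
  obtain ⟨η, -, h⟩ := exists_std a
  have hw (u v : V0 a × ℝ) : sz (η.bilinearComp (ContinuousLinearMap.fst ℝ _ ℝ)
      (ContinuousLinearMap.fst ℝ _ ℝ)) (ContinuousLinearMap.snd ℝ _ ℝ) u v =
      (∑ i, (conj (u.1.1 i) * v.1.1 i).im) + (u.2 * v.1.2 - u.1.2 * v.2) := by
    rw [sz_apply, ← h]
    rfl
  exact ⟨_, ND.of_tame (fun u _ => ubmoda_alt hw u) fun u _ hu =>
    ⟨_, trivial, (ubmoda_pos hw hu).ne'⟩, hw⟩

end Pool.Agent.Lib.MP_ccffa6_gt.U
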