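import Pool.Agent.Lib.MP_ccffa6_gt.U.BNZ

/-! Signs on the model. -/

open Set Filter Topology Matrix Pool.Agent.Lib.MP_b7c8b0_gt
open scoped ContDiff ComplexConjugate

noncomputable section

namespace Pool.Agent.Lib.MP_ccffa6_gt.U

variable {P : Type} [NormedAddCommGroup P] [NormedSpace ℝ P] [FiniteDimensional ℝ P] {a : ℕ}
  {G : P → V0 a →L[ℝ] V0 a} {β : P → (V0 a × ℝ) →L[ℝ] ℝ} {c : V0 a →L[ℝ] ℝ}

omit [NormedAddCommGroup P] [NormedSpace ℝ P] [FiniteDimensional ℝ P] in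
theorem ubmodb_mu (hb : ∀ p, Function.Bijective (G p)) (hβ : ∀ p u r, β p (G p u, r) = u.2)
    (hc : c ≠ 0) {p : P} (h : cv c (G p) = 0) : ∃ m : ℝ, m ≠ 0 ∧ ∀ w, β p w = m * c w.1 := by
  have h1 : ∀ u, c (G p u) = c (G p (0, 1)) * u.2 := fun u => by
    have e : u = (u.1, 0) + u.2 • ((0, 1) : V0 a) := by simp
    have e' : c (G p (u.1, 0)) = 0 := DFunLike.congr_fun h u.1
    rw [mul_comm, ← smul_eq_mul, ← map_smul, ← map_smul, ← zero_add (c (G p (_ • _))), ← e',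
      ← map_add, ← map_add, ← e]
  have h2 : c (G p (0, 1)) ≠ 0 := fun e => hc (ContinuousLinearMap.ext fun w => by
    obtain ⟨u, rfl⟩ := (hb p).2 w
    rw [h1, e, zero_mul]
    rfl)
  refine ⟨_, inv_ne_zero h2, fun ⟨w, r⟩ => ?_⟩
  obtain ⟨u, rfl⟩ := (hb p).2 w
  rw [hβ, h1 u, inv_mul_cancel_left₀ h2]

theorem ubmodb_xi (A : Type) [NormedAddCommGroup A] [NormedSpace ℝ A] [FiniteDimensional ℝ A] :
    ∃ Ξ : (((A × ℝ) × ℝ) →L[ℝ] ℝ) ≃L[ℝ] (((A →L[ℝ] ℝ) × ℝ) × ℝ), ∀ l,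
      (∀ x, (Ξ l).1.1 x = l ((x, 0), 0)) ∧ (Ξ l).1.2 = l ((0, 1), 0) ∧ (Ξ l).2 = l (0, 1) :=
  ⟨LinearEquiv.toContinuousLinearEquiv
    { toFun := fun l => (((l.comp (ContinuousLinearMap.inl ℝ _ ℝ)).comp
        (ContinuousLinearMap.inl ℝ A ℝ), l ((0, 1), 0)), l (0, 1))
      map_add' := fun _ _ => rfl
      map_smul' := fun _ _ => rfl
      invFun := fun q => (q.1.1.coprod (ContinuousLinearMap.toSpanSingleton ℝ q.1.2)).coprod
        (ContinuousLinearMap.toSpanSingleton ℝ q.2)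
      left_inv := fun l => by ext <;> simp
      right_inv := fun q => by ext <;> simp }, fun _ => ⟨fun _ => rfl, rfl, rfl⟩⟩

/-- If `cv c (G p) = 0` then `c (G p u) = μ * u.2` with `μ = c (G p (0, 1)) ≠ 0`. -/
theorem ub_mem (hb : ∀ p, Function.Bijective (G p)) (hβ : ∀ p u r, β p (G p u, r) = u.2)
    (hc : c ≠ 0) (p : P) :
    (∃ m : ℝ, β p = m • c.comp (ContinuousLinearMap.fst ℝ (V0 a) ℝ)) ↔ cv c (G p) = 0 := by
  refine ⟨fun ⟨m, hm⟩ => ContinuousLinearMap.ext fun x => ?_, fun h => (ubmodb_mu hb hβ hc h).imp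
    fun m hm => ContinuousLinearMap.ext hm.2⟩
  have h1 := hβ p (x, 0) 0
  have h2 := hβ p (0, 1) 0
  rw [hm] at h1 h2
  exact (mul_eq_zero.1 h1).resolve_left (left_ne_zero_of_mul_eq_one h2)

/-- Block triangular sign computation. -/
theorem ub_sign (hP : Even (Module.finrank ℝ P)) (hG : ContDiff ℝ ∞ G)
    (hb : ∀ p, Function.Bijective (G p)) {p₀ : P} (h0 : G p₀ = 1) (hs : ContDiff ℝ ∞ β)
    (hβ : ∀ p u r, β p (G p u, r) = u.2) (hc : c ≠ 0) {Z : Finset P}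
    (hZ : ∀ p ∈ Z, cv c (G p) = 0) (h : NZ Z (fderiv ℝ fun p => cv c (G p)))
    {α : (V0 a × ℝ) →L[ℝ] ℝ} (hα : α (0, 1) = 1) :
    NZ Z fun p => MM (fderiv ℝ β p) (β p) α := by
  have dG := fun p => (hG.differentiable (by simp) p).hasFDerivAt
  have d1 : ∀ p y u r, fderiv ℝ β p y (G p u, r) = -β p (fderiv ℝ G p y u, 0) := fun p y u r => by
    have h1 := ((hs.differentiable (by simp) p).hasFDerivAt.clm_apply
      (((dG p).clm_apply (hasFDerivAt_const u p)).prodMk (hasFDerivAt_const r p))).fderiv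
    simp only [hβ] at h1
    simpa [eq_neg_iff_add_eq_zero, add_comm] using (DFunLike.congr_fun h1 y).symm
  have d2 : ∀ p y x, fderiv ℝ (fun p => cv c (G p)) p y x = c (fderiv ℝ G p y (x, 0)) :=
    fun p y x => by
      have h1 := (((hasFDerivAt_const c p).clm_comp (dG p)).clm_comp
        (hasFDerivAt_const (ContinuousLinearMap.inl ℝ (Fin a → ℂ) ℝ) p)).fderiv
      simp [cv, h1]
  obtain ⟨Ξ, hΞ⟩ := ubmodb_xi (Fin a → ℂ)
  obtain ⟨T, cT, hT⟩ : ∃ T : P → ((V0 a × ℝ) →L[ℝ] ℝ) →L[ℝ] ((V0 a × ℝ) →L[ℝ] ℝ), Continuous T ∧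
      ∀ p l w, T p l w = l (G p w.1, w.2) :=
    ⟨_, (ContinuousLinearMap.compL ℝ (V0 a × ℝ) (V0 a × ℝ) ℝ).flip.continuous.comp
      ((ContinuousLinearMap.prodₗᵢ ℝ).continuous.comp ((hG.continuous.clm_comp
        (continuous_const (y := ContinuousLinearMap.fst ℝ _ ℝ))).prodMk
        (continuous_const (y := ContinuousLinearMap.snd ℝ _ ℝ)))), fun _ _ _ => rfl⟩
  refine NZ.pos (L := fun p => (T p).comp (MM (fderiv ℝ β p) (β p) α)) (T := T)
    ((h.tri hP (M := fun p => (Ξ : _ →L[ℝ] _).comp ((T p).comp (MM (fderiv ℝ β p) (β p) α)))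
      fun p hp => ?_).comp (.refl ℝ _) Ξ.symm fun p _ x => (Ξ.symm_apply_apply _).symm)
    (fun p _ => ub_det_pos cT (fun p => (injective_iff_map_eq_zero _).2 fun l hl => ?_) (p₀ := p₀)
      (ContinuousLinearMap.ext fun l => ContinuousLinearMap.ext fun w => by rw [hT, h0]; rfl) p)
    fun _ _ _ => rfl
  · obtain ⟨m, hm, e⟩ := ubmodb_mu hb hβ hc (hZ p hp)
    refine ⟨-m, neg_ne_zero.2 hm, fun z => (hΞ _).2.2.trans ((hT _ _ _).trans ?_),
      fun y r => ContinuousLinearMap.ext fun x => ((hΞ _).1 x).trans ((hT _ _ _).trans ?_),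
      Prod.ext (ContinuousLinearMap.ext fun x => ((hΞ _).1 x).trans ((hT _ _ _).trans ?_))
        ((hΞ _).2.1.trans ((hT _ _ _).trans ?_))⟩
    · simpa [hα, e] using d1 p z.1.1 0 1
    · simp [d1, hβ, d2, e]
    · simp [hβ]
    · simp [hβ]
  · refine ContinuousLinearMap.ext fun ⟨w, r⟩ => ?_
    obtain ⟨u, rfl⟩ := (hb p).2 w
    exact (hT p l (u, r)).symm.trans (DFunLike.congr_fun hl _)

end Pool.Agent.Lib.MP_ccffa6_gt.U
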