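import Pool.Agent.Lib.MP_ccffa6_gt.U.BNZ
import Pool.Agent.Lib.MP_ccffa6_gt.K.LinY

/-! Transport of the data. -/

open Set Filter Topology Matrix Pool.Agent.Lib.MP_b7c8b0_gt
open scoped ContDiff ComplexConjugate

noncomputable section

namespace Pool.Agent.Lib.MP_ccffa6_gt.U

variable {X : Type} [NormedAddCommGroup X] [NormedSpace ℝ X] [FiniteDimensional ℝ X]
  {V : Type} [NormedAddCommGroup V] [NormedSpace ℝ V] [FiniteDimensional ℝ V]
  {X' : Type} [NormedAddCommGroup X'] [NormedSpace ℝ X'] [FiniteDimensional ℝ X']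
  {V' : Type} [NormedAddCommGroup V'] [NormedSpace ℝ V'] [FiniteDimensional ℝ V']

omit [FiniteDimensional ℝ V] in
theorem ubtr_skew {w : Bil V} (h : ND ⊤ w) (u v : V) : w u v = - w v u := by
  have h1 := h.1 (u + v) trivial
  have h2 := h.1 u trivial
  have h3 := h.1 v trivial
  simp only [map_add, _root_.add_apply] at h1
  linarith

omit [FiniteDimensional ℝ V] in
/-- The transvection along `d`. -/
def ubtr_tv (w : Bil V) (c : ℝ) (d : V) : V →L[ℝ] V :=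
  ContinuousLinearMap.id ℝ V + (c • w.flip d).smulRight d

omit [FiniteDimensional ℝ V] in
theorem ubtr_tv_apply (w : Bil V) (c : ℝ) (d v : V) :
    ubtr_tv w c d v = v + (c * w v d) • d := rfl

omit [FiniteDimensional ℝ V] in
theorem ubtr_tv_inv {w : Bil V} (h : ND ⊤ w) (c : ℝ) (d v : V) :
    ubtr_tv w (-c) d (ubtr_tv w c d v) = v := by
  have h2 := h.1 d trivial
  simp only [ubtr_tv_apply, map_add, map_smul, _root_.add_apply, _root_.smul_apply, h2,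
    smul_eq_mul, mul_zero, add_zero]
  module

omit [FiniteDimensional ℝ V] in
theorem ubtr_one {w : Bil V} (h : ND ⊤ w) {x y : V} (hxy : w x y ≠ 0) :
    ∃ T : V ≃L[ℝ] V, T x = y ∧ ∀ u v, w (T u) (T v) = w u v := by
  refine ⟨ContinuousLinearEquiv.equivOfInverse (ubtr_tv w (w x y)⁻¹ (y - x))
    (ubtr_tv w (-(w x y)⁻¹) (y - x)) (fun v => ubtr_tv_inv h _ _ v) (fun v => ?_), ?_, ?_⟩
  · have := ubtr_tv_inv h (-(w x y)⁻¹) (y - x) v
    rwa [neg_neg] at this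
  · change ubtr_tv w (w x y)⁻¹ (y - x) x = y
    rw [ubtr_tv_apply, map_sub, h.1 x trivial, sub_zero, inv_mul_cancel₀ hxy, one_smul]
    abel
  · intro u v
    change w (ubtr_tv w (w x y)⁻¹ (y - x) u) (ubtr_tv w (w x y)⁻¹ (y - x) v) = w u v
    generalize y - x = d
    generalize (w x y)⁻¹ = c
    have h2 := h.1 d trivial
    have h3 := ubtr_skew h d v
    simp only [ubtr_tv_apply, map_add, map_smul, _root_.add_apply,
      _root_.smul_apply, h2, h3, smul_eq_mul]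
    ring

omit [FiniteDimensional ℝ V] in
theorem ubtr_two {w : Bil V} (h : ND ⊤ w) {x y : V} (hx : x ≠ 0) (hy : y ≠ 0) :
    ∃ T : V ≃L[ℝ] V, T x = y ∧ ∀ u v, w (T u) (T v) = w u v := by
  obtain ⟨a, ha⟩ : ∃ a, w x a ≠ 0 := by
    by_contra hc
    push Not at hc
    exact hx (h.2 x trivial fun v _ => hc v)
  obtain ⟨b, hb⟩ : ∃ b, w y b ≠ 0 := by
    by_contra hc
    push Not at hc
    exact hy (h.2 y trivial fun v _ => hc v)
  obtain ⟨z, hz1, hz2⟩ : ∃ z, w x z ≠ 0 ∧ w y z ≠ 0 := by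
    by_cases h1 : w y a = 0
    · by_cases h2 : w x b = 0
      · exact ⟨a + b, by simpa [h2] using ha, by simpa [h1] using hb⟩
      · exact ⟨b, h2, hb⟩
    · exact ⟨a, ha, h1⟩
  obtain ⟨T, hT, hT'⟩ := ubtr_one h hz1
  obtain ⟨S, hS, hS'⟩ := ubtr_one h (x := z) (y := y) (by
    rw [ubtr_skew h]; exact neg_ne_zero.2 hz2)
  exact ⟨T.trans S, by simp [hT, hS], fun u v => by simp [hS', hT']⟩

/-- `ND.exists_equiv`, then one or two transvections `v ↦ v + (w v (y - x) / w x y) • (y - x)`, which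
keep `w` and map `x` to `y` if `w x y ≠ 0` (inverse: the opposite sign). -/
theorem ub_iso {w : Bil V} {w' : Bil V'} (h : ND ⊤ w) (h' : ND ⊤ w')
    (hd : Module.finrank ℝ V' = Module.finrank ℝ V) {x : V} {x' : V'} (hx : x ≠ 0) (hx' : x' ≠ 0) :
    ∃ Φ : V' ≃L[ℝ] V, Φ x' = x ∧ ∀ u v, w (Φ u) (Φ v) = w' u v := by
  obtain ⟨e, he⟩ := ND.exists_equiv h' h hd
  obtain ⟨T, hT, hT'⟩ := ubtr_two h (x := e x') (y := x) (by simpa using hx') hx
  exact ⟨e.trans T, by simpa using hT, fun u v => by simp [hT', he]⟩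

/-- `b' y = (b (θ y)).bilinearComp Φ Φ`, `c' = c.comp Φ`, `Z' = Z.map θ⁻¹`; `b' y ν' = Ψ (b (θ y) ν)`
with the equivalence `Ψ l = l.comp Φ` (`ContinuousLinearEquiv.arrowCongr`); for `α'` use
`α = α'.comp Φ⁻¹`; `NZ.map`, `NZ.comp`. -/
theorem BD.map {w : Bil V} {ν : V} {b : X → Bil V} {c : V →L[ℝ] ℝ} {Z : Finset X}
    (h : BD w ν b c Z) {w' : Bil V'} {ν' : V'} (Φ : V' ≃L[ℝ] V) (hν : Φ ν' = ν)
    (hw : ∀ u v, w (Φ u) (Φ v) = w' u v) (θ : X' ≃L[ℝ] X) :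
    ∃ (b' : X' → Bil V') (c' : V' →L[ℝ] ℝ) (Z' : Finset X'), BD w' ν' b' c' Z' ∧
      ∀ y, b (θ y) = w → b' y = w' := by
  classical
  set Ψ : (V →L[ℝ] ℝ) ≃L[ℝ] (V' →L[ℝ] ℝ) :=
    Φ.symm.arrowCongr (ContinuousLinearEquiv.refl ℝ ℝ) with hΨ
  have hΨa : ∀ l v, Ψ l v = l (Φ v) := fun l v => rfl
  set b' : X' → Bil V' := fun y => (b (θ y)).bilinearComp (Φ : V' →L[ℝ] V) (Φ : V' →L[ℝ] V)
    with hb'
  have hb'a : ∀ y u v, b' y u v = b (θ y) (Φ u) (Φ v) := fun y u v => rfl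
  have hb'ν : ∀ y, b' y ν' = Ψ (b (θ y) ν) := fun y => by
    ext v
    rw [hb'a, hΨa, hν]
  have hout : ∀ y, b (θ y) = w → b' y = w' := fun y hy => by
    ext u v
    rw [hb'a, hy, hw]
  have hmem : ∀ y, y ∈ Z.map θ.symm.toLinearEquiv.toEquiv.toEmbedding ↔ θ y ∈ Z := fun y => by
    rw [Finset.mem_map_equiv]; rfl
  have hfun : (fun y => b' y ν') = Ψ ∘ (fun y => b y ν) ∘ θ := funext hb'ν
  refine ⟨b', Ψ c, Z.map θ.symm.toLinearEquiv.toEquiv.toEmbedding, ⟨?_, ?_, ?_, ?_, ?_, ?_, ?_, ?_⟩,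
    hout⟩
  · have hc : Continuous fun y => b (θ y) := h.cont.comp θ.continuous
    refine continuous_clm_apply.2 fun u => continuous_clm_apply.2 fun v => ?_
    exact (hc.clm_apply continuous_const).clm_apply continuous_const
  · intro y
    refine ⟨fun u _ => (h.nd (θ y)).1 (Φ u) trivial, fun u _ hu => ?_⟩
    have := (h.nd (θ y)).2 (Φ u) trivial fun v _ => by
      have := hu (Φ.symm v) trivial
      rwa [hb'a, Φ.apply_symm_apply] at this
    simpa using this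
  · obtain ⟨C, hC⟩ := h.out
    refine ⟨(‖(θ.symm : X →L[ℝ] X')‖ + 1) * |C|, fun y hy => hout y (hC _ ?_)⟩
    have h1 : ‖y‖ ≤ ‖(θ.symm : X →L[ℝ] X')‖ * ‖θ y‖ := by
      have := (θ.symm : X →L[ℝ] X').le_opNorm (θ y)
      simpa using this
    have h2 : 0 ≤ ‖(θ.symm : X →L[ℝ] X')‖ := norm_nonneg _
    have h3 : (‖(θ.symm : X →L[ℝ] X')‖ + 1) * |C| ≤ (‖(θ.symm : X →L[ℝ] X')‖ + 1) * ‖θ y‖ := by
      nlinarith [norm_nonneg (θ y)]
    exact (le_abs_self C).trans (le_of_mul_le_mul_left h3 (by linarith))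
  · rw [hΨa, hν, h.cν]
  · simpa using h.c0
  · intro y
    rw [hmem, ← h.mem, hb'ν]
    refine exists_congr fun m => ?_
    rw [← map_smul, Ψ.injective.eq_iff]
  · intro y hy
    rw [hfun]
    exact Ψ.differentiableAt.comp y ((h.dif _ ((hmem y).1 hy)).comp y θ.differentiableAt)
  · intro α hα
    have h1 := h.nz (Ψ.symm α) (by
      have := hΨa (Ψ.symm α) ν'
      rw [Ψ.apply_symm_apply, hν] at this
      rw [← this, hα])
    have h2 := h1.comp ((θ.prodCongr (ContinuousLinearEquiv.refl ℝ ℝ)).prodCongr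
      (ContinuousLinearEquiv.refl ℝ ℝ)) Ψ
      (M := fun p => MM (fderiv ℝ (fun y => b' y ν') (θ.symm p)) (b' (θ.symm p) ν') α) (by
        intro p hp z
        have hd : HasFDerivAt (fun y => b' y ν')
            ((Ψ : (V →L[ℝ] ℝ) →L[ℝ] (V' →L[ℝ] ℝ)).comp
              ((fderiv ℝ (fun y => b y ν) p).comp (θ : X' →L[ℝ] X))) (θ.symm p) := by
          rw [hfun]
          refine Ψ.hasFDerivAt.comp _ (HasFDerivAt.comp _ ?_ θ.hasFDerivAt)
          rw [θ.apply_symm_apply]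
          exact (h.dif p hp).hasFDerivAt
        rw [hd.fderiv, hb'ν, θ.apply_symm_apply]
        simp)
    exact h2.map _ fun p _ => rfl

/-- Rescale by `θ y = C' • y`, `C' = max C 1`. A point of `Z` with `1 ≤ ‖y‖` would put all `t • y`,
`t ≥ 1`, into the finite set `Z`. -/
theorem BD.scale {w : Bil V} {ν : V} {b : X → Bil V} {c : V →L[ℝ] ℝ} {Z : Finset X}
    (h : BD w ν b c Z) : ∃ (b' : X → Bil V) (c' : V →L[ℝ] ℝ) (Z' : Finset X), BD w ν b' c' Z' ∧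
      (∀ y, 1 ≤ ‖y‖ → b' y = w) ∧ ∀ y ∈ Z', ‖y‖ < 1 := by
  obtain ⟨C, hC⟩ := h.out
  have hC0 : (0 : ℝ) < max C 1 := lt_of_lt_of_le one_pos (le_max_right _ _)
  obtain ⟨b', c', Z', hb, ho⟩ := h.map (w' := w) (ν' := ν) (ContinuousLinearEquiv.refl ℝ V) rfl
    (fun _ _ => rfl) (ContinuousLinearEquiv.smulLeft (R₁ := ℝ) (M₁ := X) (Units.mk0 _ hC0.ne'))
  have ho' : ∀ y, 1 ≤ ‖y‖ → b' y = w := fun y hy => ho y (hC _ (by
    change C ≤ ‖max C 1 • y‖
    rw [norm_smul, Real.norm_of_nonneg hC0.le]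
    nlinarith [le_max_left C 1]))
  refine ⟨b', c', Z', hb, ho', fun y hy => ?_⟩
  by_contra hy1
  push Not at hy1
  have hy0 : y ≠ 0 := by
    rintro rfl
    norm_num at hy1
  obtain ⟨m, hm⟩ := (hb.mem y).2 hy
  rw [ho' y hy1] at hm
  have hinj : Function.Injective fun n : ℕ => ((n : ℝ) + 1) • y := fun n k hnk => by
    have := smul_left_injective ℝ hy0 hnk
    simpa using this
  refine Set.infinite_of_injective_forall_mem hinj (s := (Z' : Set X)) (fun n => ?_)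
    Z'.finite_toSet
  refine (hb.mem _).1 ⟨m, ?_⟩
  rw [ho' _ ?_, hm]
  have hn : (0 : ℝ) ≤ n := Nat.cast_nonneg n
  rw [norm_smul, Real.norm_of_nonneg (by linarith)]
  nlinarith

end Pool.Agent.Lib.MP_ccffa6_gt.U
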