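import Pool.Agent.Lib.MP_ccffa6_gt.U.Defs
import Pool.Agent.Lib.MP_ccffa6_gt.U.BA
import Pool.Agent.Lib.MP_ccffa6_gt.U.BGen
import Pool.Agent.Lib.MP_ccffa6_gt.U.BModA
import Pool.Agent.Lib.MP_ccffa6_gt.U.BModB
import Pool.Agent.Lib.MP_ccffa6_gt.U.BTr

/-! A family of complex structures with nonzero degree. -/

open Pool.Agent.Lib.MP_b7c8b0_gt

namespace Pool.Agent.Lib.MP_ccffa6_gt.U

theorem ub_model {m : ℕ} (hm : Even m) : ∃ (w : Bil (V0 (m + 1) × ℝ))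
    (b : ℝ × YY (2 * m + 1) → Bil (V0 (m + 1) × ℝ)) (c : (V0 (m + 1) × ℝ) →L[ℝ] ℝ)
    (Z : Finset (ℝ × YY (2 * m + 1))), ND ⊤ w ∧ BD w (0, 1) b c Z := by
  obtain ⟨A, c₀, G, hA, hc₀, -, hG⟩ := ub_A hm
  obtain ⟨c, Z, hc, hZ, hN⟩ := ub_gen hA hc₀ hG
  obtain ⟨w, hw, hw'⟩ := ub_std (m + 1)
  obtain ⟨b, hb, hn, ho, hβ⟩ := ub_forms hA.1.det hG hw'
  have hs : ContDiff ℝ ((⊤ : ℕ∞) : WithTop ℕ∞) fun p => b p (0, 1) := hb.clm_apply contDiff_const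
  refine ⟨w, b, c.comp (ContinuousLinearMap.fst ℝ _ ℝ), Z, hw, hb.continuous, hn, ⟨2, ho⟩, by simp,
    fun h => hc ?_, fun p => (ub_mem hG.bij hβ hc p).trans (hZ p),
    fun p _ => hs.differentiable (by simp) p, fun α hα => ?_⟩
  · refine ContinuousLinearMap.ext fun u => ?_
    simpa using DFunLike.congr_fun h (u, 0)
  · refine ub_sign ?_ hG.sm hG.bij (hG.out 0 (Or.inl le_rfl)) hs hβ hc (fun p hp => (hZ p).2 hp)
      hN hα
    simp only [Module.finrank_prod, Module.finrank_self, Module.finrank_fin_fun]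
    exact ⟨m + 1, by omega⟩

theorem bott {a : ℕ} (ha : Odd a) (_h3 : 3 ≤ a) : BottStmt a := by
  intro V _ _ _ X _ _ _ w₀ ν α j hX hw hα
  obtain ⟨m, hm, rfl⟩ : ∃ m, Even m ∧ a = m + 1 := by
    obtain ⟨r, rfl⟩ := ha
    exact ⟨2 * r, even_two_mul r, rfl⟩
  obtain ⟨w, b, c, Z, hw', h⟩ := ub_model hm
  have hV : Module.finrank ℝ V = Module.finrank ℝ (V0 (m + 1) × ℝ) := by
    have h1 := j.toLinearEquiv.finrank_eq
    have h2 := (LinearMap.toContinuousLinearMap (𝕜 := ℝ) (E := V) (F' := ℝ)).finrank_eq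
    have h3 : Module.finrank ℝ (V →ₗ[ℝ] ℝ) = Module.finrank ℝ V := Subspace.dual_finrank_eq
    simp only [Module.finrank_prod, Module.finrank_self, Module.finrank_pi_fintype,
      Complex.finrank_real_complex, Finset.sum_const, Finset.card_univ, Fintype.card_fin,
      smul_eq_mul] at h1 ⊢
    omega
  have hν : ν ≠ 0 := by
    rintro rfl
    simp at hα
  obtain ⟨Φ, h1, h2⟩ := ub_iso hw' hw hV (x := (0, 1)) (by simp) hν
  have hX' : Module.finrank ℝ X = Module.finrank ℝ (ℝ × YY (2 * m + 1)) := by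
    simp only [Module.finrank_prod, Module.finrank_self, Module.finrank_fin_fun]
    omega
  obtain ⟨b₁, c₁, Z₁, h3, -⟩ := h.map Φ h1 h2 (ContinuousLinearEquiv.ofFinrankEq hX')
  obtain ⟨b₂, c₂, Z₂, h4, h5, h6⟩ := h3.scale
  have h7 := (h4.nz α hα).all j
  exact ⟨b₂, c₂, Z₂, fun y => fderiv ℝ (fun y => b₂ y ν) y,
    fun y => MM (fderiv ℝ (fun y => b₂ y ν) y) (b₂ y ν) α, h4.cont, h4.nd, h5, h4.cν, h4.c0,
    h4.mem, fun y hy => ⟨h6 y hy, (h4.dif y hy).hasFDerivAt, fun _ => rfl, h7.1 y hy⟩, h7.2⟩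

end Pool.Agent.Lib.MP_ccffa6_gt.U
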