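import Pool.Agent.Lib.MP_ccffa6_gt.U.Lift

/-! (D) All planes but one can be removed from a stable homotopy. -/

set_option maxSynthPendingDepth 3

open Set Filter Topology
open scoped ContDiff

noncomputable section

namespace Pool.Agent.Lib.MP_ccffa6_gt.U

open ContinuousLinearMap (fst snd)

variable {E : Type} [NormedAddCommGroup E] [NormedSpace ℝ E] [FiniteDimensional ℝ E]

theorem destab {d : ℕ} {L : Set E} (hL : Closed d L) {Ω₀ Ω₁ : E → Bil (E × ℝ)}
    (h : StabHtpy L Ω₀ Ω₁) : ∃ H, SP L Ω₀ Ω₁ H := by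
  obtain ⟨K, _, _, _, η, hη, G, hG, en⟩ := h
  let A : ((E × ℝ) × (ℝ × ℝ)) × K →L[ℝ] ((E × ℝ) × K) × (ℝ × ℝ) :=
    (((fst ℝ _ _).comp (fst ℝ _ _)).prod (snd ℝ _ _)).prod ((snd ℝ _ _).comp (fst ℝ _ _))
  have hA : ∀ T : Submodule ℝ (E × ℝ), BijOn A (pl (pl T (ℝ × ℝ)) K) (pl (pl T K) (ℝ × ℝ)) :=
    fun T => ⟨fun v hv => by simpa [A] using hv, fun u _ v _ h => by
      simp only [A, ContinuousLinearMap.prod_apply, ContinuousLinearMap.comp_apply,
        ContinuousLinearMap.coe_fst', ContinuousLinearMap.coe_snd', Prod.mk.injEq] at h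
      exact Prod.ext (Prod.ext h.1.1 h.2) h.1.2,
      fun v hv => ⟨((v.1.1, v.2), v.1.2), by simpa using hv, rfl⟩⟩
  have hc : MP_ccffa6_gt.Cov (1 + d) (Icc (0 : ℝ) 1 ×ˢ L) :=
    ((MP_ccffa6_gt.Cov.univ (by simp)).mono (subset_univ _)).prod hL.sub.cov
  obtain ⟨w, n, a⟩ := u_destab (isCompact_Icc.prod hL.cpt) hc (lift_proj hL _)
    (fun q hq => by
      rw [u_finrank_pl, T1, u_finrank_pl, hL.sub.finrank hq.2]
      simp
      omega) hη
    ((hG.plus nd_eta0).comp continuousOn_id (mapsTo_id _) (Φ := fun _ => A) continuousOn_const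
      fun q _ => hA _)
  have m : MapsTo (fun q : ℝ × E => (max 0 (min 1 q.1), q.2)) (univ ×ˢ L) (Icc 0 1 ×ˢ L) :=
    fun q hq => ⟨⟨le_max_left _ _, max_le zero_le_one (min_le_left _ _)⟩, hq.2⟩
  refine ⟨fun q => w (max 0 (min 1 q.1), q.2),
    ⟨n.cont.comp (by fun_prop) m, fun q hq => n.nd _ (m hq)⟩, 1, fun q hq u hu v hv =>
    ⟨fun h1 => ?_, fun h1 => ?_⟩⟩
  · rw [max_eq_left (min_le_of_right_le (by linarith))]
    refine a (0, q.2) ⟨by simp, hq⟩ _ (fun u hu v hv => ?_) u hu v hv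
    have := (en q.2 hq (u.1.1, u.2) (by simpa using hu) (v.1.1, v.2) (by simpa using hv)).1
    simp [A, this]
    ring
  · rw [min_eq_left h1, max_eq_right zero_le_one]
    refine a (1, q.2) ⟨by simp, hq⟩ _ (fun u hu v hv => ?_) u hu v hv
    have := (en q.2 hq (u.1.1, u.2) (by simpa using hu) (v.1.1, v.2) (by simpa using hv)).2
    simp [A, this]
    ring

end Pool.Agent.Lib.MP_ccffa6_gt.U
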