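import Pool.Agent.Lib.MP_ccffa6_gt.K.Htpy
import Pool.Agent.Lib.MP_ccffa6_gt.K.TanX
import Pool.Agent.Lib.MP_ccffa6_gt.K.Ext

/-! A chart defined on a large ball, with a cut-off. -/

open Set Filter Topology
open scoped ContDiff

noncomputable section

namespace Pool.Agent.Lib.MP_ccffa6_gt.U

variable {E : Type} [NormedAddCommGroup E] [NormedSpace ℝ E] [FiniteDimensional ℝ E]
  {F : Type} [NormedAddCommGroup F] [NormedSpace ℝ F] [FiniteDimensional ℝ F]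

structure BChart (M : Set E) (R : ℝ) (φ : F → E) (ψ : E → F) (ρ : E → ℝ) : Prop where
  smφ : ContDiff ℝ ∞ φ
  smψ : ContDiff ℝ ∞ ψ
  smρ : ContDiff ℝ ∞ ρ
  mem : ∀ w, ‖w‖ < R + 1 → φ w ∈ M
  inv : ∀ w, ‖w‖ < R + 1 → ψ (φ w) = w
  chart : ∀ w, ‖w‖ < R + 1 → Chart M (φ w) φ ψ
  one : ∀ w, ‖w‖ ≤ R → ρ (φ w) = 1
  supp : ∀ x ∈ M, ρ x ≠ 0 → ‖ψ x‖ < R + 1 ∧ φ (ψ x) = x

/-- `Dg ⊕ id`. -/
def d1 (g : E → F) (x : E) : (E × ℝ) →L[ℝ] (F × ℝ) :=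
  (fderiv ℝ g x).prodMap (ContinuousLinearMap.id ℝ ℝ)

@[simp] theorem d1_apply (g : E → F) (x : E) (v : E × ℝ) :
    d1 g x v = (fderiv ℝ g x v.1, v.2) := rfl

theorem continuous_d1 {g : E → F} (hg : ContDiff ℝ ∞ g) : Continuous (d1 g) :=
  (hg.continuous_fderiv (by simp)).prod_mapL ℝ continuous_const

/-- `IsSub.chart`, `Chart.eventually`; rescale `φ (ε w)`, `ε⁻¹ ψ`; `ρ` from `exists_cutoff` for the
compact set `φ '' closedBall 0 R` and an open set `U` on which `φ (ψ x) = x`, `‖ψ x‖ < R + 1`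
for `x ∈ M ∩ U`. -/
theorem exists_bchart {d : ℕ} {M : Set E} (hM : IsSub d M) (hd : Module.finrank ℝ F = d)
    (hne : M.Nonempty) {R : ℝ} (hR : 0 < R) :
    ∃ (φ : F → E) (ψ : E → F) (ρ : E → ℝ), BChart M R φ ψ ρ := by
  obtain ⟨x₀, hx₀⟩ := hne
  obtain ⟨φ₀, ψ₀, hc, h0⟩ := hM.chart hd hx₀
  obtain ⟨δ, hδ, h1⟩ := Metric.eventually_nhds_iff_ball.1 (h0 ▸ hc.eventually_model hx₀)
  have hR' : 0 < R + 1 := by linarith
  have hε : 0 < δ / (R + 1) := div_pos hδ hR'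
  let e : F ≃L[ℝ] F := (LinearEquiv.smulOfNeZero ℝ F _ hε.ne').toContinuousLinearEquiv
  have h2 : ∀ w, ‖w‖ < R + 1 → e w ∈ Metric.ball (0 : F) δ := fun w hw => by
    rw [mem_ball_zero_iff, show e w = (δ / (R + 1)) • w from rfl, norm_smul, Real.norm_of_nonneg hε.le]
    exact (mul_lt_mul_of_pos_left hw hε).trans_eq (div_mul_cancel₀ _ hR'.ne')
  have h3 : ∀ w, ‖w‖ < R + 1 → Chart M (φ₀ (e w)) (φ₀ ∘ e) (e.symm ∘ ψ₀) := fun w hw =>
    (h1 _ (h2 w hw)).2.2.equiv e.symm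
  have h4 : ∀ w, ‖w‖ < R + 1 → e.symm (ψ₀ (φ₀ (e w))) = w := fun w hw => by
    rw [(h1 _ (h2 w hw)).2.1, e.symm_apply_apply]
  have h5 := h3 0 (by simpa using hR')
  obtain ⟨ρ, r1, -, r2, r3, -⟩ := exists_cutoff (A := (φ₀ ∘ e) '' Metric.closedBall 0 R)
    ((isCompact_closedBall 0 R).image h5.smφ.continuous).isClosed (isOpen_interior (s :=
      {x | x ∈ M → ‖(e.symm ∘ ψ₀) x‖ < R + 1 ∧ (φ₀ ∘ e) ((e.symm ∘ ψ₀) x) = x})) (by
      rintro _ ⟨w, hw, rfl⟩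
      have hw' : ‖w‖ < R + 1 := (mem_closedBall_zero_iff.1 hw).trans_lt (lt_add_one R)
      refine mem_interior_iff_mem_nhds.2 (eventually_nhdsWithin_iff.1
        (Eventually.and (mem_nhdsWithin_of_mem_nhds ?_) (h3 w hw').left))
      exact (isOpen_lt h5.smψ.continuous.norm continuous_const).mem_nhds
        ((congrArg norm (h4 w hw')).trans_lt hw'))
  exact ⟨_, _, ρ, h5.smφ, h5.smψ, r1, fun w hw => (h1 _ (h2 w hw)).1, h4, h3,
    fun w hw => r2.self_of_nhdsSet _ ⟨w, mem_closedBall_zero_iff.2 hw, rfl⟩,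
    fun x hx h => interior_subset (r3 (subset_tsupport _ h)) hx⟩

variable {M : Set E} {R : ℝ} {φ : F → E} {ψ : E → F} {ρ : E → ℝ}

theorem BChart.near (h : BChart M R φ ψ ρ) {w : F} (hw : ‖w‖ < R) :
    ∀ᶠ y in 𝓝[M] (φ w), ρ y = 1 ∧ φ (ψ y) = y ∧ ‖ψ y‖ < R := by
  have hw' := hw.trans (lt_add_one R)
  filter_upwards [(h.chart w hw').left, mem_nhdsWithin_of_mem_nhds
    ((isOpen_lt h.smψ.continuous.norm continuous_const).mem_nhds
      ((congrArg norm (h.inv w hw')).trans_lt hw))] with y h1 h2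
  exact ⟨h1 ▸ h.one _ (le_of_lt h2), h1, h2⟩

/-- `φ '' closedBall 0 R'` is compact, hence closed. -/
theorem BChart.cases (h : BChart M R φ ψ ρ) {R' : ℝ} (hR : R' < R) {x : E} (hx : x ∈ M) :
    (∃ w, ‖w‖ ≤ R' ∧ x = φ w) ∨ ∀ᶠ y in 𝓝[M] x, ρ y = 0 ∨ R' < ‖ψ y‖ := by
  by_cases hc : x ∈ φ '' Metric.closedBall 0 R'
  · obtain ⟨w, hw, e⟩ := hc
    exact .inl ⟨w, mem_closedBall_zero_iff.1 hw, e.symm⟩
  refine .inr ?_
  filter_upwards [self_mem_nhdsWithin, mem_nhdsWithin_of_mem_nhds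
    (((isCompact_closedBall 0 R').image h.smφ.continuous).isClosed.isOpen_compl.mem_nhds hc)]
    with y h1 h2
  exact or_iff_not_imp_left.2 fun h3 => not_le.1 fun h4 =>
    h2 ⟨_, mem_closedBall_zero_iff.2 h4, (h.supp y h1 h3).2⟩

theorem BChart.cases' (h : BChart M R φ ψ ρ) {R' : ℝ} (hR : R' < R) {x : E} (hx : x ∈ M) :
    (∃ w, ‖w‖ ≤ R' ∧ x = φ w) ∨ ρ x = 0 ∨ R' < ‖ψ x‖ :=
  (h.cases hR hx).imp_right fun e => e.self_of_nhdsWithin hx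

theorem BChart.d1_left (h : BChart M R φ ψ ρ) {w : F} (hw : ‖w‖ < R + 1) (v : F × ℝ) :
    d1 ψ (φ w) (d1 φ w v) = v := by
  have e := (h.chart w hw).left_inv_fderiv (h.mem w hw) v.1
  rw [h.inv w hw] at e
  exact Prod.ext e rfl

theorem BChart.d1_right (h : BChart M R φ ψ ρ) {w : F} (hw : ‖w‖ < R + 1) {v : E × ℝ}
    (hv : v ∈ T1 M (φ w)) : d1 φ w (d1 ψ (φ w) v) = v := by
  have e := (h.chart w hw).right_inv_fderiv (h.mem w hw) (mem_T1.1 hv)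
  rw [h.inv w hw] at e
  exact Prod.ext e rfl

theorem BChart.d1_mem (h : BChart M R φ ψ ρ) {w : F} (hw : ‖w‖ < R + 1) (v : F × ℝ) :
    d1 φ w v ∈ T1 M (φ w) :=
  mem_T1.2 (((h.chart w hw).mem_tan (h.mem w hw) _).2 ⟨v.1, by rw [h.inv w hw]; rfl⟩)

theorem BChart.d1_bijOn (h : BChart M R φ ψ ρ) {w : F} (hw : ‖w‖ < R + 1) :
    BijOn (d1 ψ (φ w)) (T1 M (φ w)) (⊤ : Submodule ℝ (F × ℝ)) :=
  ⟨fun _ _ => trivial, fun _ hu _ hv e =>
    (h.d1_right hw hu).symm.trans ((congrArg _ e).trans (h.d1_right hw hv)),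
    fun v _ => ⟨_, h.d1_mem hw v, h.d1_left hw v⟩⟩

/-- Transplanting what is only continuous over the ball. -/
theorem BChart.contOn (h : BChart M R φ ψ ρ) {P Y : Type} [TopologicalSpace P]
    [NormedAddCommGroup Y] [NormedSpace ℝ Y] {A : Set P} {g : P × F → Y}
    (hg : ContinuousOn g (A ×ˢ Metric.ball 0 (R + 1))) {R' : ℝ} (hR : R' < R)
    (h0 : ∀ s ∈ A, ∀ w, R' < ‖w‖ → g (s, w) = 0) :
    ContinuousOn (fun q : P × E => ρ q.2 • g (q.1, ψ q.2)) (A ×ˢ M) := by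
  rintro ⟨s, x⟩ ⟨hs, hx⟩
  have h1 : Tendsto Prod.snd (𝓝[A ×ˢ M] (s, x)) (𝓝[M] x) :=
    continuous_snd.continuousWithinAt.tendsto_nhdsWithin fun _ hq => hq.2
  rcases h.cases hR hx with ⟨w, hw, rfl⟩ | e
  · have hw' := hw.trans_lt hR
    have h2 : Continuous fun q : P × E => (q.1, ψ q.2) :=
      continuous_fst.prodMk (h.smψ.continuous.comp continuous_snd)
    refine (h.smρ.continuous.comp continuous_snd).continuousWithinAt.smul
      ((hg (s, ψ (φ w)) ⟨hs, ?_⟩).comp_of_preimage_mem_nhdsWithin (x := (s, φ w))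
        h2.continuousWithinAt ?_)
    · rw [h.inv w (hw'.trans (lt_add_one R))]
      exact mem_ball_zero_iff.2 (hw'.trans (lt_add_one R))
    · filter_upwards [self_mem_nhdsWithin, h1.eventually (h.near hw')] with q h3 h4
      exact ⟨h3.1, mem_ball_zero_iff.2 (h4.2.2.trans (lt_add_one R))⟩
  · refine (continuousWithinAt_const (b := 0)).congr_of_eventuallyEq_of_mem ?_ ⟨hs, hx⟩
    filter_upwards [self_mem_nhdsWithin, h1.eventually e] with q h3 h4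
    rcases h4 with h4 | h4
    · rw [h4, zero_smul]
    · rw [h0 _ h3.1 _ h4, smul_zero]

/-- A formal structure can be made constant in the chart. `Ωm w = bp (Ω (φ w)) (d1 φ w)`,
`H (s, x) = Ω x + bp (ρ x • (Ωm ((1 - s μ (ψ x)) • ψ x) - Ωm (ψ x))) (d1 ψ x)`, `μ` continuous,
`1` for `‖w‖ ≤ R - 1`, `0` for `R - 1/2 ≤ ‖w‖`, values in `[0,1]`; `w₀ = Ωm 0`. -/
theorem BChart.const (h : BChart M R φ ψ ρ) (hR : 1 < R) {Ω : E → Bil (E × ℝ)} (hΩ : Formal M Ω) :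
    ∃ (Ωc : E → Bil (E × ℝ)) (w₀ : Bil (F × ℝ)), Formal M Ωc ∧ Htpy M Ω Ωc ∧ ND ⊤ w₀ ∧
      ∀ w : F, ‖w‖ ≤ R - 1 → ∀ u ∈ T1 M (φ w), ∀ v ∈ T1 M (φ w),
        Ωc (φ w) u v = w₀ (d1 ψ (φ w) u) (d1 ψ (φ w) v) := by
  obtain ⟨μ, c0, m0, m1, m2⟩ : ∃ μ : F → ℝ, Continuous μ ∧ (∀ w, μ w ∈ Icc (0 : ℝ) 1) ∧
      (∀ w, ‖w‖ ≤ R - 1 → μ w = 1) ∧ ∀ w, R - 1 / 2 < ‖w‖ → μ w = 0 :=
    ⟨fun w => max 0 (min 1 (2 * R - 1 - 2 * ‖w‖)), by fun_prop,
      fun w => ⟨le_max_left .., max_le zero_le_one (min_le_left ..)⟩,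
      fun w hw => (congrArg _ (min_eq_left (by linarith))).trans (max_eq_right zero_le_one),
      fun w hw => max_eq_left ((min_le_right ..).trans (by linarith))⟩
  obtain ⟨Ωm, hm⟩ : ∃ Ωm : F → Bil (F × ℝ),
      ∀ w, Ωm w = (Ω (φ w)).bilinearComp (d1 φ w) (d1 φ w) := ⟨_, fun _ => rfl⟩
  have hb : ∀ s ∈ Icc (0 : ℝ) 1, ∀ w : F, ‖(1 - s * μ w) • w‖ ≤ ‖w‖ := fun s hs w => by
    have h1 := mul_nonneg hs.1 (m0 w).1
    have h2 := mul_le_one₀ hs.2 (m0 w).1 (m0 w).2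
    rw [norm_smul, Real.norm_of_nonneg (sub_nonneg.2 h2)]
    exact mul_le_of_le_one_left (norm_nonneg w) (by linarith)
  have c1 : ContinuousOn Ωm (Metric.ball 0 (R + 1)) := by
    rw [funext hm]
    exact htpy_cont (hΩ.cont.comp h.smφ.continuous.continuousOn
      fun w hw => h.mem w (mem_ball_zero_iff.1 hw)) (continuous_d1 h.smφ).continuousOn
      (continuous_d1 h.smφ).continuousOn
  have n1 : ∀ w, ‖w‖ < R + 1 → ND ⊤ (Ωm w) := fun w hw => by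
    rw [hm]
    exact (hΩ.nd _ (h.mem w hw)).comp ⟨fun v _ => h.d1_mem hw v, fun u _ v _ e =>
      (h.d1_left hw u).symm.trans ((congrArg _ e).trans (h.d1_left hw v)),
      fun v hv => ⟨_, trivial, h.d1_right hw hv⟩⟩
  obtain ⟨G, hG⟩ : ∃ G : ℝ × E → Bil (F × ℝ), ∀ q, G q =
    ρ q.2 • (Ωm ((1 - q.1 * μ (ψ q.2)) • ψ q.2) - Ωm (ψ q.2)) := ⟨_, fun _ => rfl⟩
  have c2 : ContinuousOn G (Icc 0 1 ×ˢ M) :=
    continuousOn_clm_apply.2 fun u => continuousOn_clm_apply.2 fun v => by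
      have h1 : ContinuousOn (fun w => Ωm w u v) (Metric.ball 0 (R + 1)) :=
        (c1.clm_apply continuousOn_const).clm_apply continuousOn_const
      refine (h.contOn (g := fun q : ℝ × F => Ωm ((1 - q.1 * μ q.2) • q.2) u v - Ωm q.2 u v)
        ((h1.comp (by fun_prop) fun q hq => mem_ball_zero_iff.2
          ((hb _ hq.1 _).trans_lt (mem_ball_zero_iff.1 hq.2))).sub
          (h1.comp continuousOn_snd fun q hq => hq.2)) (sub_lt_self R one_half_pos)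
        fun s _ w hw => by simp [m2 w hw]).congr fun q _ => ?_
      rw [hG]
      rfl
  have c3 : Continuous fun q : ℝ × E => d1 ψ q.2 := (continuous_d1 h.smψ).comp continuous_snd
  obtain ⟨H, hH⟩ : ∃ H : ℝ × E → Bil (E × ℝ), ∀ q, H q =
    (1 : ℝ) • Ω q.2 + (1 : ℝ) • (G q).bilinearComp (d1 ψ q.2) (d1 ψ q.2) := ⟨_, fun _ => rfl⟩
  have e1 : ∀ q u v, H q u v = Ω q.2 u v + ρ q.2 * (Ωm ((1 - q.1 * μ (ψ q.2)) • ψ q.2)
      (d1 ψ q.2 u) (d1 ψ q.2 v) - Ωm (ψ q.2) (d1 ψ q.2 u) (d1 ψ q.2 v)) := fun q u v => by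
    rw [hH, hG, one_smul, one_smul]
    rfl
  have e2 : ∀ s w, ‖w‖ ≤ R → ∀ u ∈ T1 M (φ w), ∀ v ∈ T1 M (φ w), H (s, φ w) u v =
      Ωm ((1 - s * μ w) • w) (d1 ψ (φ w) u) (d1 ψ (φ w) v) := fun s w hw u hu v hv => by
    have hw' := hw.trans_lt (lt_add_one R)
    rw [e1, h.one w hw, h.inv w hw', hm w, ContinuousLinearMap.bilinearComp_apply,
      h.d1_right hw' hu, h.d1_right hw' hv, one_mul, add_sub_cancel]
  have f1 : NDField (Icc (0 : ℝ) 1 ×ˢ M) (fun q => T1 M q.2) H := by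
    refine ⟨?_, ?_⟩
    · rw [funext hH]
      exact htpy_comb continuousOn_const continuousOn_const
        (hΩ.cont.comp continuousOn_snd fun _ hq => hq.2)
        (htpy_cont c2 c3.continuousOn c3.continuousOn)
    rintro ⟨s, x⟩ ⟨hs, hx⟩
    rcases h.cases' (sub_lt_self R one_half_pos) hx with ⟨w, hw, rfl⟩ | e
    · have hw' : ‖w‖ < R + 1 := by linarith
      exact ((n1 _ ((hb s hs w).trans_lt hw')).comp (h.d1_bijOn hw')).congr
        fun u hu v hv => (e2 s w (by linarith) u hu v hv).symm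
    · refine (hΩ.nd x hx).congr fun u _ v _ => ?_
      rcases e with e | e
      · simp only [e1, e, zero_mul, add_zero]
      · simp only [e1, m2 _ e, mul_zero, sub_zero, one_smul, sub_self, add_zero]
  have o1 : (1 : ℝ) ∈ Icc (0 : ℝ) 1 := right_mem_Icc.2 zero_le_one
  refine ⟨fun x => H (1, x), Ωm 0, ⟨f1.cont.comp (by fun_prop) fun x hx => ⟨o1, hx⟩,
    fun x hx => f1.nd (1, x) ⟨o1, hx⟩⟩, ⟨H, f1, fun x _ u _ v _ => ⟨?_, rfl⟩⟩,
    n1 0 (by rw [norm_zero]; linarith), fun w hw u hu v hv => ?_⟩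
  · simp only [e1, zero_mul, sub_zero, one_smul, sub_self, mul_zero, add_zero]
  · rw [e2 1 w (by linarith) u hu v hv, m1 w hw, mul_one, sub_self, zero_smul]

end Pool.Agent.Lib.MP_ccffa6_gt.U
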