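import Pool.Agent.Lib.MP_ccffa6_gt.U.Refl

/-! A path from a form to itself, given by a correction in a trivialisation. -/

open Set Filter Topology
open scoped ContDiff

noncomputable section

namespace Pool.Agent.Lib.MP_ccffa6_gt.U

variable {E : Type} [NormedAddCommGroup E] [NormedSpace ℝ E] [FiniteDimensional ℝ E]

/-- The corrected form. -/
def selfp_H {V : Type} [NormedAddCommGroup V] [NormedSpace ℝ V] (w : Bil (E × ℝ))
    (Φ : (E × ℝ) →L[ℝ] V) (D : Bil (V × (ℝ × ℝ))) : Bil ((E × ℝ) × (ℝ × ℝ)) :=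
  osum w eta0 + bp D (Φ.prodMap (ContinuousLinearMap.id ℝ (ℝ × ℝ)))

omit [FiniteDimensional ℝ E] in
theorem selfp_apply {V : Type} [NormedAddCommGroup V] [NormedSpace ℝ V] (w : Bil (E × ℝ))
    (Φ : (E × ℝ) →L[ℝ] V) (D : Bil (V × (ℝ × ℝ))) (u v : (E × ℝ) × (ℝ × ℝ)) :
    selfp_H w Φ D u v = osum w eta0 u v + D (Φ u.1, u.2) (Φ v.1, v.2) := rfl

theorem selfp_cov {V : Type} [NormedAddCommGroup V] [NormedSpace ℝ V] (w : Bil (E × ℝ))
    (Φ : (E × ℝ) →L[ℝ] V) (D : Bil (V × (ℝ × ℝ))) :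
    cov1 (selfp_H w Φ D) = ((cov1 D).1.comp Φ, 1 + (cov1 D).2) := by
  refine Prod.ext (ContinuousLinearMap.ext fun v => ?_) ?_
  · rw [cov1_fst, selfp_apply]
    simp
  · rw [cov1_snd, selfp_apply]
    simp

/-- `H q = osum (Ω q.2) eta0 + bp (D q) ((Φ q.2).prodMap id)`; in the second case
`H q = bp (osum (B q.2) eta0 + D q) ((Φ q.2).prodMap id)` on `pl (T1 L q.2) _` (`ND.comp`,
`ND.congr`); `cov1 (H q)` is the section below; `SP.sec`. -/
theorem selfpath {V : Type} [NormedAddCommGroup V] [NormedSpace ℝ V] [FiniteDimensional ℝ V]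
    {L : Set E} {Ω : E → Bil (E × ℝ)} (hΩ : Formal L Ω) {Φ : E → (E × ℝ) →L[ℝ] V}
    (hΦ : ContinuousOn Φ L) {D : ℝ × E → Bil (V × (ℝ × ℝ))} (hD : ContinuousOn D (univ ×ˢ L))
    {B : E → Bil V}
    (hn : ∀ q : ℝ × E, q.2 ∈ L → D q = 0 ∨ (BijOn (Φ q.2) (T1 L q.2) (⊤ : Submodule ℝ V) ∧
      (∀ u ∈ T1 L q.2, ∀ v ∈ T1 L q.2, Ω q.2 u v = B q.2 (Φ q.2 u) (Φ q.2 v)) ∧
      ND ⊤ (osum (B q.2) eta0 + D q)))
    {A : ℝ} (hA : ∀ q : ℝ × E, q.2 ∈ L → A ≤ |q.1| → D q = 0) :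
    Sec L (fun q => ((cov1 (D q)).1.comp (Φ q.2), 1 + (cov1 (D q)).2)) ∧
      ∀ d, SecDeg L (fun q => ((cov1 (D q)).1.comp (Φ q.2), 1 + (cov1 (D q)).2)) d →
        R L d Ω Ω := by
  have h0 : ∀ q : ℝ × E, D q = 0 → ∀ u v,
      selfp_H (Ω q.2) (Φ q.2) (D q) u v = osum (Ω q.2) eta0 u v := fun q h u v => by
    rw [selfp_apply, h]
    exact add_zero _
  have cΦ : ContinuousOn (fun q : ℝ × E => (Φ q.2).prodMap (ContinuousLinearMap.id ℝ (ℝ × ℝ)))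
      (univ ×ˢ L) :=
    (hΦ.comp continuousOn_snd fun _ hq => hq.2).prod_mapL ℝ continuousOn_const
  have cH : ContinuousOn (fun q : ℝ × E => selfp_H (Ω q.2) (Φ q.2) (D q)) (univ ×ˢ L) :=
    continuousOn_clm_apply.2 fun u => continuousOn_clm_apply.2 fun v =>
      (((((hΩ.plus nd_eta0).cont.comp continuousOn_snd fun _ hq => hq.2).clm_apply
        continuousOn_const).clm_apply continuousOn_const).add
        (((htpy_cont hD cΦ cΦ).clm_apply continuousOn_const).clm_apply continuousOn_const) :)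
  have s : SP L Ω Ω fun q => selfp_H (Ω q.2) (Φ q.2) (D q) := by
    refine ⟨⟨cH, fun q hq => ?_⟩, A, fun q hq u _ v _ =>
      ⟨fun h => h0 q (hA q hq (le_abs.2 (.inr (le_neg.1 h)))) u v,
        fun h => h0 q (hA q hq (le_abs.2 (.inl h))) u v⟩⟩
    rcases hn q hq.2 with h | ⟨h1, h2, h3⟩
    · exact ((hΩ.nd _ hq.2).plus nd_eta0).congr fun u _ v _ => (h0 q h u v).symm
    · have h4 : BijOn ((Φ q.2).prodMap (ContinuousLinearMap.id ℝ (ℝ × ℝ)))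
          (pl (T1 L q.2) (ℝ × ℝ)) (⊤ : Submodule ℝ (V × (ℝ × ℝ))) :=
        ⟨fun _ _ => trivial, (h1.prodMap (bijOn_id univ)).injOn,
          fun _ _ => (h1.prodMap (bijOn_id univ)).surjOn ⟨trivial, trivial⟩⟩
      refine (h3.comp h4).congr fun u hu v hv => ?_
      rw [selfp_apply, osum_apply, h2 _ (mem_pl.1 hu) _ (mem_pl.1 hv)]
      rfl
  have e : (fun q : ℝ × E => cov1 (selfp_H (Ω q.2) (Φ q.2) (D q))) =
      fun q => ((cov1 (D q)).1.comp (Φ q.2), 1 + (cov1 (D q)).2) := funext fun q => selfp_cov _ _ _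
  rw [← e]
  obtain ⟨l, ⟨-, T, hT⟩, hl⟩ := s.sec.exists_sec
  exact ⟨⟨continuous_cov1.comp_continuousOn cH, T, fun q hq => (hT q hq).congr (hl q hq)⟩,
    fun d hd => ⟨_, s, hd⟩⟩

/-- Conjugating a period by a homotopy. -/
theorem R.of_htpy {L : Set E} {d : ℤ} {Ω Ω' : E → Bil (E × ℝ)} (h : Htpy L Ω Ω')
    (h' : R L d Ω' Ω') : R L d Ω Ω := by
  simpa using ((R_of_htpy h).add h').add (R_of_htpy (NDHtpy.symm h))

end Pool.Agent.Lib.MP_ccffa6_gt.U
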