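import Pool.Agent.Lib.MP_ccffa6_gt.U.EvenM
import Pool.Agent.Lib.MP_ccffa6_gt.U.SelfP
import Pool.Agent.Lib.MP_ccffa6_gt.U.BChart

/-! The period in the even case. -/

open Set Filter Topology
open scoped ContDiff

noncomputable section

namespace Pool.Agent.Lib.MP_ccffa6_gt.U

variable {E : Type} [NormedAddCommGroup E] [NormedSpace ℝ E] [FiniteDimensional ℝ E]

set_option maxSynthPendingDepth 3 in
/-- The Bott family is transplanted into a large chart. -/
theorem even_period {n : ℕ} (hB : BottStmt (n + 1)) {L : Set E} (hL : Closed (2 * n + 1) L)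
    (hne : L.Nonempty) {Ω : E → Bil (E × ℝ)} (hΩ : Formal L Ω) : ∃ p : ℤ, p ≠ 0 ∧ R L p Ω Ω := by
  classical
  obtain ⟨φ, ψ, ρ, h⟩ := exists_bchart (F := Rd (2 * n + 1)) hL.sub finrank_euclideanSpace_fin hne
    (R := 5) (by norm_num)
  obtain ⟨Ωc, w₀, fc, hc, nw, hw⟩ := h.const (by norm_num) hΩ
  obtain ⟨j⟩ := u_exists_j (Rd (2 * n + 1))
  obtain ⟨b, Λ, Z, D, cb, nb, b1, cΛ, Λ0, Λn, Λ2, hZ, hD, hs⟩ :=
    evenM hB finrank_euclideanSpace_fin nw j
  obtain ⟨c, hc1, hsg⟩ := locSign_chart (Rd (2 * n + 1)) j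
  have cz : Continuous fun q : ℝ × E => (q.1, ψ q.2) :=
    continuous_fst.prodMk (h.smψ.continuous.comp continuous_snd)
  have n2 : ∀ q : ℝ × E, 2 < ‖ψ q.2‖ → 2 ≤ ‖(q.1, ψ q.2)‖ := fun q hq =>
    hq.le.trans (norm_snd_le (q.1, ψ q.2))
  obtain ⟨-, hR⟩ := selfpath fc (continuous_d1 h.smψ).continuousOn
    (D := fun q => ρ q.2 • (b (q.1, ψ q.2) - osum w₀ eta0))
    ((h.smρ.continuous.comp continuous_snd).smul ((cb.comp cz).sub continuous_const)).continuousOn
    (B := fun _ => w₀) (A := 1) (fun q hq => by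
      rcases h.cases' (R' := 2) (by norm_num) hq with ⟨w, h1, h2⟩ | h1 | h1
      · rw [h2, h.one w (by linarith), one_smul, add_sub_cancel]
        exact Or.inr ⟨h.d1_bijOn (by linarith), hw w (by linarith), nb _⟩
      · exact Or.inl (by rw [h1, zero_smul])
      · exact Or.inl (by rw [b1 _ (by linarith [n2 q h1]), sub_self, smul_zero]))
    fun q _ hq => by rw [b1 _ (hq.trans (norm_fst_le (q.1, ψ q.2))), sub_self, smul_zero]
  obtain ⟨H, hH⟩ : ∃ H : ℝ × (ℝ × E) → Cv E × ℝ, H = fun x =>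
      ((ρ x.2.2 • (Λ (x.1, (x.2.1, ψ x.2.2))).1).comp (d1 ψ x.2.2),
        1 + ρ x.2.2 * ((Λ (x.1, (x.2.1, ψ x.2.2))).2 - 1)) := ⟨_, rfl⟩
  have cH : Continuous H := by
    have a1 := cΛ.comp (continuous_fst.prodMk (cz.comp (continuous_snd (X := ℝ))))
    have a2 := h.smρ.continuous.comp (continuous_snd.comp (continuous_snd (X := ℝ) (Y := ℝ × E)))
    rw [hH]
    exact ((a2.smul a1.fst).clm_comp ((continuous_d1 h.smψ).comp continuous_snd.snd)).prodMk
      (continuous_const.add (a2.mul (a1.snd.sub continuous_const)))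
  have ins : ∀ s t w, ‖w‖ ≤ 2 →
      H (s, (t, φ w)) = ((Λ (s, (t, w))).1.comp (d1 ψ (φ w)), (Λ (s, (t, w))).2) :=
    fun s t w hw => by
      rw [hH]
      simp only [h.one w (by linarith), h.inv w (by linarith), one_smul, one_mul, add_sub_cancel]
  have key : ∀ s (q : ℝ × E), q.2 ∈ L → H (s, q) = (0, 1) ∨ ∃ w, ‖w‖ ≤ 2 ∧ q = (q.1, φ w) :=
    fun s q hq => by
      rcases h.cases' (R' := 2) (by norm_num) hq with ⟨w, h1, h2⟩ | h1 | h1
      · exact Or.inr ⟨w, h1, Prod.ext rfl h2⟩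
      · exact Or.inl (by simp [hH, h1])
      · exact Or.inl (by simp [hH, Λ2 _ _ (n2 q h1)])
  have van : ∀ w, ‖w‖ ≤ 2 → ∀ a : Cv (Rd (2 * n + 1)), Van L (φ w) (a.comp (d1 ψ (φ w))) → a = 0 :=
    fun w hw a ha => ContinuousLinearMap.ext fun v => by
      have := ha _ (h.d1_mem (w := w) (by linarith) v)
      rwa [ContinuousLinearMap.comp_apply, h.d1_left (by linarith)] at this
  have inj : ∀ z ∈ Z, ψ (φ z.2) = z.2 ∧ ‖z.2‖ ≤ 2 := fun z hz => by
    have := (norm_snd_le z).trans_lt (hD z hz).1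
    exact ⟨h.inv _ (by linarith), by linarith⟩
  refine ⟨_, ?_, R.of_htpy hc (hR _ ⟨fun q => H (1, q), Z.image fun z => (z.1, φ z.2),
    fun p => c * (SignType.sign ((j : Cv (Rd (2 * n + 1)) →L[ℝ] _).comp (D (p.1, ψ p.2))).det : ℤ),
    secHtpy_iff.2 ⟨H, 2, cH.continuousOn, fun s _ q hq => ?_, fun q _ =>
      ⟨Agr.of_eq ?_, Agr.refl _ _ _⟩⟩, ⟨fun q hq h1 h2 => ?_, fun p hp => ?_⟩, rfl⟩)⟩
  · rw [Finset.sum_image (g := fun z : ℝ × Rd (2 * n + 1) => (z.1, φ z.2))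
      fun z hz z' hz' e => Prod.ext (congrArg (fun p : ℝ × E => p.1) e) (by
      rw [← (inj z hz).1, ← (inj z' hz').1]
      exact congrArg (fun p : ℝ × E => ψ p.2) e), ← Finset.mul_sum,
      Finset.sum_congr rfl fun z hz => by rw [(inj z hz).1]]
    exact mul_ne_zero (by rcases hc1 with e | e <;> simp [e]) hs
  · rcases key s q hq with e | ⟨w, h1, e⟩
    · rw [e]
      exact ⟨fun _ => one_ne_zero, fun _ => ⟨fun _ _ => rfl, one_pos⟩⟩
    · rw [e, ins s _ w h1]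
      refine ⟨fun h2 h3 => Λn _ _ (Prod.ext (van w h1 _ h2) h3), fun h2 => ?_⟩
      rw [Λ2 _ _ (h2.trans (norm_fst_le (q.1, w)))]
      exact ⟨fun _ _ => rfl, one_pos⟩
  · rw [hH]
    simp only [Λ0]
    refine Prod.ext (ContinuousLinearMap.ext fun v => ?_) ?_ <;> simp
  · beta_reduce at h1 h2
    rcases key 1 q hq with e | ⟨w, h3, e⟩
    · rw [e] at h2
      exact absurd h2 (by norm_num)
    · rw [e, ins 1 _ w h3] at h1 h2
      exact Finset.mem_image.2 ⟨(q.1, w), hZ _ (van w h3 _ h1) h2, e.symm⟩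
  · obtain ⟨z, hz, rfl⟩ := Finset.mem_image.1 hp
    obtain ⟨i1, i2⟩ := inj z hz
    obtain ⟨z1, z2, z3, z4, z5⟩ := hD z hz
    refine ⟨h.mem _ (by linarith), by beta_reduce; rw [ins 1 _ _ i2]; exact z3, ?_⟩
    refine hsg E L φ ψ _ _ _ hL.cpt.isClosed (h.mem _ (by linarith)) (h.chart _ (by linarith))
      (cH.comp (Continuous.prodMk_right 1)).fst.continuousOn ?_ ?_ (by rw [i1]; exact z5)
    · simp only [i1]
      refine z4.congr_of_eventuallyEq ?_
      filter_upwards [(isOpen_lt continuous_norm continuous_const).mem_nhds z1] with y hy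
      have := (norm_snd_le y).trans_lt hy
      rw [ins 1 _ _ (by linarith)]
      exact ContinuousLinearMap.ext fun v =>
        congrArg (Λ (1, y)).1 (h.d1_left (w := y.2) (by linarith) v)
    · intro v _
      beta_reduce
      rw [ins 1 _ _ i2]
      change (Λ (1, z)).1 _ = 0
      rw [z2, zero_apply]

end Pool.Agent.Lib.MP_ccffa6_gt.U
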