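import Pool.Agent.Lib.MP_ccffa6_gt.U.DMove
import Pool.Agent.Lib.MP_ccffa6_gt.TOP.GP

/-! Destabilisation of nondegenerate forms on a field of subspaces over a low dimensional set. -/

set_option maxSynthPendingDepth 3

open Set Filter Topology Module
open scoped ContDiff

noncomputable section

namespace Pool.Agent.Lib.MP_ccffa6_gt

open P (wg bp wg_apply bp_apply CS)
open ELI

variable {F : Type} [NormedAddCommGroup F] [NormedSpace ℝ F] [FiniteDimensional ℝ F]
  {U : Type} [NormedAddCommGroup U] [NormedSpace ℝ U] [FiniteDimensional ℝ U]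
  {U' : Type} [NormedAddCommGroup U'] [NormedSpace ℝ U'] [FiniteDimensional ℝ U']

/-- A field of subspaces with a smooth field of projectors. -/
def u_SP (S : Set F) (T : F → Submodule ℝ U) : Prop :=
  ∃ P : F → U →L[ℝ] U, ContDiff ℝ ∞ P ∧ ∀ x ∈ S, (∀ v, P x v ∈ T x) ∧ ∀ v ∈ T x, P x v = v

omit [FiniteDimensional ℝ F] [FiniteDimensional ℝ U] in
theorem u_SP.cs {S : Set F} {T : F → Submodule ℝ U} (h : u_SP S T) : CS S T := by
  obtain ⟨P, h1, h2⟩ := h
  exact ⟨P, h1.continuous.continuousOn, h2⟩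

omit [FiniteDimensional ℝ F] in
theorem u_SP.plus {S : Set F} {T : F → Submodule ℝ U} (h : u_SP S T) :
    u_SP S fun x => pl (T x) U' := by
  obtain ⟨P, h1, h2⟩ := h
  refine ⟨fun x => (P x).prodMap (ContinuousLinearMap.id ℝ U'), ?_, fun x hx =>
    ⟨fun v => mem_pl.2 ((h2 x hx).1 _), fun v hv => Prod.ext ((h2 x hx).2 _ (mem_pl.1 hv)) rfl⟩⟩
  have e : (fun x => (P x).prodMap (ContinuousLinearMap.id ℝ U')) = fun x =>
      (ContinuousLinearMap.inl ℝ U U').comp ((P x).comp (ContinuousLinearMap.fst ℝ U U')) +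
        (ContinuousLinearMap.inr ℝ U U').comp (ContinuousLinearMap.snd ℝ U U') := by
    funext x
    refine ContinuousLinearMap.ext fun v => Prod.ext ?_ ?_ <;> simp
  rw [e]
  exact (contDiff_const.clm_comp (h1.clm_comp contDiff_const)).add contDiff_const

theorem u_finrank_pl (T : Submodule ℝ U) : finrank ℝ (pl T U') = finrank ℝ T + finrank ℝ U' := by
  have h : LinearMap.range (T.subtype.prodMap (LinearMap.id : U' →ₗ[ℝ] U')) = pl T U' := by
    rw [LinearMap.range_prodMap, Submodule.range_subtype, LinearMap.range_id, pl]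
  rw [← h, LinearMap.finrank_range_of_inj (Subtype.val_injective.prodMap fun _ _ h => h),
    finrank_prod]

/-- The covectors `δ ∘ P` form a space of the dimension of the range of `P`. -/
theorem u_rank_dual {T : Submodule ℝ U} {P : U →L[ℝ] U} (h1 : ∀ v, P v ∈ T)
    (h2 : ∀ v ∈ T, P v = v) : finrank ℝ T ≤ finrank ℝ (LinearMap.range
      ((ContinuousLinearMap.compL ℝ U U ℝ).flip P : (U →L[ℝ] ℝ) →ₗ[ℝ] (U →L[ℝ] ℝ))) := by
  let R := LinearMap.range
    ((ContinuousLinearMap.compL ℝ U U ℝ).flip P : (U →L[ℝ] ℝ) →ₗ[ℝ] (U →L[ℝ] ℝ))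
  let r : R →ₗ[ℝ] (T →L[ℝ] ℝ) :=
    ((ContinuousLinearMap.compL ℝ T U ℝ).flip T.subtypeL : _ →ₗ[ℝ] _).comp R.subtype
  have hr : Function.Surjective r := fun g => by
    refine ⟨⟨_, g.comp (P.codRestrict T h1), rfl⟩, ?_⟩
    ext v
    simp only [r, LinearMap.comp_apply, Submodule.subtype_apply, ContinuousLinearMap.coe_coe,
      ContinuousLinearMap.flip_apply, ContinuousLinearMap.compL_apply,
      ContinuousLinearMap.comp_apply, Submodule.subtypeL_apply]
    congr 1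
    ext
    simp [h2 v v.2]
  have := LinearMap.finrank_le_finrank_of_surjective hr
  rwa [← (LinearMap.toContinuousLinearMap (𝕜 := ℝ) (E := T) (F' := ℝ)).finrank_eq,
    Subspace.dual_finrank_eq] at this

/-- General position: a field of covectors has small perturbations which vanish on no `T x`. -/
theorem u_avoid {a : ℕ} {S : Set F} (hS : IsClosed S) (hc : Cov a S) {T : F → Submodule ℝ U}
    (hT : u_SP S T) (hd : ∀ x ∈ S, a < finrank ℝ (T x)) {c : F → U →L[ℝ] ℝ}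
    (cc : ContinuousOn c S) {ε : ℝ} (hε : 0 < ε) : ∃ c' : F → U →L[ℝ] ℝ, Continuous c' ∧
      ∀ x ∈ S, (∃ v ∈ T x, c' x v ≠ 0) ∧ ‖c' x - c x‖ < ε := by
  obtain ⟨P, sP, hP⟩ := hT
  obtain ⟨k, hk, hk', -⟩ := exists_smooth_approx (h := fun _ => 0) hS isClosed_empty cc
    contDiff_const (by simp) (half_pos hε)
  have h1 : ContDiff ℝ ∞ fun q : F × (U →L[ℝ] ℝ) => (k q.1 + q.2).comp (P q.1) :=
    ((hk.comp contDiff_fst).add contDiff_snd).clm_comp (sP.comp contDiff_fst)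
  have h2 := top_gp hc isOpen_univ (h1.of_le (by exact_mod_cast le_top)).contDiffOn
    fun x hx p _ _ => by
      have h3 : HasFDerivAt (fun p' : U →L[ℝ] ℝ => (k x + p').comp (P x))
          ((ContinuousLinearMap.compL ℝ U U ℝ).flip (P x)) p := by
        exact ((ContinuousLinearMap.compL ℝ U U ℝ).flip (P x)).hasFDerivAt.comp p
          ((hasFDerivAt_id p).const_add (k x))
      rw [h3.fderiv]
      exact (hd x hx).trans_le (u_rank_dual (hP x hx).1 (hP x hx).2)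
  obtain ⟨z, hz, hz'⟩ := h2.exists_notMem (Metric.ball_mem_nhds 0 (half_pos hε))
  refine ⟨fun x => k x + z, hk.continuous.add continuous_const, fun x hx => ⟨?_, ?_⟩⟩
  · by_contra! h
    exact hz' ⟨x, hx, trivial, ContinuousLinearMap.ext fun v => h _ ((hP x hx).1 v)⟩
  · have h3 := norm_add_le (k x - c x) z
    have h4 := mem_ball_zero_iff.1 hz
    have h5 := hk' x hx
    rw [add_sub_right_comm]
    linarith

variable {i : U' →L[ℝ] U} {p : U →L[ℝ] U'} {e f : U} {a b : U →L[ℝ] ℝ}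

omit [FiniteDimensional ℝ U'] in
theorem u_nd_res (s : Split i p e f a b) {T : Submodule ℝ U} {T' : Submodule ℝ U'}
    (hi : ∀ v ∈ T', i v ∈ T) (hp : ∀ u ∈ T, p u ∈ T') (he : e ∈ T) {w : Bil U}
    (nd : ND T w) (hb : ∀ v ∈ T, w e v = b v) : ND T' (bp i w) := by
  refine ⟨fun u hu => nd.1 _ (hi u hu), fun v hvT hv => ?_⟩
  have h : i v - w (i v) f • e = 0 := nd.2 _ (T.sub_mem (hi v hvT) (T.smul_mem _ he))
    fun u hu => by
      have h1 := hv (p u) (hp u hu)
      have h2 : w (i v) e = 0 := by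
        rw [nd.skew (hi v hvT) he, hb _ (hi v hvT), s.bi, neg_zero]
      rw [bp_apply] at h1
      have h3 : w (i v) u = b u * w (i v) f := by
        conv_lhs => rw [s.dec u]
        simp [h1, h2]
      simp only [map_sub, map_smul, sub_apply, smul_apply, hb u hu, h3, smul_eq_mul]
      ring
  have := congrArg p h
  simpa [s.pi, s.pe] using this

omit [FiniteDimensional ℝ U'] in
/-- REDUCTION: if the covector `w e` misses the negative ray, the plane splits off. -/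
theorem u_split {X : Type} [MetricSpace X] {S : Set X} (s : Split i p e f a b)
    {T : X → Submodule ℝ U} {T' : X → Submodule ℝ U'} (hT : CS S T)
    (hi : ∀ x ∈ S, ∀ v ∈ T' x, i v ∈ T x) (hp : ∀ x ∈ S, ∀ u ∈ T x, p u ∈ T' x)
    (he : ∀ x ∈ S, e ∈ T x) (hf : ∀ x ∈ S, f ∈ T x) {w : X → Bil U} (hw : NDField S T w)
    (hr : ∀ x ∈ S, 0 < w x e f ∨ ∃ v ∈ T' x, w x e (i v) ≠ 0) :
    ∃ w' : X → Bil U', NDField S T' w' ∧ ∀ x ∈ S, (∀ v ∈ T x, w x e v = b v) →
      ∀ u ∈ T' x, ∀ v ∈ T' x, w' x u v = w x (i u) (i v) := by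
  obtain ⟨w2, n2, h2, r2⟩ := u_move hT hw he (ψ := fun _ => b) continuousOn_const
    (fun _ _ => s.be) fun x hx => by
      rcases hr x hx with h | ⟨v, hv, h⟩
      · exact ⟨f, hf x hx, h, by simp [s.bf]⟩
      · refine ⟨f + ((1 - w x e f) / w x e (i v)) • i v,
          (T x).add_mem (hf x hx) ((T x).smul_mem _ (hi x hx v hv)), ?_, by simp [s.bf, s.bi]⟩
        simp only [map_add, map_smul, smul_eq_mul]
        have := div_mul_cancel₀ (1 - w x e f) h
        linarith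
  exact ⟨fun x => bp i (w2 x), ⟨ds_cont_bp i n2.cont, fun x hx =>
    u_nd_res s (hi x hx) (hp x hx) (he x hx) (n2.nd x hx) (h2 x hx)⟩, fun x hx h u hu v hv =>
    r2 x hx (fun v hv => (h v hv).symm) _ (hi x hx u hu) _ (hi x hx v hv)⟩

omit [FiniteDimensional ℝ U] in
/-- A positive lower bound for the covector `w e` on `T`. -/
theorem u_lower {X : Type} [TopologicalSpace X] {S : Set X} (hS : IsCompact S)
    {T : X → Submodule ℝ U} {P : X → U →L[ℝ] U} (cP : ContinuousOn P S)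
    (hP : ∀ x ∈ S, ∀ v ∈ T x, P x v = v) {φ : X → U →L[ℝ] ℝ} (cφ : ContinuousOn φ S)
    (nz : ∀ x ∈ S, ∃ v ∈ T x, φ x v ≠ 0) : ∃ δ > 0, ∀ x ∈ S, ∀ ψ : U →L[ℝ] ℝ, ‖ψ - φ x‖ < δ →
      ‖ψ.comp (P x) - (φ x).comp (P x)‖ < ‖(φ x).comp (P x)‖ := by
  have c1 : ContinuousOn (fun x => ‖(φ x).comp (P x)‖ / (‖P x‖ + 1)) S :=
    (cφ.clm_comp cP).norm.div (cP.norm.add continuousOn_const) fun x _ => by positivity
  obtain ⟨m, hm, hm'⟩ := hS.exists_forall_le' c1 (a := 0) fun x hx => by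
    obtain ⟨v, hv, hv'⟩ := nz x hx
    refine div_pos (norm_pos_iff.2 fun h => hv' ?_) (by positivity)
    simpa [hP x hx v hv] using congrArg (fun m : U →L[ℝ] ℝ => m v) h
  refine ⟨m, hm, fun x hx ψ hψ => ?_⟩
  have h1 := hm' x hx
  rw [le_div_iff₀ (by positivity)] at h1
  rw [← ContinuousLinearMap.sub_comp]
  have h2 := (ψ - φ x).opNorm_comp_le (P x)
  nlinarith [norm_nonneg (P x), norm_nonneg (ψ - φ x)]

/-- One step of destabilisation. -/
theorem u_step {n : ℕ} {S : Set F} (hS : IsCompact S) (hc : Cov n S) (s : Split i p e f a b)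
    {T : F → Submodule ℝ U} {T' : F → Submodule ℝ U'} (hT : CS S T) (hT' : u_SP S T')
    (hd : ∀ x ∈ S, n < finrank ℝ (T' x))
    (hi : ∀ x ∈ S, ∀ v ∈ T' x, i v ∈ T x) (hp : ∀ x ∈ S, ∀ u ∈ T x, p u ∈ T' x)
    (he : ∀ x ∈ S, e ∈ T x) (hf : ∀ x ∈ S, f ∈ T x) {w : F → Bil U} (hw : NDField S T w) :
    ∃ w' : F → Bil U', NDField S T' w' ∧ ∀ x ∈ S, (∀ v ∈ T x, w x e v = b v) →
      ∀ u ∈ T' x, ∀ v ∈ T' x, w' x u v = w x (i u) (i v) := by
  have cφ : ContinuousOn (fun x => w x e) S := hw.cont.clm_apply continuousOn_const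
  have e0 : e ≠ 0 := fun h => by simpa [h] using s.ae
  obtain ⟨P, cP, hP⟩ := id hT
  obtain ⟨m, hm, hm'⟩ := u_lower hS cP (fun x hx => (hP x hx).2) cφ fun x hx => by
    by_contra! h
    exact e0 ((hw.nd x hx).2 e (he x hx) h)
  have cc : ContinuousOn (fun x => (w x e).comp i) S := cφ.clm_comp continuousOn_const
  have hp0 : 0 < ‖p‖ + 1 := by positivity
  obtain ⟨c', c1, c2⟩ := u_avoid hS.isClosed hc hT' hd cc (div_pos hm hp0)
  let χ : F → ℝ := fun x => min 1 (max 0 (2 * (1 - w x e f)))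
  have cχ : ContinuousOn χ S :=
    (show Continuous fun t : ℝ => min 1 (max 0 (2 * (1 - t))) by fun_prop).comp_continuousOn
      (cφ.clm_apply continuousOn_const)
  have χ0 : ∀ x, 0 ≤ χ x := fun x => le_min zero_le_one (le_max_left _ _)
  let ψ : F → U →L[ℝ] ℝ := fun x => w x e + χ x • (c' x - (w x e).comp i).comp p
  have cψ : ContinuousOn ψ S :=
    cφ.add (cχ.smul ((c1.continuousOn.sub cc).clm_comp continuousOn_const))
  obtain ⟨w1, n1, h1, r1⟩ := u_move hT hw he cψ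
    (fun x hx => by simp [ψ, s.pe, (hw.nd x hx).1 e (he x hx)]) fun x hx =>
      u_pos (hP x hx).1 (hm' x hx _ (by
        have : ψ x - w x e = χ x • (c' x - (w x e).comp i).comp p := by simp [ψ]
        rw [this, norm_smul, Real.norm_of_nonneg (χ0 x)]
        have h3 := (c2 x hx).2
        rw [lt_div_iff₀ hp0] at h3
        calc _ ≤ 1 * (‖c' x - (w x e).comp i‖ * ‖p‖) :=
              mul_le_mul (min_le_left _ _) (ContinuousLinearMap.opNorm_comp_le _ _) (norm_nonneg _)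
                zero_le_one
          _ ≤ ‖c' x - (w x e).comp i‖ * (‖p‖ + 1) := by
              nlinarith [norm_nonneg (c' x - (w x e).comp i)]
          _ < _ := h3))
  obtain ⟨w2, n2, r2⟩ := u_split s hT hi hp he hf n1 fun x hx => by
    by_cases h : 0 < w x e f
    · left
      rw [h1 x hx f (hf x hx)]
      simpa [ψ, s.pf] using h
    · have h5 : χ x = 1 := min_eq_left (le_max_of_le_right (by linarith))
      obtain ⟨v, hv, hv'⟩ := (c2 x hx).1
      refine Or.inr ⟨v, hv, ?_⟩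
      rw [h1 x hx _ (hi x hx v hv)]
      simpa [ψ, h5, s.pi] using hv'
  refine ⟨w2, n2, fun x hx h u hu v hv => ?_⟩
  have h6 : ∀ v ∈ T x, ψ x v = w x e v := fun v _ => by
    simp [ψ, χ, h f (hf x hx), s.bf]
  rw [r2 x hx (fun v hv => by rw [h1 x hx v hv, h6 v hv, h v hv]) u hu v hv,
    r1 x hx h6 _ (hi x hx u hu) _ (hi x hx v hv)]

theorem u_ind {n : ℕ} {S : Set F} (hS : IsCompact S) (hc : Cov n S) {T : F → Submodule ℝ U}
    (hT : u_SP S T) (hd : ∀ x ∈ S, n < finrank ℝ (T x)) (k : ℕ) :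
    ∀ (K : Type) [NormedAddCommGroup K] [NormedSpace ℝ K] [FiniteDimensional ℝ K] (η : Bil K),
      finrank ℝ K = k → ND ⊤ η → ∀ w : F → Bil (U × K), NDField S (fun x => pl (T x) K) w →
      ∃ w' : F → Bil U, NDField S T w' ∧ ∀ x ∈ S, ∀ o : Bil U,
        (∀ u ∈ pl (T x) K, ∀ v ∈ pl (T x) K, w x u v = osum o η u v) →
          ∀ u ∈ T x, ∀ v ∈ T x, w' x u v = o u v := by
  induction k using Nat.strong_induction_on with
  | _ k ih =>
  intro K _ _ _ η hn hη w hw
  by_cases h0 : ∀ k : K, k = 0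
  · have hk : ∀ u : U × K, u = (u.1, 0) := fun u => Prod.ext rfl (h0 _)
    refine ⟨fun x => bp (ContinuousLinearMap.inl ℝ U K) (w x), ⟨ds_cont_bp _ hw.cont,
      fun x hx => ⟨fun u hu => (hw.nd x hx).1 _ (mem_pl.2 hu), fun u hu hu' => ?_⟩⟩,
      fun x hx o ho u hu v hv => ?_⟩
    · have := (hw.nd x hx).2 (u, 0) (mem_pl.2 hu) fun v hv => by
        rw [hk v]; exact hu' v.1 (mem_pl.1 hv)
      exact congrArg Prod.fst this
    · simpa using ho (u, 0) (mem_pl.2 hu) (v, 0) (mem_pl.2 hv)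
  push Not at h0
  obtain ⟨e, he⟩ := h0
  obtain ⟨f, hf⟩ : ∃ f, η e f = 1 := by
    by_contra! hf
    refine he (hη.2 e trivial fun v _ => by_contra fun hv => hf ((η e v)⁻¹ • v) ?_)
    simp [hv]
  obtain ⟨K', p, hK', s, -⟩ := ds_split hη hf
  have hlt : finrank ℝ K' < k := hn ▸ Submodule.finrank_lt fun h => hK' (h ▸ trivial)
  let i' : U × K' →L[ℝ] U × K := (ContinuousLinearMap.id ℝ U).prodMap K'.subtypeL
  let p' : U × K →L[ℝ] U × K' := (ContinuousLinearMap.id ℝ U).prodMap p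
  let a' : U × K →L[ℝ] ℝ := (-η f).comp (ContinuousLinearMap.snd ℝ U K)
  let b' : U × K →L[ℝ] ℝ := (η e).comp (ContinuousLinearMap.snd ℝ U K)
  have s' : Split i' p' (0, e) (0, f) a' b' :=
    ⟨fun u => Prod.ext (by simp [i', p']) (s.dec u.2), fun v => Prod.ext rfl (s.pi v.2),
      Prod.ext rfl s.pe, Prod.ext rfl s.pf, fun v => s.ai v.2, fun v => s.bi v.2, s.ae, s.af, s.be,
      s.bf⟩
  obtain ⟨w1, n1, y1⟩ := u_step hS hc s' (T' := fun x => pl (T x) K') hT.plus.cs hT.plus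
    (fun x hx => (hd x hx).trans_le (by rw [u_finrank_pl]; omega))
    (fun x _ v hv => mem_pl.2 (mem_pl.1 hv)) (fun x _ v hv => mem_pl.2 (mem_pl.1 hv))
    (fun x _ => mem_pl.2 (T x).zero_mem) (fun x _ => mem_pl.2 (T x).zero_mem) hw
  obtain ⟨w', n', y'⟩ := ih _ hlt K' (bp K'.subtypeL η) rfl (s.nd_res hη rfl) w1 n1
  refine ⟨w', n', fun x hx o ho => y' x hx o fun u hu v hv => ?_⟩
  rw [y1 x hx (fun v hv => by rw [ho _ (mem_pl.2 (T x).zero_mem) v hv]; simp [b']) u hu v hv,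
    ho _ (mem_pl.2 (mem_pl.1 hu)) _ (mem_pl.2 (mem_pl.1 hv))]
  simp [i']

/-- DESTABILISATION over a compact set of dimension below the rank of `T`. -/
theorem u_destab {n : ℕ} {S : Set F} (hS : IsCompact S) (hc : Cov n S) {T : F → Submodule ℝ U}
    (hT : u_SP S T) (hd : ∀ x ∈ S, n < finrank ℝ (T x)) {η : Bil U'} (hη : ND ⊤ η)
    {w : F → Bil (U × U')} (hw : NDField S (fun x => pl (T x) U') w) :
    ∃ w' : F → Bil U, NDField S T w' ∧ ∀ x ∈ S, ∀ o : Bil U,
      (∀ u ∈ pl (T x) U', ∀ v ∈ pl (T x) U', w x u v = osum o η u v) →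
        ∀ u ∈ T x, ∀ v ∈ T x, w' x u v = o u v :=
  u_ind hS hc hT hd _ U' η rfl hη w hw

end Pool.Agent.Lib.MP_ccffa6_gt
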