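import Pool.Agent.Lib.MP_ccffa6_gt.U.HSign
import Pool.Agent.Lib.MP_ccffa6_gt.U.DRed
import Pool.Agent.Lib.MP_ccffa6_gt.K.Proj

/-! General position for sections. -/

set_option maxSynthPendingDepth 3

open Set Filter Topology
open scoped ContDiff

noncomputable section

namespace Pool.Agent.Lib.MP_ccffa6_gt

variable {E : Type} [NormedAddCommGroup E] [NormedSpace ℝ E] [FiniteDimensional ℝ E]

/-- For almost every constant `z` all zeros of `k + z` have a local sign. -/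
theorem u_gp_thin {d : ℕ} {L : Set E} (hL : Closed d L) {k : ℝ × E → Cv E} (hk : ContDiff ℝ ∞ k) :
    Thin {z : Cv E | ∃ q : ℝ × E, q.2 ∈ L ∧ Van L q.2 (k q + z) ∧
      ¬ ∃ e, LocSign L (fun q => k q + z) q e} := by
  have key : Thin (Prod.snd '' {w : (ℝ × E) × Cv E | w.1.2 ∈ L ∧ Van L w.1.2 (k w.1 + w.2) ∧
      ¬ ∃ e, LocSign L (fun q => k q + w.2) w.1 e}) := by
    refine Thin.of_local fun w hw => ?_
    obtain ⟨φ, ψ, c⟩ := hL.sub w.1.2 hw.1
    obtain ⟨O, hO1, hO2, hO3⟩ := eventually_nhds_iff.1 c.right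
    let J : Rd d → Rd d × ℝ →L[ℝ] E × ℝ := fun y =>
      (fderiv ℝ φ y).prodMap (ContinuousLinearMap.id ℝ ℝ)
    have sJ : ContDiff ℝ ∞ J := (ContinuousLinearMap.prodMapL ℝ (Rd d) E ℝ ℝ).contDiff.comp
      ((contDiff_infty_iff_fderiv.1 c.smφ).2.prodMk contDiff_const)
    have sφ := c.smφ
    let G : (ℝ × Rd d) × Cv E → Cv (Rd d) := fun w =>
      (k (w.1.1, φ w.1.2) + w.2).comp (J w.1.2)
    have sG : ContDiff ℝ ∞ G :=
      ((hk.comp (by fun_prop)).add contDiff_snd).clm_comp (sJ.comp (by fun_prop))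
    have h1 := top_trans (X := ℝ × Rd d) (V := Cv (Rd d)) (by
        rw [← (LinearMap.toContinuousLinearMap (𝕜 := ℝ) (E := Rd d × ℝ) (F' := ℝ)).finrank_eq,
          Subspace.dual_finrank_eq]
        simp [add_comm])
      (U := {w : (ℝ × Rd d) × Cv E | w.1.2 ∈ O}) (hO2.preimage (by fun_prop))
      (sG.of_le (by exact_mod_cast le_top)).contDiffOn fun y p hy _ g => by
        have h2 : HasFDerivAt (fun p' => G (y, p'))
            ((ContinuousLinearMap.compL ℝ _ _ ℝ).flip (J y.2)) p :=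
          ((ContinuousLinearMap.compL ℝ (Rd d × ℝ) (E × ℝ) ℝ).flip (J y.2)).hasFDerivAt.comp p
            ((hasFDerivAt_id p).const_add (k (y.1, φ y.2)))
        have h3 : (fderiv ℝ ψ (φ y.2)).comp (fderiv ℝ φ y.2) = ContinuousLinearMap.id ℝ _ := by
          have h4 : ψ ∘ φ =ᶠ[𝓝 y.2] id :=
            (hO2.eventually_mem hy).mono fun z hz => (hO1 z hz).2
          rw [← fderiv_comp _ (c.smψ.differentiable (by simp) _) (sφ.differentiable (by simp) _),
            h4.fderiv_eq, fderiv_id]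
        refine ⟨g.comp ((fderiv ℝ ψ (φ y.2)).prodMap (ContinuousLinearMap.id ℝ ℝ)), ?_⟩
        rw [h2.fderiv]
        refine ContinuousLinearMap.ext fun v => ?_
        have h5 := congrArg (fun m : Rd d →L[ℝ] Rd d => m v.1) h3
        simp only [ContinuousLinearMap.comp_apply, ContinuousLinearMap.id_apply] at h5
        simp [J, Prod.map, h5]
    have h6 : Tendsto (fun w : (ℝ × E) × Cv E => w.1.2) (𝓝[{w : (ℝ × E) × Cv E | w.1.2 ∈ L ∧
        Van L w.1.2 (k w.1 + w.2) ∧ ¬ ∃ e, LocSign L (fun q => k q + w.2) w.1 e}] w)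
        (𝓝[L] w.1.2) :=
      (continuous_snd.comp continuous_fst).continuousWithinAt.tendsto_nhdsWithin fun p hp => hp.1
    have h7 : ∀ᶠ x in 𝓝[L] w.1.2, ψ x ∈ O :=
      mem_nhdsWithin_of_mem_nhds (c.smψ.continuous.continuousAt.eventually (hO2.mem_nhds hO3))
    refine ⟨_, inter_mem (h6.eventually (c.eventually.and h7)) self_mem_nhdsWithin, h1.mono ?_⟩
    rintro _ ⟨⟨q, z⟩, ⟨⟨c', hO⟩, hq, hv, hn⟩, rfl⟩
    have h0 : G ((q.1, ψ q.2), z) = 0 := by
      refine ContinuousLinearMap.ext fun v => ?_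
      simp only [G, c'.self hq]
      exact hv _ (mem_T1.2 ((c'.mem_tan hq _).2 ⟨_, rfl⟩))
    refine ⟨(q.1, ψ q.2), hO, h0, fun hi => hn ?_⟩
    exact u_locSign_inj hL.cpt.isClosed hq c' (hk.continuous.add continuous_const).continuousOn
      (((sG.comp (contDiff_id.prodMk contDiff_const)).differentiable (by simp) _).hasFDerivAt) h0 hi
  refine key.mono ?_
  rintro z ⟨q, h⟩
  exact ⟨(q, z), h, rfl⟩

/-- Every section is homotopic to one with finitely many signed points on the negative ray. -/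
theorem u_gp {d : ℕ} {L : Set E} (hL : Closed d L) {l : ℝ × E → Cv E × ℝ} (h : SecHtpy L l l) :
    ∃ k : ℤ, SecDeg L l k := by
  obtain ⟨m, ⟨cm, T, hT⟩, ha⟩ := h.exists_sec
  suffices ∃ k : ℤ, SecDeg L m k from this.imp fun k hk => hk.congr ha
  obtain ⟨P₀, O, s0, -, h2, h3⟩ := hL.sub.exists_proj hL.cpt Subset.rfl
  obtain ⟨P, sP, hP⟩ : u_SP (univ ×ˢ L) fun q : ℝ × E => T1 L q.2 :=
    u_SP.plus (T := fun q : ℝ × E => Tan L q.2)
      ⟨fun q => P₀ q.2, s0.comp contDiff_snd, fun q hq => h3 q.2 ⟨hq.2, h2 hq.2⟩⟩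
  have hsub : Icc (-T) T ×ˢ L ⊆ univ ×ˢ L := fun q hq => ⟨trivial, hq.2⟩
  have hK : IsCompact (Icc (-T) T ×ˢ L) := isCompact_Icc.prod hL.cpt
  have hS : IsCompact (Icc (-T) T ×ˢ L ∩ (fun q => (m q).2) ⁻¹' {0}) :=
    hK.of_isClosed_subset ((cm.snd.mono hsub).preimage_isClosed_of_isClosed hK.isClosed
      isClosed_singleton) inter_subset_left
  obtain ⟨δ, hδ, hδ'⟩ := u_lower hS sP.continuous.continuousOn
    (fun q hq => (hP q (hsub hq.1)).2) (cm.fst.mono (inter_subset_left.trans hsub)) fun q hq => by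
      by_contra! hv
      exact (hT q hq.1.2).1 hv hq.2
  have pos : ∀ q : ℝ × E, q.2 ∈ L → (m q).2 ≤ 0 → |q.1| < T := fun q hq h0 =>
    lt_of_not_ge fun h1 => absurd ((hT q hq).2 h1).2 (not_lt.2 h0)
  have nv : ∀ q : ℝ × E, q.2 ∈ L → ∀ a : Cv E, ‖a - (m q).1‖ < δ → Van L q.2 a → (m q).2 ≠ 0 :=
    fun q hq a h1 hv h0 => by
      have h4 := abs_lt.1 (pos q hq h0.le)
      have h5 := hδ' q ⟨⟨⟨h4.1.le, h4.2.le⟩, hq⟩, h0⟩ a h1
      have h6 : a.comp (P q) = 0 :=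
        ContinuousLinearMap.ext fun v => hv _ ((hP q ⟨trivial, hq⟩).1 v)
      simp [h6] at h5
  obtain ⟨k, hk, hk', -⟩ := exists_smooth_approx (h := fun _ => 0)
    (isClosed_univ.prod hL.cpt.isClosed) isClosed_empty cm.fst contDiff_const (by simp)
    (half_pos hδ)
  obtain ⟨z, hz, hz'⟩ := (u_gp_thin hL hk).exists_notMem (Metric.ball_mem_nhds 0 (half_pos hδ))
  have close : ∀ q : ℝ × E, q.2 ∈ L → ‖k q + z - (m q).1‖ < δ := fun q hq => by
    have h4 := norm_add_le (k q - (m q).1) z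
    have h5 := mem_ball_zero_iff.1 hz
    have h6 := hk' q ⟨trivial, hq⟩
    rw [add_sub_right_comm]
    linarith
  have sgn : ∀ q : ℝ × E, q.2 ∈ L → Van L q.2 (k q + z) →
      ∃ e, LocSign L (fun q => k q + z) q e := fun q hq hv => by
    by_contra hn
    exact hz' ⟨q, hq, hv, hn⟩
  let χ : ℝ → ℝ := fun t => max 0 (min 1 (T + 1 - |t|))
  have cχ : Continuous χ := by fun_prop
  have χ0 : ∀ t, 0 ≤ χ t ∧ χ t ≤ 1 := fun t =>
    ⟨le_max_left _ _, max_le zero_le_one (min_le_left _ _)⟩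
  have χ1 : ∀ t, |t| < T → χ t = 1 := fun t ht => by
    simp only [χ]
    rw [min_eq_left (by linarith), max_eq_right zero_le_one]
  let Λ : ℝ × (ℝ × E) → Cv E × ℝ := fun w =>
    ((m w.2).1 + (w.1 * χ w.2.1) • (k w.2 + z - (m w.2).1), (m w.2).2)
  have cm' : ContinuousOn (fun w : ℝ × (ℝ × E) => m w.2) (Icc 0 1 ×ˢ (univ ×ˢ L)) :=
    cm.comp continuousOn_snd fun w hw => hw.2
  have ck := hk.continuous
  have hΛ : SecHtpy L m fun q => Λ (1, q) := secHtpy_iff.2 ⟨Λ, T + 1,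
    (cm'.fst.add ((by fun_prop : Continuous fun w : ℝ × (ℝ × E) => w.1 * χ w.2.1).continuousOn.smul
      ((by fun_prop : Continuous fun w : ℝ × (ℝ × E) => k w.2 + z).continuousOn.sub
        cm'.fst))).prodMk cm'.snd,
    fun s hs q hq => ⟨nv q hq _ (by
      simp only [Λ, add_sub_cancel_left, norm_smul]
      rw [Real.norm_of_nonneg (mul_nonneg hs.1 (χ0 _).1)]
      exact (mul_le_of_le_one_left (norm_nonneg _)
        (mul_le_one₀ hs.2 (χ0 _).1 (χ0 _).2)).trans_lt (close q hq)), fun ht => by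
      have h4 : χ q.1 = 0 := max_eq_left (min_le_of_right_le (by linarith))
      simpa [Λ, h4] using (hT q hq).2 (by linarith)⟩,
    fun q _ => ⟨Agr.of_eq (by simp [Λ]), Agr.refl _ _ _⟩⟩
  have Λ1 : ∀ q : ℝ × E, |q.1| < T → (Λ (1, q)).1 = k q + z := fun q hq => by
    simp [Λ, χ1 _ hq]
  let Z : Set (ℝ × E) := Icc (-T) T ×ˢ L ∩
    (fun q => ((k q + z).comp (P q), (m q).2)) ⁻¹' ({0} ×ˢ Iic 0)
  have hZ : IsCompact Z := hK.of_isClosed_subset
    (((((ck.add continuous_const).clm_comp sP.continuous).continuousOn).prodMk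
      (cm.snd.mono hsub)).preimage_isClosed_of_isClosed hK.isClosed
      (isClosed_singleton.prod isClosed_Iic)) inter_subset_left
  have vZ : ∀ q ∈ Z, Van L q.2 (k q + z) := fun q hq v hv => by
    have h4 : (k q + z).comp (P q) = 0 := hq.2.1
    simpa [(hP q (hsub hq.1)).2 v hv] using congrArg (fun a : Cv E => a v) h4
  have fZ : Z.Finite := by
    refine hZ.finite (isDiscrete_iff_nhdsNE.2 fun p hp => ?_)
    obtain ⟨e, -, B, A, -, -, h4⟩ := sgn p hp.1.2 (vZ p hp)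
    rw [inf_principal_eq_bot]
    filter_upwards [mem_nhdsWithin_of_mem_nhds (eventually_nhdsWithin_iff.1 h4),
      self_mem_nhdsWithin] with q h5 h6 hq
    have h7 := h5 (hsub hq.1)
    exact h6 (h7.1 0 (by simp) fun v hv => (h7.2 v hv).1.trans (vZ q hq v hv))
  choose! e he using sgn
  refine ⟨_, _, fZ.toFinset, e, hΛ, ⟨fun q hq hv h0 => fZ.mem_toFinset.2 ?_, fun p hp => ?_⟩, rfl⟩
  · have h4 := pos q hq h0.le
    rw [Λ1 q h4] at hv
    exact ⟨⟨⟨(abs_lt.1 h4).1.le, (abs_lt.1 h4).2.le⟩, hq⟩,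
      ContinuousLinearMap.ext fun v => hv _ ((hP q ⟨trivial, hq⟩).1 v), h0.le⟩
  · have h4 := fZ.mem_toFinset.1 hp
    have h5 : (m p).2 ≤ 0 := h4.2.2
    refine ⟨h4.1.2, h5.lt_of_ne (nv p h4.1.2 _ (close p h4.1.2) (vZ p h4)),
      (he p h4.1.2 (vZ p h4)).congr ?_⟩
    have h6 : ∀ᶠ q : ℝ × E in 𝓝 p, |q.1| < T :=
      (isOpen_lt continuous_fst.abs continuous_const).eventually_mem (pos p h4.1.2 h5)
    filter_upwards [mem_nhdsWithin_of_mem_nhds h6] with q hq v _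
    rw [Λ1 q hq]

end Pool.Agent.Lib.MP_ccffa6_gt
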