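import Pool.Agent.Lib.MP_ccffa6_gt.U.Loc
import Pool.Agent.Lib.MP_ccffa6_gt.U.GPa

/-! General position for sections. -/

open Set Filter Topology
open scoped ContDiff

noncomputable section

namespace Pool.Agent.Lib.MP_ccffa6_gt.U

variable {E : Type} [NormedAddCommGroup E] [NormedSpace ℝ E] [FiniteDimensional ℝ E]

theorem gp {d : ℕ} {L : Set E} (hL : Closed d L) {l : ℝ × E → Cv E × ℝ} (h : SecHtpy L l l) :
    ∃ k : ℤ, SecDeg L l k := u_gp hL h

end Pool.Agent.Lib.MP_ccffa6_gt.U
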