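import Mathlib

/-! Determinants of continuous linear maps. -/

namespace Pool.Agent.Lib.MP_ccffa6_gt.U

variable {X Y : Type} [NormedAddCommGroup X] [NormedSpace ℝ X] [FiniteDimensional ℝ X]
  [NormedAddCommGroup Y] [NormedSpace ℝ Y] [FiniteDimensional ℝ Y]

theorem det_comp (A B : X →L[ℝ] X) : (A.comp B).det = A.det * B.det :=
  LinearMap.det_comp (A : X →ₗ[ℝ] X) (B : X →ₗ[ℝ] X)

theorem det_lower (A : X →L[ℝ] X) (l : X →L[ℝ] ℝ) (c : ℝ) {M : (X × ℝ) →L[ℝ] (X × ℝ)}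
    (h : ∀ z, M z = (A z.1, l z.1 + c * z.2)) : M.det = A.det * c := by
  classical
  let b := Module.finBasis ℝ X
  have e : LinearMap.toMatrix (b.prod (Module.Basis.singleton Unit ℝ))
      (b.prod (Module.Basis.singleton Unit ℝ)) (M : (X × ℝ) →ₗ[ℝ] (X × ℝ)) =
      Matrix.fromBlocks (LinearMap.toMatrix b b (A : X →ₗ[ℝ] X)) 0
        (Matrix.of fun _ j => l (b j)) (Matrix.of fun _ _ => c) := by
    ext (i | i) (j | j) <;> simp [LinearMap.toMatrix_apply, h]
  rw [ContinuousLinearMap.det, ← LinearMap.det_toMatrix (b.prod (Module.Basis.singleton Unit ℝ)),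
    e, Matrix.det_fromBlocks_zero₁₂, LinearMap.det_toMatrix, Matrix.det_unique]
  rfl

theorem det_upper (A : X →L[ℝ] X) (v : X) (c : ℝ) {M : (X × ℝ) →L[ℝ] (X × ℝ)}
    (h : ∀ z, M z = (A z.1 + z.2 • v, c * z.2)) : M.det = A.det * c := by
  classical
  let b := Module.finBasis ℝ X
  have e : LinearMap.toMatrix (b.prod (Module.Basis.singleton Unit ℝ))
      (b.prod (Module.Basis.singleton Unit ℝ)) (M : (X × ℝ) →ₗ[ℝ] (X × ℝ)) =
      Matrix.fromBlocks (LinearMap.toMatrix b b (A : X →ₗ[ℝ] X))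
        (Matrix.of fun i _ => b.repr v i) 0 (Matrix.of fun _ _ => c) := by
    ext (i | i) (j | j) <;> simp [LinearMap.toMatrix_apply, h]
  rw [ContinuousLinearMap.det, ← LinearMap.det_toMatrix (b.prod (Module.Basis.singleton Unit ℝ)),
    e, Matrix.det_fromBlocks_zero₂₁, LinearMap.det_toMatrix, Matrix.det_unique]
  rfl

theorem det_conj (e : X ≃L[ℝ] Y) (A : X →L[ℝ] X) :
    (((e : X →L[ℝ] Y).comp A).comp (e.symm : Y →L[ℝ] X)).det = A.det :=
  LinearMap.det_conj (A : X →ₗ[ℝ] X) e.toLinearEquiv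

/-- `det (A B) = det (B A)` when `A` is an isomorphism. -/
theorem det_swap (e : X ≃L[ℝ] Y) (B : Y →L[ℝ] X) :
    ((e : X →L[ℝ] Y).comp B).det = (B.comp (e : X →L[ℝ] Y)).det := by
  rw [← det_conj e (B.comp (e : X →L[ℝ] Y))]
  refine congrArg _ (ContinuousLinearMap.ext fun y => ?_)
  simp

theorem det_smul_id (c : ℝ) :
    (c • ContinuousLinearMap.id ℝ X).det = c ^ Module.finrank ℝ X := by
  have h := LinearMap.det_smul c (LinearMap.id : X →ₗ[ℝ] X)
  rw [LinearMap.det_id, mul_one] at h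
  exact h

/-- The transpose: `l ↦ l ∘ I` (`LinearMap.det_dualMap`, `LinearMap.toContinuousLinearMap`). -/
theorem det_precomp (I : X →L[ℝ] X) :
    ((ContinuousLinearMap.compL ℝ X X ℝ).flip I).det = I.det := by
  rw [ContinuousLinearMap.det, ContinuousLinearMap.det,
    ← LinearMap.det_dualMap (I : X →ₗ[ℝ] X),
    ← LinearMap.det_conj (I : X →ₗ[ℝ] X).dualMap LinearMap.toContinuousLinearMap]
  exact congrArg _ (LinearMap.ext fun l => ContinuousLinearMap.ext fun x => rfl)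

theorem det_j_precomp (j : (X →L[ℝ] ℝ) ≃L[ℝ] Y) (I : X →L[ℝ] X) (D : Y →L[ℝ] (X →L[ℝ] ℝ)) :
    ((j : (X →L[ℝ] ℝ) →L[ℝ] Y).comp (((ContinuousLinearMap.compL ℝ X X ℝ).flip I).comp D)).det =
      I.det * ((j : (X →L[ℝ] ℝ) →L[ℝ] Y).comp D).det := by
  rw [← det_precomp I, ← det_conj j, ← det_comp]
  refine congrArg _ (ContinuousLinearMap.ext fun y => ?_)
  simp only [ContinuousLinearMap.comp_apply, ContinuousLinearEquiv.coe_coe,
    ContinuousLinearEquiv.symm_apply_apply]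

end Pool.Agent.Lib.MP_ccffa6_gt.U
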