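import Pool.Agent.Lib.MP_ccffa6_gt.U.SDef
import Pool.Agent.Lib.MP_ccffa6_gt.U.Det

/-! The trivialisation of `T M1 ⊕ ℝ` over the chart, and transplanted forms on the slab. -/

set_option maxSynthPendingDepth 3

open Set Filter Topology
open scoped ContDiff

noncomputable section

namespace Pool.Agent.Lib.MP_ccffa6_gt.U

variable {E : Type} [NormedAddCommGroup E] [NormedSpace ℝ E] [FiniteDimensional ℝ E]

variable {n p q : ℕ} {M : Set E} {φ : Fm p q → E} {ψ : E → Fm p q} {ρ : E → ℝ} {f k : ℝ → ℝ}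
  {R₁ : ℝ} {ν : E × ℝ → E × ℝ}

/-- `T M1 ⊕ ℝ → T (M × ℝ) → model`. -/
def Phi (ψ : E → Fm p q) (ν : E × ℝ → E × ℝ) (z : E × ℝ) : ((E × ℝ) × ℝ) →L[ℝ] (Fm p q × ℝ) :=
  (d1 ψ z.1).comp (inc (ν z))

/-- The same, read in the chart `Mod.chart_mid`. -/
def Imid (φ : Fm p q → E) (ψ : E → Fm p q) (ν : E × ℝ → E × ℝ) (w : Fm p q) :
    (Fm p q × ℝ) →L[ℝ] (Fm p q × ℝ) :=
  (Phi ψ ν (φ w, 6 / 5 * Qf w)).comp (d1 (fun w' => (φ w', 6 / 5 * Qf w')) w)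

theorem Mod.cont_Phi (h : Mod n M φ ψ ρ f k R₁) (hν : Continuous ν) : Continuous (Phi ψ ν) :=
  ((continuous_d1 h.bc.smψ).comp continuous_fst).clm_comp (continuous_inc.comp hν)

theorem oddi_sm (h : Mod n M φ ψ ρ f k R₁) :
    ContDiff ℝ ∞ fun w' : Fm p q => (φ w', 6 / 5 * Qf w') :=
  h.bc.smφ.prodMk (contDiff_const.mul contDiff_Qf)

theorem Mod.cont_Imid (h : Mod n M φ ψ ρ f k R₁) (hν : Continuous ν) :
    Continuous (Imid φ ψ ν) :=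
  ((h.cont_Phi hν).comp (oddi_sm h).continuous).clm_comp (continuous_d1 (oddi_sm h))

theorem Mod.Phi_bijOn (h : Mod n M φ ψ ρ f k R₁)
    (hs : Slab (2 * n + 2) (M ×ˢ univ) (Fg ψ ρ f k) 0 (R₁ + 10) ν) {w : Fm p q}
    (hw : ‖w‖ < R₁ + 3) {T : ℝ} (hz : (φ w, T) ∈ M1 M ψ ρ f k) :
    BijOn (Phi ψ ν (φ w, T)) (T1 (M1 M ψ ρ f k) (φ w, T)) (⊤ : Submodule ℝ (Fm p q × ℝ)) := by
  have h1 := slab_inc_bijOn hs (Or.inl rfl) hz
  rw [tan_cyl h.cl.sub hz.1.1] at h1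
  exact (h.bc.d1_bijOn (hw.trans (lt_add_one _))).comp h1

theorem oddi_fderiv (hf : Prof f) (hk : Cut k R₁) {w : Fm p q} (hw : Nf w < 5 / 4)
    (v : Fm p q × ℝ) :
    fderiv ℝ (Fmod f k) (w, 6 / 5 * Qf w) v = 6 * fderiv ℝ Qf w v.1 - 5 * v.2 := by
  have a1 := abs_Qf_le w
  have e : Fmod f k =ᶠ[𝓝 (w, 6 / 5 * Qf w)] fun z => 6 * Qf z.1 - 5 * z.2 := by
    have c1 : ∀ᶠ z : Fm p q × ℝ in 𝓝 (w, 6 / 5 * Qf w), Nf z.1 < 16 :=
      (contDiff_Nf.continuous.comp continuous_fst).continuousAt.eventually_lt continuousAt_const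
        (by simp only [Function.comp]; linarith)
    have c2 : ∀ᶠ z : Fm p q × ℝ in 𝓝 (w, 6 / 5 * Qf w), |tau z| < 1 / 4 :=
      contDiff_tau.continuous.abs.continuousAt.eventually_lt continuousAt_const (by
        simp only [tau]
        rw [abs_lt]
        constructor <;> linarith [(abs_le.1 a1).1, (abs_le.1 a1).2])
    filter_upwards [c1, c2] with z b1 b2 using Fmod_mid hf hk b1.le b2.le
  have d : HasFDerivAt (fun z : Fm p q × ℝ => 6 * Qf z.1 - 5 * z.2) _ (w, 6 / 5 * Qf w) :=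
    ((HasFDerivAt.comp (w, 6 / 5 * Qf w) (g := Qf)
      (contDiff_Qf.differentiable (by simp) w).hasFDerivAt hasFDerivAt_fst).const_mul 6).sub
      (hasFDerivAt_snd.const_mul 5)
  rw [e.fderiv_eq, d.fderiv]
  simp

/-- `Imid w (v, r) = (v + r • ν₁, (6/5) dQ v + r ν₂)`, `(ν₁, ν₂) = d1 ψ (φ w) ν`,
`6 dQ ν₁ - 5 ν₂ = 1` (`Mod.in_fderiv`, `Fmod_mid` near the point). It is the composite of
`(v, r) ↦ (v + r • ν₁, -r/5)` and `(v, r) ↦ (v, (6/5) dQ v + r)`. -/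
theorem Mod.det_Imid (h : Mod n M φ ψ ρ f k R₁)
    (hs : Slab (2 * n + 2) (M ×ˢ univ) (Fg ψ ρ f k) 0 (R₁ + 10) ν) {w : Fm p q}
    (hw : Nf w < 5 / 4) : (Imid φ ψ ν w).det = -1 / 5 := by
  have hR := h.ct.lt
  have n1 : ‖w‖ < R₁ + 3 := by nlinarith [norm_sq_le_Nf w, norm_nonneg w]
  obtain ⟨hm, -⟩ := h.chart_mid hw
  obtain ⟨t1, t2⟩ := hs.tν _ ⟨hm.1, Or.inl hm.2⟩
  rw [tan_cyl h.cl.sub hm.1.1] at t1
  rw [h.in_fderiv n1 _ t1, oddi_fderiv h.pf h.ct hw, d1_apply] at t2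
  have e : fderiv ℝ (fun w => (φ w, 6 / 5 * Qf w)) w =
      (fderiv ℝ φ w).prod ((6 / 5 : ℝ) • fderiv ℝ Qf w) :=
    ((h.bc.smφ.differentiable (by simp) _).hasFDerivAt.prodMk
      ((contDiff_Qf.differentiable (by simp) _).hasFDerivAt.const_mul _)).fderiv
  have l : ∀ v, fderiv ℝ ψ (φ w) (fderiv ℝ φ w v) = v := fun v =>
    congrArg Prod.fst (h.bc.d1_left (n1.trans (lt_add_one _)) (v, 0))
  let ν₁ := fderiv ℝ ψ (φ w) (ν (φ w, 6 / 5 * Qf w)).1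
  let A : (Fm p q × ℝ) →L[ℝ] (Fm p q × ℝ) := (ContinuousLinearMap.fst ℝ _ _).prod
    (((6 / 5 : ℝ) • fderiv ℝ Qf w).comp (ContinuousLinearMap.fst ℝ _ _) +
      ContinuousLinearMap.snd ℝ _ _)
  let B : (Fm p q × ℝ) →L[ℝ] (Fm p q × ℝ) := (ContinuousLinearMap.fst ℝ _ _ +
    (ContinuousLinearMap.snd ℝ _ _).smulRight ν₁).prod
      ((-1 / 5 : ℝ) • ContinuousLinearMap.snd ℝ _ _)
  have hA := det_lower (ContinuousLinearMap.id ℝ _) ((6 / 5 : ℝ) • fderiv ℝ Qf w) 1 (M := A)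
    fun z => by simp [A]
  have hB := det_upper (ContinuousLinearMap.id ℝ _) ν₁ (-1 / 5) (M := B) fun z => by simp [B]
  have hI : Imid φ ψ ν w = A.comp B := by
    refine ContinuousLinearMap.ext fun v => Prod.ext ?_ ?_
    · simp [Imid, Phi, A, B, e, l, ν₁]
    · simp only [Imid, Phi, A, B, e, ν₁, ContinuousLinearMap.comp_apply, d1_apply, inc_apply,
        ContinuousLinearMap.prod_apply, add_apply, smul_apply, ContinuousLinearMap.coe_fst',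
        ContinuousLinearMap.coe_snd', ContinuousLinearMap.smulRight_apply, map_add, map_smul,
        smul_eq_mul, Prod.snd_add, Prod.smul_snd]
      simp only at t2
      linear_combination (-v.2 / 5) * t2
  have h1 : (ContinuousLinearMap.id ℝ (Fm p q)).det = 1 := LinearMap.det_id
  rw [hI, det_comp, hA, hB, h1]
  norm_num

/-- `Θ z = Ωc z.1 + bp (ρ z.1 • (B (ψ z.1, z.2) - w₀)) (d1 ψ z.1)`; `BChart.cases'`, `R' = 3`. -/
theorem Mod.theta (h : Mod n M φ ψ ρ f k R₁) {Ωc : E → Bil (E × ℝ)} (hΩ : Formal M Ωc)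
    {w₀ : Bil (Fm p q × ℝ)}
    (hc : ∀ w : Fm p q, ‖w‖ ≤ 3 → ∀ u ∈ T1 M (φ w), ∀ v ∈ T1 M (φ w),
      Ωc (φ w) u v = w₀ (d1 ψ (φ w) u) (d1 ψ (φ w) v))
    {B : Fm p q × ℝ → Bil (Fm p q × ℝ)} (hB : Continuous B)
    (hn : ∀ z, 0 ≤ Fmod f k z → ND ⊤ (B z)) (ho : ∀ z, 3 ≤ ‖z.1‖ ∨ 20 ≤ z.2 → B z = w₀) :
    ∃ Θ : E × ℝ → Bil (E × ℝ),
      NDField (M ×ˢ univ ∩ Fg ψ ρ f k ⁻¹' Icc 0 (R₁ + 10)) (fun z => T1 M z.1) Θ ∧
      (∀ x ∈ M, Θ (x, R₁ + 10) = Ωc x) ∧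
      ∀ w : Fm p q, ‖w‖ ≤ 3 → ∀ T, ∀ u ∈ T1 M (φ w), ∀ v ∈ T1 M (φ w),
        Θ (φ w, T) u v = B (w, T) (d1 ψ (φ w) u) (d1 ψ (φ w) v) := by
  have hR := h.ct.lt
  have key : ∀ w : Fm p q, ‖w‖ ≤ 3 → ∀ T, ∀ u ∈ T1 M (φ w), ∀ v ∈ T1 M (φ w),
      (Ωc (φ w) + bp (ρ (φ w) • (B (ψ (φ w), T) - w₀)) (d1 ψ (φ w))) u v =
        B (w, T) (d1 ψ (φ w) u) (d1 ψ (φ w) v) := fun w hw T u hu v hv => by
    rw [h.bc.one w (by linarith), h.bc.inv w (by linarith)]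
    simp only [add_apply, ContinuousLinearMap.bilinearComp_apply, one_smul, sub_apply,
      hc w hw u hu v hv]
    ring
  have zero : ∀ (x : E) (T : ℝ), ρ x = 0 ∨ B (ψ x, T) = w₀ →
      Ωc x + bp (ρ x • (B (ψ x, T) - w₀)) (d1 ψ x) = Ωc x := fun x T hx => by
    refine ContinuousLinearMap.ext fun u => ContinuousLinearMap.ext fun v => ?_
    rcases hx with hx | hx <;> simp [hx]
  refine ⟨fun z => Ωc z.1 + bp (ρ z.1 • (B (ψ z.1, z.2) - w₀)) (d1 ψ z.1), ⟨?_, fun z hz => ?_⟩,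
    fun x _ => zero x _ (Or.inr (ho _ (Or.inr (by simp only; linarith)))), key⟩
  · refine (hΩ.cont.comp continuousOn_fst fun z hz => hz.1.1).add (Continuous.continuousOn ?_)
    have c1 : Continuous fun z : E × ℝ => ρ z.1 • (B (ψ z.1, z.2) - w₀) :=
      (h.bc.smρ.continuous.comp continuous_fst).smul ((hB.comp
        ((h.bc.smψ.continuous.comp continuous_fst).prodMk continuous_snd)).sub continuous_const)
    have c2 : Continuous fun z : E × ℝ => d1 ψ z.1 := (continuous_d1 h.bc.smψ).comp continuous_fst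
    refine continuous_clm_apply.2 fun u => continuous_clm_apply.2 fun v => ?_
    exact (c1.clm_apply (c2.clm_apply continuous_const)).clm_apply (c2.clm_apply continuous_const)
  · obtain ⟨x, T⟩ := z
    rcases h.bc.cases' (R' := 3) (by linarith) hz.1.1 with ⟨w, hw, rfl⟩ | hx | hx
    · have h0 : 0 ≤ Fmod f k (w, T) := by
        rw [← h.in_eq (by linarith) T]
        exact hz.2.1
      exact ((hn _ h0).comp (h.bc.d1_bijOn (by linarith))).congr fun u hu v hv =>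
        (key w hw T u hu v hv).symm
    · simp only
      rw [zero x T (Or.inl hx)]
      exact hΩ.nd x hz.1.1
    · simp only
      rw [zero x T (Or.inr (ho _ (Or.inl hx.le)))]
      exact hΩ.nd x hz.1.1

end Pool.Agent.Lib.MP_ccffa6_gt.U
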