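import Pool.Agent.Lib.MP_ccffa6_gt.U.OddM
import Pool.Agent.Lib.MP_ccffa6_gt.U.OddI
import Pool.Agent.Lib.MP_ccffa6_gt.U.SelfP

/-! The period on the middle level in the odd case. -/

set_option maxSynthPendingDepth 3

open Set Filter Topology
open scoped ContDiff

noncomputable section

namespace Pool.Agent.Lib.MP_ccffa6_gt.U

variable {E : Type} [NormedAddCommGroup E] [NormedSpace ℝ E] [FiniteDimensional ℝ E]

theorem odd_cov_smul {V : Type} [NormedAddCommGroup V] [NormedSpace ℝ V] (r : ℝ)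
    (w : Bil (V × (ℝ × ℝ))) : cov1 (r • w) = r • cov1 w := rfl

theorem odd_cov_zero {V : Type} [NormedAddCommGroup V] [NormedSpace ℝ V] :
    cov1 (0 : Bil (V × (ℝ × ℝ))) = 0 := rfl

theorem odd_sign_neg (x : ℝ) :
    (SignType.sign (-1 / 5 * x) : ℤ) = -(SignType.sign x : ℤ) := by
  rw [sign_mul, sign_neg (by norm_num : (-1 / 5 : ℝ) < 0)]
  simp

section

variable {n p q : ℕ} {M : Set E} {φ : Fm p q → E} {ψ : E → Fm p q} {ρ : E → ℝ} {f k : ℝ → ℝ}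
  {R₁ : ℝ} {ν : E × ℝ → E × ℝ}

theorem Mod.odd_cases (h : Mod n M φ ψ ρ f k R₁) {z : E × ℝ} (hz : z ∈ M1 M ψ ρ f k) :
    (‖ψ z.1‖ ≤ 3 ∧ φ (ψ z.1) = z.1 ∧ ρ z.1 = 1 ∧ Fmod f k (ψ z.1, z.2) = 0) ∨ ρ z.1 = 0 ∨
      3 ≤ ‖ψ z.1‖ := by
  have hR := h.ct.lt
  rcases h.bc.cases' (R' := 3) (by linarith) hz.1.1 with ⟨w, hw, e⟩ | h0 | h0
  · have e1 : ψ z.1 = w := by rw [e, h.bc.inv w (by linarith)]
    have e2 : Fg ψ ρ f k (z.1, z.2) = 0 := hz.2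
    rw [e, h.in_eq (by linarith)] at e2
    exact Or.inl ⟨e1 ▸ hw, by rw [e1, e], by rw [e, h.bc.one w (by linarith)], e1 ▸ e2⟩
  · exact Or.inr (Or.inl h0)
  · exact Or.inr (Or.inr h0.le)

theorem Mod.odd_bij (h : Mod n M φ ψ ρ f k R₁)
    (hs : Slab (2 * n + 2) (M ×ˢ univ) (Fg ψ ρ f k) 0 (R₁ + 10) ν) {z : E × ℝ}
    (hz : z ∈ M1 M ψ ρ f k) (h1 : ‖ψ z.1‖ ≤ 3) (h2 : φ (ψ z.1) = z.1) :
    BijOn (Phi ψ ν z) (T1 (M1 M ψ ρ f k) z) (⊤ : Submodule ℝ (Fm p q × ℝ)) := by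
  have hR := h.ct.lt
  have e : (φ (ψ z.1), z.2) = z := by rw [h2]
  have := h.Phi_bijOn hs (w := ψ z.1) (by linarith) (T := z.2) (by rw [e]; exact hz)
  rwa [e] at this

/-- The local sign at a ray point. -/
theorem Mod.odd_loc (h : Mod n M φ ψ ρ f k R₁) (hν : ContDiff ℝ ∞ ν)
    (hs : Slab (2 * n + 2) (M ×ˢ univ) (Fg ψ ρ f k) 0 (R₁ + 10) ν)
    (j : Cv (Fm p q) ≃L[ℝ] (ℝ × Fm p q)) {a : ℝ × (Fm p q × ℝ) → Cv (Fm p q)}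
    (ca : Continuous a) : ∃ c : ℤ, (c = 1 ∨ c = -1) ∧ ∀ (y : ℝ × Fm p q)
      (D : (ℝ × Fm p q) →L[ℝ] Cv (Fm p q)), Nf y.2 < 1 → a (y.1, (y.2, 6 / 5 * Qf y.2)) = 0 →
      HasFDerivAt (fun y' : ℝ × Fm p q => a (y'.1, (y'.2, 6 / 5 * Qf y'.2))) D y →
      ((j : Cv (Fm p q) →L[ℝ] (ℝ × Fm p q)).comp D).det ≠ 0 →
      LocSign (M1 M ψ ρ f k) (fun z : ℝ × (E × ℝ) =>
        (ρ z.2.1 • a (z.1, (ψ z.2.1, z.2.2))).comp (Phi ψ ν z.2)) (y.1, (φ y.2, 6 / 5 * Qf y.2))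
        (c * (SignType.sign ((j : Cv (Fm p q) →L[ℝ] (ℝ × Fm p q)).comp D).det : ℤ)) := by
  have hR := h.ct.lt
  obtain ⟨c, hc, hloc⟩ := locSign_chart (Fm p q) j
  refine ⟨-c, by omega, fun y D hy h0 hD hd => ?_⟩
  obtain ⟨hm, hch⟩ := h.chart_mid (w := y.2) (by linarith)
  have hy1 : ‖y.2‖ < 1 := by
    have := norm_sq_le_Nf y.2
    nlinarith [norm_nonneg y.2]
  have hi : ψ (φ y.2) = y.2 := h.bc.inv _ (by linarith)
  let B : ℝ × Fm p q → Cv (Fm p q) →L[ℝ] Cv (Fm p q) := fun z =>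
    (ContinuousLinearMap.compL ℝ (Fm p q × ℝ) (Fm p q × ℝ) ℝ).flip (Imid φ ψ ν z.2)
  have cB : Continuous B :=
    (ContinuousLinearMap.compL ℝ (Fm p q × ℝ) (Fm p q × ℝ) ℝ).flip.continuous.comp
      ((h.cont_Imid hν.continuous).comp continuous_snd)
  have hD' := hasFDerivAt_of_zero hD h0 cB.continuousAt
  have hdet : ((j : Cv (Fm p q) →L[ℝ] (ℝ × Fm p q)).comp ((B y).comp D)).det =
      -1 / 5 * ((j : Cv (Fm p q) →L[ℝ] (ℝ × Fm p q)).comp D).det := by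
    rw [← h.det_Imid hs (w := y.2) (by linarith)]
    exact det_j_precomp j (Imid φ ψ ν y.2) D
  have cψ := h.bc.smψ.continuous
  have cρ := h.bc.smρ.continuous
  have := hloc (E × ℝ) (M1 M ψ ρ f k) _ _ (fun z : ℝ × (E × ℝ) =>
      (ρ z.2.1 • a (z.1, (ψ z.2.1, z.2.2))).comp (Phi ψ ν z.2)) (y.1, (φ y.2, 6 / 5 * Qf y.2))
    ((B y).comp D) (h.closed1 hs).cpt.isClosed hm hch
    (((cρ.comp (by fun_prop)).smul (ca.comp (by fun_prop))).clm_comp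
      ((h.cont_Phi hν.continuous).comp continuous_snd)).continuousOn
    (by
      show HasFDerivAt _ _ (y.1, ψ (φ y.2))
      rw [hi]
      refine hD'.congr_of_eventuallyEq ?_
      have hn : ∀ᶠ z : ℝ × Fm p q in 𝓝 y, ‖z.2‖ < 1 :=
        continuous_snd.norm.continuousAt.eventually (isOpen_Iio.mem_nhds hy1)
      filter_upwards [hn] with z hz
      simp only [h.bc.inv z.2 (by linarith), h.bc.one z.2 (by linarith), one_smul]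
      rfl)
    (fun v _ => by simp only [hi, h0, smul_zero, ContinuousLinearMap.zero_comp, zero_apply])
    (by rw [hdet]; exact mul_ne_zero (by norm_num) hd)
  rw [hdet, odd_sign_neg] at this
  convert this using 1
  ring

theorem Mod.odd_core (h : Mod n M φ ψ ρ f k R₁) (hν : ContDiff ℝ ∞ ν)
    (hs : Slab (2 * n + 2) (M ×ˢ univ) (Fg ψ ρ f k) 0 (R₁ + 10) ν) {Θ : E × ℝ → Bil (E × ℝ)}
    (hF : Formal (M1 M ψ ρ f k) (lev ν Θ)) {B : Fm p q × ℝ → Bil (Fm p q × ℝ)}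
    (hΘ : ∀ w : Fm p q, ‖w‖ ≤ 3 → ∀ T, ∀ u ∈ T1 M (φ w), ∀ v ∈ T1 M (φ w),
      Θ (φ w, T) u v = B (w, T) (d1 ψ (φ w) u) (d1 ψ (φ w) v))
    {Δ : ℝ × (Fm p q × ℝ) → Bil ((Fm p q × ℝ) × (ℝ × ℝ))} (cΔ : Continuous Δ)
    (oΔ : ∀ t z, 3 ≤ ‖z.1‖ ∨ 1 ≤ |t| → Δ (t, z) = 0)
    (nΔ : ∀ t z, Fmod f k z = 0 → ND ⊤ (osum (B z) eta0 + Δ (t, z)))
    {a : ℝ × (Fm p q × ℝ) → Cv (Fm p q)} (ca : Continuous a)
    (ea : ∀ y, 0 ≤ 1 + (cov1 (Δ y)).2 → a y = (cov1 (Δ y)).1) {Z : Finset (ℝ × Fm p q)}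
    (za : ∀ t z, Fmod f k z = 0 → a (t, z) = 0 → 1 + (cov1 (Δ (t, z))).2 < 0 →
      (t, z.1) ∈ Z ∧ z.2 = 6 / 5 * Qf z.1) {e : ℝ × Fm p q → ℤ}
    (hZ : ∀ y ∈ Z, Nf y.2 < 1 ∧ 1 + (cov1 (Δ (y.1, (y.2, 6 / 5 * Qf y.2)))).2 < 0 ∧
      LocSign (M1 M ψ ρ f k) (fun z : ℝ × (E × ℝ) =>
        (ρ z.2.1 • a (z.1, (ψ z.2.1, z.2.2))).comp (Phi ψ ν z.2)) (y.1, (φ y.2, 6 / 5 * Qf y.2))
        (e y)) :
    R (M1 M ψ ρ f k) (∑ y ∈ Z, e y) (lev ν Θ) (lev ν Θ) := by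
  classical
  have hR := h.ct.lt
  have cψ := h.bc.smψ.continuous
  have cρ := h.bc.smρ.continuous
  have cΦ := h.cont_Phi hν.continuous
  let D : ℝ × (E × ℝ) → Bil ((Fm p q × ℝ) × (ℝ × ℝ)) := fun z =>
    ρ z.2.1 • Δ (z.1, (ψ z.2.1, z.2.2))
  have cD : Continuous D := (cρ.comp (by fun_prop)).smul (cΔ.comp (by fun_prop))
  have D0 : ∀ z : ℝ × (E × ℝ), ρ z.2.1 = 0 ∨ 3 ≤ ‖ψ z.2.1‖ → D z = 0 := fun z hz => by
    rcases hz with hz | hz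
    · simp only [D, hz, zero_smul]
    · simp only [D, oΔ z.1 (ψ z.2.1, z.2.2) (Or.inl hz), smul_zero]
  obtain ⟨hS, hR'⟩ := selfpath hF cΦ.continuousOn cD.continuousOn
    (B := fun z => B (ψ z.1, z.2)) (fun z hz => by
      rcases h.odd_cases hz with ⟨h1, h2, h3, h4⟩ | h0
      · refine Or.inr ⟨h.odd_bij hs hz h1 h2, fun u hu v hv => ?_, ?_⟩
        · have hb := (slab_inc_bijOn hs (Or.inl rfl) hz).mapsTo
          rw [tan_cyl h.cl.sub hz.1.1] at hb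
          have := hΘ (ψ z.2.1) h1 z.2.2
          rw [h2] at this
          exact this _ (hb hu) _ (hb hv)
        · simp only [D, h3, one_smul]
          exact nΔ _ _ h4
      · exact Or.inl (D0 z h0))
    (A := 1) fun z _ hz => by simp only [D, oΔ z.1 (ψ z.2.1, z.2.2) (Or.inr hz), smul_zero]
  have hin : ∀ y ∈ Z, ψ (φ y.2) = y.2 ∧ ρ (φ y.2) = 1 := fun y hy => by
    have h1 := norm_sq_le_Nf y.2
    have h2 : ‖y.2‖ < 1 := by nlinarith [norm_nonneg y.2, (hZ y hy).1]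
    exact ⟨h.bc.inv _ (by linarith), h.bc.one _ (by linarith)⟩
  refine hR' _ ⟨fun z => ((ρ z.2.1 • a (z.1, (ψ z.2.1, z.2.2))).comp (Phi ψ ν z.2),
    1 + (cov1 (D z)).2), Z.image fun y => (y.1, (φ y.2, 6 / 5 * Qf y.2)),
    fun z => e (z.1, ψ z.2.1), hS.htpy.modify ?_ (fun _ _ => rfl) fun z hz h0 v _ => ?_,
    ⟨fun z hz hv h0 => ?_, fun z hz => ?_⟩, ?_⟩
  · exact ((((cρ.comp (by fun_prop)).smul (ca.comp (by fun_prop))).clm_comp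
      (cΦ.comp continuous_snd)).sub ((continuous_cov1.comp cD).fst.clm_comp
        (cΦ.comp continuous_snd))).continuousOn
  · have key : ρ z.2.1 • a (z.1, (ψ z.2.1, z.2.2)) = (cov1 (D z)).1 := by
      rcases h.odd_cases hz with ⟨-, -, h3, -⟩ | h3 | h3
      · simp only [D, h3, one_smul] at h0 ⊢
        exact ea _ h0
      · rw [D0 z (Or.inl h3), h3, zero_smul]
        rfl
      · have h4 := oΔ z.1 (ψ z.2.1, z.2.2) (Or.inl h3)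
        rw [D0 z (Or.inr h3), ea _ (by rw [h4, odd_cov_zero]; simp), h4, odd_cov_zero]
        simp
    simp only [key]
  · rcases h.odd_cases hz with ⟨h1, h2, h3, h4⟩ | h3
    · simp only [D, h3, one_smul] at h0 hv
      obtain ⟨b1, b2⟩ := za z.1 (ψ z.2.1, z.2.2) h4 (ContinuousLinearMap.ext fun v => by
        obtain ⟨u, hu, rfl⟩ := (h.odd_bij hs hz h1 h2).surjOn (Submodule.mem_top (x := v))
        exact hv u hu) h0
      exact Finset.mem_image.2 ⟨_, b1, Prod.ext rfl (Prod.ext h2 b2.symm)⟩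
    · simp only [D0 z h3, odd_cov_zero] at h0
      norm_num at h0
  · obtain ⟨y, hy, rfl⟩ := Finset.mem_image.1 hz
    obtain ⟨b1, b2, b3⟩ := hZ y hy
    refine ⟨(h.chart_mid (w := y.2) (by linarith)).1, ?_, ?_⟩
    · simp only [D, (hin y hy).1, (hin y hy).2, one_smul]
      exact b2
    · simp only [(hin y hy).1]
      exact b3
  · rw [Finset.sum_image fun y hy y' hy' hh => ?_]
    · exact Finset.sum_congr rfl fun y hy => by simp only [(hin y hy).1]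
    · obtain ⟨b1, b2⟩ := Prod.mk.inj hh
      refine Prod.ext b1 ?_
      rw [← (hin y hy).1, ← (hin y' hy').1, (Prod.mk.inj b2).1]

end

/-- `BChart.const`, `u_exists_j`, `oddM`, `Mod.theta`. `selfpath` on `M1` with `Φ = Phi ψ ν`,
`B' z = B (ψ z.1, z.2)`, `D q = ρ q.2.1 • Δ (q.1, (ψ q.2.1, q.2.2))` (`BChart.cases'`, `R' = 3`,
`Mod.in_eq`, `Mod.Phi_bijOn`; formal by `slab_lev_formal`, `tan_cyl`). `SecHtpy.modify` to
`((ρ q.2.1 • a (q.1, (ψ q.2.1, q.2.2))) ∘ Φ q.2, same)`. Ray points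
`Z.image fun y => (y.1, (φ y.2, 6/5 * Qf y.2))`; `locSign_chart` with `Mod.chart_mid`: near `y` the
field in the chart is `(a (y'.1, (y'.2, 6/5 * Qf y'.2))) ∘ Imid y'.2`, derivative by
`hasFDerivAt_of_zero`, determinant by `det_j_precomp`, `Mod.det_Imid`: all signs are
`-c * sign det (j ∘ D y)`. -/
theorem Mod.odd {n : ℕ} {M : Set E} {φ : Fm 1 (2 * n) → E} {ψ : E → Fm 1 (2 * n)} {ρ : E → ℝ}
    {f k : ℝ → ℝ} {R₁ : ℝ} {ν : E × ℝ → E × ℝ} (h : Mod n M φ ψ ρ f k R₁) (hB : BottStmt n)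
    (hn : 1 ≤ n) (hν : ContDiff ℝ ∞ ν)
    (hs : Slab (2 * n + 2) (M ×ˢ univ) (Fg ψ ρ f k) 0 (R₁ + 10) ν) {Ω : E → Bil (E × ℝ)}
    (hΩ : Formal M Ω) :
    ∃ (Ωc : E → Bil (E × ℝ)) (Θ : E × ℝ → Bil (E × ℝ)) (d : ℤ), Formal M Ωc ∧ Htpy M Ω Ωc ∧
      NDField (M ×ˢ univ ∩ Fg ψ ρ f k ⁻¹' Icc 0 (R₁ + 10)) (fun z => T1 M z.1) Θ ∧
      (∀ x ∈ M, Θ (x, R₁ + 10) = Ωc x) ∧ Formal (M1 M ψ ρ f k) (lev ν Θ) ∧ d ≠ 0 ∧
      R (M1 M ψ ρ f k) d (lev ν Θ) (lev ν Θ) := by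
  have hR := h.ct.lt
  obtain ⟨Ωc, w₀, hΩc, hH, hw, hc⟩ := h.bc.const (by linarith) hΩ
  obtain ⟨j⟩ := u_exists_j (Fm 1 (2 * n))
  obtain ⟨B, Δ, a, Z, D, cB, nB, oB, cΔ, oΔ, nΔ, ca, ea, za, hZ, hsum⟩ :=
    oddM hB hn h.pf h.ct hw j
  obtain ⟨Θ, hΘ, hΘt, hΘc⟩ := h.theta hΩc (fun w hw' => hc w (by linarith)) cB nB oB
  have hm : ∀ z ∈ M1 M ψ ρ f k, z ∈ M ×ˢ univ ∩ Fg ψ ρ f k ⁻¹' Icc 0 (R₁ + 10) := fun z hz =>
    ⟨hz.1, by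
      have e : Fg ψ ρ f k z = 0 := hz.2
      exact ⟨e.ge, e.le.trans (by linarith)⟩⟩
  have hF : Formal (M1 M ψ ρ f k) (lev ν Θ) :=
    slab_lev_formal hs (Or.inl rfl) ⟨hΘ.cont.mono hm, fun z hz => by
      rw [tan_cyl h.cl.sub hz.1.1]
      exact hΘ.nd _ (hm z hz)⟩
  obtain ⟨c, hc1, hloc⟩ := h.odd_loc hν hs j ca
  refine ⟨Ωc, Θ, _, hΩc, hH, hΘ, hΘt, hF, ?_, h.odd_core hν hs hF hΘc cΔ oΔ nΔ ca ea za
    fun y hy => ⟨(hZ y hy).1, (hZ y hy).2.1, hloc y (D y) (hZ y hy).1 (hZ y hy).2.2.1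
      (hZ y hy).2.2.2.1 (hZ y hy).2.2.2.2⟩⟩
  rw [← Finset.mul_sum]
  exact mul_ne_zero (by omega) hsum

end Pool.Agent.Lib.MP_ccffa6_gt.U
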