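import Pool.Agent.Lib.MP_ccffa6_gt.U.S
import Pool.Agent.Lib.MP_ccffa6_gt.U.GP
import Pool.Agent.Lib.MP_ccffa6_gt.U.Destab
import Pool.Agent.Lib.MP_ccffa6_gt.U.Even
import Pool.Agent.Lib.MP_ccffa6_gt.U.Odd
import Pool.Agent.Lib.MP_ccffa6_gt.U.Bott

/-! Block U. -/

open Set Filter Topology
open scoped ContDiff

noncomputable section

namespace Pool.Agent.Lib.MP_ccffa6_gt.U

variable {E : Type} [NormedAddCommGroup E] [NormedSpace ℝ E] [FiniteDimensional ℝ E]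

theorem ug_of_period {n : ℕ} (hE : ELIKStmt n) (hn : 1 ≤ n) {M : Set E}
    (hM : Closed (2 * n + 1) M) (hc : IsConnected M) {Ω : E → Bil (E × ℝ)} (hΩ : Formal M Ω)
    (hg : SGood n M Ω) {p : ℤ} (hp : p ≠ 0) (hR : R M p Ω Ω) : UG n M Ω := by
  obtain ⟨β, h1, h2, h3⟩ := hg
  obtain ⟨H, hH⟩ := destab hM h3
  obtain ⟨d, hd⟩ := gp hM hH.sec
  obtain ⟨e, he, hS⟩ := S_main hE hn hM hc
  have ind : ∀ m : ℕ, ∀ Ω, Formal M Ω → R M (e * m) (symz β) Ω → UG n M Ω := by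
    intro m
    induction m with
    | zero => exact fun Ω _ h => ⟨β, h1, h2, R.htpy hM hc (by simpa using h)⟩
    | succ m ih =>
      intro Ω hΩ h
      obtain ⟨Ω', a1, a2, a3⟩ := hS Ω hΩ
      have a4 := h.add a2.neg
      refine a3 (ih Ω' a1 ?_)
      convert a4 using 1
      push_cast
      ring
  have h4 := R.add ⟨H, hH, hd⟩ (hR.mul hΩ (e * p * |d|))
  have h5 : 0 ≤ e * d + p * p * |d| := by
    have a1 : 1 ≤ p * p := by
      rcases lt_or_gt_of_ne hp with h | h <;> nlinarith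
    have a2 := le_abs_self d
    have a3 := neg_abs_le d
    have a4 := abs_nonneg d
    rcases he with h | h <;> subst h <;> nlinarith
  obtain ⟨m, hm⟩ := Int.eq_ofNat_of_zero_le h5
  refine ind m Ω hΩ ?_
  convert h4 using 1
  rw [← hm]
  rcases he with h | h <;> subst h <;> ring

end Pool.Agent.Lib.MP_ccffa6_gt.U

namespace Pool.Agent.Lib.MP_ccffa6_gt

open U

theorem U_main {n : ℕ} (hn : 2 ≤ n) (hF : F0Stmt n) (hE : ELIKStmt n) : UStmt n := by
  intro E _ _ _ M Ω hM hc hΩ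
  rcases Nat.even_or_odd n with he | ho
  · obtain ⟨p, hp, hR⟩ := even_period (bott he.add_one (by omega)) hM hc.nonempty hΩ
    exact ug_of_period hE (by omega) hM hc hΩ (hF E M Ω hM hΩ) hp hR
  · have h3 : 3 ≤ n := by
      obtain ⟨k, hk⟩ := ho
      omega
    obtain ⟨φ, ψ, ρ, f, k, R₁, h⟩ := exists_mod 1 (2 * n) (by omega) hM hc.nonempty
    obtain ⟨ν, hν, hs⟩ := h.slab
    obtain ⟨Ωc, Θ, d, a1, a2, a3, a4, a5, a6, a7⟩ := h.odd (bott ho h3) (by omega) hν hs hΩ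
    have b1 := ug_of_period hE (by omega) (h.closed1 hs) (h.conn hc le_rfl (by omega)) a5
      (hF _ _ _ (h.closed1 hs) a5) a6 a7
    exact (h.up hE (by omega) hs a3 a1 (fun x hx u _ v _ => by rw [a4 x hx]) b1).htpy
      (NDHtpy.symm a2)

end Pool.Agent.Lib.MP_ccffa6_gt
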