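import Pool.Agent.Lib.MP_ccffa6_gt.U.BDef
import Pool.Agent.Lib.MP_b7c8b0_gt.Pencil

/-! Pencils, sums, homotopies. -/

open Set Filter Topology Matrix Pool.Agent.Lib.MP_b7c8b0_gt
open scoped ContDiff ComplexConjugate

noncomputable section

namespace Pool.Agent.Lib.MP_ccffa6_gt.U

variable {ι : Type} [Fintype ι] [DecidableEq ι] {n : Type} [Fintype n] [DecidableEq n]
  {t s z : ι} {l : List ι}

theorem ubpen_det {E : Matrix n n ℂ} (hE : E * E = E) {c : ℂ} (hc : c ≠ 0) :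
    (1 + (c - 1) • E).det ≠ 0 := by
  refine (Matrix.isUnit_det_of_right_inverse (B := 1 + (c⁻¹ - 1) • E) ?_).ne_zero
  have h1 : (c - 1) * (c⁻¹ - 1) + (c - 1) + (c⁻¹ - 1) = 0 := by
    linear_combination mul_inv_cancel₀ hc
  have h2 : (1 + (c - 1) • E) * (1 + (c⁻¹ - 1) • E)
      = 1 + ((c - 1) * (c⁻¹ - 1) + (c - 1) + (c⁻¹ - 1)) • E := by
    simp only [add_mul, mul_add, one_mul, mul_one, smul_mul_assoc, mul_smul_comm, hE]
    module
  rw [h2, h1, zero_smul, add_zero]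

theorem ubpen_seg {e : MS n ι} (he : e * e = e) {a b : Sm ι}
    (hs : ∀ x (r : ℝ), 0 ≤ r → r ≤ 1 → (1 - (r : ℂ)) * a.1 x + r * b.1 x ≠ 0) :
    Seg (1 + (a - 1) • e) (1 + (b - 1) • e) := fun r h0 h1 x => by
  convert ubpen_det (E := ev e x) (by rw [← ev_mul, he]) (hs x r h0 h1) using 2
  rw [ev_add, ev_add, ev_smul, ev_smul, ev_one]
  change ((1 - r : ℝ) : ℂ) • (1 + (a.1 x - 1) • ev e x) + (r : ℂ) • (1 + (b.1 x - 1) • ev e x) = _
  push_cast
  module

theorem ubpen_tor {e : MS n ι} (ht : TorM [] l e) {u : Sm ι} (hu : Tor [] [z] u) :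
    TorM [] (z :: l) (1 + (u - 1) • e) :=
  TorM.one.add (TorM.smul ((hu.mono (fun _ h => h) fun _ h =>
    Or.inr (List.mem_singleton.1 h ▸ List.mem_cons_self)).sub Tor.one)
    (ht.mono (fun _ h => h) fun _ h => Or.inr (List.mem_cons_of_mem _ h)))

/-- A pencil with another loop in place of `zeta z`. -/
theorem ub_pen (m : ℕ) (hN : (t :: s :: z :: l).Nodup) {e : MS n ι} (he : e * e = e)
    (ht : TorM [] l e) {u : Sm ι} (hu : Tor [] [z] u)
    (hs : ∀ x (r : ℝ), 0 ≤ r → r ≤ 1 → (1 - (r : ℂ)) * (zeta z).1 x + r * u.1 x ≠ 0) :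
    MP_b7c8b0_gt.Inv (1 + (u - 1) • e) ∧ TorM [] (z :: l) (1 + (u - 1) • e) ∧
      Ch (m + 1) t (z :: l) (1 + (u - 1) • e) =
        (m + 1 : ℕ) * (2 * Real.pi * Complex.I) * JJ m l e := by
  have h := ubpen_seg he hs
  exact ⟨h.right, ubpen_tor ht hu,
    (Ch_seg (m + 1) hN h ht.pencil (ubpen_tor ht hu)).symm.trans (Ch_pencil m hN he ht)⟩

theorem ub_Ch_inv (m : ℕ) (hN : (t :: s :: l).Nodup) {g : MS n ι} (hg : MP_b7c8b0_gt.Inv g)
    (ht : TorM [] l g) : Ch m t l g⁻¹ = -Ch m t l g := by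
  have h := Ch_mul m hN hg hg.inv ht (ht.inv hg)
  rw [hg.mul_inv, Ch_one] at h
  linear_combination -h

/-- The conjugate pencil. -/
theorem ub_pen' (m : ℕ) (hN : (t :: s :: z :: l).Nodup) {e : MS n ι} (he : e * e = e)
    (ht : TorM [] l e) {u u' : Sm ι} (hu : Tor [] [z] u) (hu' : ∀ x, u'.1 x = conj (u.1 x))
    (hs : ∀ x (r : ℝ), 0 ≤ r → r ≤ 1 → (1 - (r : ℂ)) * (zeta z).1 x + r * u.1 x ≠ 0) :
    MP_b7c8b0_gt.Inv (1 + (u' - 1) • e) ∧ TorM [] (z :: l) (1 + (u' - 1) • e) ∧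
      Ch (m + 1) t (z :: l) (1 + (u' - 1) • e) =
        -((m + 1 : ℕ) * (2 * Real.pi * Complex.I) * JJ m l e) := by
  have hz : ∀ x, (pencilZi z).1 x = conj ((zeta z).1 x) := fun x => by
    change Complex.exp (-(2 * Real.pi * Complex.I * (x z : ℝ))) =
      conj (Complex.exp (2 * Real.pi * Complex.I * (x z : ℝ)))
    rw [← Complex.exp_conj]
    simp [map_ofNat]
  have h := ubpen_seg (a := pencilZi z) (b := u') he fun x r h0 h1 h2 => hs x r h0 h1 (by
    have h3 := congrArg conj h2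
    simpa [hz, hu'] using h3)
  have tu : Tor [] [z] u' := fun x y h1 h2 => by rw [hu', hu', hu x y h1 h2]
  have t0 := ht.pencil (z := z).inv (pencil_inv he z)
  refine ⟨h.right, ubpen_tor ht tu, ?_⟩
  rw [← Ch_pencil m hN he ht, ← ub_Ch_inv (m + 1) hN (pencil_inv he z) ht.pencil]
  rw [pencil_inv_eq he] at t0 ⊢
  exact (Ch_seg (m + 1) hN h t0 (ubpen_tor ht tu)).symm

/-- `reindexAlgEquiv` commutes with `fnM`, `dM`, inverse and trace. -/
theorem ub_Ch_reindex {n' : Type} [Fintype n'] [DecidableEq n'] (e : n ≃ n') (m : ℕ) (g : MS n ι) :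
    Ch m t l (reindex e e g) = Ch m t l g := by
  have hmc : mc (reindex e e g) = reindexAlgEquiv ℂ (Om ι) e (mc g) := by
    rw [mc, mc, map_mul, inv_reindex]
    rfl
  have hlin : ∀ A : MO n ι, lin t 0 (reindexAlgEquiv ℂ (Om ι) e A) =
      reindexAlgEquiv ℂ (Om ι) e (lin t 0 A) := fun A => by
    simp only [lin, zero_add, sub_zero]
    rfl
  have hcurv : ∀ A : MO n ι, curv (reindexAlgEquiv ℂ (Om ι) e A) =
      reindexAlgEquiv ℂ (Om ι) e (curv A) := fun A => by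
    rw [curv, curv, map_add, map_mul]
    rfl
  have htr : ∀ A : MO n ι, trace (reindexAlgEquiv ℂ (Om ι) e A) = trace A := fun A =>
    e.symm.sum_comp fun a => A a a
  rw [Ch, Ch, TT, TT, hmc, hlin, ch, ch, hcurv, ← map_pow, htr]

/-- `fromBlocks g 0 0 1 * fromBlocks 1 0 0 g'`, `Ch_mul`, `Ch_block`, `ub_Ch_reindex (sumComm ..)`. -/
theorem ub_Ch_sum {n' : Type} [Fintype n'] [DecidableEq n'] (m : ℕ) (hN : (t :: s :: l).Nodup)
    {g : MS n ι} {g' : MS n' ι} (hg : MP_b7c8b0_gt.Inv g) (hg' : MP_b7c8b0_gt.Inv g')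
    (ht : TorM [] l g) (ht' : TorM [] l g') :
    Ch m t l (fromBlocks g 0 0 g') = Ch m t l g + Ch m t l g' := by
  have e1 : fromBlocks g 0 0 g' = fromBlocks g 0 0 1 * fromBlocks 1 0 0 g' := by
    simp [fromBlocks_multiply]
  have e2 : fromBlocks (1 : MS n ι) 0 0 g' =
      reindex (Equiv.sumComm n' n) (Equiv.sumComm n' n) (fromBlocks g' 0 0 1) := by
    ext (a | a) (b | b) <;> rfl
  have tb : ∀ {a : MS n ι} {b : MS n' ι}, TorM [] l a → TorM [] l b →
      TorM [] l (fromBlocks a 0 0 b) := fun ha hb => by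
    rintro (i | i) (j | j)
    exacts [ha i j, Tor.zero, Tor.zero, hb i j]
  rw [e1, Ch_mul m hN (Inv.of_mul (h := fromBlocks g⁻¹ 0 0 1) (by
      simp [fromBlocks_multiply, hg.mul_inv])) (Inv.of_mul (h := fromBlocks 1 0 0 g'⁻¹) (by
      simp [fromBlocks_multiply, hg'.mul_inv])) (tb ht TorM.one) (tb TorM.one ht'),
    Ch_block m hg, e2, ub_Ch_reindex, Ch_block m hg']

/-- Smooth homotopy invariance: the last ten lines of `Ch_seg` in `MP_b7c8b0_gt/Trans`. -/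
theorem ub_Ch_htpy (m : ℕ) (hN : (t :: s :: l).Nodup) {G : MS n ι} (hG : MP_b7c8b0_gt.Inv G)
    (ht : TorM [s] l G) : Ch m t l (fSM s 0 G) = Ch m t l (fSM s 1 G) := by
  obtain ⟨hts, htl, hsl⟩ := trans_nodup hN
  have hm : Adm [t] l (mc G) := Adm.mc hG ht
    (fun i hi => by
      rw [List.mem_singleton.mp hi]
      exact ⟨by simpa using hts, fun h => htl t h rfl⟩)
    (fun i hi => by simpa using (hsl i hi).symm)
  have h1 := trans_sq m hN (M := lin t 0 (mc G)) (sgM_lin _ (by simp) hm.odd) (fun i hi => by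
    simp only [faceM_lin_ne (htl i hi), hm.per i hi, map_zero])
  have e : ch m (mc G) = ch m (0 : MO n ι) := by rw [ch, ch, hG.curv_mc, curv_zero]
  rw [faceM_lin_ne hts, faceM_lin_ne hts, faceM_lin_one, faceM_lin_zero, hG.faceM_mc s,
    hG.faceM_mc s, trans_face_ind (hm.ind t (by simp)), e] at h1
  simp only [map_zero, sub_self, sub_eq_zero] at h1
  exact h1.symm

end Pool.Agent.Lib.MP_ccffa6_gt.U
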