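import Pool.Agent.Lib.MP_ccffa6_gt.U.BFun
import Pool.Agent.Lib.MP_ccffa6_gt.U.BPen
import Pool.Agent.Lib.MP_b7c8b0_gt.Destab

/-! The Chern character number of a family on the cube. -/

open Set Filter Topology Matrix Pool.Agent.Lib.MP_b7c8b0_gt
open scoped ContDiff ComplexConjugate

noncomputable section

namespace Pool.Agent.Lib.MP_ccffa6_gt.U

variable {n : Type} [Fintype n] [DecidableEq n] {m : ℕ}
  {A A' : YY (2 * m + 1) → Matrix n n ℂ} {c c' : ℂ}

theorem ub_nodup (m : ℕ) :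
    ((none : II m) :: some (Fin.cast (ub_cast m) 0) :: ll m).Nodup := by
  have h : List.ofFn (some : Fin ((m + 1) * 2) → II m) = some (Fin.cast (ub_cast m) 0) :: ll m := by
    rw [List.ofFn_congr (ub_cast m).symm, List.ofFn_succ]
    rfl
  rw [← h]
  exact List.nodup_cons.2 ⟨by simp, List.nodup_ofFn.2 (Option.some_injective _)⟩

theorem ub_length (m : ℕ) : (ll m).length = 2 * m + 1 := List.length_ofFn

theorem ubch_fr {x y : II m → ℝ} (h : ∀ i ∈ ll m, ∃ k : ℤ, x i = y i + k) : fr m x = fr m y := by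
  funext i
  obtain ⟨k, hk⟩ := h _ (List.mem_ofFn.2 ⟨i, rfl⟩)
  simp only [fr, hk, Int.fract_add_intCast]

theorem exists_per (hA : SmGood A) : ∃ g, Per m A g :=
  ⟨of fun a b => Sm.mk (fun x => A (fr m x) a b) ((contDiff_fract (E := ℝ) (f := fun p => A p.2 a b)
    ((hA.smooth a b).comp contDiff_snd) fun s y hy => by simp only [hA.out y hy]).comp
      ((contDiff_const (c := (0 : ℝ))).prodMk (contDiff_pi.2 fun i => contDiff_apply ℝ ℝ _))),
    fun _ => rfl⟩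

theorem Per.inv {g : MS n (II m)} (h : Per m A g) (hA : SmGood A) : MP_b7c8b0_gt.Inv g :=
  fun x => h x ▸ hA.det _

theorem Per.tor {g : MS n (II m)} (h : Per m A g) : TorM [] (ll m) g :=
  torM_iff.2 fun x y _ H => by rw [h x, h y, ubch_fr H]

theorem exists_isCh (hA : SmGood A) : ∃ c, IsCh m A c :=
  let ⟨g, hg⟩ := exists_per hA
  ⟨_, hA, g, hg, rfl⟩

theorem IsCh.per (h : IsCh m A c) {g : MS n (II m)} (hg : Per m A g) :
    Ch (m + 1) none (ll m) g = c := by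
  obtain ⟨-, g', h1, rfl⟩ := h
  rw [ev_ext fun x => (hg x).trans (h1 x).symm]

theorem IsCh.mul (h : IsCh m A c) (h' : IsCh m A' c') : IsCh m (fun y => A y * A' y) (c + c') := by
  obtain ⟨hA, g, hg, rfl⟩ := h
  obtain ⟨hA', g', hg', rfl⟩ := h'
  refine ⟨⟨fun a b => ?_, fun y => ?_, fun y hy => by rw [hA.out y hy, hA'.out y hy]⟩, g * g',
    fun x => by rw [ev_mul, hg, hg'],
    Ch_mul _ (ub_nodup m) (hg.inv hA) (hg'.inv hA') hg.tor hg'.tor⟩
  · simp only [mul_apply]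
    exact ContDiff.sum fun j _ => (hA.smooth a j).mul (hA'.smooth j b)
  · rw [det_mul]
    exact mul_ne_zero (hA.det y) (hA'.det y)

theorem isCh_const {B : Matrix n n ℂ} (hB : B.det ≠ 0) : IsCh m (fun _ => B) 0 := by
  have hA : SmGood fun _ : YY (2 * m + 1) => B :=
    ⟨fun _ _ => contDiff_const, fun _ => hB, fun _ _ => rfl⟩
  obtain ⟨g, hg⟩ := exists_per hA
  have h : some (Fin.cast (ub_cast m) (Fin.succ 0)) ∈ ll m := List.mem_ofFn.2 ⟨0, rfl⟩
  exact ⟨hA, g, hg, Ch_ind _ h (Option.some_ne_none _).symm (hg.inv hA)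
    (ev_ext fun x => by rw [ev_fSM, hg, hg])⟩

theorem IsCh.inv (h : IsCh m A c) : IsCh m (fun y => (A y)⁻¹) (-c) := by
  obtain ⟨hA, g, hg, rfl⟩ := h
  let G : MS n (Fin (2 * m + 1)) := of fun a b => Sm.mk _ (hA.smooth a b)
  have hG : MP_b7c8b0_gt.Inv G := hA.det
  refine ⟨⟨fun a b => ?_, fun y => ?_, fun y hy => by rw [hA.out y hy]⟩, g⁻¹,
    fun x => by rw [(hg.inv hA).ev_inv, hg], ub_Ch_inv _ (ub_nodup m) (hg.inv hA) hg.tor⟩
  · have e : (fun y => (A y)⁻¹ a b) = (G⁻¹ a b).1 :=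
      funext fun y => (congrFun (congrFun (hG.ev_inv y) a) b).symm
    exact e ▸ Sm.smooth _
  · exact (isUnit_nonsing_inv_det _ (hA.det y).isUnit).ne_zero

theorem ubch_sum {n' : Type} [Fintype n'] [DecidableEq n'] {B : YY (2 * m + 1) → Matrix n' n' ℂ}
    (h : SmGood A) (h' : SmGood B) : SmGood fun y => fromBlocks (A y) 0 0 (B y) := by
  refine ⟨?_, fun y => ?_, fun y hy => by rw [h.out y hy, h'.out y hy]⟩
  · rintro (a | a) (b | b)
    exacts [h.smooth a b, contDiff_const, contDiff_const, h'.smooth a b]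
  · rw [det_fromBlocks_zero₁₂]
    exact mul_ne_zero (h.det y) (h'.det y)

theorem ubch_ev {n' ι : Type} [Fintype n'] [Fintype ι] (g : MS n ι) (g' : MS n' ι) (x : ι → ℝ) :
    ev (fromBlocks g 0 0 g') x = fromBlocks (ev g x) 0 0 (ev g' x) := by
  ext (a | a) (b | b) <;> rfl

theorem IsCh.sum {n' : Type} [Fintype n'] [DecidableEq n'] {B : YY (2 * m + 1) → Matrix n' n' ℂ}
    (h : IsCh m A c) (h' : IsCh m B c') : IsCh m (fun y => fromBlocks (A y) 0 0 (B y)) (c + c') := by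
  obtain ⟨hA, g, hg, rfl⟩ := h
  obtain ⟨hB, g', hg', rfl⟩ := h'
  exact ⟨ubch_sum hA hB, fromBlocks g 0 0 g', fun x => by rw [ubch_ev, hg, hg'],
    ub_Ch_sum _ (ub_nodup m) (hg.inv hA) (hg'.inv hB) hg.tor hg'.tor⟩

theorem IsCh.blk {N q : Type} [Fintype N] [DecidableEq N] [Fintype q] [DecidableEq q]
    (e : N ≃ n ⊕ q) (h : IsCh m A c) : IsCh m (fun y => blk e (A y)) c := by
  obtain ⟨hA, g, hg, hc⟩ := h.sum (isCh_const (B := (1 : Matrix q q ℂ)) (by simp))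
  refine ⟨⟨fun a b => hA.smooth _ _, fun y => ?_, fun y hy => by rw [h.1.out y hy]⟩,
    reindex e.symm e.symm g, fun x => congrArg (reindex e.symm e.symm) (hg x), ?_⟩
  · rw [destab_det_blk]
    exact h.1.det y
  · rw [ub_Ch_reindex, hc, add_zero]

/-- Cutting a periodic family which is `1` near the boundary of the cube. -/
theorem ub_cut {g : MS n (II m)} (hg : MP_b7c8b0_gt.Inv g) (ht : TorM [] (ll m) g)
    (ho : ∀ x, (∃ i ∈ ll m, Int.fract (x i) ≤ 1 / 4 ∨ 3 / 4 ≤ Int.fract (x i)) → ev g x = 1) :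
    ∃ A, SmGood A ∧ A 0 = 1 ∧ Per m A g := by
  obtain ⟨τ, h1, h2, h3⟩ := ub_tau
  let j := fun i : Fin (2 * m + 1) => (some (Fin.cast (ub_cast m) i.succ) : II m)
  have hj : Function.Injective j := (Option.some_injective _).comp
    ((Fin.cast_injective _).comp (Fin.succ_injective _))
  let X := fun y : YY (2 * m + 1) => Function.extend j (fun i => τ (y i)) 0
  have hX : ∀ y i, X y (j i) = τ (y i) := fun y i => hj.extend_apply _ _ i
  have sX : ContDiff ℝ ∞ X := contDiff_pi.2 fun a => by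
    by_cases h : ∃ i, j i = a
    · obtain ⟨i, rfl⟩ := h
      simp only [hX]
      exact h1.comp (contDiff_apply ℝ ℝ i)
    · simp only [X, Function.extend_apply' _ _ _ h]
      exact contDiff_const
  have hO : ∀ y, Out y → ev g (X y) = 1 := fun y ⟨i, hi⟩ =>
    ho _ ⟨j i, List.mem_ofFn.2 ⟨i, rfl⟩, hX y i ▸ h3 _ hi⟩
  have h0 := hO 0 ⟨0, Or.inl (by norm_num)⟩
  refine ⟨fun y => ev g (X y), ⟨fun a b => (Sm.smooth (g a b)).comp sX, fun y => hg _,
    fun y hy => (hO y hy).trans h0.symm⟩, h0, fun x => ?_⟩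
  by_cases h : Out (fr m x)
  · obtain ⟨i, hi⟩ := h
    exact (ho x ⟨j i, List.mem_ofFn.2 ⟨i, rfl⟩, hi⟩).trans (hO _ ⟨i, hi⟩).symm
  · refine torM_iff.1 ht _ _ (by simp) fun a ha => ?_
    obtain ⟨i, rfl⟩ := List.mem_ofFn.1 ha
    refine ⟨⌊x (j i)⌋, ?_⟩
    rw [hX, h2 _ (le_of_not_ge fun e => h ⟨i, Or.inl e⟩) (le_of_not_ge fun e => h ⟨i, Or.inr e⟩)]
    exact (Int.fract_add_floor _).symm

end Pool.Agent.Lib.MP_ccffa6_gt.U
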