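import Pool.Agent.Lib.MP_ccffa6_gt.Defs
import Pool.Agent.Lib.MP_b7c8b0_gt.HDefs
import Pool.Agent.Lib.MP_b7c8b0_gt.FDefs

/-! Definitions for the Bott block. -/

open Set Matrix Pool.Agent.Lib.MP_b7c8b0_gt
open scoped ContDiff

noncomputable section

namespace Pool.Agent.Lib.MP_ccffa6_gt.U

section complex

variable {n : Type} [Fintype n] [DecidableEq n]

/-- The variables: `none`, `some 0` and `2 m + 1` further ones. -/
abbrev II (m : ℕ) : Type := Option (Fin ((m + 1) * 2))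

theorem ub_cast (m : ℕ) : 2 * m + 1 + 1 = (m + 1) * 2 := by omega

/-- The list of the torus variables. -/
def ll (m : ℕ) : List (II m) := List.ofFn fun i : Fin (2 * m + 1) => some (Fin.cast (ub_cast m) i.succ)

/-- Fractional parts of the torus variables. -/
def fr (m : ℕ) (x : II m → ℝ) : YY (2 * m + 1) :=
  fun i => Int.fract (x (some (Fin.cast (ub_cast m) i.succ)))

/-- `g` is the periodic extension of the family `A`. -/
def Per (m : ℕ) (A : YY (2 * m + 1) → Matrix n n ℂ) (g : MS n (II m)) : Prop :=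
  ∀ x, ev g x = A (fr m x)

/-- `c` is the odd Chern character number of the smooth family `A`. -/
def IsCh (m : ℕ) (A : YY (2 * m + 1) → Matrix n n ℂ) (c : ℂ) : Prop :=
  SmGood A ∧ ∃ g, Per m A g ∧ Ch (m + 1) none (ll m) g = c

/-- Homotopy of invertible families which is `1` on the outer region. -/
def St1 {k : ℕ} (A A' : YY k → Matrix n n ℂ) : Prop :=
  ∃ K : ℝ × YY k → Matrix n n ℂ, Continuous K ∧ (∀ s y, 0 ≤ s → s ≤ 1 → (K (s, y)).det ≠ 0) ∧
    (∀ s y, Out y → K (s, y) = 1) ∧ (∀ y, K (0, y) = A y) ∧ ∀ y, K (1, y) = A' y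

/-- The idempotent which belongs to the invertible family `g`. -/
def EE {ι : Type} [Fintype ι] (α β γ : Sm ι) (g : MS n ι) : MS (n ⊕ n) ι :=
  fromBlocks ((1 - α) • 1) (β • 1 + γ • g) (β • 1 + γ • g⁻¹) (α • 1)

/-- A complex matrix acting on row vectors, as a real linear map. -/
def vm (M : Matrix n n ℂ) : (n → ℂ) →L[ℝ] (n → ℂ) :=
  LinearMap.toContinuousLinearMap ((Matrix.vecMulLinear M).restrictScalars ℝ)

omit [DecidableEq n] in
@[simp] theorem vm_apply (M : Matrix n n ℂ) (x : n → ℂ) : vm M x = x ᵥ* M := rfl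

end complex

section real

variable {V : Type} [NormedAddCommGroup V] [NormedSpace ℝ V]
  {X : Type} [NormedAddCommGroup X] [NormedSpace ℝ X]

/-- The family `F` of real linear maps is null-homotopic through invertible maps. -/
def RH {k : ℕ} (F : YY k → V →L[ℝ] V) : Prop :=
  ∃ G : ℝ × YY k → V →L[ℝ] V, Continuous G ∧
    (∀ s y, 0 ≤ s → s ≤ 1 → Function.Bijective (G (s, y))) ∧
    (∀ s y, Out y → G (s, y) = 1) ∧ (∀ y, G (0, y) = 1) ∧ ∀ y, G (1, y) = F y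

/-- `G` is a smooth null-homotopy of `F`. -/
structure SG {k : ℕ} (F : YY k → V →L[ℝ] V) (G : ℝ × YY k → V →L[ℝ] V) : Prop where
  sm : ContDiff ℝ ∞ G
  bij : ∀ p, Function.Bijective (G p)
  out : ∀ p, p.1 ≤ 0 ∨ Out p.2 → G p = 1
  one : ∀ p, 1 ≤ p.1 → G p = F p.2

/-- The maps `L p`, `p ∈ Z`, are isomorphisms and their signs do not cancel. -/
def NZ {α : Type} (Z : Finset α) (L : α → X →L[ℝ] V) : Prop :=
  ∃ j : V ≃L[ℝ] X, (∀ p ∈ Z, ((j : V →L[ℝ] X).comp (L p)).det ≠ 0) ∧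
    ∑ p ∈ Z, (SignType.sign ((j : V →L[ℝ] X).comp (L p)).det : ℤ) ≠ 0

/-- The map `((y, m), x) ↦ D y + m • β + x • α`. -/
def MM (D : X →L[ℝ] V) (β α : V) : ((X × ℝ) × ℝ) →L[ℝ] V :=
  (D.coprod (ContinuousLinearMap.toSpanSingleton ℝ β)).coprod
    (ContinuousLinearMap.toSpanSingleton ℝ α)

@[simp] theorem MM_apply (D : X →L[ℝ] V) (β α : V) (z : (X × ℝ) × ℝ) :
    MM D β α z = D z.1.1 + z.1.2 • β + z.2 • α := rfl

/-- A compactly supported family of forms whose covector field has nonzero degree. -/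
structure BD (w₀ : Bil V) (ν : V) (b : X → Bil V) (c : V →L[ℝ] ℝ) (Z : Finset X) : Prop where
  cont : Continuous b
  nd : ∀ y, ND ⊤ (b y)
  out : ∃ C : ℝ, ∀ y, C ≤ ‖y‖ → b y = w₀
  cν : c ν = 0
  c0 : c ≠ 0
  mem : ∀ y, (∃ m : ℝ, b y ν = m • c) ↔ y ∈ Z
  dif : ∀ y ∈ Z, DifferentiableAt ℝ (fun y => b y ν) y
  nz : ∀ α : V →L[ℝ] ℝ, α ν = 1 →
    NZ Z fun y => MM (fderiv ℝ (fun y => b y ν) y) (b y ν) α

/-- The model space `ℂ^a ⊕ ℝ`. -/
abbrev V0 (a : ℕ) : Type := (Fin a → ℂ) × ℝ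

/-- The matrix `M` acting on the model space. -/
def vm1 {a : ℕ} (M : Matrix (Fin a) (Fin a) ℂ) : V0 a →L[ℝ] V0 a :=
  (vm M).prodMap (ContinuousLinearMap.id ℝ ℝ)

/-- The covector `c ∘ G` on `ℂ^a`. -/
def cv {a : ℕ} (c : V0 a →L[ℝ] ℝ) (G : V0 a →L[ℝ] V0 a) : (Fin a → ℂ) →L[ℝ] ℝ :=
  (c.comp G).comp (ContinuousLinearMap.inl ℝ (Fin a → ℂ) ℝ)

end real

end Pool.Agent.Lib.MP_ccffa6_gt.U
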