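import Pool.Agent.Lib.MP_ccffa6_gt.U.BNZ
import Pool.Agent.Lib.MP_b7c8b0_gt.BottEven

/-! The degree as a sum of signs. -/

open Set Filter Topology Matrix Pool.Agent.Lib.MP_b7c8b0_gt
open scoped ContDiff ComplexConjugate

noncomputable section

namespace Pool.Agent.Lib.MP_ccffa6_gt.U

theorem ubdeg_sign {x : ℝ} (hx : x ≠ 0) {s : ℤ} (hs : s = 1 ∨ s = -1) (h : x = s * |x|) :
    (SignType.sign x : ℤ) = s := by
  have h0 := abs_pos.2 hx
  rcases hs with rfl | rfl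
  · rw [sign_pos (by rw [h]; simpa using hx)]
    rfl
  · rw [sign_neg (by rw [h]; simpa using hx)]
    rfl

open MeasureTheory in
/-- The local degree formula with the degree made explicit. -/
theorem ub_deg_int {κ : Type} [Fintype κ] [DecidableEq κ] (a b : κ → ℝ)
    (Θ : (κ → ℝ) → (κ → ℝ)) (hΘ : ContDiff ℝ 1 Θ)
    (hZ : ∀ x ∈ Set.Icc a b, Θ x = 0 → (∀ i, a i < x i ∧ x i < b i) ∧ (fderiv ℝ Θ x).det ≠ 0)
    (T : Finset (κ → ℝ)) (hT : ∀ x, x ∈ T ↔ x ∈ Set.Icc a b ∧ Θ x = 0) :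
    ∃ ε : ℝ, 0 < ε ∧ ∀ φ : (κ → ℝ) → ℝ, Continuous φ → (∀ w, ε ≤ ‖w‖ → φ w = 0) →
      ∫ x in Set.Icc a b, φ (Θ x) * (fderiv ℝ Θ x).det =
        ((∑ p ∈ T, (SignType.sign (fderiv ℝ Θ p).det : ℤ) : ℤ) : ℝ) * ∫ w, φ w := by
  classical
  have hloc : ∀ p : κ → ℝ, ∃ N : Set (κ → ℝ), p ∈ T → IsOpen N ∧ p ∈ N ∧
      Set.InjOn Θ N ∧ (∀ U, U ⊆ N → IsOpen U → IsOpen (Θ '' U)) ∧
      ∀ x ∈ N, (fderiv ℝ Θ x).det =
        ((SignType.sign (fderiv ℝ Θ p).det : ℤ) : ℝ) * |(fderiv ℝ Θ x).det| := by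
    intro p
    by_cases hp : p ∈ T
    · have h0 := (hZ p ((hT p).1 hp).1 ((hT p).1 hp).2).2
      obtain ⟨N, h1, h2, h3, h4, s, h5, h6⟩ := degInt_local Θ hΘ p h0
      exact ⟨N, fun _ => ⟨h1, h2, h3, h4, by rw [ubdeg_sign h0 h5 (h6 p h2)]; exact h6⟩⟩
    · exact ⟨∅, fun h => absurd h hp⟩
  choose N hN using hloc
  have hK : IsCompact (Set.Icc a b) := isCompact_Icc
  obtain ⟨S, hS, hSd⟩ := T.finite_toSet.t2_separation
  let B : Set (κ → ℝ) := {x | ∀ i, a i < x i ∧ x i < b i}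
  have hBo : IsOpen B := by
    have : B = ⋂ i, ({x : κ → ℝ | a i < x i} ∩ {x : κ → ℝ | x i < b i}) := by
      ext x
      simp [B]
    rw [this]
    exact isOpen_iInter_of_finite fun i =>
      (isOpen_lt continuous_const (continuous_apply i)).inter
        (isOpen_lt (continuous_apply i) continuous_const)
  have hBK : B ⊆ Set.Icc a b := fun x hx => ⟨fun i => (hx i).1.le, fun i => (hx i).2.le⟩
  let U : (κ → ℝ) → Set (κ → ℝ) := fun p => N p ∩ S p ∩ B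
  have hUo : ∀ p ∈ T, IsOpen (U p) := fun p hp => ((hN p hp).1.inter (hS p).2).inter hBo
  have hUp : ∀ p ∈ T, p ∈ U p := fun p hp =>
    ⟨⟨(hN p hp).2.1, (hS p).1⟩, (hZ p ((hT p).1 hp).1 ((hT p).1 hp).2).1⟩
  have hUN : ∀ p, U p ⊆ N p := fun p x hx => hx.1.1
  have hUK : ∀ p, U p ⊆ Set.Icc a b := fun p x hx => hBK hx.2
  let W : Set (κ → ℝ) := ⋃ p ∈ T, U p
  have hWo : IsOpen W := isOpen_biUnion fun p hp => hUo p hp
  have hC : IsCompact (Θ '' (Set.Icc a b \ W)) := (hK.diff hWo).image hΘ.continuous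
  have h0 : (Θ '' (Set.Icc a b \ W))ᶜ ∈ 𝓝 (0 : κ → ℝ) := by
    refine hC.isClosed.isOpen_compl.mem_nhds ?_
    rintro ⟨x, hx, hx0⟩
    have hxZ : x ∈ T := (hT x).2 ⟨hx.1, hx0⟩
    exact hx.2 (Set.mem_biUnion hxZ (hUp x hxZ))
  have h1 : (⋂ p ∈ T, Θ '' U p) ∈ 𝓝 (0 : κ → ℝ) := by
    refine (Filter.biInter_finset_mem T).2 fun p hp => ?_
    exact ((hN p hp).2.2.2.1 _ (hUN p) (hUo p hp)).mem_nhds ⟨p, hUp p hp, ((hT p).1 hp).2⟩
  obtain ⟨ε, hε, hball⟩ := Metric.mem_nhds_iff.1 (Filter.inter_mem h0 h1)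
  refine ⟨ε, hε, fun φ hφ hφ0 => ?_⟩
  have hsupp : ∀ w, φ w ≠ 0 → w ∈ Metric.ball (0 : κ → ℝ) ε := by
    intro w hw
    rw [mem_ball_zero_iff]
    by_contra hlt
    exact hw (hφ0 w (not_lt.1 hlt))
  have hc : Continuous fun x => (fderiv ℝ Θ x).det :=
    ContinuousLinearMap.continuous_det.comp (hΘ.continuous_fderiv one_ne_zero)
  have hF : Continuous fun x => φ (Θ x) * (fderiv ℝ Θ x).det :=
    (hφ.comp hΘ.continuous).mul hc
  have hWK : W ⊆ Set.Icc a b := Set.iUnion₂_subset fun p _ => hUK p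
  have e1 : ∫ x in Set.Icc a b, φ (Θ x) * (fderiv ℝ Θ x).det =
      ∫ x in W, φ (Θ x) * (fderiv ℝ Θ x).det := by
    refine setIntegral_eq_of_subset_of_forall_sdiff_eq_zero measurableSet_Icc hWK ?_
    intro x hx
    by_cases h : φ (Θ x) = 0
    · rw [h, zero_mul]
    · exact absurd (Set.mem_image_of_mem Θ hx) (hball (hsupp _ h)).1
  have e2 : ∫ x in W, φ (Θ x) * (fderiv ℝ Θ x).det =
      ∑ p ∈ T, ∫ x in U p, φ (Θ x) * (fderiv ℝ Θ x).det := by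
    refine integral_biUnion_finset T (fun p hp => (hUo p hp).measurableSet) ?_ ?_
    · intro p hp q hq hpq
      exact (hSd hp hq hpq).mono (fun x hx => hx.1.2) (fun x hx => hx.1.2)
    · intro p _
      exact (hF.continuousOn.integrableOn_compact hK).mono_set (hUK p)
  rw [e1, e2, Int.cast_sum, Finset.sum_mul]
  refine Finset.sum_congr rfl fun p hp => ?_
  have hm := (hUo p hp).measurableSet
  have e3 : ∫ w in Θ '' U p, φ w = ∫ x in U p, |(fderiv ℝ Θ x).det| • φ (Θ x) :=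
    integral_image_eq_integral_abs_det_fderiv_smul volume hm
      (fun x _ => (hΘ.differentiable one_ne_zero x).hasFDerivAt.hasFDerivWithinAt)
      ((hN p hp).2.2.1.mono (hUN p)) φ
  have e4 : ∫ w in Θ '' U p, φ w = ∫ w, φ w := by
    refine setIntegral_eq_integral_of_forall_compl_eq_zero fun w hw => ?_
    by_contra h
    exact hw (Set.mem_iInter₂.1 (hball (hsupp w h)).2 p hp)
  rw [← e4, e3, ← integral_const_mul]
  refine setIntegral_congr_fun hm fun x hx => ?_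
  have := (hN p hp).2.2.2.2 x (hUN p hx)
  simp only [smul_eq_mul]
  rw [← mul_assoc, ← this, mul_comm]

theorem ubdeg_P {k N : ℕ} (h : k + 1 = N) :
    ∃ e : (Fin N → ℝ) ≃L[ℝ] ℝ × YY k, ∀ z, e z = beP h z :=
  ⟨ContinuousLinearEquiv.ofBijective (beP h) (LinearMap.ker_eq_bot.2 (beP_inj h))
    (LinearMap.range_eq_top.2 (beP_surj h)), fun _ => rfl⟩

theorem ubdeg_L (m : ℕ) : ∃ e : (Fin m → ℂ) ≃L[ℝ] (Fin (m * 2) → ℝ), ∀ w, e w = RI w := by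
  obtain ⟨L, hL⟩ := exists_RI_clm m
  have hi : Function.Injective (L : (Fin m → ℂ) →ₗ[ℝ] (Fin (m * 2) → ℝ)) :=
    (injective_iff_map_eq_zero _).2 fun w hw => RI_eq_zero.1 ((hL w).symm.trans hw)
  exact ⟨(LinearMap.linearEquivOfInjective _ hi
    (by simp [Module.finrank_pi_fintype])).toContinuousLinearEquiv, hL⟩

/-- The degree of the filling. -/
theorem ub_be_deg {k m : ℕ} (h : k + 1 = (m + 1) * 2)
    {A : YY k → Matrix (Fin (m + 1)) (Fin (m + 1)) ℂ} {j0 : Fin (m + 1)}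
    {W : ℝ × YY k → (Fin (m + 1) → ℂ)} {Z : Finset (ℝ × YY k)} (hW : Fill A j0 W Z)
    (Θ : (Fin ((m + 1) * 2) → ℝ) → (Fin ((m + 1) * 2) → ℝ)) (hΘ : ContDiff ℝ 1 Θ)
    (hΘW : ∀ z, Θ z = RI (W ((beP h z).1, fun i => Int.fract ((beP h z).2 i)))) :
    ∃ ε : ℝ, 0 < ε ∧ ∃ d : ℤ, (d ≠ 0 → NZ Z (fderiv ℝ W)) ∧
      ∀ φ : (Fin ((m + 1) * 2) → ℝ) → ℝ, Continuous φ → (∀ w, ε ≤ ‖w‖ → φ w = 0) →
        ∫ x in Set.Icc (0 : Fin ((m + 1) * 2) → ℝ) 1, φ (Θ x) * (fderiv ℝ Θ x).det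
          = d * ∫ w, φ w := by
  obtain ⟨e, he⟩ := ubdeg_P h
  obtain ⟨L, hL⟩ := ubdeg_L (m + 1)
  have hcube : ∀ z ∈ Set.Icc (0 : Fin ((m + 1) * 2) → ℝ) 1, Θ z = RI (W (beP h z)) := by
    intro z hz
    rw [hΘW, be_fract_cube (f := fun y => W ((beP h z).1, y)) (y := (beP h z).2) (hW.out _)
      (fun i => ⟨hz.1 _, hz.2 _⟩)]
  have hin : ∀ z, beP h z ∈ Z → ∀ j, (0 : Fin ((m + 1) * 2) → ℝ) j < z j ∧
      z j < (1 : Fin ((m + 1) * 2) → ℝ) j := by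
    intro z hz
    obtain ⟨h1, h2, h3, -⟩ := hW.reg _ hz
    have h4 : ∀ i, 1 / 4 < (beP h z).2 i ∧ (beP h z).2 i < 3 / 4 := fun i =>
      ⟨not_le.1 fun h5 => h3 ⟨i, Or.inl h5⟩, not_le.1 fun h5 => h3 ⟨i, Or.inr h5⟩⟩
    refine be_forall h ⟨h1, h2⟩ fun i => ⟨?_, ?_⟩
    · exact lt_trans (by norm_num) (h4 i).1
    · exact lt_trans (h4 i).2 (by norm_num)
  have hmem : ∀ z, beP h z ∈ Z ↔ z ∈ Set.Icc (0 : Fin ((m + 1) * 2) → ℝ) 1 ∧ Θ z = 0 := by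
    intro z
    constructor
    · intro hz
      have h5 : z ∈ Set.Icc (0 : Fin ((m + 1) * 2) → ℝ) 1 :=
        ⟨fun j => (hin z hz j).1.le, fun j => (hin z hz j).2.le⟩
      refine ⟨h5, ?_⟩
      rw [hcube z h5, RI_eq_zero]
      exact ((hW.mem _).1 hz).2
    · rintro ⟨hz, h0⟩
      rw [hcube z hz, RI_eq_zero] at h0
      exact (hW.mem _).2 ⟨⟨hz.1 _, hz.2 _⟩, h0⟩
  have hD : ∀ z, beP h z ∈ Z → ∀ v, fderiv ℝ Θ z v = L (fderiv ℝ W (beP h z) (beP h v)) := by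
    intro z hz v
    have hev : Θ =ᶠ[𝓝 z] fun x => L (W (beP h x)) := by
      filter_upwards [pi_Icc_mem_nhds' (fun j => (hin z hz j).1) (fun j => (hin z hz j).2)]
        with x hx
      rw [hcube x hx, hL]
    have hd : HasFDerivAt (fun x => L (W (beP h x))) _ z :=
      L.hasFDerivAt.comp z
        (((hW.smooth.differentiable (by simp)) _).hasFDerivAt.comp z (beP h).hasFDerivAt)
    rw [hev.fderiv_eq, hd.fderiv]
    rfl
  have hdet : ∀ z, beP h z ∈ Z → (fderiv ℝ Θ z).det ≠ 0 := by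
    intro z hz hdet
    refine LinearMap.det_eq_zero_iff_ker_ne_bot.1 hdet (LinearMap.ker_eq_bot'.2 fun v hv => ?_)
    have h6 : fderiv ℝ W (beP h z) (beP h v) = fderiv ℝ W (beP h z) 0 :=
      (L.map_eq_zero_iff.1 ((hD z hz v).symm.trans hv)).trans (map_zero _).symm
    exact beP_inj h (((hW.reg _ hz).2.2.2 h6).trans (map_zero _).symm)
  obtain ⟨T, hT⟩ : ∃ T : Finset (Fin ((m + 1) * 2) → ℝ), ∀ z, z ∈ T ↔ beP h z ∈ Z :=
    ⟨Z.map e.toEquiv.symm.toEmbedding, fun z => by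
      rw [Finset.mem_map_equiv, Equiv.symm_symm, ← he]
      rfl⟩
  obtain ⟨ε, hε, hint⟩ := ub_deg_int (0 : Fin ((m + 1) * 2) → ℝ) 1 Θ hΘ
    (fun z hz h0 => ⟨hin z ((hmem z).2 ⟨hz, h0⟩), hdet z ((hmem z).2 ⟨hz, h0⟩)⟩) T
    fun z => (hT z).trans (hmem z)
  refine ⟨ε, hε, _, fun hd => ?_, hint⟩
  have n1 : NZ T (fderiv ℝ Θ) :=
    ⟨ContinuousLinearEquiv.refl ℝ _, fun p hp => hdet p ((hT p).1 hp), hd⟩
  have n2 : NZ T fun z => fderiv ℝ W (e z) := n1.comp e.symm L.symm fun p hp x => by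
    rw [hD p ((hT p).1 hp), L.symm_apply_apply, ← he, ← he, e.apply_symm_apply]
  have e1 : T.map e.toEquiv.toEmbedding = Z := by
    ext p
    rw [Finset.mem_map_equiv, hT, ← he]
    exact iff_of_eq (congrArg (· ∈ Z) (e.apply_symm_apply p))
  exact e1 ▸ n2.map e.toEquiv fun _ _ => rfl

end Pool.Agent.Lib.MP_ccffa6_gt.U
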