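import Pool.Agent.Lib.MP_ccffa6_gt.U.BDeg
import Pool.Agent.Lib.MP_ccffa6_gt.U.BCh

/-! The Chern character number is a degree. -/

open Set Filter Topology Matrix MeasureTheory Pool.Agent.Lib.MP_b7c8b0_gt
open scoped ContDiff ComplexConjugate

noncomputable section

namespace Pool.Agent.Lib.MP_ccffa6_gt.U

/-- The filling of a column of a family with nonzero character number has nonzero degree. -/
theorem ub_fill {m : ℕ} {A : YY (2 * m + 1) → Matrix (Fin (m + 1)) (Fin (m + 1)) ℂ} {c : ℂ}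
    (hA : IsCh m A c) (hc : c ≠ 0) {j0 : Fin (m + 1)}
    {W : ℝ × YY (2 * m + 1) → (Fin (m + 1) → ℂ)} {Z : Finset (ℝ × YY (2 * m + 1))}
    (hW : Fill A j0 W Z) : NZ Z (fderiv ℝ W) := by
  have hA' := hA
  clear hA
  have h : 2 * m + 1 + 1 = (m + 1) * 2 := ub_cast m
  have hA := hA'.1
  have hWs := contDiff_fract hW.smooth hW.out
  have hAs : ∀ a b, ContDiff ℝ ∞ fun p : ℝ × YY (2 * m + 1) => A (fun i => Int.fract (p.2 i)) a b :=
    fun a b => contDiff_fract (E := ℝ) (f := fun p => A p.2 a b)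
      ((hA.smooth a b).comp contDiff_snd) (fun s y hy => by simp only [hA.out y hy])
  obtain ⟨L, hL⟩ := exists_RI_clm (m + 1)
  set Θ : (Fin ((m + 1) * 2) → ℝ) → (Fin ((m + 1) * 2) → ℝ) :=
    fun z => RI (W ((beP h z).1, fun i => Int.fract ((beP h z).2 i))) with hΘdef
  have hΘ : ContDiff ℝ 1 Θ := by
    have : Θ = fun z => L (W ((beP h z).1, fun i => Int.fract ((beP h z).2 i))) := by
      funext z; rw [hL]
    rw [this]
    exact (L.contDiff.comp (hWs.comp (beP h).contDiff)).of_le (by simp)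
  obtain ⟨ε, hε, d', hd', hint⟩ := ub_be_deg h hW Θ hΘ (fun z => rfl)
  obtain ⟨δ0, hδ0, hδA⟩ := be_delta hA j0
  have hδ : 0 < min δ0 (ε ^ 2 / 2) := lt_min hδ0 (by positivity)
  obtain ⟨ψ, hψ, hψδ⟩ := exists_psi hδ
  have hI := hint (fun w => PhiR m ψ (∑ a, w a ^ 2))
    ((continuous_PhiR m hψ).comp (by fun_prop)) (by
      intro w hw
      refine PhiR_eq_zero m hδ hψδ (lt_of_le_of_lt (min_le_right _ _) ?_)
      have h1 : ‖w‖ ≤ Real.sqrt (∑ a, w a ^ 2) := by
        refine (pi_norm_le_iff_of_nonneg (Real.sqrt_nonneg _)).2 fun a => ?_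
        rw [Real.norm_eq_abs]
        exact Real.abs_le_sqrt
          (Finset.single_le_sum (f := fun a => w a ^ 2) (fun _ _ => sq_nonneg _) (Finset.mem_univ a))
      have h2 : ε ^ 2 ≤ ∑ a, w a ^ 2 :=
        (Real.le_sqrt hε.le (Finset.sum_nonneg fun _ _ => sq_nonneg _)).1 (hw.trans h1)
      have : 0 < ε ^ 2 := by positivity
      linarith)
  rw [integral_PhiR m hψ hδ hψδ] at hI
  have hQ : ContDiff ℝ ∞ fun x : Option (Fin ((m + 1) * 2)) → ℝ => beP h (beR _ x) :=
    (beP h).contDiff.comp (beR (Fin ((m + 1) * 2))).contDiff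
  let g : MS (Fin (m + 1)) (Option (Fin ((m + 1) * 2))) := Matrix.of fun a b =>
    Sm.mk (fun x => A (fun i => Int.fract ((beP h (beR _ x)).2 i)) a b) ((hAs a b).comp hQ)
  have hVs : ∀ a, ContDiff ℝ ∞ fun x : Option (Fin ((m + 1) * 2)) → ℝ =>
      W ((beP h (beR _ x)).1, fun i => Int.fract ((beP h (beR _ x)).2 i)) a :=
    fun a => (contDiff_apply ℝ ℂ a).comp (hWs.comp hQ)
  let V : Fin (m + 1) → Sm (Option (Fin ((m + 1) * 2))) := fun a => Sm.mk _ (hVs a)
  have hUs : ∀ a, ContDiff ℝ ∞ fun x : Option (Fin ((m + 1) * 2)) → ℝ =>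
      (ψ (∑ b, Complex.normSq ((V b).1 x)) : ℂ) * conj ((V a).1 x) := by
    intro a
    refine ContDiff.mul (Complex.ofRealCLM.contDiff.comp (hψ.comp (ContDiff.sum fun b _ => ?_)))
      (Complex.conjCLE.contDiff.comp (hVs a))
    simp only [Complex.normSq_apply]
    exact ((Complex.reCLM.contDiff.comp (hVs b)).mul (Complex.reCLM.contDiff.comp (hVs b))).add
      ((Complex.imCLM.contDiff.comp (hVs b)).mul (Complex.imCLM.contDiff.comp (hVs b)))
  let U : Fin (m + 1) → Sm (Option (Fin ((m + 1) * 2))) := fun a => Sm.mk _ (hUs a)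
  let s : Option (Fin ((m + 1) * 2)) := some (Fin.cast h 0)
  let l : List (Option (Fin ((m + 1) * 2))) := List.ofFn fun i : Fin (2 * m + 1) => some (Fin.cast h i.succ)
  have hsl : List.ofFn (some : Fin ((m + 1) * 2) → Option (Fin ((m + 1) * 2))) = s :: l := by
    rw [List.ofFn_congr h.symm, List.ofFn_succ]
  have hN1 : (s :: l).Nodup := by
    rw [← hsl]; exact List.nodup_ofFn.2 (Option.some_injective _)
  have hN : (none :: s :: l).Nodup := by
    refine List.nodup_cons.2 ⟨?_, hN1⟩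
    rw [← hsl]; simp
  have hfr : ∀ x y : Option (Fin ((m + 1) * 2)) → ℝ, (∀ i ∈ l, ∃ n : ℤ, x i = y i + n) →
      (fun i => Int.fract ((beP h (beR _ x)).2 i)) = fun i => Int.fract ((beP h (beR _ y)).2 i) := by
    intro x y H
    funext i
    obtain ⟨n, hn⟩ := H (some (Fin.cast h i.succ)) (List.mem_ofFn.2 ⟨i, rfl⟩)
    change Int.fract (x (some (Fin.cast h i.succ))) = Int.fract (y (some (Fin.cast h i.succ)))
    rw [hn, Int.fract_add_intCast]
  have hgI : MP_b7c8b0_gt.Inv g := fun x => hA.det _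
  have hgT : TorM [] l g := by
    intro a b x y _ H
    change A _ a b = A _ a b
    rw [hfr x y H]
  have hVT : ∀ a, Tor [s] l (V a) := by
    intro a x y H0 H
    change W (x s, _) a = W (y s, _) a
    rw [hfr x y H, H0 s (by simp)]
  have hUT : ∀ a, Tor [s] l (U a) := by
    intro a x y H0 H
    change (ψ (∑ b, Complex.normSq ((V b).1 x)) : ℂ) * conj ((V a).1 x) =
      (ψ (∑ b, Complex.normSq ((V b).1 y)) : ℂ) * conj ((V a).1 y)
    simp only [fun b => hVT b x y H0 H]
  have hupd : ∀ (x : Option (Fin ((m + 1) * 2)) → ℝ) (c : ℝ) (a : Fin (m + 1)),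
      (V a).1 (Function.update x s c) = W (c, fun i => Int.fract ((beP h (beR _ x)).2 i)) a := by
    intro x c a
    have h1 : (fun i => Int.fract ((beP h (beR _ (Function.update x s c))).2 i)) =
        fun i => Int.fract ((beP h (beR _ x)).2 i) := by
      refine hfr _ _ fun i hi => ⟨0, ?_⟩
      have : i ≠ s := fun h2 => (List.nodup_cons.1 hN1).1 (h2 ▸ hi)
      simp [Function.update_of_ne this]
    change W (Function.update x s c s, _) a = _
    rw [h1, Function.update_self]
  have hV0 : (fun a => fS s 0 (V a)) = fun a => g a j0 := by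
    funext a
    refine Subtype.ext (funext fun x => ?_)
    rw [fS_apply, hupd, hW.zero]
    rfl
  have h1 : Ch (m + 1) none l g = c := hA'.per fun _ => rfl
  rw [Ch_euler m (by simp) hN hgI hgT j0] at h1
  have h2 : CS m l (fun b => g⁻¹ j0 b) (fun a => g a j0) =
      CS m l (fun a => fS s 0 (U a)) (fun a => g a j0) := by
    refine CS_indep hN1 (fun a => hgT.inv hgI j0 a) (fun a => (hUT a).fS_cons_left 0)
      (fun a => hgT a j0) ?_ ?_
    · have := congrFun (congrFun hgI.inv_mul j0) j0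
      rwa [Matrix.mul_apply, Matrix.one_apply_eq] at this
    · refine Subtype.ext (funext fun x => ?_)
      have h3 : ∀ b, (V b).1 (Function.update x s 0) =
          A (fun i => Int.fract ((beP h (beR _ x)).2 i)) b j0 := fun b => by rw [hupd, hW.zero]
      have h4 := (min_le_left δ0 (ε ^ 2 / 2)).trans (hδA (beP h (beR _ x)).2)
      have h5 : (∑ a, fS s 0 (U a) * g a j0).1 x =
          ∑ a, (ψ (∑ b, Complex.normSq ((V b).1 (Function.update x s 0))) : ℂ) *
            conj ((V a).1 (Function.update x s 0)) *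
            A (fun i => Int.fract ((beP h (beR _ x)).2 i)) a j0 := by
        rw [AddSubmonoidClass.coe_finsetSum, Finset.sum_apply]
        rfl
      rw [h5]
      simp only [h3, mul_assoc, ← Finset.mul_sum, ← Complex.normSq_eq_conj_mul_self]
      rw [hψδ _ h4, ← Complex.ofReal_sum, ← Complex.ofReal_mul,
        inv_mul_cancel₀ (hδ.trans_le h4).ne']
      rfl
  have h3 := CS_stokes m hN1 (P := [s]) (fun i hi h2 =>
    (List.nodup_cons.1 hN1).1 (List.mem_singleton.1 h2 ▸ hi)) hUT hVT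
  rw [CS_const m (fun a x y => by
    rw [fS_apply, fS_apply, hupd, hupd, hW.one, hW.one (fun i => Int.fract _)]), hV0, ← h2, zero_sub,
    ← hsl, itg_apply] at h3
  have h4 : ∀ x, (coef (List.ofFn some) (dd (th U V) ^ (m + 1))).1 x =
      ((m + 1).factorial : ℂ) * (2 * Complex.I) ^ (m + 1) *
        ((PhiR m ψ (∑ a, Θ (beR _ x) a ^ 2) * (fderiv ℝ Θ (beR _ x)).det : ℝ) : ℂ) := by
    intro x
    rw [top_coef some (Option.some_injective _) ψ hψ U V (fun a x => rfl) x, ← be_det Θ hΘ x,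
      hΘdef]
    simp only [sum_sq_RI]
    rfl
  have hFc : Continuous fun z => PhiR m ψ (∑ a, Θ z a ^ 2) * (fderiv ℝ Θ z).det := by
    have := hΘ.continuous
    exact ((continuous_PhiR m hψ).comp (by fun_prop)).mul
      (ContinuousLinearMap.continuous_det.comp (hΘ.continuous_fderiv (by simp)))
  have h5 := be_drop _ hFc
  simp only [h4] at h3
  rw [integral_const_mul, integral_complex_ofReal] at h3
  change ∫ x in Set.Icc (0 : Option (Fin ((m + 1) * 2)) → ℝ) 1,
    PhiR m ψ (∑ a, Θ (beR _ x) a ^ 2) * (fderiv ℝ Θ (beR _ x)).det = _ at h5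
  rw [h5, hI] at h3
  refine hd' fun h0 => hc ?_
  rw [h0] at h3
  have h7 : CS m l (fun b => g⁻¹ j0 b) (fun a => g a j0) = 0 := by simpa using h3
  rw [← h1, h7]
  simp

end Pool.Agent.Lib.MP_ccffa6_gt.U
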