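import Pool.Agent.Lib.MP_ccffa6_gt.U.BDef
import Pool.Agent.Lib.MP_b7c8b0_gt.BottEven

/-! Auxiliary smooth functions. -/

open Set Filter Topology Matrix Pool.Agent.Lib.MP_b7c8b0_gt
open scoped ContDiff ComplexConjugate

noncomputable section

namespace Pool.Agent.Lib.MP_ccffa6_gt.U

theorem ubfun_st {f : ℝ → ℝ} (hf : ContDiff ℝ ∞ f) : ContDiff ℝ ∞ fun r => Real.smoothTransition (f r) :=
  Real.smoothTransition.contDiff.comp hf

theorem ubfun_zeta {ι : Type} [Fintype ι] [DecidableEq ι] (z : ι) (x : ι → ℝ) :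
    (zeta z).1 x = Complex.exp ((2 * Real.pi * x z : ℝ) * Complex.I) := by
  refine congrArg Complex.exp ?_
  push_cast
  exact mul_right_comm _ _ _

theorem ubfun_cos {t : ℝ} (h : Int.fract t ≤ 1 / 4 ∨ 3 / 4 ≤ Int.fract t) :
    0 ≤ Real.cos (2 * Real.pi * t) := by
  have h0 := Int.fract_nonneg t
  have h1 := Int.fract_lt_one t
  have hp := Real.pi_pos
  rw [← Real.cos_sub_int_mul_two_pi _ ⌊t⌋,
    show 2 * Real.pi * t - ⌊t⌋ * (2 * Real.pi) = 2 * Real.pi * Int.fract t by rw [Int.fract]; ring]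
  rcases h with h | h
  · exact Real.cos_nonneg_of_mem_Icc ⟨by nlinarith, by nlinarith⟩
  · rw [← Real.cos_sub_two_pi]
    exact Real.cos_nonneg_of_mem_Icc ⟨by nlinarith, by nlinarith⟩

theorem ub_fun : ∃ c₁ c₂ σ : ℝ → ℝ, ContDiff ℝ ∞ c₁ ∧ ContDiff ℝ ∞ c₂ ∧ ContDiff ℝ ∞ σ ∧
    (∀ r, c₁ r * c₂ r = 0) ∧ (∀ r, c₁ r ^ 2 + c₂ r ^ 2 + σ r ^ 2 = 1) ∧
    (∀ r, r ≤ 1 / 4 → c₁ r = 1 ∧ c₂ r = 0 ∧ σ r = 0) ∧
    ∀ r, 3 / 4 ≤ r → c₁ r = 0 ∧ c₂ r = 1 ∧ σ r = 0 := by
  have h1 : ContDiff ℝ ∞ fun r : ℝ => Real.pi / 2 * Real.smoothTransition (4 * r - 1) :=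
    contDiff_const.mul (ubfun_st (by fun_prop))
  have h2 : ContDiff ℝ ∞ fun r : ℝ => Real.pi / 2 * Real.smoothTransition (4 * r - 2) :=
    contDiff_const.mul (ubfun_st (by fun_prop))
  have z : ∀ {x : ℝ}, x ≤ 0 → Real.smoothTransition x = 0 := Real.smoothTransition.zero_of_nonpos
  have o : ∀ {x : ℝ}, 1 ≤ x → Real.smoothTransition x = 1 := Real.smoothTransition.one_of_one_le
  refine ⟨_, _, _, h1.cos, h2.sin, h1.sin.mul h2.cos, fun r => ?_, fun r => ?_, fun r h => ?_,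
    fun r h => ?_⟩
  · rcases le_total r (1 / 2) with h | h
    · simp [z (show 4 * r - 2 ≤ 0 by linarith)]
    · simp [o (show 1 ≤ 4 * r - 1 by linarith)]
  · rcases le_total r (1 / 2) with h | h
    · simp [z (show 4 * r - 2 ≤ 0 by linarith)]
    · simp [o (show 1 ≤ 4 * r - 1 by linarith)]
  · simp [z (show 4 * r - 2 ≤ 0 by linarith), z (show 4 * r - 1 ≤ 0 by linarith)]
  · simp [o (show 1 ≤ 4 * r - 1 by linarith), o (show 1 ≤ 4 * r - 2 by linarith)]

theorem ub_fract {f : ℝ → ℝ} (hf : ContDiff ℝ ∞ f) (h : ∀ r, r ≤ 1 / 4 ∨ 3 / 4 ≤ r → f r = 0) :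
    ContDiff ℝ ∞ fun r => f (Int.fract r) :=
  (contDiff_fract (E := ℝ) (k := 1) (f := fun p => f (p.2 0)) (hf.comp (by fun_prop))
    fun _ y ⟨i, hi⟩ => (h _ (Subsingleton.elim i 0 ▸ hi)).trans
      (h 0 (.inl (by norm_num))).symm).comp (f := fun r : ℝ => (r, fun _ => r)) (by fun_prop)

theorem ub_tau : ∃ τ : ℝ → ℝ, ContDiff ℝ ∞ τ ∧ (∀ r, 1 / 4 ≤ r → r ≤ 3 / 4 → τ r = r) ∧
    ∀ r, r ≤ 1 / 4 ∨ 3 / 4 ≤ r → Int.fract (τ r) ≤ 1 / 4 ∨ 3 / 4 ≤ Int.fract (τ r) := by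
  have z : ∀ {x : ℝ}, x ≤ 0 → Real.smoothTransition x = 0 := Real.smoothTransition.zero_of_nonpos
  have o : ∀ {x : ℝ}, 1 ≤ x → Real.smoothTransition x = 1 := Real.smoothTransition.one_of_one_le
  have k : ∀ r : ℝ, r ≤ 1 / 4 → 0 ≤ Real.smoothTransition (4 * r) * r ∧
      Real.smoothTransition (4 * r) * r ≤ 1 / 4 := fun r h => by
    rcases le_total r 0 with h0 | h0
    · simp [z (show 4 * r ≤ 0 by linarith)]
    · exact ⟨mul_nonneg (Real.smoothTransition.nonneg _) h0,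
        (mul_le_of_le_one_left h0 (Real.smoothTransition.le_one _)).trans h⟩
  refine ⟨fun r => 1 - Real.smoothTransition (4 * (1 - r)) * (1 - Real.smoothTransition (4 * r) * r),
    contDiff_const.sub ((ubfun_st (by fun_prop)).mul
      (contDiff_const.sub ((ubfun_st (by fun_prop)).mul contDiff_id))), fun r a b => ?_, ?_⟩
  · simp [o (show 1 ≤ 4 * (1 - r) by linarith), o (show 1 ≤ 4 * r by linarith)]
  rintro r (h | h)
  · obtain ⟨a, b⟩ := k r h
    simp only [o (show 1 ≤ 4 * (1 - r) by linarith), one_mul, sub_sub_cancel]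
    exact .inl ((Int.fract_eq_self.2 ⟨a, by linarith⟩).trans_le b)
  · obtain ⟨a, b⟩ := k (1 - r) (by linarith)
    simp only [o (show 1 ≤ 4 * r by linarith), one_mul]
    rcases a.eq_or_lt with e | e
    · simp [← e]
    · exact .inr (le_of_le_of_eq (by linarith) (Int.fract_eq_self.2 ⟨by linarith, by linarith⟩).symm)

theorem ub_smooth {P F : Type} [NormedAddCommGroup P] [NormedSpace ℝ P] [FiniteDimensional ℝ P]
    [NormedAddCommGroup F] [NormedSpace ℝ F] [FiniteDimensional ℝ F] {U : Set F} (hU : IsOpen U)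
    {f h : P → F} (hf : Continuous f) (hm : ∀ p, f p ∈ U) (hh : ContDiff ℝ ∞ h) :
    ∃ g : P → F, ContDiff ℝ ∞ g ∧ (∀ p, g p ∈ U) ∧ ∀ p, f p = h p → g p = h p := by
  obtain ⟨ε, e1, e2, e3⟩ : ∃ ε : P → ℝ, Continuous ε ∧ (∀ p, 0 < ε p) ∧
      ∀ p y, dist (f p) y < ε p → y ∈ U := by
    rcases eq_empty_or_nonempty Uᶜ with e | e
    · exact ⟨fun _ => 1, continuous_const, fun _ => one_pos, fun _ y _ =>
        compl_empty_iff.1 e ▸ mem_univ y⟩
    · exact ⟨fun p => Metric.infDist (f p) Uᶜ, (Metric.continuous_infDist_pt _).comp hf,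
        fun p => (hU.isClosed_compl.notMem_iff_infDist_pos e).1 (not_not.2 (hm p)),
        fun p y a => not_not.1 (Metric.notMem_of_dist_lt_infDist a)⟩
  obtain ⟨g, g1, g2, g3⟩ := (hf.sub hh.continuous).exists_contDiff_approx ⊤ e1 e2
  refine ⟨fun p => g p + h p, g1.add hh, fun p => e3 p _ ?_, fun p e => ?_⟩
  · rw [dist_comm, ← dist_sub_right _ _ (h p), add_sub_cancel_right]
    exact g2 p
  · exact add_eq_right.2 (Function.support_subset_iff'.1 g3 p (by simp [e]))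

theorem ub_u {ι : Type} [Fintype ι] [DecidableEq ι] (z : ι) : ∃ u u' : Sm ι, Tor [] [z] u ∧
    (∀ x, u'.1 x = conj (u.1 x)) ∧
    (∀ x (r : ℝ), 0 ≤ r → r ≤ 1 → (1 - (r : ℂ)) * (zeta z).1 x + r * u.1 x ≠ 0) ∧
    ∀ x, Int.fract (x z) ≤ 1 / 4 ∨ 3 / 4 ≤ Int.fract (x z) → u.1 x = 1 := by
  have h1 : ContDiff ℝ ∞ fun x : ι → ℝ =>
      1 + (Real.smoothTransition (-((zeta z).1 x).re) : ℂ) * ((zeta z).1 x - 1) :=
    contDiff_const.add ((Complex.ofRealCLM.contDiff.comp (Real.smoothTransition.contDiff.comp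
      (Complex.reCLM.contDiff.comp (Sm.smooth (zeta z))).neg)).mul
        ((Sm.smooth (zeta z)).sub contDiff_const))
  refine ⟨⟨_, h1⟩, ⟨_, Complex.conjCLE.contDiff.comp h1⟩, fun x y _ h => ?_, fun _ => rfl,
    fun x r a b e => ?_, fun x h => ?_⟩
  · obtain ⟨k, hk⟩ := h z (List.mem_singleton_self z)
    have : (zeta z).1 x = (zeta z).1 y := by
      rw [ubfun_zeta, ubfun_zeta, hk, Complex.exp_eq_exp_iff_exists_int]
      exact ⟨k, by push_cast; ring⟩
    simp only [this]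
  · have hn : ((zeta z).1 x).re ^ 2 + ((zeta z).1 x).im ^ 2 = 1 := by
      rw [ubfun_zeta, Complex.exp_ofReal_mul_I_re, Complex.exp_ofReal_mul_I_im, Real.cos_sq_add_sin_sq]
    dsimp only at e
    generalize (zeta z).1 x = ζ at e hn
    have e1 := congrArg Complex.re e
    have e2 := congrArg Complex.im e
    simp only [Complex.add_re, Complex.add_im, Complex.mul_re, Complex.mul_im, Complex.sub_re,
      Complex.sub_im, Complex.ofReal_re, Complex.ofReal_im, Complex.one_re, Complex.one_im,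
      Complex.zero_re, Complex.zero_im] at e1 e2
    have e3 : ζ.im = 0 := by linear_combination ζ.im * e1 + (1 - ζ.re) * e2
    have e4 : (ζ.re - 1) * (ζ.re + 1) = 0 := by linear_combination hn - ζ.im * e3
    rcases mul_eq_zero.1 e4 with e5 | e5
    · rw [sub_eq_zero.1 e5] at e1
      linarith
    · rw [eq_neg_of_add_eq_zero_left e5, neg_neg, Real.smoothTransition.one] at e1
      linarith
  · have : ((zeta z).1 x).re = Real.cos (2 * Real.pi * x z) := by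
      rw [ubfun_zeta, Complex.exp_ofReal_mul_I_re]
    simp [this, Real.smoothTransition.zero_of_nonpos (neg_nonpos.2 (ubfun_cos h))]

end Pool.Agent.Lib.MP_ccffa6_gt.U
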