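import Pool.Agent.Lib.MP_ccffa6_gt.U.BDef

/-! Sums of signs of determinants. -/

open Set Filter Topology Matrix Pool.Agent.Lib.MP_b7c8b0_gt
open scoped ContDiff ComplexConjugate

noncomputable section

namespace Pool.Agent.Lib.MP_ccffa6_gt.U

variable {α β : Type} {X : Type} [NormedAddCommGroup X] [NormedSpace ℝ X] [FiniteDimensional ℝ X]
  {V : Type} [NormedAddCommGroup V] [NormedSpace ℝ V] [FiniteDimensional ℝ V]
  {X' : Type} [NormedAddCommGroup X'] [NormedSpace ℝ X'] [FiniteDimensional ℝ X']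
  {V' : Type} [NormedAddCommGroup V'] [NormedSpace ℝ V'] [FiniteDimensional ℝ V']
  {Z : Finset α} {L L' : α → X →L[ℝ] V}

theorem ubbnz_sign {d d' : α → ℝ} {s : ℝ} (hs : s ≠ 0) (h1 : ∀ p ∈ Z, d p ≠ 0)
    (h2 : ∑ p ∈ Z, (SignType.sign (d p) : ℤ) ≠ 0)
    (e : ∀ p ∈ Z, ∃ t, 0 < t ∧ d' p = s * (t * d p)) :
    (∀ p ∈ Z, d' p ≠ 0) ∧ ∑ p ∈ Z, (SignType.sign (d' p) : ℤ) ≠ 0 := by
  refine ⟨fun p hp => ?_, ?_⟩
  · obtain ⟨t, ht, e1⟩ := e p hp
    rw [e1]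
    exact mul_ne_zero hs (mul_ne_zero ht.ne' (h1 p hp))
  · have e2 : ∑ p ∈ Z, (SignType.sign (d' p) : ℤ) =
        (SignType.sign s : ℤ) * ∑ p ∈ Z, (SignType.sign (d p) : ℤ) := by
      rw [Finset.mul_sum]
      refine Finset.sum_congr rfl fun p hp => ?_
      obtain ⟨t, ht, e1⟩ := e p hp
      rw [e1, sign_mul, sign_mul, sign_pos ht, one_mul, SignType.coe_mul]
    rw [e2]
    refine mul_ne_zero ?_ h2
    rcases lt_or_gt_of_ne hs with h | h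
    · simp [sign_neg h]
    · simp [sign_pos h]

omit [FiniteDimensional ℝ X] in
theorem ubbnz_mul {A B C : X →L[ℝ] X} (h : ∀ x, C x = A (B x)) : C.det = A.det * B.det := by
  rw [show C = A.comp B from ContinuousLinearMap.ext h]
  exact LinearMap.det_comp _ _

omit [FiniteDimensional ℝ X] [FiniteDimensional ℝ X'] in
theorem ubbnz_conj (a : X ≃L[ℝ] X') {A : X →L[ℝ] X} {C : X' →L[ℝ] X'}
    (h : ∀ x, C x = a (A (a.symm x))) : C.det = A.det := by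
  rw [ContinuousLinearMap.det, ContinuousLinearMap.det,
    ← LinearMap.det_conj (A : X →ₗ[ℝ] X) a.toLinearEquiv]
  exact congrArg _ (LinearMap.ext h)

/-- `det (j' ∘ L) = det (j' ∘ j⁻¹) * det (j ∘ L)`, `sign_mul` -/
theorem NZ.all (h : NZ Z L) (j : V ≃L[ℝ] X) :
    (∀ p ∈ Z, ((j : V →L[ℝ] X).comp (L p)).det ≠ 0) ∧
      ∑ p ∈ Z, (SignType.sign ((j : V →L[ℝ] X).comp (L p)).det : ℤ) ≠ 0 := by
  obtain ⟨j₀, h1, h2⟩ := h
  refine ubbnz_sign (s := ((j₀.symm.trans j : X ≃L[ℝ] X) : X →L[ℝ] X).det)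
    (LinearEquiv.isUnit_det' (j₀.symm.trans j).toLinearEquiv).ne_zero h1 h2
    fun p _ => ⟨1, one_pos, ?_⟩
  rw [one_mul]
  exact ubbnz_mul fun x => by simp

theorem NZ.congr (h : NZ Z L) (e : ∀ p ∈ Z, L' p = L p) : NZ Z L' := by
  obtain ⟨j, h1, h2⟩ := h
  exact ⟨j, ubbnz_sign one_ne_zero h1 h2 fun p hp => ⟨1, one_pos, by rw [e p hp, one_mul, one_mul]⟩⟩

/-- `LinearMap.det_conj` -/
theorem NZ.comp (h : NZ Z L) (a : X' ≃L[ℝ] X) (b : V ≃L[ℝ] V') {M : α → X' →L[ℝ] V'}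
    (e : ∀ p ∈ Z, ∀ x, M p x = b (L p (a x))) : NZ Z M := by
  obtain ⟨j, h1, h2⟩ := h
  refine ⟨b.symm.trans (j.trans a.symm),
    ubbnz_sign one_ne_zero h1 h2 fun p hp => ⟨1, one_pos, ?_⟩⟩
  rw [one_mul, one_mul]
  exact ubbnz_conj a.symm fun x => by simp [e p hp]

theorem NZ.map (h : NZ Z L) (f : α ≃ β) {M : β → X →L[ℝ] V} (e : ∀ p ∈ Z, M (f p) = L p) :
    NZ (Z.map f.toEmbedding) M := by
  obtain ⟨j, h1, h2⟩ := h
  refine ⟨j, fun q hq => ?_, ?_⟩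
  · obtain ⟨p, hp, rfl⟩ := Finset.mem_map.1 hq
    rw [Equiv.toEmbedding_apply, e p hp]
    exact h1 p hp
  · rw [Finset.sum_map]
    refine fun h0 => h2 (Eq.trans (Finset.sum_congr rfl fun p hp => ?_) h0)
    rw [Equiv.toEmbedding_apply, e p hp]

theorem NZ.pos (h : NZ Z L) {T : α → V →L[ℝ] V} (hT : ∀ p ∈ Z, 0 < (T p).det)
    (e : ∀ p ∈ Z, ∀ x, T p (L' p x) = L p x) : NZ Z L' := by
  obtain ⟨j, h1, h2⟩ := h
  refine ⟨j, ubbnz_sign one_ne_zero h1 h2 fun p hp => ⟨(T p).det⁻¹, inv_pos.2 (hT p hp), ?_⟩⟩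
  have e1 : ((j : V →L[ℝ] X).comp ((T p).comp (j.symm : X →L[ℝ] V))).det = (T p).det :=
    ubbnz_conj j fun _ => rfl
  have e2 : ((j : V →L[ℝ] X).comp (L p)).det =
      ((j : V →L[ℝ] X).comp ((T p).comp (j.symm : X →L[ℝ] V))).det *
        ((j : V →L[ℝ] X).comp (L' p)).det := ubbnz_mul fun x => by simp [e p hp]
  rw [e2, e1, one_mul, inv_mul_cancel_left₀ (hT p hp).ne']

/-- block triangular determinants -/
theorem ub_det_up (f : (X × ℝ) →L[ℝ] (X × ℝ)) (A : X →L[ℝ] X) (h : ∀ z, (f z).2 = z.2)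
    (hA : ∀ x, (f (x, 0)).1 = A x) : f.det = A.det := by
  let b := Module.finBasis ℝ X
  let c := Module.Basis.singleton Unit ℝ
  have e1 : ∀ j, b.prod c (Sum.inl j) = (b j, 0) := fun j =>
    Prod.ext (b.prod_apply_inl_fst c j) (b.prod_apply_inl_snd c j)
  have e2 : ∀ j, b.prod c (Sum.inr j) = (0, 1) := fun j =>
    Prod.ext (b.prod_apply_inr_fst c j) ((b.prod_apply_inr_snd c j).trans (by simp [c]))
  have e : LinearMap.toMatrix (b.prod c) (b.prod c) (f : (X × ℝ) →ₗ[ℝ] (X × ℝ)) =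
      fromBlocks (LinearMap.toMatrix b b (A : X →ₗ[ℝ] X))
        (LinearMap.toMatrix (b.prod c) (b.prod c) (f : (X × ℝ) →ₗ[ℝ] (X × ℝ))).toBlocks₁₂ 0 1 := by
    ext (i | i) (j | j)
    · simp [LinearMap.toMatrix_apply, e1, hA]
    · rfl
    · simp [LinearMap.toMatrix_apply, e1, h]
    · simp [LinearMap.toMatrix_apply, e2, h, c]
  rw [ContinuousLinearMap.det, ← LinearMap.det_toMatrix (b.prod c), e, det_fromBlocks_zero₂₁,
    det_one, mul_one, LinearMap.det_toMatrix]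

theorem ub_det_lo (f : (X × ℝ) →L[ℝ] (X × ℝ)) (A : X →L[ℝ] X) (h : ∀ z, (f z).1 = A z.1)
    (h1 : f (0, 1) = (0, 1)) : f.det = A.det := by
  let b := Module.finBasis ℝ X
  let c := Module.Basis.singleton Unit ℝ
  have e1 : ∀ j, b.prod c (Sum.inl j) = (b j, 0) := fun j =>
    Prod.ext (b.prod_apply_inl_fst c j) (b.prod_apply_inl_snd c j)
  have e2 : ∀ j, b.prod c (Sum.inr j) = (0, 1) := fun j =>
    Prod.ext (b.prod_apply_inr_fst c j) ((b.prod_apply_inr_snd c j).trans (by simp [c]))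
  have e : LinearMap.toMatrix (b.prod c) (b.prod c) (f : (X × ℝ) →ₗ[ℝ] (X × ℝ)) =
      fromBlocks (LinearMap.toMatrix b b (A : X →ₗ[ℝ] X)) 0
        (LinearMap.toMatrix (b.prod c) (b.prod c) (f : (X × ℝ) →ₗ[ℝ] (X × ℝ))).toBlocks₂₁ 1 := by
    ext (i | i) (j | j)
    · simp [LinearMap.toMatrix_apply, e1, h]
    · simp [LinearMap.toMatrix_apply, e2, h1]
    · rfl
    · simp [LinearMap.toMatrix_apply, e2, h1, c]
  rw [ContinuousLinearMap.det, ← LinearMap.det_toMatrix (b.prod c), e, det_fromBlocks_zero₁₂,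
    det_one, mul_one, LinearMap.det_toMatrix]

/-- `j' = (j.prodCongr refl).prodCongr refl`; `det (c • A) = c ^ finrank * det A`, even power. -/
theorem NZ.tri (h : NZ Z L) (hX : Even (Module.finrank ℝ X))
    {M : α → ((X × ℝ) × ℝ) →L[ℝ] ((V × ℝ) × ℝ)}
    (e : ∀ p ∈ Z, ∃ c : ℝ, c ≠ 0 ∧ (∀ z, (M p z).2 = z.2) ∧
      (∀ y r, (M p ((y, r), 0)).1.1 = c • L p y) ∧ (M p ((0, 1), 0)).1 = (0, 1)) : NZ Z M := by
  obtain ⟨j, h1, h2⟩ := h
  refine ⟨(j.prodCongr (ContinuousLinearEquiv.refl ℝ ℝ)).prodCongr (ContinuousLinearEquiv.refl ℝ ℝ),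
    ubbnz_sign one_ne_zero h1 h2 fun p hp => ?_⟩
  obtain ⟨c, hc, e1, e2, e3⟩ := e p hp
  refine ⟨c ^ Module.finrank ℝ X, hX.pow_pos hc, ?_⟩
  let A : (X × ℝ) →L[ℝ] (X × ℝ) :=
    ((j.prodCongr (ContinuousLinearEquiv.refl ℝ ℝ) : (V × ℝ) ≃L[ℝ] (X × ℝ)) :
      (V × ℝ) →L[ℝ] (X × ℝ)).comp ((ContinuousLinearMap.fst ℝ (V × ℝ) ℝ).comp
        ((M p).comp (ContinuousLinearMap.inl ℝ (X × ℝ) ℝ)))
  have hA : ∀ z, A z = (j (M p (z, 0)).1.1, (M p (z, 0)).1.2) := fun _ => rfl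
  have a1 : ∀ z, (A z).1 = (c • (j : V →L[ℝ] X).comp (L p)) z.1 := fun z => by
    rw [hA, e2 z.1 z.2, map_smul]
    rfl
  have a2 : A (0, 1) = (0, 1) := by rw [hA, e3, map_zero]
  rw [one_mul, ub_det_up _ A e1 fun _ => rfl, ub_det_lo A _ a1 a2]
  exact LinearMap.det_smul c _

/-- a continuous function without zero on a preconnected space has constant sign -/
theorem ub_det_pos {T : X → V →L[ℝ] V} (hT : Continuous T) (hi : ∀ p, Function.Injective (T p))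
    {p₀ : X} (h0 : T p₀ = 1) (p : X) : 0 < (T p).det := by
  have hd : Continuous fun p => (T p).det := ContinuousLinearMap.continuous_det.comp hT
  have hn : ∀ q, (T q).det ≠ 0 := fun q h =>
    LinearMap.det_eq_zero_iff_ker_ne_bot.1 h (LinearMap.ker_eq_bot.2 (hi q))
  have h1 : (T p₀).det = 1 := by
    rw [h0]
    exact LinearMap.det_id
  by_contra hc
  obtain ⟨q, hq⟩ := intermediate_value_univ p p₀ hd
    (show (0 : ℝ) ∈ Icc (T p).det (T p₀).det from ⟨not_lt.1 hc, by rw [h1]; exact zero_le_one⟩)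
  exact hn q hq

end Pool.Agent.Lib.MP_ccffa6_gt.U
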