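import Pool.Agent.Lib.MP_ccffa6_gt.U.BUn
import Pool.Agent.Lib.MP_ccffa6_gt.U.BPen

/-! A family with nonzero Chern character number. -/

open Set Filter Topology Matrix Pool.Agent.Lib.MP_b7c8b0_gt
open scoped ContDiff ComplexConjugate

noncomputable section

namespace Pool.Agent.Lib.MP_ccffa6_gt.U

variable {ι : Type} [Fintype ι] [DecidableEq ι]

section aux

variable {n : Type} [Fintype n] [DecidableEq n]

theorem ubrec_map_inv {M : Matrix n n ℂ} (h : M.det ≠ 0) : (M.map conj)⁻¹ = M⁻¹.map conj := by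
  apply Matrix.inv_eq_left_inv
  rw [← Matrix.map_mul, Matrix.nonsing_inv_mul _ (Ne.isUnit h)]
  exact Matrix.map_one _ (map_zero _) (map_one _)

omit [DecidableEq ι] in
theorem ubrec_inv {g g' : MS n ι} (hg : MP_b7c8b0_gt.Inv g)
    (h : ∀ x, ev g' x = (ev g x).map conj) : MP_b7c8b0_gt.Inv g' := by
  intro x
  have := RingHom.map_det (starRingEnd ℂ) (ev g x)
  rw [RingHom.mapMatrix_apply] at this
  rw [h, ← this]
  exact (map_ne_zero _).2 (hg x)

theorem ubrec_tor {P l : List ι} {g g' : MS n ι} (hg : TorM P l g)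
    (h : ∀ x, ev g' x = (ev g x).map conj) : TorM P l g' := by
  exact torM_iff.2 fun x y h1 h2 => by rw [h, h, torM_iff.1 hg x y h1 h2]

theorem ubrec_EE (α β γ : Sm ι) {g : MS n ι} (hg : MP_b7c8b0_gt.Inv g) (x : ι → ℝ) :
    ev (EE α β γ g) x = fromBlocks ((1 - α.1 x) • 1) (β.1 x • 1 + γ.1 x • ev g x)
      (β.1 x • 1 + γ.1 x • (ev g x)⁻¹) (α.1 x • 1) := by
  rw [EE, bott_ev_blocks]
  simp only [ev_add, ev_smul, ev_one, hg.ev_inv]
  rfl

theorem ubrec_pen (u : Sm ι) (e : MS n ι) (x : ι → ℝ) :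
    ev (1 + (u - 1) • e) x = 1 + (u.1 x - 1) • ev e x := by
  rw [ev_add, ev_one, ev_smul]
  rfl

theorem ubrec_EE_conj {α β γ : Sm ι}
    (hr : ∀ x, conj (α.1 x) = α.1 x ∧ conj (β.1 x) = β.1 x ∧ conj (γ.1 x) = γ.1 x)
    {g g' : MS n ι} (hg : MP_b7c8b0_gt.Inv g) (h : ∀ x, ev g' x = (ev g x).map conj)
    (x : ι → ℝ) : ev (EE α β γ g') x = (ev (EE α β γ g) x).map conj := by
  obtain ⟨h1, h2, h3⟩ := hr x
  rw [ubrec_EE α β γ hg, ubrec_EE α β γ (ubrec_inv hg h), h, ubrec_map_inv (hg x)]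
  ext a b
  rcases a with a | a <;> rcases b with b | b <;>
    simp [Matrix.one_apply, h1, h2, h3, apply_ite (starRingEnd ℂ)]

theorem ubrec_pen_conj {u u' : Sm ι} (hu : ∀ x, u'.1 x = conj (u.1 x)) {e e' : MS n ι}
    (h : ∀ x, ev e' x = (ev e x).map conj) (x : ι → ℝ) :
    ev (1 + (u' - 1) • e') x = (ev (1 + (u - 1) • e) x).map conj := by
  rw [ubrec_pen, ubrec_pen, h, hu]
  ext a b
  simp [Matrix.one_apply, apply_ite (starRingEnd ℂ)]

theorem ubrec_one (x : ι → ℝ) : ev (1 : MS n ι) x = (ev (1 : MS n ι) x).map conj := by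
  rw [ev_one]
  exact (Matrix.map_one _ (map_zero _) (map_one _)).symm

end aux

theorem ubrec_JJ : JJ 0 ([] : List ι) (1 : MS Unit ι) = 1 := by
  have h1 : trace (fnM (1 : MS Unit ι)) = fn (1 : Sm ι) := by
    simp only [map_one, trace, diag, Matrix.one_apply_eq, Finset.univ_unique,
      Finset.sum_singleton]
  simp only [JJ, mul_zero, pow_zero, mul_one, h1]
  exact itg_nil_const _ _ fun _ => rfl

/-- Induction on `m`. Start: `l = [z]`, `n = Unit`, `g = 1 + (u - 1) • 1`, `JJ 0 [] 1 = 1`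
(`itg_nil_const`, compare `evenInt_zero`). Step: `l = w :: z :: l'`, `u, u'` from `ub_u w`, `α β γ`
from `ub_un z`, new `g = (1 + (u - 1) • EE g) * (1 + (u - 1) • EE 1)⁻¹`, new
`g' = (1 + (u' - 1) • EE g') * (1 + (u' - 1) • EE 1)⁻¹`, new `c = (m + 2) (2 π i) c` (`Ch_mul`,
`ub_Ch_inv`, `Ch_one`, `ub_pen`, `ub_pen'`); `g'` is invertible and periodic because `g` is
(`torM_iff`, `RingHom.map_det`). -/
theorem ub_rec (m : ℕ) {t s : ι} : ∀ {l : List ι}, (t :: s :: l).Nodup → l.length = 2 * m + 1 →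
    ∃ (n : Type) (_ : Fintype n) (_ : DecidableEq n) (g g' : MS n ι) (c : ℂ),
      MP_b7c8b0_gt.Inv g ∧ TorM [] l g ∧ (∀ x, ev g' x = (ev g x).map conj) ∧
      (∀ x, (∃ i ∈ l, Int.fract (x i) ≤ 1 / 4 ∨ 3 / 4 ≤ Int.fract (x i)) → ev g x = 1) ∧
      c ≠ 0 ∧ Ch (m + 1) t l g = c ∧ Ch (m + 1) t l g' = (-1) ^ (m + 1) * c := by
  have hπ : (2 * Real.pi * Complex.I : ℂ) ≠ 0 := Complex.two_pi_I_ne_zero
  induction m with
  | zero =>
    intro l hN hl
    obtain ⟨z, rfl⟩ := List.length_eq_one_iff.1 hl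
    obtain ⟨u, u', hu, hu', hs, ho⟩ := ub_u z
    obtain ⟨i1, t1, c1⟩ := ub_pen (n := Unit) 0 hN (mul_one 1) TorM.one hu hs
    obtain ⟨-, -, c2⟩ := ub_pen' (n := Unit) 0 hN (mul_one 1) TorM.one hu hu' hs
    refine ⟨Unit, inferInstance, inferInstance, _, 1 + (u' - 1) • 1, _, i1, t1,
      ubrec_pen_conj hu' ubrec_one, ?_, ?_, c1, ?_⟩
    · rintro x ⟨i, hi, hx⟩
      rw [List.mem_singleton.1 hi] at hx
      rw [ubrec_pen, ho x hx, sub_self, zero_smul, add_zero]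
    · rw [ubrec_JJ]
      simp
    · rw [c2]
      ring
  | succ m ih =>
    intro l hN hl
    obtain ⟨w, l, rfl⟩ := List.exists_cons_of_length_eq_add_one hl
    have hl1 : l.length = (2 * m + 1) + 1 := by
      rw [List.length_cons] at hl
      omega
    obtain ⟨z, l, rfl⟩ := List.exists_cons_of_length_eq_add_one hl1
    have hl2 : l.length = 2 * m + 1 := by
      rw [List.length_cons] at hl1
      omega
    have hN1 : (t :: s :: z :: l).Nodup :=
      hN.sublist ((List.sublist_cons_self _ _).cons_cons s |>.cons_cons t)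
    have hN2 : (t :: s :: l).Nodup :=
      hN1.sublist ((List.sublist_cons_self _ _).cons_cons s |>.cons_cons t)
    obtain ⟨n, _, _, g, g', c, hg, tg, hc, ho, hc0, c1, c2⟩ := ih hN2 hl2
    have hg' := ubrec_inv hg hc
    have tg' := ubrec_tor tg hc
    obtain ⟨u, u', hu, hu', hs, hou⟩ := ub_u w
    obtain ⟨α, β, γ, hr, hoe, hE⟩ := ub_un z
    obtain ⟨e1, te1, j1⟩ := hE n (m + 1) t s l g hN1 hg tg
    obtain ⟨e2, te2, j2⟩ := hE n (m + 1) t s l g' hN1 hg' tg'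
    obtain ⟨e0, te0, j0⟩ := hE n (m + 1) t s l 1 hN1 MP_b7c8b0_gt.Inv.one TorM.one
    obtain ⟨i1, t1, d1⟩ := ub_pen (m + 1) hN e1 te1 hu hs
    obtain ⟨i0, t0, d0⟩ := ub_pen (m + 1) hN e0 te0 hu hs
    obtain ⟨i2, t2, d2⟩ := ub_pen' (m + 1) hN e2 te2 hu hu' hs
    obtain ⟨i3, t3, d3⟩ := ub_pen' (m + 1) hN e0 te0 hu hu' hs
    refine ⟨n ⊕ n, inferInstance, inferInstance,
      (1 + (u - 1) • EE α β γ g) * (1 + (u - 1) • EE α β γ 1)⁻¹,
      (1 + (u' - 1) • EE α β γ g') * (1 + (u' - 1) • EE α β γ 1)⁻¹,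
      ((m + 1 + 1 : ℕ) : ℂ) * (2 * Real.pi * Complex.I) * c, i1.mul i0.inv, t1.mul (t0.inv i0),
      fun x => ?_, ?_, ?_, ?_, ?_⟩
    · rw [ev_mul, ev_mul, i0.ev_inv, i3.ev_inv, Matrix.map_mul, ← ubrec_map_inv (i0 x),
        ubrec_pen_conj hu' (ubrec_EE_conj hr hg hc),
        ubrec_pen_conj hu' (ubrec_EE_conj hr MP_b7c8b0_gt.Inv.one ubrec_one)]
    · rintro x ⟨i, hi, hx⟩
      have key : ev (1 + (u - 1) • EE α β γ g) x = ev (1 + (u - 1) • EE α β γ (1 : MS n ι)) x := by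
        rw [ubrec_pen, ubrec_pen]
        rcases List.mem_cons.1 hi with rfl | hi
        · rw [hou x hx, sub_self, zero_smul, zero_smul]
        · rw [ubrec_EE α β γ hg, ubrec_EE α β γ MP_b7c8b0_gt.Inv.one, ev_one]
          rcases List.mem_cons.1 hi with rfl | hi
          · rw [(hoe x hx).2.2, zero_smul, zero_smul, zero_smul, zero_smul]
          · rw [ho x ⟨i, hi, hx⟩]
      rw [ev_mul, key, ← ev_mul, i0.mul_inv, ev_one]
    · exact mul_ne_zero (mul_ne_zero (Nat.cast_ne_zero.2 (Nat.succ_ne_zero _)) hπ) hc0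
    · rw [Ch_mul _ hN i1 i0.inv t1 (t0.inv i0), ub_Ch_inv _ hN i0 t0, d1, d0, j1, j0, c1, Ch_one]
      ring
    · rw [Ch_mul _ hN i2 i3.inv t2 (t3.inv i3), ub_Ch_inv _ hN i3 t3, d2, d3, j2, j0, c2, Ch_one]
      ring

end Pool.Agent.Lib.MP_ccffa6_gt.U
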