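import Pool.Agent.Lib.MP_ccffa6_gt.U.BCh

/-! Homotopies of complex families. -/

open Set Filter Topology Matrix Pool.Agent.Lib.MP_b7c8b0_gt
open scoped ContDiff ComplexConjugate

noncomputable section

namespace Pool.Agent.Lib.MP_ccffa6_gt.U

variable {n : Type} [Fintype n] [DecidableEq n] {k : ℕ}

theorem ubstep_inv {X : Type} [TopologicalSpace X] {M : X → Matrix n n ℂ} (hM : Continuous M)
    (h : ∀ x, (M x).det ≠ 0) : Continuous fun x => (M x)⁻¹ := by
  simp only [inv_def, Ring.inverse_eq_inv']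
  exact (hM.matrix_det.inv₀ h).smul hM.matrix_adjugate

theorem ubstep_det {M : Matrix n n ℂ} (h : M.det ≠ 0) : M⁻¹.det ≠ 0 := by
  rw [det_nonsing_inv, Ring.inverse_eq_inv']
  exact inv_ne_zero h

/-- Composition of homotopies. -/
theorem ub_step_trans {A B C : YY k → Matrix n n ℂ} (h : GLStep A B) (h' : GLStep B C) :
    GLStep A C := by
  obtain ⟨K, c, d, o, z, e⟩ := h
  obtain ⟨K', c', d', o', z', e'⟩ := h'
  have d0 : ∀ y, (K' (0, y)).det ≠ 0 := fun y => d' 0 y le_rfl zero_le_one
  refine ⟨fun p => K p * (K' (0, p.2))⁻¹ * K' p, (c.matrix_mul (ubstep_inv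
    (c'.comp (continuous_const.prodMk continuous_snd)) fun p => d0 p.2)).matrix_mul c',
    fun s y h0 h1 => ?_, fun s y hy => ?_, fun y => ?_, fun y => ?_⟩
  · rw [det_mul, det_mul]
    exact mul_ne_zero (mul_ne_zero (d s y h0 h1) (ubstep_det (d0 y))) (d' s y h0 h1)
  · simp only [o s y hy, o' s y hy, o' 0 y hy]
  · dsimp only
    rw [Matrix.mul_assoc, nonsing_inv_mul _ (d0 y).isUnit, Matrix.mul_one, z]
  · dsimp only
    rw [e, ← z', mul_nonsing_inv _ (d0 y).isUnit, Matrix.one_mul, e']

theorem ub_step_of_hom {A B : YY k → Matrix n n ℂ} (h : GLHom A B) (hA : GLGood A) :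
    GLStep A B := by
  induction h with
  | refl =>
    refine ⟨fun p => A p.2, hA.cont.comp continuous_snd, fun _ y _ _ => hA.det y,
      fun _ y hy => ?_, fun _ => rfl, fun _ => rfl⟩
    exact hA.out y hy
  | tail _ h2 ih => exact ub_step_trans ih h2

theorem ubstep_cl (s : ℝ) : 0 ≤ max 0 (min s 1) ∧ max 0 (min s 1) ≤ 1 :=
  ⟨le_max_left _ _, max_le zero_le_one (min_le_right _ _)⟩

/-- Normalisation at the base point. -/
theorem ub_st1 {A B : YY k → Matrix n n ℂ} (h : GLStep A B) :
    St1 (fun y => A y * (A 0)⁻¹) (fun y => B y * (B 0)⁻¹) := by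
  obtain ⟨K, c, d, o, z, e⟩ := h
  have d0 : ∀ s y, (K (max 0 (min s 1), y)).det ≠ 0 := fun s y =>
    d _ y (ubstep_cl s).1 (ubstep_cl s).2
  have c0 : Continuous fun p : ℝ × YY k => max 0 (min p.1 1) := by fun_prop
  refine ⟨fun p => K (max 0 (min p.1 1), p.2) * (K (max 0 (min p.1 1), 0))⁻¹,
    (c.comp (c0.prodMk continuous_snd)).matrix_mul
      (ubstep_inv (c.comp (c0.prodMk continuous_const)) fun p => d0 p.1 0),
    fun s y _ _ => ?_, fun s y hy => ?_, fun y => ?_, fun y => ?_⟩
  · rw [det_mul]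
    exact mul_ne_zero (d0 s y) (ubstep_det (d0 s 0))
  · simp only [o _ y hy]
    exact mul_nonsing_inv _ (d0 s 0).isUnit
  · simp only [min_eq_left (zero_le_one' ℝ), max_self, z]
  · simp only [min_self, max_eq_right (zero_le_one' ℝ), e]

omit [DecidableEq n] in
theorem ubstep_blk_mul {p q : Type} [Fintype p] [Fintype q] [DecidableEq q] (e : n ≃ p ⊕ q)
    (M N : Matrix p p ℂ) : blk e M * blk e N = blk e (M * N) := by
  simp only [blk, reindex_apply, submatrix_mul_equiv, fromBlocks_multiply]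
  simp

/-- Destabilisation with normalisation. -/
theorem ub_destab {a j : ℕ} (hk : k < 2 * a) (e : n ≃ Fin a ⊕ Fin j) {G : YY k → Matrix n n ℂ}
    (hG : SmGood G) (h0 : G 0 = 1) :
    ∃ A : YY k → Matrix (Fin a) (Fin a) ℂ, SmGood A ∧ A 0 = 1 ∧ St1 G fun y => blk e (A y) := by
  obtain ⟨A, hA, h⟩ := destab hk j e hG
  have h1 := ub_st1 (ub_step_of_hom h
    ⟨continuous_matrix fun a b => (hG.smooth a b).continuous, hG.det, hG.out⟩)
  have u := mul_nonsing_inv _ (hA.det 0).isUnit
  have e1 : (blk e (A 0))⁻¹ = blk e (A 0)⁻¹ := by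
    refine inv_eq_right_inv ?_
    rw [ubstep_blk_mul, u]
    simp [blk]
  refine ⟨fun y => A y * (A 0)⁻¹, ⟨fun a b => ?_, fun y => ?_, fun y hy => ?_⟩, u, ?_⟩
  · simp only [Matrix.mul_apply]
    exact ContDiff.sum fun i _ => (hA.smooth a i).mul contDiff_const
  · rw [det_mul]
    exact mul_ne_zero (hA.det y) (ubstep_det (hA.det 0))
  · simp only [hA.out y hy]
  · simpa only [h0, inv_one, Matrix.mul_one, e1, ubstep_blk_mul] using h1

/-- Homotopy invariance. -/
theorem IsCh.st1 {m : ℕ} {A A' : YY (2 * m + 1) → Matrix n n ℂ} {c c' : ℂ} (h : IsCh m A c)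
    (h' : IsCh m A' c') (hs : St1 A A') : c = c' := by
  obtain ⟨K, cK, d, o, z, e⟩ := hs
  have c0 : Continuous fun p : ℝ × YY (2 * m + 1) => max 0 (min p.1 1) := by fun_prop
  have hσ : ContDiff ℝ ∞ fun p : ℝ × YY (2 * m + 1) => Real.smoothTransition p.1 :=
    Real.smoothTransition.contDiff.comp contDiff_fst
  obtain ⟨g, g1, g2, g3⟩ := ub_smooth (F := n → n → ℂ) (U := {M | (Matrix.of M).det ≠ 0})
    (isOpen_ne_fun (Continuous.matrix_det (A := fun M : n → n → ℂ => Matrix.of M) continuous_id)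
      continuous_const)
    (f := fun p : ℝ × YY (2 * m + 1) => fun a b => K (max 0 (min p.1 1), p.2) a b)
    (h := fun p a b => (1 - Real.smoothTransition p.1) • A p.2 a b +
      Real.smoothTransition p.1 • A' p.2 a b)
    (continuous_pi fun a => continuous_pi fun b =>
      (cK.comp (c0.prodMk continuous_snd)).matrix_elem a b)
    (fun p => d _ p.2 (ubstep_cl p.1).1 (ubstep_cl p.1).2)
    (contDiff_pi.2 fun a => contDiff_pi.2 fun b =>
      ((contDiff_const.sub hσ).smul ((h.1.smooth a b).comp contDiff_snd)).add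
        (hσ.smul ((h'.1.smooth a b).comp contDiff_snd)))
  have o1 : ∀ s y, Out y → g (s, y) = fun a b => (1 : Matrix n n ℂ) a b := fun s y hy => by
    have e1 : ∀ a b, (1 - Real.smoothTransition s) • A y a b +
        Real.smoothTransition s • A' y a b = (1 : Matrix n n ℂ) a b := fun a b => by
      rw [← z, ← e, o _ y hy, o _ y hy, ← add_smul, sub_add_cancel, one_smul]
    rw [g3 (s, y) (by simp only [o _ y hy, e1])]
    simp only [e1]
  have o2 : Out (0 : YY (2 * m + 1)) := ⟨0, Or.inl (by norm_num)⟩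
  have g4 := contDiff_fract g1 fun s y hy => (o1 s y hy).trans (o1 s 0 o2).symm
  have g5 : ContDiff ℝ ∞ fun x : II m → ℝ => g (x (some (Fin.cast (ub_cast m) 0)), fr m x) :=
    g4.comp ((contDiff_apply ℝ ℝ _).prodMk
      (contDiff_pi.2 fun i => contDiff_apply ℝ ℝ (some (Fin.cast (ub_cast m) i.succ) : II m)))
  let G : MS n (II m) := Matrix.of fun a b =>
    Sm.mk (fun x => g (x (some (Fin.cast (ub_cast m) 0)), fr m x) a b)
      (contDiff_pi.1 (contDiff_pi.1 g5 a) b)
  have eG : ∀ x, ev G x = Matrix.of (g (x (some (Fin.cast (ub_cast m) 0)), fr m x)) :=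
    fun _ => rfl
  have ht : TorM [some (Fin.cast (ub_cast m) 0)] (ll m) G := torM_iff.2 fun x y h1 h2 => by
    have e1 : fr m x = fr m y := funext fun i => by
      obtain ⟨j, hj⟩ := h2 _ (List.mem_ofFn.2 ⟨i, rfl⟩)
      simp only [fr, hj, Int.fract_add_intCast]
    rw [eG, eG, e1, h1 _ (List.mem_singleton_self _)]
  have eu : ∀ (x : II m → ℝ) (t : ℝ),
      fr m (Function.update x (some (Fin.cast (ub_cast m) 0)) t) = fr m x := fun x t =>
    funext fun i => by
      rw [fr, Function.update_of_ne]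
      · rfl
      · intro h1
        have h2 := congrArg Fin.val (Option.some.inj h1)
        simp at h2
  have p0 : Per m A (fSM (some (Fin.cast (ub_cast m) 0)) 0 G) := fun x => by
    rw [ev_fSM, eG, eu, Function.update_self, g3 (0, fr m x) (by simp [z])]
    ext a b
    simp
  have p1 : Per m A' (fSM (some (Fin.cast (ub_cast m) 0)) 1 G) := fun x => by
    rw [ev_fSM, eG, eu, Function.update_self, g3 (1, fr m x) (by simp [e])]
    ext a b
    simp
  rw [← h.per p0, ← h'.per p1]
  exact ub_Ch_htpy (m + 1) (ub_nodup m) (fun x => g2 _) ht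

/-- The rotation matrix. -/
def ubstep_R (n : Type) [DecidableEq n] (c s : ℂ) : Matrix (n ⊕ n) (n ⊕ n) ℂ :=
  fromBlocks (c • 1) (-s • 1) (s • 1) (c • 1)

theorem ubstep_R_mul {c s : ℂ} (h : c ^ 2 + s ^ 2 = 1) :
    ubstep_R n c s * ubstep_R n c (-s) = 1 := by
  simp only [ubstep_R, fromBlocks_multiply, Matrix.smul_mul, Matrix.mul_smul, Matrix.one_mul,
    smul_smul, ← add_smul]
  rw [show c * c + -s * -s = 1 by linear_combination h,
    show - -s * c + c * -s = 0 by ring, show c * s + -s * c = 0 by ring,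
    show - -s * s + c * c = 1 by linear_combination h, one_smul, zero_smul, fromBlocks_one]

omit [Fintype n] in
theorem ubstep_R_cont {X : Type} [TopologicalSpace X] {c s : X → ℂ} (hc : Continuous c)
    (hs : Continuous s) : Continuous fun x => ubstep_R n (c x) (s x) :=
  (hc.smul continuous_const).matrix_fromBlocks (hs.neg.smul continuous_const)
    (hs.smul continuous_const) (hc.smul continuous_const)

/-- The rotation trick. -/
theorem ub_rot {g : YY k → Matrix n n ℂ} (hg : GLGood g) (h0 : g 0 = 1) :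
    St1 (fun _ => 1) fun y => fromBlocks (g y) 0 0 (g y)⁻¹ := by
  have hR := fun s : ℝ => ubstep_R_mul (n := n) (Complex.cos_sq_add_sin_sq (Real.pi / 2 * s))
  have c1 : Continuous fun p : ℝ × YY k => Complex.cos (Real.pi / 2 * p.1) := by fun_prop
  have c2 : Continuous fun p : ℝ × YY k => Complex.sin (Real.pi / 2 * p.1) := by fun_prop
  have c3 : Continuous fun p : ℝ × YY k => g p.2 := hg.cont.comp continuous_snd
  refine ⟨fun p => fromBlocks (g p.2) 0 0 1 *
    ubstep_R n (Complex.cos (Real.pi / 2 * p.1)) (Complex.sin (Real.pi / 2 * p.1)) *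
      fromBlocks (g p.2)⁻¹ 0 0 1 *
    ubstep_R n (Complex.cos (Real.pi / 2 * p.1)) (-Complex.sin (Real.pi / 2 * p.1)),
    (((c3.matrix_fromBlocks continuous_const continuous_const continuous_const).matrix_mul
      (ubstep_R_cont c1 c2)).matrix_mul ((ubstep_inv c3 fun p => hg.det p.2).matrix_fromBlocks
        continuous_const continuous_const continuous_const)).matrix_mul (ubstep_R_cont c1 c2.neg),
    fun s y _ _ => ?_, fun s y hy => ?_, fun y => ?_, fun y => ?_⟩
  · have h1 := congrArg det (hR s)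
    rw [det_mul, det_one] at h1
    simp only [det_mul, det_fromBlocks_zero₂₁, det_one, mul_one]
    exact mul_ne_zero (mul_ne_zero (mul_ne_zero (hg.det y) (left_ne_zero_of_mul_eq_one h1))
      (ubstep_det (hg.det y))) (right_ne_zero_of_mul_eq_one h1)
  · simp only [hg.out y hy, h0, inv_one, fromBlocks_one, Matrix.one_mul, Matrix.mul_one, hR]
  · simp [ubstep_R, fromBlocks_multiply, mul_nonsing_inv _ (hg.det y).isUnit]
  · simp [ubstep_R, fromBlocks_multiply]

end Pool.Agent.Lib.MP_ccffa6_gt.U
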