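import Pool.Agent.Lib.MP_ccffa6_gt.U.BFun
import Pool.Agent.Lib.MP_b7c8b0_gt.Clutch

/-! The idempotent of an invertible family. -/

open Set Filter Topology Matrix Pool.Agent.Lib.MP_b7c8b0_gt
open scoped ContDiff ComplexConjugate

noncomputable section

namespace Pool.Agent.Lib.MP_ccffa6_gt.U

variable {ι : Type} [Fintype ι] [DecidableEq ι] {n : Type} [Fintype n] [DecidableEq n]
  {t s z : ι} {l : List ι}

theorem ubun_ev (α β γ : Sm ι) (g : MS n ι) (x : ι → ℝ) : ev (EE α β γ g) x =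
    fromBlocks ((1 - α.1 x) • 1) (β.1 x • 1 + γ.1 x • ev g x) (β.1 x • 1 + γ.1 x • ev g⁻¹ x)
      (α.1 x • 1) := by
  have h : ∀ a b c d : MS n ι, ev (fromBlocks a b c d) x =
      fromBlocks (ev a x) (ev b x) (ev c x) (ev d x) := fun _ _ _ _ => fromBlocks_map ..
  rw [EE, h, ev_add, ev_add]
  simp only [ev_smul, ev_one]
  rfl

theorem ubun_prod {R : Type} [CommRing R] {a b : R} (h : a * b = 0) {g g' : Matrix n n R}
    (hg : g * g' = 1) : (a • 1 + b • g) * (a • 1 + b • g') = (a ^ 2 + b ^ 2) • 1 := by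
  simp only [add_mul, mul_add, smul_mul_assoc, mul_smul_comm, one_mul, mul_one, hg, smul_add,
    smul_smul, h, mul_comm b a, zero_smul, add_zero, zero_add, pow_two, add_smul]

theorem ubun_idem {α β γ : Sm ι} (h1 : β * γ = 0) (h2 : β ^ 2 + γ ^ 2 = α - α ^ 2) {g : MS n ι}
    (hg : MP_b7c8b0_gt.Inv g) : EE α β γ g * EE α β γ g = EE α β γ g := by
  rw [EE, fromBlocks_multiply, ubun_prod h1 hg.mul_inv, ubun_prod h1 hg.inv_mul, h2]
  simp only [smul_mul_assoc, mul_smul_comm, one_mul, mul_one, smul_smul, ← add_smul]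
  congr 1
  · congr 1
    ring
  · rw [sub_add_cancel, one_smul]
  · rw [sub_add_cancel, one_smul]
  · congr 1
    ring

/-- A smooth real function of `x z`. -/
def ubun_f (f : ℝ → ℝ) (hf : ContDiff ℝ ∞ f) (z : ι) : Sm ι :=
  un (fun r => (f r : ℂ)) (Complex.ofRealCLM.contDiff.comp hf) z

omit [DecidableEq ι] in
theorem ubun_f_apply (f : ℝ → ℝ) (hf : ContDiff ℝ ∞ f) (z : ι) (x : ι → ℝ) :
    (ubun_f f hf z).1 x = (f (x z) : ℂ) := rfl

omit [DecidableEq ι] in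
theorem ubun_tor (f : ℝ → ℝ) (hf : ContDiff ℝ ∞ f) : Tor [z] l (ubun_f f hf z) := fun x y h _ => by
  rw [ubun_f_apply, ubun_f_apply, h z (by simp)]

/-- The idempotent of an invertible family and its even Chern number. -/
theorem ub_un (z : ι) : ∃ α β γ : Sm ι,
    (∀ x, conj (α.1 x) = α.1 x ∧ conj (β.1 x) = β.1 x ∧ conj (γ.1 x) = γ.1 x) ∧
    (∀ x, Int.fract (x z) ≤ 1 / 4 ∨ 3 / 4 ≤ Int.fract (x z) →
      α.1 x = 0 ∧ β.1 x = 0 ∧ γ.1 x = 0) ∧
    ∀ (n : Type) [Fintype n] [DecidableEq n] (m : ℕ) (t s : ι) (l : List ι) (g : MS n ι),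
      (t :: s :: z :: l).Nodup → MP_b7c8b0_gt.Inv g → TorM [] l g →
      EE α β γ g * EE α β γ g = EE α β γ g ∧ TorM [] (z :: l) (EE α β γ g) ∧
        JJ m (z :: l) (EE α β γ g) = Ch m t l g := by
  obtain ⟨c₁, c₂, σ, s₁, s₂, s₃, h12, hsum, hlo, hhi⟩ := ub_fun
  have σ0 : ∀ r, r ≤ 1 / 4 ∨ 3 / 4 ≤ r → σ r = 0 := fun r h =>
    h.elim (fun h => (hlo r h).2.2) fun h => (hhi r h).2.2
  have key : ∀ c : ℝ → ℝ, ∀ r, 0 ≤ r → r ≤ 1 →
      σ (Int.fract r) * c (Int.fract r) = σ r * c r := fun c r h0 h1 => by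
    rcases h1.eq_or_lt with rfl | h1
    · rw [Int.fract_one, σ0 0 (by norm_num), σ0 1 (by norm_num), zero_mul, zero_mul]
    · rw [Int.fract_eq_self.2 ⟨h0, h1⟩]
  have sm : ∀ {c : ℝ → ℝ}, ContDiff ℝ ∞ c →
      ContDiff ℝ ∞ fun r => σ (Int.fract r) * c (Int.fract r) := fun hc =>
    ub_fract (s₃.mul hc) fun r h => by rw [σ0 r h, zero_mul]
  refine ⟨ubun_f _ (sm s₃) z, ubun_f _ (sm s₁) z, ubun_f _ (sm s₂) z,
    fun x => ⟨Complex.conj_ofReal _, Complex.conj_ofReal _, Complex.conj_ofReal _⟩,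
    fun x h => by simp [ubun_f_apply, σ0 _ h], fun n _ _ m t s l g hN hg tg => ?_⟩
  have hN' := hN
  simp only [List.nodup_cons, List.mem_cons, not_or] at hN'
  obtain ⟨⟨ts, tz, tl⟩, ⟨sz, sl⟩, zl, hl⟩ := hN'
  set e := EE (ubun_f _ (sm s₃) z) (ubun_f _ (sm s₁) z) (ubun_f _ (sm s₂) z) g with he
  have tg' := tg.inv hg
  have ee : e * e = e := by
    refine ubun_idem (Subtype.ext (funext fun x => ?_)) (Subtype.ext (funext fun x => ?_)) hg
    · change ((_ : ℝ) : ℂ) * ((_ : ℝ) : ℂ) = 0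
      norm_cast
      linear_combination σ (Int.fract (x z)) ^ 2 * h12 (Int.fract (x z))
    · change ((_ : ℝ) : ℂ) ^ 2 + ((_ : ℝ) : ℂ) ^ 2 = ((_ : ℝ) : ℂ) - ((_ : ℝ) : ℂ) ^ 2
      norm_cast
      linear_combination σ (Int.fract (x z)) ^ 2 * hsum (Int.fract (x z))
  have te : TorM [] (z :: l) e := torM_iff.2 fun x y h1 h2 => by
    obtain ⟨k, hk⟩ := h2 z (by simp)
    have h3 : ∀ i ∈ l, ∃ k : ℤ, x i = y i + k := fun i hi => h2 i (by simp [hi])
    simp only [he, ubun_ev, ubun_f_apply, hk, Int.fract_add_intCast, torM_iff.1 tg x y h1 h3,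
      torM_iff.1 tg' x y h1 h3]
  refine ⟨ee, te, ?_⟩
  have sT := Real.smoothTransition.contDiff (n := ⊤)
  set C₁ : Sm ι := ubun_f _ (s₁.comp sT) z with hC₁
  set C₂ : Sm ι := ubun_f _ (s₂.comp sT) z with hC₂
  set S : Sm ι := ubun_f _ (s₃.comp sT) z with hS
  have e1 : C₁ * C₂ = 0 := Subtype.ext (funext fun x => by
    change ((_ : ℝ) : ℂ) * ((_ : ℝ) : ℂ) = 0
    norm_cast
    exact h12 _)
  have e2 : C₁ ^ 2 + C₂ ^ 2 = 1 - S * S := Subtype.ext (funext fun x => by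
    change ((_ : ℝ) : ℂ) ^ 2 + ((_ : ℝ) : ℂ) ^ 2 = 1 - ((_ : ℝ) : ℂ) * ((_ : ℝ) : ℂ)
    norm_cast
    simp only [Function.comp_apply]
    linear_combination hsum (Real.smoothTransition (x z)))
  obtain ⟨V, hV⟩ : ∃ V : MS (n ⊕ n) ι,
      V = fromBlocks (C₁ • 1 + C₂ • g) (-S • 1) (S • 1) (C₁ • 1 + C₂ • g⁻¹) := ⟨_, rfl⟩
  have VV : V * fromBlocks (C₁ • 1 + C₂ • g⁻¹) (S • 1) (-S • 1) (C₁ • 1 + C₂ • g) = 1 := by
    rw [hV, fromBlocks_multiply, ubun_prod e1 hg.mul_inv, ubun_prod e1 hg.inv_mul, e2,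
      ← fromBlocks_one]
    simp only [smul_mul_assoc, mul_smul_comm, one_mul, mul_one, smul_smul, ← add_smul]
    congr 1
    · convert one_smul (Sm ι) _
      ring
    all_goals simp
  have iV : MP_b7c8b0_gt.Inv V := Inv.of_mul VV
  have mg : ∀ {h : MS n ι}, TorM [] l h → TorM [z] l h := fun h =>
    h.mono (by simp) fun i hi => Or.inr hi
  have tV : TorM [z] l V := hV ▸ clutch_tor
    ((TorM.smul (ubun_tor _ _) TorM.one).add (TorM.smul (ubun_tor _ _) (mg tg)))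
    (TorM.smul (ubun_tor _ _).neg TorM.one) (TorM.smul (ubun_tor _ _) TorM.one)
    ((TorM.smul (ubun_tor _ _) TorM.one).add (TorM.smul (ubun_tor _ _) (mg tg')))
  have up : ∀ {h : MS n ι}, TorM [] l h → ∀ x c, ev h (Function.update x z c) = ev h x :=
    fun h x c => by rw [← ev_fSM, h.fSM_not_mem (by simp) zl]
  have VP : V * fromBlocks 1 0 0 0 * V⁻¹ = repM z e := by
    have : V * fromBlocks 1 0 0 0 * V⁻¹ = EE (S * S) (S * C₁) (S * C₂) g := by
      rw [Matrix.inv_eq_right_inv VV, hV, fromBlocks_multiply, fromBlocks_multiply, EE]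
      simp only [mul_one, mul_zero, add_zero, zero_mul, ubun_prod e1 hg.mul_inv, e2]
      simp only [smul_mul_assoc, mul_smul_comm, one_mul, mul_one, smul_smul, smul_add]
    rw [this]
    refine ev_ext fun x => ?_
    change _ = ev e (Function.update x z (Real.smoothTransition (x z)))
    have k := fun c => key c _ (Real.smoothTransition.nonneg (x z))
      (Real.smoothTransition.le_one (x z))
    simp only [he, ubun_ev, ubun_f_apply, Function.update_self, k, up tg, up tg',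
      Complex.ofReal_mul]
    rfl
  have J1 : JJ m (z :: l) e = itg (z :: l) (ch m (toBlocks₁₁ (mc V))) := by
    rw [← grass m iV, VP, ← JJ_rep m (s := s) (by simp [sz, sl, zl, hl]) ee te]
    rfl
  have fc : ∀ (f : ℝ → ℝ) (hf : ContDiff ℝ ∞ f) (c : ℝ),
      fS z c (ubun_f f hf z) = algebraMap ℂ (Sm ι) (f c) := fun f hf c =>
    Subtype.ext (funext fun x => by
      change ((f (Function.update x z c z) : ℝ) : ℂ) = _
      rw [Function.update_self]
      rfl)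
  have fg := fun c => tg.fSM_not_mem (i := z) (by simp) zl c
  have fg' := fun c => tg'.fSM_not_mem (i := z) (by simp) zl c
  have V0 : fSM z 0 V = 1 := by
    obtain ⟨a1, a2, a3⟩ := hlo 0 (by norm_num)
    rw [hV, clutch_fSM, ← fromBlocks_one]
    simp [fSM_smul, hC₁, hC₂, hS, fc, a1, a2, a3]
  have V1 : fSM z 1 V = fromBlocks g 0 0 g⁻¹ := by
    obtain ⟨a1, a2, a3⟩ := hhi 1 (by norm_num)
    rw [hV, clutch_fSM]
    simp [fSM_smul, hC₁, hC₂, hS, fc, a1, a2, a3, fg, fg']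
  have fb : ∀ (c : ℝ) (θ : MO (n ⊕ n) ι),
      faceM z c (toBlocks₁₁ θ) = toBlocks₁₁ (faceM z c θ) := fun _ _ => rfl
  have A0 : toBlocks₁₁ (mc (1 : MS (n ⊕ n) ι)) = (0 : MO n ι) := by
    rw [mc, map_one, dM_one, mul_zero]
    rfl
  have A1 : toBlocks₁₁ (mc (fromBlocks g 0 0 g⁻¹)) = mc g := by
    have : (fromBlocks g 0 0 g⁻¹)⁻¹ = fromBlocks g⁻¹ 0 0 g := Matrix.inv_eq_right_inv (by
      rw [fromBlocks_multiply, hg.mul_inv, hg.inv_mul, ← fromBlocks_one]
      simp)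
    rw [mc, this, clutch_fnM_diag, clutch_fnM_diag, clutch_dM_diag, fromBlocks_multiply,
      toBlocks_fromBlocks₁₁, mc]
    simp
  rw [J1, T_path m (s := s) (by simp [Ne.symm sz, zl, sl, hl])
      (clutch_adm (Adm.mc iV tV (by simp [sz, sl]) (fun i hi => by
        simp only [List.mem_singleton]
        rintro rfl
        exact zl hi))),
    fb, fb, iV.faceM_mc, iV.faceM_mc, V0, V1, A0, A1,
    T_var m (s := t) (by simp [Ne.symm tz, zl, tl, hl]) (Adm.zero _ _)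
      (Adm.mc hg tg (by simp [zl, tl]) (by simp))]
  rfl

end Pool.Agent.Lib.MP_ccffa6_gt.U
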