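import Pool.Agent.Lib.MP_ccffa6_gt.U.Refl
import Pool.Agent.Lib.MP_ccffa6_gt.U.BChart

/-! A bubble in a chart. -/

open Set Filter Topology
open scoped ContDiff

noncomputable section

namespace Pool.Agent.Lib.MP_ccffa6_gt.U

variable {E : Type} [NormedAddCommGroup E] [NormedSpace ℝ E] [FiniteDimensional ℝ E]
  {F : Type} [NormedAddCommGroup F] [NormedSpace ℝ F] [FiniteDimensional ℝ F]

/-- `m w = χ • B (w - c) ∘ fst + (1 - 2χ) • ds`, `v w = (χ • (w - c), 1 - 2χ)`. -/
theorem exists_bub (c : F) : ∃ (m : F → Cv F) (v : F → F × ℝ) (D : (ℝ × F) →L[ℝ] Cv F),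
    Continuous m ∧ Continuous v ∧ (∀ w, 0 < m w (v w)) ∧
    (∀ w, 1 ≤ ‖w - c‖ → m w = ds F ∧ v w = (0, 1)) ∧
    (∀ s ∈ Icc (0 : ℝ) 1, ∀ w, (1 - s) • m w + s • ds F = 0 ↔ (s, w) = (1 / 2, c)) ∧
    HasFDerivAt (fun z : ℝ × F => (1 - z.1) • m z.2 + z.1 • ds F) D (1 / 2, c) ∧
    Function.Injective D := by
  obtain ⟨B, hB⟩ := u_exists_posdef F
  let A : F →L[ℝ] Cv F :=
    B.bilinearComp (ContinuousLinearMap.id ℝ F) (ContinuousLinearMap.fst ℝ F ℝ)
  have hA : ∀ w u, A w u = B w u.1 := fun _ _ => rfl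
  obtain ⟨χ, cχ, h0, h1⟩ : ∃ χ : F → ℝ, Continuous χ ∧ (∀ w, 1 ≤ ‖w - c‖ → χ w = 0) ∧
      ∀ w, ‖w - c‖ ≤ 1 / 2 → χ w = 1 :=
    ⟨fun w => max 0 (min 1 (2 - 2 * ‖w - c‖)), by fun_prop,
      fun w hw => max_eq_left (min_le_of_right_le (by linarith)),
      fun w hw => (congrArg (max 0) (min_eq_left (by linarith))).trans (max_eq_right zero_le_one)⟩
  have hc : χ c = 1 := h1 c (by simp)
  have hB0 : ∀ w, B w w = 0 → w = 0 := fun w hw => by_contra fun h => (hB w h).ne' hw
  have d1 : HasFDerivAt (fun z : ℝ × F => 1 - z.1) (-ContinuousLinearMap.fst ℝ ℝ F) (1 / 2, c) :=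
    hasFDerivAt_fst.const_sub 1
  have d2 : HasFDerivAt (fun z : ℝ × F => A (z.2 - c) - ds F)
      (A.comp (ContinuousLinearMap.snd ℝ ℝ F)) (1 / 2, c) :=
    (A.hasFDerivAt.comp _ (hasFDerivAt_snd.sub_const c)).sub_const _
  have d3 := (d1.fun_smul d2).fun_add (hasFDerivAt_fst.smul_const (ds F))
  refine ⟨fun w => χ w • A (w - c) + (1 - 2 * χ w) • ds F, fun w => (χ w • (w - c), 1 - 2 * χ w), _,
    by fun_prop, by fun_prop, fun w => ?_, fun w hw => by simp [h0 w hw], fun s _ w => ?_,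
    d3.congr_of_eventuallyEq ?_, (injective_iff_map_eq_zero _).2 fun u hu => ?_⟩
  · have e : (χ w • A (w - c) + (1 - 2 * χ w) • ds F) (χ w • (w - c), 1 - 2 * χ w) =
        χ w ^ 2 * B (w - c) (w - c) + (1 - 2 * χ w) ^ 2 := by
      simp only [add_apply, smul_apply, hA, map_smul, smul_eq_mul, ContinuousLinearMap.coe_snd']
      ring
    rw [e]
    by_cases h2 : w - c = 0
    · rw [sub_eq_zero.1 h2, hc]
      simp
      norm_num
    · have h3 := hB _ h2
      by_cases h4 : χ w = 0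
      · rw [h4]
        simp
      · positivity
  · constructor
    · intro h
      have h2 := DFunLike.congr_fun h (w - c, 0)
      have h3 := DFunLike.congr_fun h (0, 1)
      simp only [add_apply, smul_apply, hA, smul_eq_mul, ContinuousLinearMap.coe_snd', map_zero,
        zero_apply, mul_zero, add_zero, zero_add, mul_one, mul_eq_zero] at h2 h3
      rcases h2 with h2 | h2 | h2
      · rw [h2] at h3
        exact absurd h3 (by linarith)
      · rw [h2] at h3
        exact absurd h3 (by linarith)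
      · obtain rfl := sub_eq_zero.1 (hB0 _ h2)
        rw [hc] at h3
        exact Prod.ext (by linarith) rfl
    · intro h
      obtain ⟨rfl, rfl⟩ := Prod.mk.inj h
      refine ContinuousLinearMap.ext fun u => ?_
      simp [hc]
      ring
  · have h2 : ∀ᶠ z : ℝ × F in 𝓝 (1 / 2, c), ‖z.2 - c‖ < 1 / 2 :=
      (by fun_prop : Continuous fun z : ℝ × F => ‖z.2 - c‖).continuousAt.eventually_lt_const
        (by simp)
    filter_upwards [h2] with z hz
    refine ContinuousLinearMap.ext fun u => ?_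
    simp only [h1 _ hz.le, add_apply, smul_apply, sub_apply, smul_eq_mul]
    ring
  · have h2 := DFunLike.congr_fun hu (u.2, 0)
    have h3 := DFunLike.congr_fun hu (0, 1)
    simp [hA] at h2 h3
    exact Prod.ext h3 (hB0 _ (h2.resolve_left (by norm_num)))

/-- Transplant with the cut-off `ρ`. -/
theorem BChart.bub {M : Set E} {R : ℝ} {φ : F → E} {ψ : E → F} {ρ : E → ℝ}
    (h : BChart M R φ ψ ρ) {c : F} (hc : ‖c‖ + 2 ≤ R) :
    ∃ (mb : E → Cv E) (vb : E → E × ℝ) (D : (ℝ × F) →L[ℝ] Cv F), Pair M mb vb ∧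
      (∀ s ∈ Icc (0 : ℝ) 1, ∀ x ∈ M,
        Van M x ((1 - s) • mb x + s • ds E) ↔ (s, x) = (1 / 2, φ c)) ∧
      HasFDerivAt (fun z : ℝ × F => ((1 - z.1) • mb (φ z.2) + z.1 • ds E).comp (d1 φ z.2)) D
        (1 / 2, c) ∧ Function.Injective D := by
  obtain ⟨m, v, D, cm, cv, pos, far, zer, der, inj⟩ := exists_bub c
  have cψ := h.smψ.continuous
  let mb : E → Cv E := fun x => ds E + ρ x • (m (ψ x) - ds F).comp (d1 ψ x)
  let vb : E → E × ℝ := fun x => (0, 1) + ρ x • d1 φ (ψ x) (v (ψ x) - (0, 1))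
  have hA : ∀ w, ‖w‖ ≤ R - 1 / 2 → (∀ u, mb (φ w) u = m w (d1 ψ (φ w) u)) ∧
      vb (φ w) = d1 φ w (v w) := by
    intro w hw
    have h1 := h.one w (by linarith)
    have h2 := h.inv w (by linarith)
    refine ⟨fun u => ?_, ?_⟩
    · simp [mb, h1, h2]
    · simp only [vb, h1, h2, one_smul, map_sub]
      simp
  have hB : ∀ x, ρ x = 0 ∨ R - 1 / 2 < ‖ψ x‖ → mb x = ds E ∧ vb x = (0, 1) := by
    rintro x (hx | hx)
    · simp [mb, vb, hx]
    · have h1 := far (ψ x) (by linarith [norm_sub_norm_le (ψ x) c])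
      simp only [mb, vb, h1.1, h1.2, sub_self, map_zero, smul_zero, add_zero,
        ContinuousLinearMap.zero_comp, and_self]
  have hR : R - 1 / 2 < R := by linarith
  have hn := norm_nonneg c
  have key : ∀ (s : ℝ) w, ‖w‖ ≤ R - 1 / 2 → ∀ u, ((1 - s) • mb (φ w) + s • ds E) u =
      ((1 - s) • m w + s • ds F) (d1 ψ (φ w) u) := fun s w hw u => by
    simp only [add_apply, smul_apply, (hA w hw).1]
    rfl
  refine ⟨mb, vb, D, ⟨Continuous.continuousOn ?_, Continuous.continuousOn ?_, fun x hx => ?_,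
    fun x hx => ?_⟩, fun s hs x hx => ?_, der.congr_of_eventuallyEq ?_, inj⟩
  · exact continuous_const.add (h.smρ.continuous.smul
      (((cm.comp cψ).sub continuous_const).clm_comp (continuous_d1 h.smψ)))
  · exact continuous_const.add (h.smρ.continuous.smul
      (((continuous_d1 h.smφ).comp cψ).clm_apply ((cv.comp cψ).sub continuous_const)))
  · rcases h.cases' hR hx with ⟨w, hw, rfl⟩ | h1
    · rw [(hA w hw).2]
      exact h.d1_mem (by linarith) _
    · rw [(hB x h1).2]
      exact mem_T1.2 (Submodule.zero_mem _)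
  · rcases h.cases' hR hx with ⟨w, hw, rfl⟩ | h1
    · rw [(hA w hw).1, (hA w hw).2, h.d1_left (by linarith)]
      exact pos w
    · rw [(hB x h1).1, (hB x h1).2]
      exact one_pos
  · rcases h.cases' hR hx with ⟨w, hw, rfl⟩ | h1
    · have h1 : ‖w‖ < R + 1 := by linarith
      constructor
      · intro h2
        have h3 := (zer s hs w).1 (ContinuousLinearMap.ext fun u => by
          have h4 := h2 _ (h.d1_mem h1 u)
          rwa [key s w hw, h.d1_left h1] at h4)
        obtain ⟨rfl, rfl⟩ := Prod.mk.inj h3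
        rfl
      · intro h2 u _
        have h3 : w = c := by
          rw [← h.inv w h1, (Prod.mk.inj h2).2, h.inv c (by linarith)]
        rw [key s w hw, (zer s hs w).2 (Prod.ext (Prod.mk.inj h2).1 h3)]
        rfl
    · refine iff_of_false (fun h2 => ?_) fun h2 => ?_
      · have h3 := h2 (0, 1) (mem_T1.2 (Submodule.zero_mem _))
        simp [(hB x h1).1] at h3
      · rw [(Prod.mk.inj h2).2, h.one c (by linarith), h.inv c (by linarith)] at h1
        rcases h1 with h1 | h1 <;> linarith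
  · have h2 : ∀ᶠ z : ℝ × F in 𝓝 (1 / 2, c), ‖z.2‖ < R - 1 / 2 :=
      continuous_snd.norm.continuousAt.eventually_lt_const (by linarith)
    filter_upwards [h2] with z hz
    refine ContinuousLinearMap.ext fun u => ?_
    rw [ContinuousLinearMap.comp_apply, key _ _ hz.le, h.d1_left (by linarith)]

end Pool.Agent.Lib.MP_ccffa6_gt.U
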