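import Pool.Agent.Lib.MP_ccffa6_gt.Defs

/-!
Sections of `(TL ⊕ ℝ)^* ⊕ ℝ` over `ℝ × L`, their homotopies and local signs.
-/

open Set Filter Topology

noncomputable section

namespace Pool.Agent.Lib.MP_ccffa6_gt

variable {E : Type} [NormedAddCommGroup E] [NormedSpace ℝ E]

/-- Covectors on `E × ℝ`. -/
abbrev Cv (E : Type) [NormedAddCommGroup E] [NormedSpace ℝ E] : Type := (E × ℝ) →L[ℝ] ℝ

/-- `a` vanishes on `T_x L ⊕ ℝ`. -/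
def Van (L : Set E) (x : E) (a : Cv E) : Prop := ∀ v ∈ T1 L x, a v = 0

/-- Homotopy of nowhere zero sections, positive multiples of `(0, 1)` for large `|t|`. -/
def SecHtpy (L : Set E) (l₀ l₁ : ℝ × E → Cv E × ℝ) : Prop :=
  ∃ (Λ : ℝ × (ℝ × E) → Cv E × ℝ) (T : ℝ), ContinuousOn Λ (Icc (0 : ℝ) 1 ×ˢ (univ ×ˢ L)) ∧
    (∀ s ∈ Icc (0 : ℝ) 1, ∀ q : ℝ × E, q.2 ∈ L →
      (Van L q.2 (Λ (s, q)).1 → (Λ (s, q)).2 ≠ 0) ∧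
      (T ≤ |q.1| → Van L q.2 (Λ (s, q)).1 ∧ 0 < (Λ (s, q)).2)) ∧
    ∀ q : ℝ × E, q.2 ∈ L → ((Λ (0, q)).2 = (l₀ q).2 ∧ (Λ (1, q)).2 = (l₁ q).2) ∧
      ∀ v ∈ T1 L q.2, (Λ (0, q)).1 v = (l₀ q).1 v ∧ (Λ (1, q)).1 v = (l₁ q).1 v

/-- Near `p`, the field `a` is homotopic, through fields without zero except at `p`, to the
standard field `B (x - x₀) + e (t - t₀) ds`. -/
def LocSign (L : Set E) (a : ℝ × E → Cv E) (p : ℝ × E) (e : ℤ) : Prop :=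
  (e = 1 ∨ e = -1) ∧ ∃ (B : Bil E) (A : ℝ × (ℝ × E) → Cv E), (∀ v, v ≠ 0 → 0 < B v v) ∧
    Continuous A ∧ ∀ᶠ q in 𝓝[univ ×ˢ L] p,
      (∀ s ∈ Icc (0 : ℝ) 1, Van L q.2 (A (s, q)) → q = p) ∧
      ∀ v ∈ T1 L q.2, A (0, q) v = a q v ∧
        A (1, q) v = B (q.2 - p.2) v.1 + (e : ℝ) * (q.1 - p.1) * v.2

/-- The section `l` meets the negative ray only over `Z`, with local signs `e`. -/
def RayData (L : Set E) (l : ℝ × E → Cv E × ℝ) (Z : Finset (ℝ × E)) (e : ℝ × E → ℤ) : Prop :=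
  (∀ q : ℝ × E, q.2 ∈ L → Van L q.2 (l q).1 → (l q).2 < 0 → q ∈ Z) ∧
    ∀ p ∈ Z, p.2 ∈ L ∧ (l p).2 < 0 ∧ LocSign L (fun q => (l q).1) p (e p)

/-- `l` is homotopic to a section whose local signs add up to `d`. -/
def SecDeg (L : Set E) (l : ℝ × E → Cv E × ℝ) (d : ℤ) : Prop :=
  ∃ (l' : ℝ × E → Cv E × ℝ) (Z : Finset (ℝ × E)) (e : ℝ × E → ℤ),
    SecHtpy L l l' ∧ RayData L l' Z e ∧ ∑ p ∈ Z, e p = d

end Pool.Agent.Lib.MP_ccffa6_gt
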