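import Pool.Agent.Lib.MP_ccffa6_gt.K.Htpy
import Pool.Agent.Lib.MP_ccffa6_gt.U.HDefs

/-!
Block U: from the stable class to the unstable class. Definitions.
A path of nondegenerate forms on `TL ⊕ ℝ ⊕ ℝ²` over `ℝ × L` has the covector field `H (e₁, ·)`
on `TL ⊕ ℝ ⊕ ℝ e₂`; the relation `R L d` counts the points where it lies on the ray of `-e₂^*`.
-/

open Set Filter Topology
open scoped ContDiff

noncomputable section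

namespace Pool.Agent.Lib.MP_ccffa6_gt.U

variable {E : Type} [NormedAddCommGroup E] [NormedSpace ℝ E]

/-- The area form of the plane. -/
def eta0 : Bil (ℝ × ℝ) :=
  (ContinuousLinearMap.fst ℝ ℝ ℝ).smulRight (ContinuousLinearMap.snd ℝ ℝ ℝ) -
    (ContinuousLinearMap.snd ℝ ℝ ℝ).smulRight (ContinuousLinearMap.fst ℝ ℝ ℝ)

@[simp] theorem eta0_apply (u v : ℝ × ℝ) : eta0 u v = u.1 * v.2 - u.2 * v.1 := by
  simp [eta0]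

theorem nd_eta0 : ND ⊤ eta0 := by
  refine ⟨fun u _ => by simp [mul_comm], fun u _ h => ?_⟩
  have h1 := h (1, 0) trivial
  have h2 := h (0, 1) trivial
  simp at h1 h2
  exact Prod.ext h2 h1

/-- Path of forms on `TL ⊕ ℝ ⊕ ℝ²` from `Ω₀ ⊕ η₀` to `Ω₁ ⊕ η₀`. -/
structure SP (L : Set E) (Ω₀ Ω₁ : E → Bil (E × ℝ)) (H : ℝ × E → Bil ((E × ℝ) × (ℝ × ℝ))) :
    Prop where
  nd : NDField (univ ×ˢ L) (fun q => pl (T1 L q.2) (ℝ × ℝ)) H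
  ends : ∃ A : ℝ, ∀ q : ℝ × E, q.2 ∈ L → ∀ u ∈ pl (T1 L q.2) (ℝ × ℝ),
    ∀ v ∈ pl (T1 L q.2) (ℝ × ℝ), (q.1 ≤ -A → H q u v = osum (Ω₀ q.2) eta0 u v) ∧
      (A ≤ q.1 → H q u v = osum (Ω₁ q.2) eta0 u v)

/-- The covector `w (e₁, ·)` on `V ⊕ ℝ e₂`. -/
def cov1 {V : Type} [NormedAddCommGroup V] [NormedSpace ℝ V] (w : Bil (V × (ℝ × ℝ))) :
    (V →L[ℝ] ℝ) × ℝ :=
  ((w (0, (1, 0))).comp (ContinuousLinearMap.inl ℝ V (ℝ × ℝ)), w (0, (1, 0)) (0, (0, 1)))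

/-- There is a once stabilised path from `Ω₀` to `Ω₁` with defect `d`. -/
def R (L : Set E) (d : ℤ) (Ω₀ Ω₁ : E → Bil (E × ℝ)) : Prop :=
  ∃ H : ℝ × E → Bil ((E × ℝ) × (ℝ × ℝ)), SP L Ω₀ Ω₁ H ∧ SecDeg L (fun q => cov1 (H q)) d

/-- The unstable class of `Ω` contains a good contact form. -/
def UG (n : ℕ) (L : Set E) (Ω : E → Bil (E × ℝ)) : Prop :=
  ∃ β : Form1 E, CMan n L β ∧ Good n L β ∧ Htpy L (symz β) Ω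

/-- Complex structures (as forms) on a trivial bundle over `ℝ^{2a}` with nonzero degree. -/
def BottStmt (a : ℕ) : Prop :=
  ∀ (V : Type) [NormedAddCommGroup V] [NormedSpace ℝ V] [FiniteDimensional ℝ V]
    (X : Type) [NormedAddCommGroup X] [NormedSpace ℝ X] [FiniteDimensional ℝ X]
    (w₀ : Bil V) (ν : V) (α : V →L[ℝ] ℝ) (j : (V →L[ℝ] ℝ) ≃L[ℝ] ((X × ℝ) × ℝ)),
    Module.finrank ℝ X = 2 * a → ND ⊤ w₀ → α ν = 1 →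
    ∃ (b : X → Bil V) (c : V →L[ℝ] ℝ) (Z : Finset X)
      (D : X → X →L[ℝ] (V →L[ℝ] ℝ)) (M : X → ((X × ℝ) × ℝ) →L[ℝ] (V →L[ℝ] ℝ)),
      Continuous b ∧ (∀ y, ND ⊤ (b y)) ∧ (∀ y, 1 ≤ ‖y‖ → b y = w₀) ∧ c ν = 0 ∧ c ≠ 0 ∧
      (∀ y, (∃ m : ℝ, b y ν = m • c) ↔ y ∈ Z) ∧
      (∀ y ∈ Z, ‖y‖ < 1 ∧ HasFDerivAt (fun y => b y ν) (D y) y ∧
        (∀ z, M y z = D y z.1.1 + z.1.2 • b y ν + z.2 • α) ∧
        ((j : (V →L[ℝ] ℝ) →L[ℝ] ((X × ℝ) × ℝ)).comp (M y)).det ≠ 0) ∧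
      ∑ y ∈ Z, (SignType.sign
        ((j : (V →L[ℝ] ℝ) →L[ℝ] ((X × ℝ) × ℝ)).comp (M y)).det : ℤ) ≠ 0

end Pool.Agent.Lib.MP_ccffa6_gt.U
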