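import Pool.Agent.Lib.MP_ccffa6_gt.K.Main
import Pool.Agent.Lib.MP_ccffa6_gt.U.Defs

/-! The unstable form of ELI. -/

open Set Filter Topology
open scoped ContDiff

noncomputable section

namespace Pool.Agent.Lib.MP_ccffa6_gt.U

variable {E : Type} [NormedAddCommGroup E] [NormedSpace ℝ E] [FiniteDimensional ℝ E]
  {E' : Type} [NormedAddCommGroup E'] [NormedSpace ℝ E'] [FiniteDimensional ℝ E']

/-- `(v, s) ↦ v + s ν`. -/
def inc (ν : E) : (E × ℝ) →L[ℝ] E :=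
  ContinuousLinearMap.fst ℝ E ℝ + (ContinuousLinearMap.snd ℝ E ℝ).smulRight ν

/-- Its inverse on a regular level of `f`, `g = df`. -/
def jnc (g : E →L[ℝ] ℝ) (ν v : E) : E × ℝ := (v - g v • ν, g v)

/-- The formal structure induced on a level. -/
def lev (ν : E → E) (Ω : E → Bil E) (x : E) : Bil (E × ℝ) :=
  (Ω x).bilinearComp (inc (ν x)) (inc (ν x))

@[simp] theorem inc_apply (ν : E) (v : E × ℝ) : inc ν v = v.1 + v.2 • ν := rfl

theorem inc_jnc (g : E →L[ℝ] ℝ) (ν v : E) : inc ν (jnc g ν v) = v := by simp [jnc]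

theorem continuous_inc : Continuous (inc : E → (E × ℝ) →L[ℝ] E) :=
  continuous_clm_apply.2 fun v => by simp only [inc_apply]; fun_prop

omit [NormedAddCommGroup E] [NormedSpace ℝ E] [FiniteDimensional ℝ E] in
theorem eliu_nu {W : Set E} {f : E → ℝ} {a b c : ℝ} (hc : c = a ∨ c = b) :
    W ∩ f ⁻¹' {c} ⊆ W ∩ f ⁻¹' {a, b} := fun x hx => ⟨hx.1, by
  have : f x = c := hx.2
  simpa [this] using hc⟩

theorem eliu_jnc {d : ℕ} {W : Set E} {f : E → ℝ} {a b : ℝ} {ν : E → E}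
    (h : Slab d W f a b ν) {c : ℝ} (hc : c = a ∨ c = b) {x : E} (hx : x ∈ Lev W f c) {v : E}
    (hv : v ∈ Tan W x) : jnc (fderiv ℝ f x) (ν x) v ∈ T1 (Lev W f c) x := by
  have n := h.tν x (eliu_nu hc hx)
  exact ⟨(h.mem_tan hc hx _).2 ⟨(Tan W x).sub_mem hv ((Tan W x).smul_mem _ n.1),
    by simp [jnc, n.2]⟩, trivial⟩

theorem slab_inc_bijOn {d : ℕ} {W : Set E} {f : E → ℝ} {a b : ℝ} {ν : E → E}
    (h : Slab d W f a b ν) {c : ℝ} (hc : c = a ∨ c = b) {x : E} (hx : x ∈ Lev W f c) :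
    BijOn (inc (ν x)) (T1 (Lev W f c) x) (Tan W x) := by
  have n := h.tν x (eliu_nu hc hx)
  refine ⟨fun u hu => ?_, fun u hu v hv e => ?_, fun v hv => ⟨_, eliu_jnc h hc hx hv, inc_jnc _ _ _⟩⟩
  · exact (Tan W x).add_mem ((h.mem_tan hc hx _).1 hu.1).1 ((Tan W x).smul_mem _ n.1)
  · have e₂ := congrArg (fderiv ℝ f x) e
    simp only [inc_apply, map_add, map_smul, n.2, ((h.mem_tan hc hx _).1 hu.1).2,
      ((h.mem_tan hc hx _).1 hv.1).2, smul_eq_mul, mul_one, zero_add] at e₂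
    rw [inc_apply, inc_apply, e₂] at e
    exact Prod.ext (add_right_cancel e) e₂

theorem slab_jnc_mem {d : ℕ} {W : Set E} {f : E → ℝ} {a b : ℝ} {ν : E → E}
    (h : Slab d W f a b ν) {c : ℝ} (hc : c = a ∨ c = b) {x : E} (hx : x ∈ Lev W f c) {v : E}
    (hv : v ∈ Tan W x) : jnc (fderiv ℝ f x) (ν x) v ∈ T1 (Lev W f c) x :=
  eliu_jnc h hc hx hv

theorem slab_lev_formal {d : ℕ} {W : Set E} {f : E → ℝ} {a b : ℝ} {ν : E → E}
    (h : Slab d W f a b ν) {c : ℝ} (hc : c = a ∨ c = b) {Ω : E → Bil E}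
    (hΩ : NDField (Lev W f c) (Tan W) Ω) : Formal (Lev W f c) (lev ν Ω) :=
  hΩ.comp continuousOn_id (mapsTo_id _)
    (continuous_inc.comp_continuousOn (h.cν.mono (eliu_nu hc))) fun _ hx => slab_inc_bijOn h hc hx

theorem lev_neg (W : Set E) (f : E → ℝ) (c : ℝ) : Lev W (fun x => -f x) (-c) = Lev W f c := by
  ext p; simp [Lev]

theorem slab_neg {d : ℕ} {W : Set E} {f : E → ℝ} {a b : ℝ} {ν : E → E} (h : Slab d W f a b ν) :
    Slab d W (fun x => -f x) (-b) (-a) (fun x => -ν x) := by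
  have e : (fun p => -f p) ⁻¹' {-b, -a} = f ⁻¹' {a, b} := by
    ext p; simp [or_comm]
  have e' : (fun p => -f p) ⁻¹' Icc (-b) (-a) = f ⁻¹' Icc a b := by
    ext p; simp [and_comm]
  refine ⟨h.sub, h.sm.neg, neg_lt_neg h.le, e' ▸ h.cpt, e ▸ h.cν.neg, ?_⟩
  rw [e]
  intro x hx
  refine ⟨(Tan W x).neg_mem (h.tν x hx).1, ?_⟩
  rw [fderiv_fun_neg]
  simp [(h.tν x hx).2]

theorem morseLe_mono {k k' : ℕ} {W : Set E} {f : E → ℝ} {a b : ℝ} (h : MorseLe k W f a b)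
    (hk : k ≤ k') : MorseLe k' W f a b := fun x hx h0 => by
  obtain ⟨i, j, φ, ψ, hi, r⟩ := h x hx h0
  exact ⟨i, j, φ, ψ, hi.trans hk, r⟩

theorem UG.htpy {n : ℕ} {L : Set E} {Ω Ω' : E → Bil (E × ℝ)} (h : UG n L Ω) (h' : Htpy L Ω Ω') :
    UG n L Ω' :=
  h.imp fun _ k => ⟨k.1, k.2.1, NDHtpy.trans k.2.2 h'⟩

theorem UG.congr {n : ℕ} {L : Set E} {Ω Ω' : E → Bil (E × ℝ)} (h : UG n L Ω)
    (he : ∀ x ∈ L, ∀ u ∈ T1 L x, ∀ v ∈ T1 L x, Ω x u v = Ω' x u v) : UG n L Ω' :=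
  h.imp fun _ k => ⟨k.1, k.2.1, NDHtpy.congr k.2.2 (fun _ _ _ _ _ _ => rfl) he⟩

/-- `kGood_zero`, `KGood.diff`. -/
theorem UG.diff {n : ℕ} {L : Set E} {L' : Set E'} {φ : E → E'} {ψ : E' → E} (hd : Diff L L' φ ψ)
    {Ω : E' → Bil (E' × ℝ)} (h : UG n L' Ω) : UG n L (pb2 φ Ω) :=
  kGood_zero.1 ((kGood_zero.2 h).diff hd)

/-- `ELIKStmt` with `K = Rd 0`, `η = 0`, form `osum (Ω x) 0` on the slab. -/
theorem eliU {n : ℕ} (hE : ELIKStmt n) {W : Set E} {f : E → ℝ} {a b : ℝ} {ν : E → E}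
    (h : Slab (2 * n + 2) W f a b ν) (hm : MorseLe (n + 1) W f a b) {Ω : E → Bil E}
    (hΩ : NDField (W ∩ f ⁻¹' Icc a b) (Tan W) Ω) (hg : UG n (Lev W f a) (lev ν Ω)) :
    UG n (Lev W f b) (lev ν Ω) := by
  have F : ∀ {c : ℝ}, c = a ∨ c = b → Formal (Lev W f c) (lev ν Ω) := fun {c} hc => by
    have s : Lev W f c ⊆ W ∩ f ⁻¹' Icc a b := fun x hx => ⟨hx.1, by
      have e : f x = c := hx.2
      have := h.le.le
      rcases hc with hc | hc <;> simp [e, hc, this]⟩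
    exact slab_lev_formal h hc ⟨hΩ.cont.mono s, fun x hx => hΩ.nd x (s hx)⟩
  exact kGood_zero.1 (hE E (Rd 0) 0 W f a b _ _ nd_zero ⟨ν, fun x => osum (Ω x) 0, h, hm,
    F (Or.inl rfl), F (Or.inr rfl), hΩ.plus nd_zero,
    (NDField.plus (F (Or.inl rfl)) nd_zero).htpy fun _ _ _ _ _ _ => by simp [lev],
    (NDField.plus (F (Or.inr rfl)) nd_zero).htpy fun _ _ _ _ _ _ => by simp [lev]⟩
    (kGood_zero.2 hg))

theorem tan_cyl {d : ℕ} {M : Set E} (hM : IsSub d M) {z : E × ℝ} (hz : z.1 ∈ M) :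
    Tan (M ×ˢ (univ : Set ℝ)) z = T1 M z.1 := by
  rw [show z = (z.1, z.2) from rfl, hM.tan_prod (isSub_of_isOpen isOpen_univ) hz trivial,
    Tan.of_mem_nhds univ_mem]
  rfl

theorem eliu_diff (M : Set E) (C : ℝ) : Diff (M ×ˢ {C}) M Prod.fst fun x => (x, C) :=
  ⟨contDiff_fst, contDiff_id.prodMk contDiff_const, fun _ h => h.1, fun _ h => ⟨h, rfl⟩,
    fun _ h => Prod.ext rfl h.2.symm, fun _ _ => rfl⟩

theorem eliu_tan {M : Set E} {C : ℝ} {x : E} (hx : x ∈ M) (v : E × ℝ) :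
    v ∈ Tan (M ×ˢ {C}) (x, C) ↔ v.1 ∈ Tan M x ∧ v.2 = 0 := by
  have h := (eliu_diff M C).symm.tan_bijOn hx
  rw [(hasFDerivAt_prodMk_left x C).fderiv] at h
  refine ⟨fun hv => ?_, fun hv => ?_⟩
  · obtain ⟨u, hu, rfl⟩ := h.surjOn hv
    exact ⟨hu, rfl⟩
  · have := h.mapsTo hv.1
    rwa [show ContinuousLinearMap.inl ℝ E ℝ v.1 = v from Prod.ext rfl hv.2.symm] at this

theorem eliu_bij {M : Set E} {C : ℝ} {x : E} (hx : x ∈ M) {μ : E × ℝ} (h1 : μ ∈ T1 M x)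
    (h2 : μ.2 = 1) : BijOn (inc μ) (T1 (M ×ˢ {C}) (x, C)) (T1 M x) := by
  refine ⟨fun u hu => ⟨?_, trivial⟩, fun u hu v hv e => ?_, fun y hy => ?_⟩
  · exact (Tan M x).add_mem ((eliu_tan hx _).1 hu.1).1 ((Tan M x).smul_mem _ h1.1)
  · have e₂ := congrArg Prod.snd e
    simp only [inc_apply, Prod.snd_add, Prod.smul_snd, h2, ((eliu_tan hx _).1 hu.1).2,
      ((eliu_tan hx _).1 hv.1).2, smul_eq_mul, mul_one, zero_add] at e₂
    rw [inc_apply, inc_apply, e₂] at e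
    exact Prod.ext (add_right_cancel e) e₂
  · refine ⟨(y - y.2 • μ, y.2), ⟨(eliu_tan hx _).2
      ⟨(Tan M x).sub_mem hy.1 ((Tan M x).smul_mem _ h1.1), by simp [h2]⟩, trivial⟩, by simp⟩

/-- A level `M × {C}`. Join `ν` to `(0, 1)` by a segment (`NDField.comp_htpy`), then use the
diffeomorphisms `Prod.fst`, `x ↦ (x, C)` and `UG.diff`, `UG.congr`. -/
theorem ug_top {n : ℕ} {M : Set E} (hM : Closed (2 * n + 1) M) (C : ℝ) {ν : E × ℝ → E × ℝ}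
    (hν : ContinuousOn ν (M ×ˢ {C})) (hν' : ∀ x ∈ M, ν (x, C) ∈ T1 M x ∧ (ν (x, C)).2 = 1)
    {Ω : E → Bil (E × ℝ)} (hΩ : Formal M Ω) {Θ : E × ℝ → Bil ((E × ℝ) × ℝ)}
    (he : ∀ x ∈ M, ∀ u ∈ T1 (M ×ˢ {C}) (x, C), ∀ v ∈ T1 (M ×ˢ {C}) (x, C),
      Θ (x, C) u v = Ω x (inc (ν (x, C)) u) (inc (ν (x, C)) v)) :
    UG n (M ×ˢ {C}) Θ ↔ UG n M Ω := by
  have hd := eliu_diff M C
  have H : Htpy (M ×ˢ {C}) Θ (pb2 Prod.fst Ω) := by
    refine (NDField.comp_htpy hΩ (S := M ×ˢ {C}) (T := T1 (M ×ˢ {C})) (r := fun q => q.2.1)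
      (by fun_prop) (fun q hq => hq.2.1)
      (Φ := fun q => inc ((1 - q.1) • ν q.2 + q.1 • ((0, 1) : E × ℝ)))
      (continuous_inc.comp_continuousOn (((continuousOn_const.sub continuousOn_fst).smul
        (hν.comp continuousOn_snd fun q hq => hq.2)).add (continuousOn_fst.smul continuousOn_const)))
      ?_).congr ?_ ?_
    · rintro ⟨t, x, c⟩ ⟨_, hx, rfl⟩
      refine eliu_bij hx ((T1 M x).add_mem ((T1 M x).smul_mem _ (hν' x hx).1)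
        ((T1 M x).smul_mem _ ⟨(Tan M x).zero_mem, trivial⟩)) (by simp [(hν' x hx).2])
    · rintro ⟨x, c⟩ ⟨hx, rfl⟩ u hu v hv
      simp [he x hx u hu v hv]
    · rintro ⟨x, c⟩ ⟨hx, rfl⟩ u hu v hv
      have e : ∀ w ∈ T1 (M ×ˢ {c}) (x, c), inc ((0, 1) : E × ℝ) w = (w.1.1, w.2) := fun w hw =>
        Prod.ext (by simp) (by simp [((eliu_tan hx _).1 hw.1).2])
      simp only [ContinuousLinearMap.bilinearComp_apply, sub_self, zero_smul, one_smul, zero_add,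
        e u hu, e v hv, pb2_apply, fderiv_fst, ContinuousLinearMap.coe_fst']
  exact ⟨fun h => ((h.htpy H).diff hd.symm).congr fun x hx u hu v hv => hd.symm.pb2_pb2 Ω hx hu hv,
    fun h => (h.diff hd).htpy (NDHtpy.symm H)⟩

end Pool.Agent.Lib.MP_ccffa6_gt.U
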