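import Pool.Agent.Lib.MP_ccffa6_gt.U.Model
import Pool.Agent.Lib.MP_ccffa6_gt.U.BChart
import Pool.Agent.Lib.MP_ccffa6_gt.U.EliU
import Pool.Agent.Lib.MP_ccffa6_gt.K.TanY

/-! The model function transplanted to `M × ℝ`. -/

open Set Filter Topology
open scoped ContDiff

noncomputable section

namespace Pool.Agent.Lib.MP_ccffa6_gt.U

variable {E : Type} [NormedAddCommGroup E] [NormedSpace ℝ E] [FiniteDimensional ℝ E]

/-- All the data of the model. -/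
structure Mod (n : ℕ) {p q : ℕ} (M : Set E) (φ : Fm p q → E) (ψ : E → Fm p q) (ρ : E → ℝ)
    (f k : ℝ → ℝ) (R₁ : ℝ) : Prop where
  cl : Closed (2 * n + 1) M
  dim : p + q = 2 * n + 1
  bc : BChart M (R₁ + 3) φ ψ ρ
  pf : Prof f
  ct : Cut k R₁

def Fg {p q : ℕ} (ψ : E → Fm p q) (ρ : E → ℝ) (f k : ℝ → ℝ) (z : E × ℝ) : ℝ :=
  z.2 - ρ z.1 * Gm f k (ψ z.1, z.2)

/-- The middle level. -/
def M1 {p q : ℕ} (M : Set E) (ψ : E → Fm p q) (ρ : E → ℝ) (f k : ℝ → ℝ) : Set (E × ℝ) :=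
  Lev (M ×ˢ univ) (Fg ψ ρ f k) 0

theorem exists_mod {n : ℕ} (p q : ℕ) (h : p + q = 2 * n + 1) {M : Set E}
    (hM : Closed (2 * n + 1) M) (hne : M.Nonempty) :
    ∃ (φ : Fm p q → E) (ψ : E → Fm p q) (ρ : E → ℝ) (f k : ℝ → ℝ) (R₁ : ℝ),
      Mod n M φ ψ ρ f k R₁ := by
  obtain ⟨f, hf⟩ := exists_prof
  obtain ⟨k, R₁, hk⟩ := exists_cut
  obtain ⟨φ, ψ, ρ, hb⟩ := exists_bchart (F := Fm p q) hM.sub (by simp [h]) hne
    (R := R₁ + 3) (by linarith [hk.lt])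
  exact ⟨φ, ψ, ρ, f, k, R₁, hM, h, hb, hf, hk⟩

theorem slabm_ev {M : Set E} {x : E} {P : E → Prop} (h : ∀ᶠ y in 𝓝[M] x, P y) (T : ℝ) :
    ∀ᶠ z in 𝓝[M ×ˢ (univ : Set ℝ)] (x, T), P z.1 := by
  rw [nhdsWithin_prod_eq]
  exact h.prod_inl _

variable {n p q : ℕ} {M : Set E} {φ : Fm p q → E} {ψ : E → Fm p q} {ρ : E → ℝ} {f k : ℝ → ℝ}
  {R₁ : ℝ}

theorem Mod.sub (h : Mod n M φ ψ ρ f k R₁) : IsSub (2 * n + 2) (M ×ˢ (univ : Set ℝ)) :=
  h.cl.sub.prod_univ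

theorem Mod.sm (h : Mod n M φ ψ ρ f k R₁) : ContDiff ℝ ∞ (Fg ψ ρ f k) :=
  contDiff_snd.sub ((h.bc.smρ.comp contDiff_fst).mul ((contDiff_Gm h.pf h.ct).comp
    ((h.bc.smψ.comp contDiff_fst).prodMk contDiff_snd)))

theorem Mod.in_eq (h : Mod n M φ ψ ρ f k R₁) {w : Fm p q} (hw : ‖w‖ ≤ R₁ + 3) (T : ℝ) :
    Fg ψ ρ f k (φ w, T) = Fmod f k (w, T) := by
  simp only [Fg, Fmod, h.bc.one w hw, h.bc.inv w (by linarith), one_mul]

/-- `BChart.near`, `Tan.fderiv_congr`, chain rule. -/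
theorem Mod.in_fderiv (h : Mod n M φ ψ ρ f k R₁) {w : Fm p q} (hw : ‖w‖ < R₁ + 3) (T : ℝ)
    {v : E × ℝ} (hv : v ∈ T1 M (φ w)) :
    fderiv ℝ (Fg ψ ρ f k) (φ w, T) v = fderiv ℝ (Fmod f k) (w, T) (d1 ψ (φ w) v) := by
  have hm : φ w ∈ M := h.bc.mem w (by linarith)
  have hψ : HasFDerivAt (fun z : E × ℝ => (ψ z.1, z.2)) (d1 ψ (φ w)) (φ w, T) :=
    ((h.bc.smψ.differentiable (by simp) (φ w)).hasFDerivAt.prodMap (p := (φ w, T))
      (hasFDerivAt_id T))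
  have hF : HasFDerivAt (Fmod f k : Fm p q × ℝ → ℝ) (fderiv ℝ (Fmod f k) (w, T))
      ((fun z : E × ℝ => (ψ z.1, z.2)) (φ w, T)) := by
    simp only [h.bc.inv w (by linarith)]
    exact ((contDiff_Fmod h.pf h.ct).differentiable (by simp) _).hasFDerivAt
  have hc := hF.comp (φ w, T) hψ
  have hv' : v ∈ Tan (M ×ˢ (univ : Set ℝ)) (φ w, T) := by
    rw [tan_cyl h.cl.sub (z := (φ w, T)) hm]
    exact hv
  have he : Fg ψ ρ f k =ᶠ[𝓝[M ×ˢ (univ : Set ℝ)] (φ w, T)]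
      (Fmod f k ∘ fun z : E × ℝ => (ψ z.1, z.2)) :=
    (slabm_ev (h.bc.near hw) T).mono fun z hz => by
      simp only [Fg, Fmod, Function.comp, hz.1, one_mul]
  rw [Tan.fderiv_congr (S := M ×ˢ (univ : Set ℝ)) ⟨hm, mem_univ _⟩
    (h.sm.differentiable (by simp) _) hc.differentiableAt he hv', hc.fderiv]
  rfl

theorem slabm_out (hk : Cut k R₁) {y : E} (hy : ρ y = 0 ∨ R₁ < ‖ψ y‖) (T : ℝ) :
    Fg ψ ρ f k (y, T) = T := by
  rcases hy with hy | hy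
  · simp only [Fg, hy, zero_mul, sub_zero]
  · simp only [Fg, Gm_out' (f := f) hk (z := (ψ y, T)) hy.le, mul_zero, sub_zero]

/-- Either in the small chart, or `Fg = T` nearby. -/
theorem Mod.cases (h : Mod n M φ ψ ρ f k R₁) {x : E} (hx : x ∈ M) :
    (∃ w, ‖w‖ ≤ R₁ ∧ x = φ w) ∨ ∀ᶠ y in 𝓝[M] x, ∀ T, Fg ψ ρ f k (y, T) = T :=
  (h.bc.cases (R' := R₁) (by linarith) hx).imp id fun hy =>
    hy.mono fun _ hy T => slabm_out h.ct hy T

theorem Mod.out_near (h : Mod n M φ ψ ρ f k R₁) {w : Fm p q} (hw : R₁ < ‖w‖) (hw' : ‖w‖ < R₁ + 3) :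
    ∀ᶠ y in 𝓝[M] (φ w), ∀ T, Fg ψ ρ f k (y, T) = T := by
  have h1 : ∀ᶠ y in 𝓝 (φ w), R₁ < ‖ψ y‖ :=
    (h.bc.smψ.continuous.norm.continuousAt (x := φ w)).eventually
      (lt_mem_nhds (by simp only [h.bc.inv w (by linarith)]; exact hw))
  exact (h1.filter_mono nhdsWithin_le_nhds).mono fun _ hy T => slabm_out h.ct (Or.inr hy) T

theorem Mod.out_fderiv (h : Mod n M φ ψ ρ f k R₁) {x : E} (hx : x ∈ M)
    (ho : ∀ᶠ y in 𝓝[M] x, ∀ T, Fg ψ ρ f k (y, T) = T) (T : ℝ) {v : E × ℝ} (hv : v ∈ T1 M x) :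
    fderiv ℝ (Fg ψ ρ f k) (x, T) v = v.2 := by
  have hv' : v ∈ Tan (M ×ˢ (univ : Set ℝ)) (x, T) := by
    rw [tan_cyl h.cl.sub (z := (x, T)) hx]
    exact hv
  have he : Fg ψ ρ f k =ᶠ[𝓝[M ×ˢ (univ : Set ℝ)] (x, T)] (Prod.snd : E × ℝ → ℝ) :=
    (slabm_ev ho T).mono fun z hz => hz z.2
  rw [Tan.fderiv_congr (S := M ×ˢ (univ : Set ℝ)) ⟨hx, mem_univ _⟩
    (h.sm.differentiable (by simp) _) differentiableAt_snd he hv', fderiv_snd]
  rfl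

theorem Mod.far (h : Mod n M φ ψ ρ f k R₁) (x : E) {T : ℝ} (hT : R₁ + 3 ≤ |T|) :
    Fg ψ ρ f k (x, T) = T := by
  simp only [Fg, Gm_far h.pf h.ct (z := (ψ x, T)) hT, mul_zero, sub_zero]

/-- On `M` either `Gm (ψ x, T) ρ x = 0` or `ρ x = 1`, so `|Fg - T| ≤ 6`. -/
theorem Mod.abs_le (h : Mod n M φ ψ ρ f k R₁) {x : E} (hx : x ∈ M) (T : ℝ) :
    |Fg ψ ρ f k (x, T) - T| ≤ 6 := by
  rcases h.bc.cases' (R' := R₁) (by linarith) hx with ⟨w, hw, rfl⟩ | hy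
  · rw [h.in_eq (by linarith), Fmod, sub_sub_cancel_left, abs_neg]
    exact abs_Gm_le h.pf h.ct _
  · rw [slabm_out h.ct hy, sub_self, abs_zero]
    norm_num

theorem Mod.top (h : Mod n M φ ψ ρ f k R₁) :
    Lev (M ×ˢ univ) (Fg ψ ρ f k) (R₁ + 10) = M ×ˢ {R₁ + 10} := by
  ext ⟨x, T⟩
  simp only [Lev, mem_inter_iff, mem_prod, mem_univ, and_true, mem_preimage, mem_singleton_iff]
  refine and_congr_right fun hx => ⟨fun hT => ?_, fun hT => ?_⟩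
  · have h1 := _root_.abs_le.1 (h.abs_le hx T)
    rw [← hT, h.far x (le_trans (by linarith) (le_abs_self T))]
  · rw [h.far x (le_trans (by linarith) (le_abs_self T)), hT]

theorem Mod.top_fderiv (h : Mod n M φ ψ ρ f k R₁) (x : E) (v : E × ℝ) :
    fderiv ℝ (Fg ψ ρ f k) (x, R₁ + 10) v = v.2 := by
  have h1 : ∀ᶠ z in 𝓝 ((x, R₁ + 10) : E × ℝ), R₁ + 3 < z.2 :=
    continuous_snd.continuousAt.eventually (lt_mem_nhds (by simp only; linarith))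
  have he : Fg ψ ρ f k =ᶠ[𝓝 (x, R₁ + 10)] (Prod.snd : E × ℝ → ℝ) :=
    h1.mono fun z hz => h.far z.1 (hz.le.trans (le_abs_self _))
  rw [he.fderiv_eq, fderiv_snd]
  rfl

/-- The only critical point with `0 ≤ Fg`. -/
theorem Mod.crit (h : Mod n M φ ψ ρ f k R₁) {z : E × ℝ} (hz : z.1 ∈ M) (h0 : 0 ≤ Fg ψ ρ f k z)
    (hc : ∀ v ∈ T1 M z.1, fderiv ℝ (Fg ψ ρ f k) z v = 0) : z = (φ 0, -1) := by
  obtain ⟨x, T⟩ := z
  rcases h.cases hz with ⟨w, hw, rfl⟩ | ho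
  · rw [h.in_eq (by linarith)] at h0
    have h1 : fderiv ℝ (Fmod f k) (w, T) = 0 := by
      refine ContinuousLinearMap.ext fun u => ?_
      have hm := h.bc.d1_mem (w := w) (by linarith) u
      have h2 := hc _ hm
      rwa [h.in_fderiv (by linarith) T hm, h.bc.d1_left (by linarith)] at h2
    have h2 := Fmod_crit h.pf h.ct h1 h0
    have h3 : w = 0 := congrArg Prod.fst h2
    have h4 : T = -1 := congrArg Prod.snd h2
    rw [h3, h4]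
  · have hm : ((0, 1) : E × ℝ) ∈ T1 M x := mem_T1.2 (Tan M x).zero_mem
    have h2 := hc _ hm
    rw [h.out_fderiv hz ho T hm] at h2
    exact absurd h2 one_ne_zero

/-- `exists_slab`; the critical value is `3`. -/
theorem Mod.slab (h : Mod n M φ ψ ρ f k R₁) : ∃ ν : E × ℝ → E × ℝ, ContDiff ℝ ∞ ν ∧
    Slab (2 * n + 2) (M ×ˢ univ) (Fg ψ ρ f k) 0 (R₁ + 10) ν := by
  have hR := h.ct.lt
  refine exists_slab h.sub h.sm (by linarith) ?_ ?_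
  · refine (h.cl.cpt.prod (isCompact_Icc (a := -6) (b := R₁ + 16))).of_isClosed_subset
      ((h.cl.cpt.isClosed.prod isClosed_univ).inter (isClosed_Icc.preimage h.sm.continuous)) ?_
    rintro ⟨x, T⟩ ⟨⟨hx, -⟩, h1, h2⟩
    have h3 := _root_.abs_le.1 (h.abs_le hx T)
    exact ⟨hx, by simp only; linarith, by simp only; linarith⟩
  · rintro z ⟨⟨hx, -⟩, hz⟩
    by_contra hn
    push Not at hn
    rw [tan_cyl h.cl.sub hx] at hn
    have hz' : Fg ψ ρ f k z = 0 ∨ Fg ψ ρ f k z = R₁ + 10 := hz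
    have h0 : 0 ≤ Fg ψ ρ f k z := by
      rcases hz' with h1 | h1 <;> linarith
    have h1 := h.crit hx h0 hn
    have h2 : Fg ψ ρ f k z = 3 := by
      have h3 := Fmod_up (p := p) (q := q) h.pf h.ct (w := 0) (by simp [Nf]) (σ := 0) (by simp)
      rw [h1, h.in_eq (by rw [norm_zero]; linarith)]
      simpa [Qf] using h3
    rcases hz' with h1 | h1 <;> linarith

/-- The point of the middle level where `dF` is a nonpositive multiple of `dT`. -/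
theorem Mod.ray (h : Mod n M φ ψ ρ f k R₁) {z : E × ℝ} (hz : z ∈ M1 M ψ ρ f k)
    (hc : ∀ v ∈ Tan M z.1, fderiv ℝ (Fg ψ ρ f k) z (v, 0) = 0)
    (h' : fderiv ℝ (Fg ψ ρ f k) z (0, 1) ≤ 0) : z = (φ 0, 0) := by
  obtain ⟨x, T⟩ := z
  obtain ⟨⟨hx, -⟩, h0⟩ := hz
  have h0' : Fg ψ ρ f k (x, T) = 0 := h0
  have hm : ((0, 1) : E × ℝ) ∈ T1 M x := mem_T1.2 (Tan M x).zero_mem
  rcases h.cases hx with ⟨w, hw, rfl⟩ | ho
  · rw [h.in_eq (by linarith)] at h0'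
    rw [h.in_fderiv (by linarith) T hm, d1_apply, map_zero] at h'
    have h1 : ∀ u : Fm p q, fderiv ℝ (Fmod f k) (w, T) (u, 0) = 0 := fun u => by
      have hu := h.bc.d1_mem (w := w) (by linarith) (u, 0)
      have h2 : fderiv ℝ (Fg ψ ρ f k) (φ w, T) (d1 φ w (u, 0)) = 0 := hc _ (mem_T1.1 hu)
      rwa [h.in_fderiv (by linarith) T hu, h.bc.d1_left (by linarith)] at h2
    have h2 := Fmod_ray_zero h.pf h.ct h0' h1 h'
    have h3 : w = 0 := congrArg Prod.fst h2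
    have h4 : T = 0 := congrArg Prod.snd h2
    rw [h3, h4]
  · rw [h.out_fderiv hx ho T hm] at h'
    exact absurd h' (by norm_num)

end Pool.Agent.Lib.MP_ccffa6_gt.U
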