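import Pool.Agent.Lib.MP_ccffa6_gt.U.ConnM
import Pool.Agent.Lib.MP_ccffa6_gt.U.Slab

/-! The middle level is connected. -/

open Set Filter Topology
open scoped ContDiff

noncomputable section

namespace Pool.Agent.Lib.MP_ccffa6_gt.U

variable {E : Type} [NormedAddCommGroup E] [NormedSpace ℝ E] [FiniteDimensional ℝ E]

variable {n p q : ℕ} {M : Set E} {φ : Fm p q → E} {ψ : E → Fm p q} {ρ : E → ℝ} {f k : ℝ → ℝ}
  {R₁ : ℝ}

/-- `B = φ '' {Nf ≤ R₁}` compact, `O = M \ φ '' {Nf < R₁}` closed (the image of the open ball is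
open in `M`: `BChart.near`), `M1 = I ∪ O × {0}` with `I` the image of `conn_inner`, `I` contains
`(B ∩ O) × {0}` and is not empty. If closed sets `u`, `v` cover `M1` and do not meet in it, say
`I ⊆ u`; then `B ∪ {x ∈ O | (x,0) ∈ u}` and `{x ∈ O | (x,0) ∈ v}` are closed, disjoint and cover
`M` (`isPreconnected_closed_iff`). -/
theorem Mod.conn (h : Mod n M φ ψ ρ f k R₁) (hc : IsConnected M) (hp : 1 ≤ p) (hq : 1 ≤ q) :
    IsConnected (M1 M ψ ρ f k) := by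
  have hR := h.ct.lt
  have n1 : ∀ w : Fm p q, Nf w ≤ R₁ → ‖w‖ ≤ R₁ := fun w hw => by
    nlinarith [norm_sq_le_Nf w, norm_nonneg w]
  have hN : Continuous (Nf : Fm p q → ℝ) := contDiff_Nf.continuous
  have N0 : Nf (0 : Fm p q) = 0 := by simp [Nf]
  have hm : ∀ w : Fm p q, Nf w ≤ R₁ → φ w ∈ M := fun w hw => h.bc.mem w (by linarith [n1 w hw])
  obtain ⟨B, hB⟩ : ∃ B, B = φ '' {w | Nf w ≤ R₁} := ⟨_, rfl⟩
  obtain ⟨O, hO⟩ : ∃ O, O = M \ φ '' {w | Nf w < R₁} := ⟨_, rfl⟩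
  obtain ⟨I, hI⟩ : ∃ I, I = (fun z : Fm p q × ℝ => (φ z.1, z.2)) ''
    {z | Fmod f k z = 0 ∧ Nf z.1 ≤ R₁} := ⟨_, rfl⟩
  have cB : IsClosed B := hB ▸ (((isCompact_closedBall (0 : Fm p q) R₁).of_isClosed_subset
    (isClosed_le hN continuous_const) fun w hw => mem_closedBall_zero_iff.2 (n1 w hw)).image
      h.bc.smφ.continuous).isClosed
  have cO : IsClosed O := by
    refine isClosed_of_closure_subset fun x hx => ?_
    have hOM : O ⊆ M := hO ▸ sdiff_subset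
    rw [hO]
    refine ⟨h.cl.cpt.isClosed.closure_subset (closure_mono hOM hx), ?_⟩
    rintro ⟨w, hw, rfl⟩
    have h1 := n1 w (le_of_lt hw)
    have h2 : ∀ᶠ y in 𝓝 (φ w), Nf (ψ y) < R₁ :=
      (hN.comp h.bc.smψ.continuous).continuousAt.eventually_lt continuousAt_const
        (by simpa [h.bc.inv w (by linarith)] using hw)
    have h3 := eventually_nhdsWithin_iff.1 (h.bc.near (w := w) (by linarith))
    obtain ⟨y, y1, y2, y3⟩ := ((mem_closure_iff_frequently.1 hx).and_eventually (h2.and h3)).exists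
    rw [hO] at y1
    exact y1.2 ⟨ψ y, y2, (y3 y1.1).2.1⟩
  have hF : ∀ x ∈ O, ∀ T, Fg ψ ρ f k (x, T) = T := fun x hx T => by
    rw [hO] at hx
    rcases h.cases hx.1 with ⟨w, hw, rfl⟩ | h1
    · have h2 : R₁ ≤ Nf w := not_lt.1 fun h => hx.2 ⟨w, h, rfl⟩
      rw [h.in_eq (by linarith), Fmod, Gm_out (z := (w, T)) h.ct h2, sub_zero]
    · exact h1.self_of_nhdsWithin hx.1 T
  have pI : IsPreconnected I := hI ▸ (conn_inner h.pf h.ct hp hq).image _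
    ((h.bc.smφ.continuous.comp continuous_fst).prodMk continuous_snd).continuousOn
  have I1 : I ⊆ M1 M ψ ρ f k := by
    rw [hI]
    rintro _ ⟨z, hz, rfl⟩
    exact ⟨⟨hm _ hz.2, trivial⟩, (h.in_eq (by linarith [n1 _ hz.2]) z.2).trans hz.1⟩
  have I2 : ∀ z ∈ M1 M ψ ρ f k, z ∈ I ∨ z.1 ∈ O ∧ z.2 = 0 := fun z hz => by
    by_cases h1 : z.1 ∈ O
    · exact Or.inr ⟨h1, (hF _ h1 z.2).symm.trans hz.2⟩
    · rw [hO] at h1
      obtain ⟨w, hw, h2⟩ := not_not.1 fun h3 => h1 ⟨hz.1.1, h3⟩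
      refine Or.inl (hI ▸ ⟨(w, z.2), ⟨?_, le_of_lt hw⟩, Prod.ext h2 rfl⟩)
      rw [← h.in_eq (by linarith [n1 w (le_of_lt hw)]), h2]
      exact hz.2
  have I3 : ∀ x ∈ B, x ∈ O → (x, (0 : ℝ)) ∈ I := fun x hx hx' => by
    rw [hB] at hx
    obtain ⟨w, hw, rfl⟩ := hx
    exact hI ▸ ⟨(w, 0), ⟨(h.in_eq (by linarith [n1 w hw]) 0).symm.trans (hF _ hx' 0), hw⟩, rfl⟩
  have O1 : ∀ x ∈ O, (x, (0 : ℝ)) ∈ M1 M ψ ρ f k := fun x hx =>
    ⟨⟨(hO ▸ hx : x ∈ M \ _).1, trivial⟩, hF x hx 0⟩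
  have key : ∀ u v : Set (E × ℝ), IsClosed u → IsClosed v → M1 M ψ ρ f k ⊆ u ∪ v →
      M1 M ψ ρ f k ∩ (u ∩ v) = ∅ → I ⊆ u → M1 M ψ ρ f k ⊆ u := fun u v hu hv h1 h2 h3 => by
    have hc0 : Continuous fun x : E => (x, (0 : ℝ)) := by fun_prop
    have h4 := isPreconnected_iff_subset_of_disjoint_closed.1 hc.isPreconnected
      (B ∪ O ∩ (fun x => (x, (0 : ℝ))) ⁻¹' u) (O ∩ (fun x => (x, (0 : ℝ))) ⁻¹' v)
      (cB.union (cO.inter (hu.preimage hc0))) (cO.inter (hv.preimage hc0)) (fun x hx => ?_)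
      (eq_empty_of_forall_notMem fun x hx => ?_)
    · rcases h4 with h4 | h4
      · intro z hz
        rcases I2 z hz with h5 | h5
        · exact h3 h5
        · rw [show z = (z.1, 0) from Prod.ext rfl h5.2]
          exact (h4 hz.1.1).elim (fun h6 => h3 (I3 _ h6 h5.1)) fun h6 => h6.2
      · have h5 := (h4 (hm 0 (by linarith))).1
        rw [hO] at h5
        exact absurd ⟨0, show Nf 0 < R₁ by linarith, rfl⟩ h5.2
    · by_cases h5 : x ∈ O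
      · exact (h1 (O1 x h5)).imp (fun h6 => Or.inr ⟨h5, h6⟩) fun h6 => ⟨h5, h6⟩
      · rw [hO] at h5
        obtain ⟨w, hw, h6⟩ := not_not.1 fun h3 => h5 ⟨hx, h3⟩
        exact Or.inl (Or.inl (hB ▸ ⟨w, show Nf w ≤ R₁ from le_of_lt hw, h6⟩))
    · refine (eq_empty_iff_forall_notMem.1 h2) (x, 0) ⟨O1 x hx.2.2.1, ?_, hx.2.2.2⟩
      exact hx.2.1.elim (fun h6 => h3 (I3 _ h6 hx.2.2.1)) fun h6 => h6.2
  refine ⟨⟨(φ 0, 0), I1 (hI ▸ ⟨0, ⟨?_, ?_⟩, rfl⟩)⟩,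
    isPreconnected_iff_subset_of_disjoint_closed.2 fun u v hu hv h1 h2 => ?_⟩
  · rw [Fmod_mid h.pf h.ct (by simp [N0]) (by simp [tau, Qf])]
    simp [Qf]
  · simp only [Prod.fst_zero]
    linarith
  · exact (isPreconnected_iff_subset_of_disjoint_closed.1 pI u v hu hv (I1.trans h1)
      (subset_eq_empty (inter_subset_inter_left _ I1) h2)).imp (key u v hu hv h1 h2)
        (key v u hv hu (union_comm u v ▸ h1) (inter_comm u v ▸ h2))

end Pool.Agent.Lib.MP_ccffa6_gt.U
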