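import Pool.Agent.Lib.MP_ccffa6_gt.U.Model

/-! The zero level of the model is connected to the outside. -/

open Set Filter Topology

noncomputable section

namespace Pool.Agent.Lib.MP_ccffa6_gt.U

variable {p q : ℕ} {f k : ℝ → ℝ} {R₁ : ℝ}

/-- The image of the complement of `0` under the radial projection. -/
theorem conn_sphere (hp : 1 ≤ p) (hq : 1 ≤ q) {r : ℝ} (hr : 0 < r) :
    IsPreconnected {w : Fm p q | Nf w = r} := by
  have h1 : 1 < Module.rank ℝ (Fm p q) := by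
    rw [← Module.finrank_eq_rank, Module.finrank_prod, finrank_euclideanSpace_fin,
      finrank_euclideanSpace_fin]
    exact_mod_cast Nat.add_le_add hp hq
  have h2 : ∀ w : Fm p q, w ≠ 0 → Nf w ≠ 0 := fun w hw =>
    ((pow_pos (norm_pos_iff.2 hw) 2).trans_le (norm_sq_le_Nf w)).ne'
  have h3 := (isConnected_compl_singleton_of_one_lt_rank h1 0).isPreconnected.image
    (fun w => √(r / Nf w) • w)
    ((continuousOn_const.div contDiff_Nf.continuous.continuousOn h2).sqrt.smul continuousOn_id)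
  suffices e : (fun w => √(r / Nf w) • w) '' {0}ᶜ = {w : Fm p q | Nf w = r} from e ▸ h3
  refine Subset.antisymm ?_ fun w hw => ⟨w, fun e => ?_, ?_⟩
  · rintro _ ⟨w, hw, rfl⟩
    have h4 : 0 ≤ r / Nf w := div_nonneg hr.le ((sq_nonneg _).trans (norm_sq_le_Nf w))
    have h5 : Nf (√(r / Nf w) • w) = √(r / Nf w) ^ 2 * Nf w := by
      simp only [Nf, Prod.smul_fst, Prod.smul_snd, norm_smul, mul_pow, Real.norm_eq_abs, sq_abs,
        mul_add]
    exact h5.trans (by rw [Real.sq_sqrt h4, div_mul_cancel₀ _ (h2 w hw)])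
  · rw [show w = 0 from e] at hw
    exact hr.ne (Eq.trans (by simp [Nf]) hw)
  · simp only [show Nf w = r from hw, div_self hr.ne', Real.sqrt_one, one_smul]

theorem connm_unit (hp : 1 ≤ p) (x : Rd p) : ∃ a : Rd p, ‖a‖ = 1 ∧ ‖x‖ • a = x := by
  rcases eq_or_ne x 0 with rfl | h
  · exact ⟨EuclideanSpace.single ⟨0, hp⟩ 1, by simp, by simp⟩
  · exact ⟨‖x‖⁻¹ • x, norm_smul_inv_norm h, smul_inv_smul₀ (norm_ne_zero_iff.2 h) x⟩

theorem connm_pt {a : Rd p} {b : Rd q} (ha : ‖a‖ = 1) (hb : ‖b‖ = 1) {s d : ℝ} (h : |d| ≤ s) :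
    Nf (√((s - d) / 2) • a, √((s + d) / 2) • b) = s ∧
      Qf (√((s - d) / 2) • a, √((s + d) / 2) • b) = d := by
  obtain ⟨h1, h2⟩ := abs_le.1 h
  simp only [Nf, Qf, norm_smul, ha, hb, mul_one, Real.norm_eq_abs, sq_abs]
  rw [Real.sq_sqrt (by linarith), Real.sq_sqrt (by linarith)]
  constructor <;> ring

/-- A path in the zero level on which `tau` is constant and `Nf` increases. -/
theorem conn_model (hf : Prof f) (hk : Cut k R₁) (hp : 1 ≤ p) (hq : 1 ≤ q) {z : Fm p q × ℝ}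
    (h0 : Fmod f k z = 0) (hz : Nf z.1 ≤ R₁) :
    ∃ A : Set (Fm p q × ℝ), IsPreconnected A ∧ z ∈ A ∧
      (∀ y ∈ A, Fmod f k y = 0 ∧ Nf y.1 ≤ R₁) ∧ ∃ w, Nf w = R₁ ∧ (w, (0 : ℝ)) ∈ A := by
  obtain ⟨a, ha, ea⟩ := connm_unit hp z.1.1
  obtain ⟨b, hb, eb⟩ := connm_unit hq z.1.2
  obtain ⟨D, hD⟩ : ∃ D : ℝ → ℝ, ∀ s, D s = (tau z - f (tau z)) * k s - tau z := ⟨_, fun _ => rfl⟩
  have cD : Continuous D := funext hD ▸ (continuous_const.mul hk.sm.continuous).sub continuous_const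
  have e0 : D (Nf z.1) = Qf z.1 := by
    rw [Fmod, Gm] at h0
    have e : tau z = z.2 - Qf z.1 := rfl
    linarith [hD (Nf z.1)]
  have hl : ∀ s ∈ Icc (Nf z.1) R₁, |D s| ≤ s := fun s hs => by
    have h1 := convex_univ.norm_image_sub_le_of_norm_deriv_le (f := k) (C := 1 / 12)
      (fun x _ => hk.sm.differentiable (by simp) x) (fun x _ => hk.slow x) (mem_univ (Nf z.1))
      (mem_univ s)
    rw [Real.norm_eq_abs, Real.norm_of_nonneg (sub_nonneg.2 hs.1)] at h1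
    have h2 : D s = (tau z - f (tau z)) * (k s - k (Nf z.1)) + Qf z.1 := by
      rw [← e0, hD, hD]
      ring
    have h3 := mul_le_mul (hf.abs_le (tau z)) h1 (abs_nonneg _) (by norm_num)
    rw [h2]
    refine (abs_add_le _ _).trans ?_
    rw [abs_mul]
    linarith [abs_Qf_le z.1, hs.1]
  refine ⟨(fun s => ((√((s - D s) / 2) • a, √((s + D s) / 2) • b), tau z + D s)) '' Icc (Nf z.1) R₁,
    isPreconnected_Icc.image _ (Continuous.continuousOn (by fun_prop)),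
    ⟨_, left_mem_Icc.2 hz, ?_⟩, ?_, _, (connm_pt ha hb (hl _ (right_mem_Icc.2 hz))).1,
    R₁, right_mem_Icc.2 hz, Prod.ext rfl ?_⟩
  · have e1 : (Nf z.1 - Qf z.1) / 2 = ‖z.1.1‖ ^ 2 := by
      rw [Nf, Qf]
      ring
    have e2 : (Nf z.1 + Qf z.1) / 2 = ‖z.1.2‖ ^ 2 := by
      rw [Nf, Qf]
      ring
    simp only [e0, e1, e2, Real.sqrt_sq (norm_nonneg _), ea, eb, tau, sub_add_cancel]
  · rintro _ ⟨s, hs, rfl⟩
    obtain ⟨h1, h2⟩ := connm_pt ha hb (hl s hs)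
    have e : tau ((√((s - D s) / 2) • a, √((s + D s) / 2) • b), tau z + D s) = tau z := by
      rw [tau, h2, add_sub_cancel_right]
    refine ⟨?_, h1.trans_le hs.2⟩
    simp only [Fmod, Gm, e, h1]
    linarith [hD s]
  · simp only [hD, hk.zero R₁ le_rfl, mul_zero, zero_sub, add_neg_cancel]

/-- Union of the sets `A` and of the sphere. -/
theorem conn_inner (hf : Prof f) (hk : Cut k R₁) (hp : 1 ≤ p) (hq : 1 ≤ q) :
    IsPreconnected {z : Fm p q × ℝ | Fmod f k z = 0 ∧ Nf z.1 ≤ R₁} := by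
  have hS := (conn_sphere hp hq (r := R₁) (by linarith [hk.lt])).prod
    (isPreconnected_singleton (x := (0 : ℝ)))
  refine isPreconnected_of_forall_pair fun x hx y hy => ?_
  obtain ⟨A, a1, a2, a3, u, a4, a5⟩ := conn_model hf hk hp hq hx.1 hx.2
  obtain ⟨B, b1, b2, b3, v, b4, b5⟩ := conn_model hf hk hp hq hy.1 hy.2
  refine ⟨(A ∪ {w | Nf w = R₁} ×ˢ {0}) ∪ B, union_subset (union_subset a3 fun z hz => ?_) b3,
    .inl (.inl a2), .inr b2,
    (IsPreconnected.union (u, 0) a5 (by exact ⟨a4, rfl⟩) a1 hS).union (v, 0) (.inr ⟨b4, rfl⟩) b5 b1⟩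
  exact ⟨by rw [Fmod, Gm_out hk hz.1.ge, sub_zero]; exact hz.2, hz.1.le⟩

end Pool.Agent.Lib.MP_ccffa6_gt.U
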