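import Pool.Agent.Lib.MP_ccffa6_gt.ELI.Ds3
import Pool.Agent.Lib.MP_ccffa6_gt.K.Lin

/-! Moving the covector `w e` of a field of nondegenerate forms on a field of subspaces. -/

set_option maxSynthPendingDepth 3

open Set Filter Topology

noncomputable section

namespace Pool.Agent.Lib.MP_ccffa6_gt

open P (wg bp wg_apply bp_apply CS)
open ELI

variable {U : Type} [NormedAddCommGroup U] [NormedSpace ℝ U] [FiniteDimensional ℝ U]

theorem u_nd_move {T : Submodule ℝ U} {w : Bil U} (h : ND T w) {d : U →L[ℝ] ℝ} {z : U}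
    (hzT : z ∈ T) (hz : 1 + d z ≠ 0) : ND T (w + wg (-w z) d) := by
  refine ⟨fun u hu => ?_, fun u huT hu => ?_⟩
  · simp [h.1 u hu, mul_comm]
  · have h1 := hu z hzT
    have hzz := h.1 z hzT
    have hzu : w z u = 0 := by
      have a := h.skew huT hzT
      simp only [add_apply, wg_apply, neg_apply, hzz, a] at h1
      have : w z u * (1 + d z) = 0 := by linarith
      exact (mul_eq_zero.1 this).resolve_right hz
    have h2 : u + d u • z = 0 := by
      refine h.2 _ (T.add_mem huT (T.smul_mem _ hzT)) fun v hv => ?_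
      have := hu v hv
      simp only [add_apply, wg_apply, neg_apply, hzu] at this
      simp only [map_add, map_smul, add_apply, smul_apply, smul_eq_mul]
      linarith
    have h3 : d u * (1 + d z) = 0 := by
      have := congrArg d h2
      simp only [map_add, map_smul, smul_eq_mul, map_zero] at this
      linarith
    have h4 : d u = 0 := (mul_eq_zero.1 h3).resolve_right hz
    simpa [h4] using h2

variable {X : Type} [MetricSpace X] {S : Set X} {T : X → Submodule ℝ U}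

/-- The covector `w e` can be moved to `ψ` if both are positive on a common vector. -/
theorem u_move (hT : CS S T) {w : X → Bil U} (hw : NDField S T w) {e : U}
    (he : ∀ x ∈ S, e ∈ T x) {ψ : X → U →L[ℝ] ℝ} (hψ : ContinuousOn ψ S)
    (hψe : ∀ x ∈ S, ψ x e = 0) (ex : ∀ x ∈ S, ∃ z ∈ T x, 0 < w x e z ∧ 0 < ψ x z) :
    ∃ w' : X → Bil U, NDField S T w' ∧ (∀ x ∈ S, ∀ v ∈ T x, w' x e v = ψ x v) ∧
      ∀ x ∈ S, (∀ v ∈ T x, ψ x v = w x e v) → ∀ u ∈ T x, ∀ v ∈ T x, w' x u v = w x u v := by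
  obtain ⟨P, cP, hP⟩ := hT
  have cφ : ContinuousOn (fun x => w x e) S := hw.cont.clm_apply continuousOn_const
  obtain ⟨g, hg⟩ := exists_continuous_forall_mem_convex_of_local_const (X := S) (E := U)
    (t := fun x => {z | 0 < (w x e).comp (P x) z} ∩ {z | 0 < (ψ x).comp (P x) z})
    (fun x => (convex_halfSpace_gt ((w x e).comp (P x) : U →ₗ[ℝ] ℝ).isLinear 0).inter
      (convex_halfSpace_gt ((ψ x).comp (P x) : U →ₗ[ℝ] ℝ).isLinear 0)) (fun x => by
      obtain ⟨z, hz, h1, h2⟩ := ex x x.2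
      have c1 : Continuous fun y : S => (w y e).comp (P y) z :=
        ((cφ.clm_comp cP).clm_apply continuousOn_const).domRestrict
      have c2 : Continuous fun y : S => (ψ y).comp (P y) z :=
        ((hψ.clm_comp cP).clm_apply continuousOn_const).domRestrict
      have e1 := (hP x x.2).2 z hz
      exact ⟨z, ((isOpen_lt continuous_const c1).eventually_mem (by simpa [e1] using h1)).and
        ((isOpen_lt continuous_const c2).eventually_mem (by simpa [e1] using h2))⟩)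
  classical
  let G : X → U := fun x => if h : x ∈ S then g ⟨x, h⟩ else 0
  have cG : ContinuousOn G S := by
    refine continuousOn_iff_continuous_domRestrict.2 (g.continuous.congr fun x => ?_)
    show g x = G x
    simp [G]
  have hG : ∀ x ∈ S, 0 < w x e (P x (G x)) ∧ 0 < ψ x (P x (G x)) := fun x hx => by
    simpa [G, hx] using hg ⟨x, hx⟩
  let z : X → U := fun x => (w x e (P x (G x)))⁻¹ • P x (G x)
  have cz : ContinuousOn z S :=
    ((cφ.clm_apply (cP.clm_apply cG)).inv₀ fun x hx => (hG x hx).1.ne').smul (cP.clm_apply cG)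
  have z0 : ∀ x ∈ S, z x ∈ T x := fun x hx => (T x).smul_mem _ ((hP x hx).1 _)
  have z1 : ∀ x ∈ S, w x e (z x) = 1 := fun x hx => by
    simp [z, (hG x hx).1.ne']
  have z2 : ∀ x ∈ S, 0 < ψ x (z x) := fun x hx => by
    simp only [z, map_smul, smul_eq_mul]
    exact mul_pos (inv_pos.2 (hG x hx).1) (hG x hx).2
  refine ⟨fun x => w x + wg (-w x (z x)) (ψ x - w x e),
    ⟨hw.cont.add (ds_cont_wg (hw.cont.clm_apply cz).neg (hψ.sub cφ)), fun x hx =>
      u_nd_move (hw.nd x hx) (z0 x hx) ?_⟩, fun x hx v _ => ?_, fun x _ hy u hu v hv => ?_⟩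
  · simp only [sub_apply, z1 x hx]
    linarith [z2 x hx]
  · have a := (hw.nd x hx).skew (z0 x hx) (he x hx)
    simp only [add_apply, wg_apply, neg_apply, sub_apply, a, z1 x hx, hψe x hx,
      (hw.nd x hx).1 e (he x hx)]
    ring
  · simp [hy u hu, hy v hv]

omit [FiniteDimensional ℝ U] in
/-- Two covectors which are close on `T` are positive on a common vector of `T`. -/
theorem u_pos {T : Submodule ℝ U} {P : U →L[ℝ] U} (hP : ∀ v, P v ∈ T) {φ ψ : U →L[ℝ] ℝ}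
    (h : ‖ψ.comp P - φ.comp P‖ < ‖φ.comp P‖) : ∃ z ∈ T, 0 < φ z ∧ 0 < ψ z := by
  obtain ⟨z, h1, h2⟩ := ds_pos h
  exact ⟨P z, hP z, h1, h2⟩

/-- LIFT: a homotopy of the covector `w e` through covectors which vanish on `e` and not on `T`
is covered by a change of the forms, relative to the set where the homotopy is constant. -/
theorem u_lift (hS : IsCompact S) (hT : CS S T) {w : X → Bil U} (hw : NDField S T w) {e : U}
    (he : ∀ x ∈ S, e ∈ T x) {l : ℝ × X → U →L[ℝ] ℝ} (hl : ContinuousOn l (Icc 0 1 ×ˢ S))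
    (hle : ∀ s ∈ Icc (0 : ℝ) 1, ∀ x ∈ S, l (s, x) e = 0)
    (nz : ∀ s ∈ Icc (0 : ℝ) 1, ∀ x ∈ S, ∃ v ∈ T x, l (s, x) v ≠ 0)
    (h0 : ∀ x ∈ S, ∀ v ∈ T x, l (0, x) v = w x e v) :
    ∃ w' : X → Bil U, NDField S T w' ∧ (∀ x ∈ S, ∀ v ∈ T x, w' x e v = l (1, x) v) ∧
      ∀ x ∈ S, (∀ s ∈ Icc (0 : ℝ) 1, ∀ v ∈ T x, l (s, x) v = w x e v) →
        ∀ u ∈ T x, ∀ v ∈ T x, w' x u v = w x u v := by
  let Q : ℝ → Prop := fun s => ∃ w' : X → Bil U, NDField S T w' ∧
    (∀ x ∈ S, ∀ v ∈ T x, w' x e v = l (s, x) v) ∧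
    ∀ x ∈ S, (∀ s ∈ Icc (0 : ℝ) 1, ∀ v ∈ T x, l (s, x) v = w x e v) →
      ∀ u ∈ T x, ∀ v ∈ T x, w' x u v = w x u v
  have step : ∀ s ∈ Icc (0 : ℝ) 1, ∀ s' ∈ Icc (0 : ℝ) 1,
      (∀ x ∈ S, ∃ z ∈ T x, 0 < l (s, x) z ∧ 0 < l (s', x) z) → Q s → Q s' := by
    rintro s hs s' hs' h ⟨w1, n1, a1, b1⟩
    obtain ⟨w2, n2, a2, b2⟩ := u_move hT n1 he (ψ := fun x => l (s', x))
      (hl.comp (by fun_prop) fun x hx => ⟨hs', hx⟩) (hle s' hs') fun x hx => by
        obtain ⟨z, hz, h1, h2⟩ := h x hx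
        exact ⟨z, hz, by rwa [a1 x hx z hz], h2⟩
    refine ⟨w2, n2, a2, fun x hx hc u hu v hv => ?_⟩
    rw [b2 x hx (fun v hv => by rw [a1 x hx v hv, hc s hs v hv, hc s' hs' v hv]) u hu v hv,
      b1 x hx hc u hu v hv]
  have key := isPreconnected_Icc.induction₂' (s := Icc (0 : ℝ) 1)
    (fun s s' => Q s → Q s') (fun s hs => ?_)
    (fun a b c _ _ _ h1 h2 hq => h2 (h1 hq)) (x := 0) (y := 1) (by simp) (by simp)
  · exact key ⟨w, hw, fun x hx v hv => (h0 x hx v hv).symm, fun _ _ _ _ _ _ _ => rfl⟩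
  obtain ⟨P, cP, hP⟩ := hT
  have c1 : ContinuousOn (fun q : ℝ × X => (l q).comp (P q.2)) (Icc 0 1 ×ˢ S) :=
    hl.clm_comp (cP.comp continuousOn_snd fun q hq => hq.2)
  have c2 : ContinuousOn (fun q : ℝ × X => (l (s, q.2)).comp (P q.2)) (Icc 0 1 ×ˢ S) :=
    c1.comp (f := fun q : ℝ × X => (s, q.2)) (by fun_prop) fun q hq => ⟨hs, hq.2⟩
  have c3 : ContinuousOn (fun q : ℝ × X => ‖(l (s, q.2)).comp (P q.2)‖ -
      ‖(l q).comp (P q.2) - (l (s, q.2)).comp (P q.2)‖) (Icc 0 1 ×ˢ S) :=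
    c2.norm.sub (c1.sub c2).norm
  obtain ⟨O, hO, hO'⟩ := (continuousOn_iff'.1 c3) (Ioi 0) isOpen_Ioi
  have h4 : ∀ᶠ s' in 𝓝 s, ∀ x ∈ S, (s', x) ∈ O :=
    hS.eventually_forall_of_forall_eventually fun x hx => hO.mem_nhds (by
      have : (s, x) ∈ O ∩ Icc 0 1 ×ˢ S := by
        rw [← hO']
        refine ⟨?_, hs, hx⟩
        obtain ⟨v, hv, hv'⟩ := nz s hs x hx
        simp only [mem_preimage, sub_self, norm_zero, sub_zero, mem_Ioi, norm_pos_iff]
        intro h
        have := congrArg (fun m : U →L[ℝ] ℝ => m v) h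
        simp [(hP x hx).2 v hv, hv'] at this
      exact this.1)
  filter_upwards [mem_nhdsWithin_of_mem_nhds h4, self_mem_nhdsWithin] with s' h5 hs'
  have h6 : ∀ x ∈ S, ∃ z ∈ T x, 0 < l (s, x) z ∧ 0 < l (s', x) z := fun x hx => by
    have : (s', x) ∈ O ∩ Icc 0 1 ×ˢ S := ⟨h5 x hx, hs', hx⟩
    rw [← hO'] at this
    exact u_pos (hP x hx).1 (sub_pos.1 this.1)
  exact ⟨step s hs s' hs' h6, step s' hs' s hs
    fun x hx => (h6 x hx).imp fun z hz => ⟨hz.1, hz.2.2, hz.2.1⟩⟩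

end Pool.Agent.Lib.MP_ccffa6_gt
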