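import Pool.Agent.Lib.MP_ccffa6_gt.U.RAlg
import Pool.Agent.Lib.MP_ccffa6_gt.U.Det

/-! The even case in the model space. -/

open Set Filter Topology
open scoped ContDiff

noncomputable section

namespace Pool.Agent.Lib.MP_ccffa6_gt.U

variable {E : Type} [NormedAddCommGroup E] [NormedSpace ℝ E] [FiniteDimensional ℝ E]

theorem evenm_dec {U : Type} [NormedAddCommGroup U] [NormedSpace ℝ U] (l : (U × (ℝ × ℝ)) →L[ℝ] ℝ)
    (v : U × (ℝ × ℝ)) : l v = l (v.1, 0) + v.2.1 * l (0, (1, 0)) + v.2.2 * l (0, (0, 1)) := by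
  have e : v = (v.1, 0) + v.2.1 • (0, (1, 0)) + v.2.2 • (0, (0, 1)) := by
    refine Prod.ext ?_ (Prod.ext ?_ ?_) <;> simp
  conv_lhs => rw [e]
  simp only [map_add, map_smul, smul_eq_mul]

theorem evenm_det {X : Type} [NormedAddCommGroup X] [NormedSpace ℝ X] [FiniteDimensional ℝ X]
    {A : X →L[ℝ] X} (h : ∀ x, A x = 0 → x = 0) : A.det ≠ 0 := fun h0 => by
  obtain ⟨x, hx, h1⟩ := (Submodule.ne_bot_iff _).1
    (LinearMap.det_eq_zero_iff_ker_ne_bot (f := (A : X →ₗ[ℝ] X)).1 h0)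
  exact h1 (h x hx)

/-- The Bott family, sheared so that the special covector becomes `(0, -1)`. -/
theorem evenM {n : ℕ} (hB : BottStmt (n + 1)) (hE : Module.finrank ℝ E = 2 * n + 1)
    {w₀ : Bil (E × ℝ)} (hw : ND ⊤ w₀) (j : Cv E ≃L[ℝ] (ℝ × E)) :
    ∃ (b : ℝ × E → Bil ((E × ℝ) × (ℝ × ℝ))) (Λ : ℝ × (ℝ × E) → Cv E × ℝ) (Z : Finset (ℝ × E))
      (D : ℝ × E → (ℝ × E) →L[ℝ] Cv E),
      Continuous b ∧ (∀ z, ND ⊤ (b z)) ∧ (∀ z, 1 ≤ ‖z‖ → b z = osum w₀ eta0) ∧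
      Continuous Λ ∧ (∀ z, Λ (0, z) = cov1 (b z)) ∧ (∀ s z, Λ (s, z) ≠ 0) ∧
      (∀ s z, 2 ≤ ‖z‖ → Λ (s, z) = (0, 1)) ∧
      (∀ z, (Λ (1, z)).1 = 0 → (Λ (1, z)).2 < 0 → z ∈ Z) ∧
      (∀ z ∈ Z, ‖z‖ < 1 ∧ (Λ (1, z)).1 = 0 ∧ (Λ (1, z)).2 < 0 ∧
        HasFDerivAt (fun z => (Λ (1, z)).1) (D z) z ∧
        ((j : Cv E →L[ℝ] (ℝ × E)).comp (D z)).det ≠ 0) ∧
      ∑ z ∈ Z, (SignType.sign ((j : Cv E →L[ℝ] (ℝ × E)).comp (D z)).det : ℤ) ≠ 0 := by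
  classical
  obtain ⟨J⟩ : Nonempty ((((E × ℝ) × (ℝ × ℝ)) →L[ℝ] ℝ) ≃L[ℝ] (((ℝ × E) × ℝ) × ℝ)) := by
    refine ⟨ContinuousLinearEquiv.ofFinrankEq ?_⟩
    rw [← (LinearMap.toContinuousLinearMap (𝕜 := ℝ) (E := (E × ℝ) × (ℝ × ℝ)) (F' := ℝ)).finrank_eq,
      Module.finrank_linearMap_self]
    simp only [Module.finrank_prod, Module.finrank_self]
    omega
  obtain ⟨b, c₀, Z, D, M, cb, nb, b1, c1, c2, hZ, hD, hs⟩ := hB ((E × ℝ) × (ℝ × ℝ)) (ℝ × E)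
    (osum w₀ eta0) (0, (1, 0)) ((ContinuousLinearMap.fst ℝ ℝ ℝ).comp
      (ContinuousLinearMap.snd ℝ (E × ℝ) (ℝ × ℝ))) J
    (by rw [Module.finrank_prod, Module.finrank_self, hE]; ring)
    (by simpa [pl] using hw.plus nd_eta0) rfl
  have bν : ∀ y, b y (0, (1, 0)) (0, (1, 0)) = 0 := fun y => (nb y).1 _ trivial
  have bn : ∀ y, b y (0, (1, 0)) ≠ 0 := fun y h => by
    simpa using (nb y).2 (0, (1, 0)) trivial fun v _ => by rw [h]; rfl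
  have out : ∀ y, 1 ≤ ‖y‖ → cov1 (b y) = (0, 1) := fun y h => by
    rw [b1 y h]
    refine Prod.ext (ContinuousLinearMap.ext fun v => ?_) ?_ <;> simp
  obtain ⟨w₁, hw₁⟩ : ∃ w, c₀ (w, 0) = 1 := by
    by_contra hc
    have z : ∀ w, c₀ (w, 0) = 0 := fun w => by
      by_contra h
      refine hc ⟨(c₀ (w, 0))⁻¹ • w, ?_⟩
      rw [show (((c₀ (w, 0))⁻¹ • w, 0) : (E × ℝ) × (ℝ × ℝ)) = (c₀ (w, 0))⁻¹ • (w, 0) by simp,
        map_smul, smul_eq_mul, inv_mul_cancel₀ h]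
    have n : c₀ (0, (0, 1)) ≠ 0 := fun h => c2 (ContinuousLinearMap.ext fun v => by
      rw [evenm_dec, z, c1, h]; simp)
    have o : (1 : ℝ) ≤ ‖((1, 0) : ℝ × E)‖ := by simp
    refine absurd (hD _ ((hZ (1, 0)).1 ⟨(c₀ (0, (0, 1)))⁻¹, ?_⟩)).1 (not_lt.2 o)
    refine ContinuousLinearMap.ext fun v => ?_
    rw [b1 _ o, smul_apply, evenm_dec c₀ v, z, c1]
    simp
    field_simp
  obtain ⟨c, w, c1, hw, hZ, hs⟩ : ∃ (c : ((E × ℝ) × (ℝ × ℝ)) →L[ℝ] ℝ) (w : E × ℝ),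
      c (0, (1, 0)) = 0 ∧ c (w, 0) = 1 ∧ (∀ y, (∃ m : ℝ, b y (0, (1, 0)) = m • c) ↔ y ∈ Z) ∧
      ∑ y ∈ Z.filter fun y => 0 < b y (0, (1, 0)) (w, 0), (SignType.sign
        ((J : _ →L[ℝ] (((ℝ × E) × ℝ) × ℝ)).comp (M y)).det : ℤ) ≠ 0 := by
    by_cases h : ∑ y ∈ Z.filter fun y => 0 < b y (0, (1, 0)) (w₁, 0), (SignType.sign
        ((J : _ →L[ℝ] (((ℝ × E) × ℝ) × ℝ)).comp (M y)).det : ℤ) = 0
    · have e : ((-w₁, 0) : (E × ℝ) × (ℝ × ℝ)) = -(w₁, 0) := by simp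
      refine ⟨-c₀, -w₁, by simp [c1], by rw [e, neg_apply, map_neg, neg_neg, hw₁], fun y => ?_, ?_⟩
      · rw [← hZ]
        exact ⟨fun ⟨m, h⟩ => ⟨-m, h.trans (by module)⟩, fun ⟨m, h⟩ => ⟨-m, h.trans (by module)⟩⟩
      · rw [← Finset.sum_filter_add_sum_filter_not Z fun y => 0 < b y (0, (1, 0)) (w₁, 0), h,
          zero_add] at hs
        convert hs using 2
        refine Finset.filter_congr fun y hy => ?_
        obtain ⟨m, hm⟩ := (hZ y).2 hy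
        have m0 : m ≠ 0 := fun h => bn y (by rw [hm, h, zero_smul])
        rw [e, map_neg, hm, smul_apply, hw₁, smul_eq_mul, mul_one, neg_pos, not_lt]
        exact ⟨le_of_lt, fun h => lt_of_le_of_ne h m0⟩
    · exact ⟨c₀, w₁, c1, hw₁, hZ, h⟩
  obtain ⟨cV, hcV⟩ : ∃ cV : Cv E,
    cV = c.comp (ContinuousLinearMap.inl ℝ (E × ℝ) (ℝ × ℝ)) := ⟨_, rfl⟩
  have cVa : ∀ v, cV v = c (v, 0) := fun v => by rw [hcV]; rfl
  obtain ⟨k, hk⟩ : ∃ k : ℝ, k = c (0, (0, 1)) + 1 := ⟨_, rfl⟩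
  obtain ⟨hh, hhh⟩ : ∃ hh : (((E × ℝ) × (ℝ × ℝ)) →L[ℝ] ℝ) →L[ℝ] ℝ, ∀ l,
      hh l = l (0, (0, 1)) - k * l (w, 0) :=
    ⟨ContinuousLinearMap.apply ℝ ℝ (0, (0, 1)) - k • ContinuousLinearMap.apply ℝ ℝ (w, 0),
      fun _ => rfl⟩
  obtain ⟨Ln, hLn⟩ : ∃ Ln : (((E × ℝ) × (ℝ × ℝ)) →L[ℝ] ℝ) →L[ℝ] Cv E, ∀ l,
      Ln l = l.comp (ContinuousLinearMap.inl ℝ (E × ℝ) (ℝ × ℝ)) + hh l • cV :=
    ⟨(ContinuousLinearMap.compL ℝ (E × ℝ) ((E × ℝ) × (ℝ × ℝ)) ℝ).flip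
      (ContinuousLinearMap.inl ℝ (E × ℝ) (ℝ × ℝ)) + hh.smulRight cV, fun _ => rfl⟩
  obtain ⟨J', hJ'⟩ : ∃ J' : (((E × ℝ) × (ℝ × ℝ)) →L[ℝ] ℝ) →L[ℝ] (((ℝ × E) × ℝ) × ℝ), ∀ l,
      J' l = ((j (Ln l), hh l), l (0, (1, 0))) :=
    ⟨(((j : Cv E →L[ℝ] (ℝ × E)).comp Ln).prod hh).prod
      (ContinuousLinearMap.apply ℝ ℝ (0, (1, 0))), fun _ => rfl⟩
  have dS : (J'.comp (J.symm : _ →L[ℝ] (((E × ℝ) × (ℝ × ℝ)) →L[ℝ] ℝ))).det ≠ 0 :=
    evenm_det fun x hx => by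
      have hx : J' (J.symm x) = 0 := hx
      rw [← J.symm.map_eq_zero_iff]
      generalize J.symm x = l at hx
      rw [hJ', Prod.mk_eq_zero, Prod.mk_eq_zero, j.map_eq_zero_iff] at hx
      obtain ⟨⟨h1, h2⟩, h3⟩ := hx
      rw [hLn, h2, zero_smul, add_zero] at h1
      have h4 : ∀ v, l (v, 0) = 0 := fun v => DFunLike.congr_fun h1 v
      rw [hhh, h4, mul_zero, sub_zero] at h2
      exact ContinuousLinearMap.ext fun v => by rw [evenm_dec, h4, h2, h3]; simp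
  have zz : ∀ y ∈ Z, Ln (b y (0, (1, 0))) = 0 ∧
      hh (b y (0, (1, 0))) = -b y (0, (1, 0)) (w, 0) := fun y hy => by
    obtain ⟨m, hm⟩ := (hZ y).2 hy
    have e : hh (b y (0, (1, 0))) = -m := by
      rw [hhh, hm, smul_apply, smul_apply, hw, hk, smul_eq_mul, smul_eq_mul]
      ring
    refine ⟨?_, by rw [e, hm, smul_apply, hw, smul_eq_mul, mul_one]⟩
    rw [hLn, e, hm, hcV, ContinuousLinearMap.smul_comp]
    module
  have dd : ∀ y ∈ Z, (J'.comp (J.symm : _ →L[ℝ] (((E × ℝ) × (ℝ × ℝ)) →L[ℝ] ℝ))).det *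
      ((J : _ →L[ℝ] (((ℝ × E) × ℝ) × ℝ)).comp (M y)).det =
      ((j : Cv E →L[ℝ] (ℝ × E)).comp (Ln.comp (D y))).det * -b y (0, (1, 0)) (w, 0) :=
    fun y hy => by
      obtain ⟨-, h1, h2, -⟩ := hD y hy
      have h3 : ∀ v, D y v (0, (1, 0)) = 0 := fun v => by
        have a := (ContinuousLinearMap.apply ℝ ℝ ((0, (1, 0)) : (E × ℝ) × (ℝ × ℝ))).hasFDerivAt.comp
          y h1
        have e : (ContinuousLinearMap.apply ℝ ℝ ((0, (1, 0)) : (E × ℝ) × (ℝ × ℝ))) ∘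
          (fun y => b y (0, (1, 0))) = fun _ => 0 := funext bν
        rw [e] at a
        exact DFunLike.congr_fun (a.unique (hasFDerivAt_const 0 y)) v
      have h4 : hh ((ContinuousLinearMap.fst ℝ ℝ ℝ).comp
        (ContinuousLinearMap.snd ℝ (E × ℝ) (ℝ × ℝ))) = 0 := by simp [hhh]
      have h5 : Ln ((ContinuousLinearMap.fst ℝ ℝ ℝ).comp
          (ContinuousLinearMap.snd ℝ (E × ℝ) (ℝ × ℝ))) = 0 := by
        rw [hLn, h4, zero_smul, add_zero]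
        rfl
      rw [← det_comp, ← det_lower ((j : Cv E →L[ℝ] (ℝ × E)).comp (Ln.comp (D y))) (hh.comp (D y))
        (-b y (0, (1, 0)) (w, 0)) (M := ((((j : Cv E →L[ℝ] (ℝ × E)).comp (Ln.comp (D y))).comp
          (ContinuousLinearMap.fst ℝ (ℝ × E) ℝ)).prod
          ((hh.comp (D y)).comp (ContinuousLinearMap.fst ℝ (ℝ × E) ℝ) +
            (-b y (0, (1, 0)) (w, 0)) • ContinuousLinearMap.snd ℝ (ℝ × E) ℝ))) fun _ => rfl]
      refine (det_lower _ 0 1 fun z => ?_).trans (mul_one _)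
      change J' (J.symm (J (M y z))) = _
      rw [J.symm_apply_apply, hJ', h2]
      simp only [map_add, map_smul, h4, h5, (zz y hy).1, (zz y hy).2, add_apply, smul_apply, h3, bν]
      simp [mul_comm]
  obtain ⟨χ, hχ⟩ : ∃ χ : ℝ × E → ℝ, χ = fun z => max 0 (min 1 (2 - ‖z‖)) := ⟨_, rfl⟩
  have cχ : Continuous χ := by rw [hχ]; fun_prop
  have χ0 : ∀ z, 2 ≤ ‖z‖ → χ z = 0 := fun z h => by
    rw [hχ]
    exact max_eq_left (min_le_of_right_le (by linarith))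
  have χ1 : ∀ z, ‖z‖ < 1 → χ z = 1 := fun z h => by
    rw [hχ]
    beta_reduce
    rw [min_eq_left (by linarith), max_eq_right zero_le_one]
  obtain ⟨Λ, hΛ⟩ : ∃ Λ : ℝ × (ℝ × E) → Cv E × ℝ, ∀ s z, Λ (s, z) = ((cov1 (b z)).1 +
      (s * χ z * ((cov1 (b z)).2 - s * χ z * k * (cov1 (b z)).1 w)) • cV,
      (cov1 (b z)).2 - s * χ z * k * (cov1 (b z)).1 w) ∧ Continuous Λ := by
    have a1 := (continuous_cov1.comp (cb.comp (continuous_snd (X := ℝ)))).fst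
    have a2 := (continuous_cov1.comp (cb.comp (continuous_snd (X := ℝ)))).snd
    have a3 := (continuous_fst (X := ℝ)).mul (cχ.comp continuous_snd)
    have a4 := a2.sub ((a3.mul (continuous_const (y := k))).mul
      (a1.clm_apply (continuous_const (y := w))))
    exact ⟨_, fun _ _ => ⟨rfl, (a1.add ((a3.mul a4).smul continuous_const)).prodMk a4⟩⟩
  have Λ1 : ∀ z, ‖z‖ < 1 → Λ (1, z) = (Ln (b z (0, (1, 0))), hh (b z (0, (1, 0)))) := fun z h => by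
    rw [(hΛ 1 z).1, χ1 z h, hLn, hhh]
    simp only [one_mul]
    rfl
  refine ⟨b, Λ, Z.filter fun y => 0 < b y (0, (1, 0)) (w, 0), fun y => Ln.comp (D y), cb, nb, b1,
    (hΛ 0 0).2, fun z => by rw [(hΛ 0 z).1]; simp only [zero_mul, zero_smul, add_zero, sub_zero], fun s z h => ?_, fun s z h => ?_,
    fun z h1 h2 => ?_, fun z hz => ?_, ?_⟩
  · rw [(hΛ s z).1, Prod.mk_eq_zero] at h
    obtain ⟨h1, h2⟩ := h
    rw [h2, mul_zero, zero_smul, add_zero] at h1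
    rw [h1, zero_apply, mul_zero, sub_zero, cov1_snd] at h2
    refine bn z (ContinuousLinearMap.ext fun v => ?_)
    rw [evenm_dec, bν, h2, ← cov1_fst, h1]
    simp
  · simp [(hΛ s z).1, χ0 z h, out z (by linarith)]
  · rcases le_or_gt 1 ‖z‖ with h | h
    · simp [(hΛ 1 z).1, out z h] at h2
      linarith
    · rw [Λ1 z h] at h1 h2
      have h3 : ∀ v, b z (0, (1, 0)) (v, 0) = -hh (b z (0, (1, 0))) * c (v, 0) := fun v => by
        have := DFunLike.congr_fun ((hLn _).symm.trans h1) v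
        rw [add_apply, smul_apply, cVa, smul_eq_mul, zero_apply] at this
        exact (eq_neg_of_add_eq_zero_left this).trans (neg_mul _ _).symm
      have h4 := h3 w
      rw [hw, mul_one] at h4
      refine Finset.mem_filter.2 ⟨(hZ z).1 ⟨-hh (b z (0, (1, 0))), ?_⟩, by rw [h4]; linarith⟩
      refine ContinuousLinearMap.ext fun v => ?_
      have h5 := hhh (b z (0, (1, 0)))
      rw [h4, hk] at h5
      rw [smul_apply, evenm_dec, evenm_dec c, bν, c1, h3, smul_eq_mul]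
      linear_combination (-v.2.2) * h5
  · obtain ⟨hz, hp⟩ := Finset.mem_filter.1 hz
    obtain ⟨h1, h2, -, h3⟩ := hD z hz
    refine ⟨h1, by rw [Λ1 z h1]; exact (zz z hz).1, by rw [Λ1 z h1, (zz z hz).2]; linarith,
      (Ln.hasFDerivAt.comp z h2).congr_of_eventuallyEq ?_, fun h => ?_⟩
    · filter_upwards [(isOpen_lt continuous_norm continuous_const).mem_nhds h1] with y hy
      rw [Λ1 y hy]
      rfl
    · have := dd z hz
      rw [h, zero_mul] at this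
      exact mul_ne_zero dS h3 this
  · intro h
    refine mul_ne_zero (a := (SignType.sign (J'.comp (J.symm : _ →L[ℝ]
      (((E × ℝ) × (ℝ × ℝ)) →L[ℝ] ℝ))).det : ℤ)) (by
        rcases lt_or_gt_of_ne dS with h | h
        · simp [sign_neg h]
        · simp [sign_pos h]) hs ?_
    rw [Finset.mul_sum, ← neg_eq_zero, ← h, ← Finset.sum_neg_distrib]
    refine Finset.sum_congr rfl fun y hy => ?_
    obtain ⟨hy, hp⟩ := Finset.mem_filter.1 hy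
    rw [← SignType.coe_mul, ← sign_mul, dd y hy, sign_mul, sign_neg (neg_neg_of_pos hp)]
    simp

end Pool.Agent.Lib.MP_ccffa6_gt.U
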