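import Mathlib

/-!
Two isomorphisms whose determinants have the same sign are joined by a path of isomorphisms.
-/

open Set Matrix

noncomputable section

namespace Pool.Agent.Lib.MP_ccffa6_gt

section mat

variable {n : Type} [Fintype n] [DecidableEq n]

/-- `1 + ((c - 1) / |u|²) u uᵀ`. -/
def uRk (u : n → ℝ) (c : ℝ) : Matrix n n ℝ := 1 + vecMulVec (((c - 1) / (u ⬝ᵥ u)) • u) u

theorem uRk_det {u : n → ℝ} (hu : u ≠ 0) (c : ℝ) : (uRk u c).det = c := by
  have h : u ⬝ᵥ u ≠ 0 := fun h => hu (dotProduct_self_eq_zero.1 h)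
  rw [uRk, vecMulVec_eq Unit, det_one_add_replicateCol_mul_replicateRow, dotProduct_smul,
    smul_eq_mul]
  field_simp
  ring

theorem uRk_single (i : n) (c : ℝ) :
    uRk (Pi.single i 1) c = diagonal (Function.update 1 i c) := by
  ext a b
  simp only [uRk, Matrix.add_apply, vecMulVec_apply, Pi.smul_apply, smul_eq_mul, one_apply,
    diagonal_apply, single_dotProduct, Pi.single_eq_same, mul_one, div_one, Pi.single_apply,
    Function.update_apply, Pi.one_apply]
  by_cases h1 : a = b
  · subst h1
    by_cases h2 : a = i <;> simp [h2]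
  · by_cases h2 : a = i
    · subst h2
      simp [h1, Ne.symm h1]
    · simp [h1, h2]

theorem u_joined_mul {A B C D : Matrix n n ℝ} (h : JoinedIn {M : Matrix n n ℝ | M.det ≠ 0} A B)
    (h' : JoinedIn {M : Matrix n n ℝ | M.det ≠ 0} C D) :
    JoinedIn {M : Matrix n n ℝ | M.det ≠ 0} (A * C) (B * D) := by
  refine (h.mul h').mono ?_
  rintro _ ⟨x, hx, y, hy, rfl⟩
  simp only [mem_ofPred_eq, det_mul] at hx hy ⊢
  exact mul_ne_zero hx hy

theorem u_joined_single (i i₀ : n) {c c' : ℝ} (h : 0 < c * c') :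
    JoinedIn {M : Matrix n n ℝ | M.det ≠ 0} (diagonal (Function.update 1 i c))
      (diagonal (Function.update 1 i₀ c')) := by
  set u : ℝ → n → ℝ := fun s => (1 - s) • Pi.single i 1 + s • Pi.single i₀ 1 with hu
  have hu0 : ∀ s, u s ≠ 0 := by
    intro s hs
    have h1 : ∑ k, u s k = 1 := by
      simp [hu, Finset.sum_add_distrib, ← Finset.mul_sum, Finset.sum_pi_single']
    rw [hs] at h1
    simp at h1
  have hc : Continuous u := by
    rw [hu]
    fun_prop
  refine JoinedIn.ofLine (f := fun s => uRk (u s) ((1 - s) * c + s * c')) ?_ ?_ ?_ ?_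
  · refine Continuous.continuousOn ?_
    have h1 : Continuous fun s => ((1 - s) * c + s * c' - 1) / (u s ⬝ᵥ u s) :=
      Continuous.div (by fun_prop) (hc.dotProduct hc)
        fun s h => hu0 s (dotProduct_self_eq_zero.1 h)
    have h2 : Continuous fun s => (((1 - s) * c + s * c' - 1) / (u s ⬝ᵥ u s)) • u s := h1.smul hc
    exact continuous_const.add (Continuous.matrix_vecMulVec h2 hc)
  · simp [hu, uRk_single]
  · simp [hu, uRk_single]
  · rintro _ ⟨s, hs, rfl⟩
    simp only [mem_ofPred_eq]
    rw [uRk_det (hu0 s)]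
    intro h0
    have hc0 : c ≠ 0 := by
      rintro rfl
      simp at h
    have h2 : 0 < c * c := mul_self_pos.2 hc0
    have h3 : ((1 - s) * c + s * c') * c = 0 := by rw [h0, zero_mul]
    rcases eq_or_lt_of_le hs.1 with h4 | h4
    · rw [← h4] at h3
      nlinarith
    · nlinarith [mul_nonneg (sub_nonneg.2 hs.2) h2.le, mul_pos h4 h]

theorem u_joined_cases (i₀ : n) (M : Matrix n n ℝ) (hM : M.det ≠ 0) :
    JoinedIn {M : Matrix n n ℝ | M.det ≠ 0} M 1 ∨
      JoinedIn {M : Matrix n n ℝ | M.det ≠ 0} M (diagonal (Function.update 1 i₀ (-1))) := by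
  set R : Matrix n n ℝ := diagonal (Function.update 1 i₀ (-1)) with hR
  have hRR : R * R = 1 := by
    rw [hR, diagonal_mul_diagonal, ← diagonal_one]
    congr 1
    ext k
    by_cases hk : k = i₀ <;> simp [hk]
  have hmul : ∀ A B : Matrix n n ℝ,
      (JoinedIn {M : Matrix n n ℝ | M.det ≠ 0} A 1 ∨ JoinedIn {M : Matrix n n ℝ | M.det ≠ 0} A R) →
      (JoinedIn {M : Matrix n n ℝ | M.det ≠ 0} B 1 ∨ JoinedIn {M : Matrix n n ℝ | M.det ≠ 0} B R) →
      (JoinedIn {M : Matrix n n ℝ | M.det ≠ 0} (A * B) 1 ∨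
        JoinedIn {M : Matrix n n ℝ | M.det ≠ 0} (A * B) R) := by
    rintro A B (hA | hA) (hB | hB)
    · exact Or.inl (by simpa using u_joined_mul hA hB)
    · exact Or.inr (by simpa using u_joined_mul hA hB)
    · exact Or.inr (by simpa using u_joined_mul hA hB)
    · exact Or.inl (by simpa [hRR] using u_joined_mul hA hB)
  refine diagonal_transvection_induction_of_det_ne_zero
    (fun M => JoinedIn {M : Matrix n n ℝ | M.det ≠ 0} M 1 ∨
      JoinedIn {M : Matrix n n ℝ | M.det ≠ 0} M R) M hM ?_ ?_ fun A B _ _ => hmul A B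
  · intro D hD
    have hD' : ∀ k, D k ≠ 0 := by
      intro k hk
      exact hD (by rw [det_diagonal]; exact Finset.prod_eq_zero (Finset.mem_univ k) hk)
    have key : ∀ s : Finset n,
        JoinedIn {M : Matrix n n ℝ | M.det ≠ 0} (diagonal fun k => if k ∈ s then D k else 1) 1 ∨
        JoinedIn {M : Matrix n n ℝ | M.det ≠ 0} (diagonal fun k => if k ∈ s then D k else 1) R := by
      intro s
      induction s using Finset.induction_on with
      | empty => exact Or.inl (by simpa using JoinedIn.refl (by simp))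
      | insert i s hi ih =>
        have e : (diagonal fun k => if k ∈ insert i s then D k else 1 : Matrix n n ℝ) =
            diagonal (Function.update 1 i (D i)) * diagonal fun k => if k ∈ s then D k else 1 := by
          rw [diagonal_mul_diagonal]
          congr 1
          ext k
          by_cases hk : k = i
          · subst hk
            simp [hi]
          · simp [hk]
        rw [e]
        refine hmul _ _ ?_ ih
        rcases lt_or_gt_of_ne (hD' i) with h | h
        · exact Or.inr (u_joined_single i i₀ (by linarith))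
        · have := u_joined_single i i₀ (c := D i) (c' := 1) (by linarith)
          exact Or.inl (by simpa using this)
    simpa using key Finset.univ
  · intro t
    refine Or.inl (JoinedIn.ofLine (f := fun s => transvection t.i t.j ((1 - s) * t.c)) ?_ ?_ ?_ ?_)
    · refine Continuous.continuousOn (continuous_const.add ?_)
      refine continuous_matrix fun a b => ?_
      simp only [single_apply]
      split_ifs <;> fun_prop
    · simp [TransvectionStruct.toMatrix]
    · simp
    · rintro _ ⟨s, -, rfl⟩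
      simp [det_transvection_of_ne _ _ t.hij]

theorem u_joined_pos {A B : Matrix n n ℝ} (h : JoinedIn {M : Matrix n n ℝ | M.det ≠ 0} A B) :
    0 < A.det * B.det := by
  obtain ⟨γ, hγ⟩ := h
  by_contra hc
  have hA : A.det ≠ 0 := by simpa using hγ 0
  have hf : Continuous fun t => A.det * (γ t).det := continuous_const.mul γ.continuous.matrix_det
  have h0 : (0 : ℝ) ∈ Icc (A.det * (γ 1).det) (A.det * (γ 0).det) := by
    simp only [Path.target, Path.source]
    exact ⟨not_lt.1 hc, mul_self_nonneg _⟩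
  obtain ⟨t, ht⟩ := intermediate_value_univ 1 0 hf h0
  exact mul_ne_zero hA (hγ t) ht

theorem u_joined_of_pos {A B : Matrix n n ℝ} (h : 0 < A.det * B.det) :
    JoinedIn {M : Matrix n n ℝ | M.det ≠ 0} A B := by
  have hA : A.det ≠ 0 := left_ne_zero_of_mul h.ne'
  have hB : B.det ≠ 0 := right_ne_zero_of_mul h.ne'
  rcases isEmpty_or_nonempty n with hn | ⟨⟨i₀⟩⟩
  · rw [Subsingleton.elim B A]
    exact JoinedIn.refl hA
  have hR : (diagonal (Function.update 1 i₀ (-1)) : Matrix n n ℝ).det = -1 := by
    rw [← uRk_single, uRk_det (by simp)]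
  rcases u_joined_cases i₀ A hA with h1 | h1 <;> rcases u_joined_cases i₀ B hB with h2 | h2
  · exact h1.trans h2.symm
  · have h3 := u_joined_pos h1
    have h4 := u_joined_pos h2
    rw [hR] at h4
    rw [det_one] at h3
    nlinarith
  · have h3 := u_joined_pos h1
    have h4 := u_joined_pos h2
    rw [hR] at h3
    rw [det_one] at h4
    nlinarith
  · exact h1.trans h2.symm

end mat

variable {V : Type} [NormedAddCommGroup V] [NormedSpace ℝ V] [FiniteDimensional ℝ V]

theorem u_gl_path_end {A B : V →L[ℝ] V} (h : 0 < A.det * B.det) :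
    ∃ P : ℝ → V →L[ℝ] V, Continuous P ∧ P 0 = A ∧ P 1 = B ∧ ∀ s, Function.Injective (P s) := by
  let b := Module.finBasis ℝ V
  let c : Matrix (Fin (Module.finrank ℝ V)) (Fin (Module.finrank ℝ V)) ℝ →ₗ[ℝ] V →L[ℝ] V :=
    (LinearMap.toContinuousLinearMap : (V →ₗ[ℝ] V) ≃ₗ[ℝ] V →L[ℝ] V).toLinearMap ∘ₗ
      (Matrix.toLin b b).toLinearMap
  have hc : Continuous c := LinearMap.continuous_of_finiteDimensional c
  have h' : 0 < (LinearMap.toMatrix b b (A : V →ₗ[ℝ] V)).det *
      (LinearMap.toMatrix b b (B : V →ₗ[ℝ] V)).det := by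
    rw [LinearMap.det_toMatrix, LinearMap.det_toMatrix]
    exact h
  obtain ⟨γ, hγ⟩ := u_joined_of_pos h'
  refine ⟨fun s => c (γ.extend s), hc.comp γ.continuous_extend, ?_, ?_, fun s => ?_⟩
  · ext v
    simp [c]
  · ext v
    simp [c]
  · have h1 : (γ.extend s).det ≠ 0 := by
      obtain ⟨t, ht⟩ : γ.extend s ∈ range γ := γ.extend_range ▸ mem_range_self s
      rw [← ht]
      exact hγ t
    have h2 : LinearMap.det (Matrix.toLin b b (γ.extend s)) ≠ 0 := by
      rwa [LinearMap.det_toLin]
    have h3 : LinearMap.ker (Matrix.toLin b b (γ.extend s)) = ⊥ := by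
      by_contra h4
      exact h2 (LinearMap.det_eq_zero_iff_ker_ne_bot.2 h4)
    exact LinearMap.ker_eq_bot.1 h3

/-- Path of injective maps between two maps with determinants of the same sign. -/
theorem u_gl_path {V' : Type} [NormedAddCommGroup V'] [NormedSpace ℝ V'] (j : V' ≃L[ℝ] V)
    {A B : V →L[ℝ] V'}
    (h : 0 < ((j : V' →L[ℝ] V).comp A).det * ((j : V' →L[ℝ] V).comp B).det) :
    ∃ P : ℝ → V →L[ℝ] V', Continuous P ∧ P 0 = A ∧ P 1 = B ∧ ∀ s, Function.Injective (P s) := by
  obtain ⟨P, hP, h0, h1, hi⟩ := u_gl_path_end h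
  refine ⟨fun s => (j.symm : V →L[ℝ] V').comp (P s), continuous_const.clm_comp hP, ?_, ?_,
    fun s => j.symm.injective.comp (hi s)⟩
  · ext v
    simp [h0]
  · ext v
    simp [h1]

end Pool.Agent.Lib.MP_ccffa6_gt
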