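import Pool.Agent.Lib.MP_ccffa6_gt.U.HDefs

/-!
Elementary properties of homotopies of sections.
-/

open Set Filter Topology

noncomputable section

namespace Pool.Agent.Lib.MP_ccffa6_gt

variable {E : Type} [NormedAddCommGroup E] [NormedSpace ℝ E]

/-- Two values agree on `T_x L ⊕ ℝ`. -/
def Agr (L : Set E) (x : E) (c c' : Cv E × ℝ) : Prop :=
  c.2 = c'.2 ∧ ∀ v ∈ T1 L x, c.1 v = c'.1 v

/-- The value is not zero, and on the positive ray if `T ≤ |t|`. -/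
def SOk (L : Set E) (T : ℝ) (q : ℝ × E) (c : Cv E × ℝ) : Prop :=
  (Van L q.2 c.1 → c.2 ≠ 0) ∧ (T ≤ |q.1| → Van L q.2 c.1 ∧ 0 < c.2)

/-- Nowhere zero section, on the positive ray for large `|t|`. -/
def Sec (L : Set E) (l : ℝ × E → Cv E × ℝ) : Prop :=
  ContinuousOn l (univ ×ˢ L) ∧ ∃ T : ℝ, ∀ q : ℝ × E, q.2 ∈ L → SOk L T q (l q)

theorem Agr.refl (L : Set E) (x : E) (c : Cv E × ℝ) : Agr L x c c := ⟨rfl, fun _ _ => rfl⟩

theorem Agr.of_eq {L : Set E} {x : E} {c c' : Cv E × ℝ} (h : c = c') : Agr L x c c' :=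
  h ▸ Agr.refl L x c

theorem Agr.symm {L : Set E} {x : E} {c c' : Cv E × ℝ} (h : Agr L x c c') : Agr L x c' c :=
  ⟨h.1.symm, fun v hv => (h.2 v hv).symm⟩

theorem Agr.trans {L : Set E} {x : E} {c c' c'' : Cv E × ℝ} (h : Agr L x c c')
    (h' : Agr L x c' c'') : Agr L x c c'' :=
  ⟨h.1.trans h'.1, fun v hv => (h.2 v hv).trans (h'.2 v hv)⟩

theorem Agr.van {L : Set E} {x : E} {c c' : Cv E × ℝ} (h : Agr L x c c') (hv : Van L x c.1) :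
    Van L x c'.1 := fun v h1 => (h.2 v h1).symm.trans (hv v h1)

theorem SOk.congr {L : Set E} {T : ℝ} {q : ℝ × E} {c c' : Cv E × ℝ} (h : SOk L T q c)
    (ha : Agr L q.2 c c') : SOk L T q c' :=
  ⟨fun hv => ha.1 ▸ h.1 (ha.symm.van hv), fun ht => ⟨ha.van (h.2 ht).1, ha.1 ▸ (h.2 ht).2⟩⟩

theorem SOk.mono {L : Set E} {T T' : ℝ} {q : ℝ × E} {c : Cv E × ℝ} (h : SOk L T q c)
    (hT : T ≤ T') : SOk L T' q c := ⟨h.1, fun ht => h.2 (hT.trans ht)⟩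

theorem secHtpy_iff {L : Set E} {l₀ l₁ : ℝ × E → Cv E × ℝ} : SecHtpy L l₀ l₁ ↔
    ∃ (Λ : ℝ × (ℝ × E) → Cv E × ℝ) (T : ℝ), ContinuousOn Λ (Icc (0 : ℝ) 1 ×ˢ (univ ×ˢ L)) ∧
      (∀ s ∈ Icc (0 : ℝ) 1, ∀ q : ℝ × E, q.2 ∈ L → SOk L T q (Λ (s, q))) ∧
      ∀ q : ℝ × E, q.2 ∈ L → Agr L q.2 (Λ (0, q)) (l₀ q) ∧ Agr L q.2 (Λ (1, q)) (l₁ q) := by
  constructor
  · rintro ⟨Λ, T, h1, h2, h3⟩
    exact ⟨Λ, T, h1, h2, fun q hq => ⟨⟨(h3 q hq).1.1, fun v hv => ((h3 q hq).2 v hv).1⟩,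
      ⟨(h3 q hq).1.2, fun v hv => ((h3 q hq).2 v hv).2⟩⟩⟩
  · rintro ⟨Λ, T, h1, h2, h3⟩
    exact ⟨Λ, T, h1, h2, fun q hq => ⟨⟨(h3 q hq).1.1, (h3 q hq).2.1⟩,
      fun v hv => ⟨(h3 q hq).1.2 v hv, (h3 q hq).2.2 v hv⟩⟩⟩

theorem Sec.htpy {L : Set E} {l : ℝ × E → Cv E × ℝ} (h : Sec L l) : SecHtpy L l l := by
  obtain ⟨hc, T, hT⟩ := h
  exact secHtpy_iff.2 ⟨fun z => l z.2, T, hc.comp continuousOn_snd fun z hz => hz.2,
    fun _ _ q hq => hT q hq, fun q _ => ⟨Agr.refl _ _ _, Agr.refl _ _ _⟩⟩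

theorem SecHtpy.congr {L : Set E} {l₀ l₁ l₀' l₁' : ℝ × E → Cv E × ℝ} (h : SecHtpy L l₀ l₁)
    (h₀ : ∀ q : ℝ × E, q.2 ∈ L → Agr L q.2 (l₀ q) (l₀' q))
    (h₁ : ∀ q : ℝ × E, q.2 ∈ L → Agr L q.2 (l₁ q) (l₁' q)) : SecHtpy L l₀' l₁' := by
  obtain ⟨Λ, T, h1, h2, h3⟩ := secHtpy_iff.1 h
  exact secHtpy_iff.2 ⟨Λ, T, h1, h2, fun q hq =>
    ⟨(h3 q hq).1.trans (h₀ q hq), (h3 q hq).2.trans (h₁ q hq)⟩⟩

theorem SecHtpy.symm {L : Set E} {l₀ l₁ : ℝ × E → Cv E × ℝ} (h : SecHtpy L l₀ l₁) :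
    SecHtpy L l₁ l₀ := by
  obtain ⟨Λ, T, h1, h2, h3⟩ := secHtpy_iff.1 h
  refine secHtpy_iff.2 ⟨fun z => Λ (1 - z.1, z.2), T, h1.comp (by fun_prop) ?_,
    fun s hs q hq => h2 _ ⟨by linarith [hs.2], by linarith [hs.1]⟩ q hq, fun q hq => ?_⟩
  · exact fun z hz => ⟨⟨by linarith [hz.1.2], by linarith [hz.1.1]⟩, hz.2⟩
  · simpa using (h3 q hq).symm

theorem SecHtpy.trans {L : Set E} {l₀ l₁ l₂ : ℝ × E → Cv E × ℝ} (h : SecHtpy L l₀ l₁)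
    (h' : SecHtpy L l₁ l₂) : SecHtpy L l₀ l₂ := by
  obtain ⟨Λ, T, h1, h2, h3⟩ := secHtpy_iff.1 h
  obtain ⟨Λ', T', h1', h2', h3'⟩ := secHtpy_iff.1 h'
  have key : ∀ (q : ℝ × E) (r : ℝ), q.2 ∈ L →
      Agr L q.2 (Λ' (r, q)) (Λ (1, q) + (Λ' (r, q) - Λ' (0, q))) := by
    intro q r hq
    have h4 := (h3 q hq).2.trans (h3' q hq).1.symm
    refine ⟨by simp [h4.1], fun v hv => by simp [h4.2 v hv]⟩
  refine secHtpy_iff.2 ⟨fun z => Λ (min (2 * z.1) 1, z.2) +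
    (Λ' (max (2 * z.1 - 1) 0, z.2) - Λ' (0, z.2)), max T T', ?_, fun s hs q hq => ?_,
    fun q hq => ⟨?_, ?_⟩⟩
  · refine (h1.comp (by fun_prop) fun z hz => ⟨⟨?_, min_le_right _ _⟩, hz.2⟩).add
      ((h1'.comp (by fun_prop) fun z hz => ⟨⟨le_max_right _ _, ?_⟩, hz.2⟩).sub
        (h1'.comp (by fun_prop) fun z hz => ⟨⟨le_rfl, zero_le_one⟩, hz.2⟩))
    · exact le_min (by linarith [hz.1.1]) zero_le_one
    · exact max_le (by linarith [hz.1.2]) zero_le_one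
  · rcases le_total (2 * s) 1 with h4 | h4
    · simp only [min_eq_left h4, max_eq_right (sub_nonpos.2 h4), sub_self, add_zero]
      exact (h2 _ ⟨by linarith [hs.1], h4⟩ q hq).mono (le_max_left _ _)
    · simp only [min_eq_right h4, max_eq_left (sub_nonneg.2 h4)]
      exact ((h2' _ ⟨by linarith, by linarith [hs.2]⟩ q hq).mono (le_max_right _ _)).congr
        (key q _ hq)
  · simpa using (h3 q hq).1
  · have h4 : max (2 * (1 : ℝ) - 1) 0 = 1 := by norm_num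
    have h5 : min (2 * (1 : ℝ)) 1 = 1 := by norm_num
    simp only [h4, h5]
    exact (key q 1 hq).symm.trans (h3' q hq).2

/-- The ends of a homotopy are sections. -/
theorem SecHtpy.exists_sec {L : Set E} {l₀ l₁ : ℝ × E → Cv E × ℝ} (h : SecHtpy L l₀ l₁) :
    ∃ l : ℝ × E → Cv E × ℝ, Sec L l ∧ ∀ q : ℝ × E, q.2 ∈ L → Agr L q.2 (l q) (l₁ q) := by
  obtain ⟨Λ, T, h1, h2, h3⟩ := secHtpy_iff.1 h
  exact ⟨fun q => Λ (1, q), ⟨h1.comp (by fun_prop) fun z hz => ⟨⟨zero_le_one, le_rfl⟩, hz⟩, T,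
    fun q hq => h2 1 ⟨zero_le_one, le_rfl⟩ q hq⟩, fun q hq => (h3 q hq).2⟩

/-- Pushing a section to `(0, 1)` away from the negative ray. -/
theorem Sec.push {L : Set E} {l : ℝ × E → Cv E × ℝ} (h : Sec L l) {χ : ℝ × E → ℝ}
    (hχ : ContinuousOn χ (univ ×ˢ L)) (h01 : ∀ q : ℝ × E, q.2 ∈ L → χ q ∈ Icc (0 : ℝ) 1)
    (h1 : ∀ q : ℝ × E, q.2 ∈ L → Van L q.2 (l q).1 → (l q).2 < 0 → χ q = 1) :
    SecHtpy L l fun q => χ q • l q + (1 - χ q) • ((0 : Cv E), (1 : ℝ)) := by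
  obtain ⟨hc, T, hT⟩ := h
  have hm : MapsTo (Prod.snd : ℝ × (ℝ × E) → ℝ × E) (Icc (0 : ℝ) 1 ×ˢ (univ ×ˢ L))
      (univ ×ˢ L) := fun z hz => hz.2
  have hχ' := hχ.comp continuousOn_snd hm
  refine secHtpy_iff.2 ⟨fun z => (1 - z.1 * (1 - χ z.2)) • l z.2 +
    (z.1 * (1 - χ z.2)) • ((0 : Cv E), (1 : ℝ)), T, ?_, fun s hs q hq => ?_,
    fun q _ => ⟨Agr.of_eq (by simp), Agr.of_eq (by simp)⟩⟩
  · have h2 : ContinuousOn (fun z : ℝ × (ℝ × E) => z.1 * (1 - χ z.2))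
        (Icc (0 : ℝ) 1 ×ˢ (univ ×ˢ L)) := continuousOn_fst.mul (continuousOn_const.sub hχ')
    exact ((continuousOn_const.sub h2).smul (hc.comp continuousOn_snd hm)).add
      (h2.smul continuousOn_const)
  · have h3 := h01 q hq
    have h4 : 0 ≤ s * (1 - χ q) := mul_nonneg hs.1 (sub_nonneg.2 h3.2)
    have h5 : s * (1 - χ q) ≤ 1 := mul_le_one₀ hs.2 (sub_nonneg.2 h3.2) (by linarith [h3.1])
    refine ⟨fun hv h6 => ?_, fun ht => ⟨fun v hv => ?_, ?_⟩⟩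
    · simp only [Prod.snd_add, Prod.smul_snd, smul_eq_mul, mul_one] at h6
      have h7 : 1 - s * (1 - χ q) ≠ 0 := fun h7 => by
        rw [h7] at h6
        linarith
      have h8 : Van L q.2 (l q).1 := fun v hv' => by simpa [h7] using hv v hv'
      have h9 : 0 < 1 - s * (1 - χ q) := lt_of_le_of_ne (sub_nonneg.2 h5) h7.symm
      rcases lt_or_gt_of_ne ((hT q hq).1 h8) with h10 | h10
      · rw [h1 q hq h8 h10] at h6
        simp only [sub_self, mul_zero, sub_zero, one_mul, add_zero] at h6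
        exact h10.ne h6
      · nlinarith [mul_pos h9 h10]
    · simp [((hT q hq).2 ht).1 v hv]
    · simp only [Prod.snd_add, Prod.smul_snd, smul_eq_mul, mul_one]
      have h6 := ((hT q hq).2 ht).2
      rcases eq_or_lt_of_le h5 with h7 | h7
      · rw [h7]
        simp
      · nlinarith [mul_pos (sub_pos.2 h7) h6]

theorem LocSign.congr {L : Set E} {a a' : ℝ × E → Cv E} {p : ℝ × E} {e : ℤ}
    (h : LocSign L a p e) (he : ∀ᶠ q in 𝓝[univ ×ˢ L] p, ∀ v ∈ T1 L q.2, a q v = a' q v) :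
    LocSign L a' p e := by
  obtain ⟨h1, B, A, hB, hA, h2⟩ := h
  refine ⟨h1, B, A, hB, hA, ?_⟩
  filter_upwards [h2, he] with q h3 h4
  exact ⟨h3.1, fun v hv => ⟨(h3.2 v hv).1.trans (h4 v hv), (h3.2 v hv).2⟩⟩

theorem RayData.congr {L : Set E} {l l' : ℝ × E → Cv E × ℝ} {Z : Finset (ℝ × E)}
    {e : ℝ × E → ℤ} (h : RayData L l Z e)
    (ha : ∀ q : ℝ × E, q.2 ∈ L → Agr L q.2 (l q) (l' q)) : RayData L l' Z e := by
  refine ⟨fun q hq h1 h2 => h.1 q hq ((ha q hq).symm.van h1) ((ha q hq).1 ▸ h2), fun p hp => ?_⟩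
  obtain ⟨h1, h2, h3⟩ := h.2 p hp
  refine ⟨h1, (ha p h1).1 ▸ h2, h3.congr ?_⟩
  filter_upwards [self_mem_nhdsWithin] with q hq using (ha q hq.2).2

theorem SecDeg.of_htpy {L : Set E} {l l' : ℝ × E → Cv E × ℝ} {d : ℤ} (h : SecHtpy L l l')
    (hd : SecDeg L l' d) : SecDeg L l d := by
  obtain ⟨l'', Z, e, h1, h2, h3⟩ := hd
  exact ⟨l'', Z, e, h.trans h1, h2, h3⟩

theorem SecDeg.congr {L : Set E} {l l' : ℝ × E → Cv E × ℝ} {d : ℤ} (h : SecDeg L l d)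
    (ha : ∀ q : ℝ × E, q.2 ∈ L → Agr L q.2 (l q) (l' q)) : SecDeg L l' d := by
  obtain ⟨l'', Z, e, h1, h2, h3⟩ := h
  exact ⟨l'', Z, e, h1.congr ha fun _ _ => Agr.refl _ _ _, h2, h3⟩

theorem Sec.deg {L : Set E} {l : ℝ × E → Cv E × ℝ} (h : Sec L l) {Z : Finset (ℝ × E)}
    {e : ℝ × E → ℤ} (hZ : RayData L l Z e) : SecDeg L l (∑ p ∈ Z, e p) :=
  ⟨l, Z, e, h.htpy, hZ, rfl⟩

/-- The representative can be taken to be a section. -/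
theorem SecDeg.exists_sec {L : Set E} {l : ℝ × E → Cv E × ℝ} {d : ℤ} (h : SecDeg L l d) :
    ∃ (l' : ℝ × E → Cv E × ℝ) (Z : Finset (ℝ × E)) (e : ℝ × E → ℤ),
      Sec L l' ∧ SecHtpy L l l' ∧ RayData L l' Z e ∧ ∑ p ∈ Z, e p = d := by
  obtain ⟨l', Z, e, h1, h2, h3⟩ := h
  obtain ⟨l'', h4, h5⟩ := h1.exists_sec
  exact ⟨l'', Z, e, h4, h1.congr (fun _ _ => Agr.refl _ _ _) fun q hq => (h5 q hq).symm,
    h2.congr fun q hq => (h5 q hq).symm, h3⟩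

end Pool.Agent.Lib.MP_ccffa6_gt
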