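import Pool.Agent.Lib.MP_ccffa6_gt.U.HRec
import Pool.Agent.Lib.MP_ccffa6_gt.U.GLp
import Pool.Agent.Lib.MP_ccffa6_gt.K.Tan
import Pool.Agent.Lib.MP_ccffa6_gt.K.Ext

/-!
The local sign of a nondegenerate zero, read in a chart.
-/

open Set Filter Topology

noncomputable section

namespace Pool.Agent.Lib.MP_ccffa6_gt

variable {E : Type} [NormedAddCommGroup E] [NormedSpace ℝ E]
  {F : Type} [NormedAddCommGroup F] [NormedSpace ℝ F]

/-- A covector field read in the chart `φ`. -/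
def uHat (φ : F → E) (a : ℝ × E → Cv E) (z : ℝ × F) : Cv F :=
  (a (z.1, φ z.2)).comp ((fderiv ℝ φ z.2).prodMap (ContinuousLinearMap.id ℝ ℝ))

/-- Its derivative at an ambient zero. -/
def uHatD (M : F →L[ℝ] E) (D : (ℝ × E) →L[ℝ] Cv E) : (ℝ × F) →L[ℝ] Cv F :=
  ((ContinuousLinearMap.compL ℝ (F × ℝ) (E × ℝ) ℝ).flip
    (M.prodMap (ContinuousLinearMap.id ℝ ℝ))).comp
      (D.comp ((ContinuousLinearMap.id ℝ ℝ).prodMap M))

theorem uHatD_apply (M : F →L[ℝ] E) (D : (ℝ × E) →L[ℝ] Cv E) (u : ℝ × F) (v : F × ℝ) :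
    uHatD M D u v = D (u.1, M u.2) (M v.1, v.2) := by
  simp [uHatD, Prod.map]

/-- Derivative of the standard field. -/
def uStdD (B : Bil E) (e : ℝ) : (ℝ × E) →L[ℝ] Cv E :=
  B.bilinearComp (ContinuousLinearMap.snd ℝ ℝ E) (ContinuousLinearMap.fst ℝ E ℝ) +
    e • (ContinuousLinearMap.fst ℝ ℝ E).smulRight (ContinuousLinearMap.snd ℝ E ℝ)

theorem uStdD_apply (B : Bil E) (e : ℝ) (u : ℝ × E) (v : E × ℝ) :
    uStdD B e u v = B u.2 v.1 + e * u.1 * v.2 := by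
  simp [uStdD, mul_assoc]

theorem uStd_hasFDerivAt (B : Bil E) (e : ℝ) (p : ℝ × E) :
    HasFDerivAt (uStd B e p) (uStdD B e) p := by
  have h : uStd B e p = fun q => uStdD B e (q - p) := by
    ext1 q
    refine ContinuousLinearMap.ext fun v => ?_
    rw [uStd_apply, uStdD_apply]
    rfl
  rw [h]
  have h1 := (uStdD B e).hasFDerivAt.comp p ((hasFDerivAt_id p).sub_const p)
  rwa [ContinuousLinearMap.comp_id] at h1

theorem uStdD_inj {B : Bil E} (hB : ∀ v, v ≠ 0 → 0 < B v v) {e : ℝ} (he : e ≠ 0) :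
    Function.Injective (uStdD B e) := by
  refine (injective_iff_map_eq_zero _).2 fun u hu => ?_
  have h1 := uStdD_apply B e u (u.2, 0)
  have h2 := uStdD_apply B e u (0, 1)
  rw [hu] at h1 h2
  refine Prod.ext (by simpa [he] using h2) ?_
  by_contra h3
  have := hB u.2 h3
  simp at h1
  linarith

theorem uHat_cont {φ : F → E} (hφ : ContDiff ℝ (⊤ : ℕ∞) φ) {a : ℝ × E → Cv E}
    (ha : Continuous a) : Continuous (uHat φ a) := by
  have h1 := hφ.continuous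
  have h2 := hφ.continuous_fderiv (by simp)
  refine (ha.comp (by fun_prop)).clm_comp ?_
  exact (ContinuousLinearMap.prodMapL ℝ F E ℝ ℝ).continuous.comp
    ((h2.comp continuous_snd).prodMk continuous_const)

theorem uHat_hasFDerivAt {φ : F → E} (hφ : ContDiff ℝ (⊤ : ℕ∞) φ) {a : ℝ × E → Cv E}
    {D : (ℝ × E) →L[ℝ] Cv E} {t : ℝ} {y : F} (hD : HasFDerivAt a D (t, φ y))
    (h0 : a (t, φ y) = 0) : HasFDerivAt (uHat φ a) (uHatD (fderiv ℝ φ y) D) (t, y) := by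
  have h1 : HasFDerivAt (fun z : ℝ × F => (z.1, φ z.2))
      ((ContinuousLinearMap.id ℝ ℝ).prodMap (fderiv ℝ φ y)) (t, y) :=
    (hasFDerivAt_id t).prodMap (t, y) (hφ.differentiable (by simp) y).hasFDerivAt
  have h2 : DifferentiableAt ℝ
      (fun z : ℝ × F => (fderiv ℝ φ z.2).prodMap (ContinuousLinearMap.id ℝ ℝ)) (t, y) := by
    have h3 : Differentiable ℝ (fderiv ℝ φ) :=
      (contDiff_infty_iff_fderiv.1 hφ).2.differentiable (by simp)
    have h4 : DifferentiableAt ℝ (fun z : ℝ × F => fderiv ℝ φ z.2) (t, y) := by fun_prop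
    exact (ContinuousLinearMap.prodMapL ℝ F E ℝ ℝ).differentiableAt.comp (t, y)
      (h4.prodMk (differentiableAt_const _))
  have h4 := (hD.comp (t, y) h1).clm_comp h2.hasFDerivAt
  simp only [Function.comp_apply, h0, map_zero, ContinuousLinearMap.zero_comp, zero_add] at h4
  exact h4

variable [FiniteDimensional ℝ E] [FiniteDimensional ℝ F]

theorem u_exists_posdef (F : Type) [NormedAddCommGroup F] [NormedSpace ℝ F]
    [FiniteDimensional ℝ F] : ∃ B : Bil F, ∀ v, v ≠ 0 → 0 < B v v := by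
  refine ⟨(innerSL ℝ).bilinearComp (toEuclidean (E := F)).toContinuousLinearMap
    (toEuclidean (E := F)).toContinuousLinearMap, fun v hv => ?_⟩
  simpa using pow_pos (norm_pos_iff.2 ((toEuclidean (E := F)).map_ne_zero_iff.2 hv)) 2

theorem u_lower_bound {V V' : Type} [NormedAddCommGroup V] [NormedSpace ℝ V]
    [FiniteDimensional ℝ V] [NormedAddCommGroup V'] [NormedSpace ℝ V'] {P : ℝ → V →L[ℝ] V'}
    (hP : Continuous P) (hi : ∀ s, Function.Injective (P s)) :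
    ∃ c > 0, ∀ s ∈ Icc (0 : ℝ) 1, ∀ v, c * ‖v‖ ≤ ‖P s v‖ := by
  obtain ⟨c, hc, h⟩ := (isCompact_Icc.prod (isCompact_sphere (0 : V) 1)).exists_forall_le'
    (f := fun z : ℝ × V => ‖P z.1 z.2‖) (s := Icc (0 : ℝ) 1 ×ˢ Metric.sphere 0 1) (a := 0)
    (Continuous.continuousOn (by fun_prop)) fun z hz => norm_pos_iff.2 fun h0 => by
      have h1 : z.2 = 0 := hi z.1 (by rw [h0, map_zero])
      simpa [h1] using hz.2
  refine ⟨c, hc, fun s hs v => ?_⟩
  rcases eq_or_ne v 0 with rfl | hv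
  · simp
  have h1 : 0 < ‖v‖ := norm_pos_iff.2 hv
  have h2 := h (s, ‖v‖⁻¹ • v) ⟨hs, by simp [norm_smul, h1.ne']⟩
  simp only [map_smul, norm_smul, norm_inv, norm_norm] at h2
  rwa [← div_eq_inv_mul, le_div_iff₀ h1] at h2

theorem u_locHtpy_chart {L : Set E} {φ : F → E} {ψ : E → F} {p : ℝ × E} (hp : p.2 ∈ L)
    (hc : Chart L p.2 φ ψ) {a a' : ℝ × E → Cv E} (ha : Continuous a) (ha' : Continuous a')
    {P : ℝ → (ℝ × F) →L[ℝ] Cv F} (hP : Continuous P) (hi : ∀ s, Function.Injective (P s))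
    (hD : HasFDerivAt (uHat φ a) (P 0) (p.1, ψ p.2)) (h0 : uHat φ a (p.1, ψ p.2) = 0)
    (hD' : HasFDerivAt (uHat φ a') (P 1) (p.1, ψ p.2)) (h0' : uHat φ a' (p.1, ψ p.2) = 0) :
    LocHtpy L p a a' := by
  obtain ⟨c, hc0, hb⟩ := u_lower_bound hP hi
  set z₀ : ℝ × F := (p.1, ψ p.2) with hz₀
  have hψ := hc.smψ.continuous
  have hψ' := hc.smψ.continuous_fderiv (by simp)
  have h1 := uHat_cont hc.smφ ha
  have h1' := uHat_cont hc.smφ ha'
  set G : ℝ × (ℝ × F) → Cv F := fun w => P w.1 (w.2 - z₀) +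
    (1 - w.1) • (uHat φ a w.2 - P 0 (w.2 - z₀)) + w.1 • (uHat φ a' w.2 - P 1 (w.2 - z₀)) with hG
  have hGc : Continuous G := by
    rw [hG]
    fun_prop
  have hG0 : ∀ᶠ z in 𝓝 z₀, ∀ s ∈ Icc (0 : ℝ) 1, G (s, z) = 0 → z = z₀ := by
    filter_upwards [hD.isLittleO.def (half_pos hc0), hD'.isLittleO.def (half_pos hc0)]
      with z h2 h3 s hs h4
    rw [h0, sub_zero] at h2
    rw [h0', sub_zero] at h3
    have h5 : P s (z - z₀) = -((1 - s) • (uHat φ a z - P 0 (z - z₀)) +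
        s • (uHat φ a' z - P 1 (z - z₀))) := by
      rw [eq_neg_iff_add_eq_zero, ← add_assoc]
      exact h4
    have h6 := hb s hs (z - z₀)
    rw [h5, norm_neg] at h6
    have h7 := norm_add_le ((1 - s) • (uHat φ a z - P 0 (z - z₀)))
      (s • (uHat φ a' z - P 1 (z - z₀)))
    rw [norm_smul, norm_smul, Real.norm_of_nonneg hs.1,
      Real.norm_of_nonneg (sub_nonneg.2 hs.2)] at h7
    have h8 := mul_le_mul_of_nonneg_left h2 (sub_nonneg.2 hs.2)
    have h9 := mul_le_mul_of_nonneg_left h3 hs.1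
    have h10 : ‖z - z₀‖ ≤ 0 := by nlinarith
    exact sub_eq_zero.1 (norm_le_zero_iff.1 h10)
  have ht : Tendsto (fun q : ℝ × E => (q.1, ψ q.2)) (𝓝[univ ×ˢ L] p) (𝓝 z₀) :=
    (Continuous.tendsto (by fun_prop) p).mono_left nhdsWithin_le_nhds
  have ht2 : Tendsto (Prod.snd : ℝ × E → E) (𝓝[univ ×ˢ L] p) (𝓝[L] p.2) :=
    continuous_snd.continuousWithinAt.tendsto_nhdsWithin fun z hz => hz.2
  refine ⟨fun w => (G (w.1, (w.2.1, ψ w.2.2))).comp
    ((fderiv ℝ ψ w.2.2).prodMap (ContinuousLinearMap.id ℝ ℝ)), ?_, ?_⟩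
  · refine (hGc.comp (by fun_prop)).clm_comp ?_
    exact (ContinuousLinearMap.prodMapL ℝ E F ℝ ℝ).continuous.comp
      ((hψ'.comp (continuous_snd.comp continuous_snd)).prodMk continuous_const)
  filter_upwards [ht.eventually hG0, ht2.eventually hc.eventually, self_mem_nhdsWithin]
    with q h2 h3 h4
  have hq : q.2 ∈ L := h4.2
  refine ⟨fun s hs hv => ?_, fun v hv => ?_⟩
  · have h5 : G (s, (q.1, ψ q.2)) = 0 := by
      refine ContinuousLinearMap.ext fun w => ?_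
      have h6 := hv (fderiv ℝ φ (ψ q.2) w.1, w.2) ⟨(h3.mem_tan hq _).2 ⟨_, rfl⟩, trivial⟩
      simpa [h3.left_inv_fderiv hq] using h6
    have h6 := h2 s hs h5
    refine Prod.ext (congrArg (fun z : ℝ × F => z.1) h6) ?_
    rw [← h3.self hq, ← hc.self hp]
    exact congrArg (fun z : ℝ × F => φ z.2) h6
  · have h5 := h3.right_inv_fderiv hq hv.1
    simp [hG, uHat, h3.self hq, Prod.map, h5]

theorem u_locSign_of_path {L : Set E} (hL : IsClosed L) {φ : F → E} {ψ : E → F} {p : ℝ × E}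
    (hp : p.2 ∈ L) (hc : Chart L p.2 φ ψ) {a : ℝ × E → Cv E} (ha : ContinuousOn a (univ ×ˢ L))
    {B : Bil F} (hB : ∀ v, v ≠ 0 → 0 < B v v) {e : ℤ} (he : e = 1 ∨ e = -1)
    {P : ℝ → (ℝ × F) →L[ℝ] Cv F} (hP : Continuous P) (hi : ∀ s, Function.Injective (P s))
    (hD : HasFDerivAt (uHat φ a) (P 0) (p.1, ψ p.2)) (h0 : uHat φ a (p.1, ψ p.2) = 0)
    (h1 : P 1 = uStdD B e) : LocSign L a p e := by
  obtain ⟨b, hb, hba⟩ := exists_cont_ext (isClosed_univ.prod hL) ha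
  obtain ⟨B₀, hB₀⟩ := u_exists_posdef E
  set M := fderiv ℝ φ (ψ p.2) with hM
  set N := fderiv ℝ ψ p.2 with hN
  have hNM : ∀ z, N (M z) = z := hc.left_inv_fderiv hp
  set Q : E →L[ℝ] E := ContinuousLinearMap.id ℝ E - M.comp N with hQ
  set B₁ : Bil E := B.bilinearComp N N + B₀.bilinearComp Q Q with hB₁
  have hpos : ∀ v, v ≠ 0 → 0 < B₁ v v := by
    intro v hv
    have h2 : B₁ v v = B (N v) (N v) + B₀ (Q v) (Q v) := by simp [hB₁]
    rw [h2]
    by_cases h3 : N v = 0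
    · have h4 : Q v = v := by simp [hQ, h3]
      simpa [h3, h4] using hB₀ v hv
    · by_cases h4 : Q v = 0
      · simpa [h4] using hB _ h3
      · exact add_pos (hB _ h3) (hB₀ _ h4)
  have hev : uHat φ b =ᶠ[𝓝 (p.1, ψ p.2)] uHat φ a := by
    filter_upwards [(continuous_snd.tendsto (p.1, ψ p.2)).eventually hc.right] with z hz
    rw [uHat, uHat, hba ⟨trivial, hz.1⟩]
  have hpp : (p.1, φ (ψ p.2)) = p := by rw [hc.self hp]
  have hs0 : uStd B₁ e p (p.1, φ (ψ p.2)) = 0 := by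
    rw [hpp]
    simp [uStd]
  have h2 := uHat_hasFDerivAt hc.smφ (hpp.symm ▸ uStd_hasFDerivAt B₁ e p :
    HasFDerivAt (uStd B₁ e p) (uStdD B₁ e) (p.1, φ (ψ p.2))) hs0
  have h3 : uHatD M (uStdD B₁ e) = P 1 := by
    rw [h1]
    refine ContinuousLinearMap.ext fun u => ContinuousLinearMap.ext fun v => ?_
    simp [uHatD_apply, uStdD_apply, hB₁, hQ, hNM]
  refine LocSign.congr (a := b) (locSign_iff.2 ⟨he, B₁, hpos, u_locHtpy_chart hp hc hb
    (uStd_cont _ _ _) hP hi (hD.congr_of_eventuallyEq hev) (hev.self_of_nhds.trans h0)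
    (h3 ▸ h2) (by rw [uHat, hs0, ContinuousLinearMap.zero_comp])⟩) ?_
  filter_upwards [self_mem_nhdsWithin] with q hq v _ using by rw [hba hq]

end Pool.Agent.Lib.MP_ccffa6_gt
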