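import Pool.Agent.Lib.MP_ccffa6_gt.U.HChart
import Pool.Agent.Lib.MP_ccffa6_gt.K.Proj

/-!
Paths in a connected submanifold through finitely many points, and a uniform radius below which a
chord is not orthogonal to the tangent space.
-/

open Set Filter Topology

noncomputable section

namespace Pool.Agent.Lib.MP_ccffa6_gt

variable {E : Type} [NormedAddCommGroup E] [NormedSpace ℝ E] [FiniteDimensional ℝ E]

theorem u_joinedIn {d : ℕ} {L : Set E} (h : IsSub d L) (hc : IsPreconnected L) {x y : E}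
    (hx : x ∈ L) (hy : y ∈ L) : JoinedIn L x y := by
  refine hc.induction₂' (JoinedIn L) (fun x hx => ?_) (fun _ _ _ _ _ _ h1 h2 => h1.trans h2) hx hy
  obtain ⟨φ, ψ, hch⟩ := h x hx
  obtain ⟨r, hr, hb⟩ := Metric.eventually_nhds_iff_ball.1 hch.right
  have h1 : ∀ᶠ y in 𝓝[L] x, ψ y ∈ Metric.ball (ψ x) r :=
    (hch.smψ.continuous.tendsto x).mono_left nhdsWithin_le_nhds (Metric.ball_mem_nhds _ hr)
  filter_upwards [h1, hch.left] with y h2 h3
  have h4 : JoinedIn (Metric.ball (ψ x) r) (ψ x) (ψ y) :=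
    ((convex_ball _ _).isPathConnected ⟨_, h2⟩).joinedIn _ (Metric.mem_ball_self hr) _ h2
  have h5 := (h4.map hch.smφ.continuous).mono (V := L) (by
    rintro _ ⟨z, hz, rfl⟩
    exact (hb z hz).1)
  rw [h3, hch.self hx] at h5
  exact ⟨h5, h5.symm⟩

omit [NormedSpace ℝ E] [FiniteDimensional ℝ E] in
theorem u_exists_path {ι : Type} [DecidableEq ι] {L : Set E} (hne : L.Nonempty)
    (hj : ∀ x ∈ L, ∀ y ∈ L, JoinedIn L x y) (s : ι → ℝ) (x : ι → E) (Z : Finset ι)
    (hx : ∀ p ∈ Z, x p ∈ L) (hs : InjOn s Z) :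
    ∃ γ : ℝ → E, Continuous γ ∧ (∀ t, γ t ∈ L) ∧ ∀ p ∈ Z, ∀ᶠ t in 𝓝 (s p), γ t = x p := by
  induction Z using Finset.induction_on_max_value s with
  | empty =>
    obtain ⟨y, hy⟩ := hne
    exact ⟨fun _ => y, continuous_const, fun _ => hy, by simp⟩
  | insert p Z hp hmax ih =>
    obtain ⟨γ, hγ, hL, h1⟩ := ih (fun q hq => hx q (Finset.mem_insert_of_mem hq))
      (hs.mono (by simp))
    have h2 : ∀ᶠ t in 𝓝[<] (s p), ∀ q ∈ Z, s q < t := by
      refine (Z.eventually_all).2 fun q hq => nhdsWithin_le_nhds (lt_mem_nhds ?_)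
      refine lt_of_le_of_ne (hmax q hq) fun h => hp ?_
      rwa [← hs (by simp [hq]) (by simp) h]
    obtain ⟨a, h3, h4⟩ := (h2.and self_mem_nhdsWithin).exists
    have h4' : a < s p := h4
    obtain ⟨π, hπ⟩ := hj _ (hL a) _ (hx p (by simp))
    refine ⟨fun t => if t ≤ a then γ t else π.extend (2 * (t - a) / (s p - a)), ?_, fun t => ?_,
      fun q hq => ?_⟩
    · refine Continuous.if_le hγ (π.continuous_extend.comp (by fun_prop)) continuous_id
        continuous_const ?_
      rintro t rfl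
      simp
    · dsimp only
      split_ifs
      · exact hL t
      · obtain ⟨u, hu⟩ : π.extend (2 * (t - a) / (s p - a)) ∈ range π :=
          π.extend_range ▸ mem_range_self _
        exact hu ▸ hπ u
    · rcases Finset.mem_insert.1 hq with rfl | hq
      · filter_upwards [lt_mem_nhds (by linarith : (a + s q) / 2 < s q)] with t ht
        rw [if_neg (by linarith)]
        refine π.extend_of_one_le ?_
        rw [one_le_div (by linarith)]
        linarith
      · filter_upwards [h1 q hq, gt_mem_nhds (h3 q hq)] with t h5 h6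
        rw [if_pos h6.le, h5]

theorem u_exists_shear (Z : Finset (ℝ × E)) :
    ∃ f : E →L[ℝ] ℝ, InjOn (fun p : ℝ × E => p.1 - f p.2) Z := by
  classical
  obtain ⟨g, hg⟩ := Module.exists_dual_forall_apply_ne_zero (K := ℝ)
    (fun z : {z : Z × Z // z.1.1.2 ≠ z.2.1.2} => z.1.1.1.2 - z.1.2.1.2)
    fun z => sub_ne_zero.2 z.2
  obtain ⟨c, hc⟩ := Infinite.exists_notMem_finset
    ((Z ×ˢ Z).image fun z => (z.1.1 - z.2.1) / g (z.1.2 - z.2.2))
  refine ⟨c • LinearMap.toContinuousLinearMap g, fun p hp q hq h => ?_⟩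
  simp only [smul_apply, LinearMap.coe_toContinuousLinearMap',
    smul_eq_mul] at h
  by_cases h1 : p.2 = q.2
  · rw [h1] at h
    exact Prod.ext (by linarith) h1
  · have h2 : g (p.2 - q.2) ≠ 0 := hg ⟨(⟨p, hp⟩, ⟨q, hq⟩), h1⟩
    refine absurd (Finset.mem_image.2 ⟨(p, q), Finset.mem_product.2 ⟨hp, hq⟩, ?_⟩) hc
    rw [div_eq_iff h2, map_sub]
    linarith

theorem u_posdef_bound {B : Bil E} (hB : ∀ v, v ≠ 0 → 0 < B v v) :
    ∃ c > 0, ∀ v, c * ‖v‖ ^ 2 ≤ B v v := by
  obtain ⟨c, hc, h⟩ := (isCompact_sphere (0 : E) 1).exists_forall_le' (f := fun v => B v v)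
    (a := 0) (Continuous.continuousOn (by fun_prop)) fun v hv => hB v fun h0 => by
      simp [h0] at hv
  refine ⟨c, hc, fun v => ?_⟩
  rcases eq_or_ne v 0 with rfl | hv
  · simp
  have h1 : 0 < ‖v‖ := norm_pos_iff.2 hv
  have h2 := h (‖v‖⁻¹ • v) (by simp [norm_smul, h1.ne'])
  simp only [map_smul, smul_apply, smul_eq_mul] at h2
  have h3 := mul_le_mul_of_nonneg_right h2 (sq_nonneg ‖v‖)
  refine h3.trans_eq ?_
  field_simp

/-- A tangent vector on which every positive form pairs positively with a short chord. -/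
theorem u_exists_chord {d : ℕ} {L : Set E} (h : Closed d L) : ∃ w : E → E → E,
    (∀ x ∈ L, ∀ y, w x y ∈ Tan L x) ∧ ∀ B : Bil E, (∀ v, v ≠ 0 → 0 < B v v) →
      ∃ δ > 0, ∀ x ∈ L, ∀ y ∈ L, ‖x - y‖ < δ → x ≠ y → 0 < B (x - y) (w x y) := by
  obtain ⟨P, U, hP, -, hU, h1⟩ := h.sub.exists_proj h.cpt Subset.rfl
  obtain ⟨C, hC⟩ := h.quad_bound hP.continuous.continuousOn fun x hx => (h1 x ⟨hx, hU hx⟩).2
  refine ⟨fun x y => P x (x - y), fun x hx y => (h1 x ⟨hx, hU hx⟩).1 _, fun B hB => ?_⟩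
  obtain ⟨c, hc, h2⟩ := u_posdef_bound hB
  have h3 : 0 < ‖B‖ * |C| + 1 := by positivity
  refine ⟨c / (‖B‖ * |C| + 1), by positivity, fun x hx y hy h4 hne => ?_⟩
  have h5 : 0 < ‖x - y‖ := norm_pos_iff.2 (sub_ne_zero.2 hne)
  have h6 : ‖(x - y) - P x (x - y)‖ ≤ |C| * ‖x - y‖ ^ 2 := by
    have h7 := hC x hx y hy
    rw [← neg_sub x y, map_neg, norm_neg, ← neg_sub', norm_neg] at h7
    exact h7.trans (mul_le_mul_of_nonneg_right (le_abs_self C) (sq_nonneg _))
  have h7 := (le_abs_self _).trans (B.le_opNorm₂ (x - y) ((x - y) - P x (x - y)))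
  rw [map_sub (B (x - y))] at h7
  have h8 := mul_le_mul_of_nonneg_left h6 (mul_nonneg (norm_nonneg B) h5.le)
  rw [lt_div_iff₀ h3] at h4
  have h9 := mul_lt_mul_of_pos_right h4 (pow_pos h5 2)
  have h10 := h2 (x - y)
  have h11 : 0 < ‖x - y‖ * ‖x - y‖ ^ 2 := by positivity
  nlinarith

open Real in
/-- An angle function with prescribed crossings of `2 π ℤ`. -/
theorem u_exists_theta {ι : Type} [DecidableEq ι] (s : ι → ℝ) (e : ι → ℤ) (Z : Finset ι)
    (hs : InjOn s Z) (he : ∀ p ∈ Z, e p = 1 ∨ e p = -1) (b : ℝ) (hb : ∀ p ∈ Z, s p < b) :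
    ∃ (θ : ℝ → ℝ) (a : ℝ), Continuous θ ∧ (∀ t ≤ a, θ t = π) ∧
      (∀ t, b ≤ t → θ t = π + (∑ p ∈ Z, e p : ℤ) * (2 * π)) ∧
      (∀ t, cos (θ t) = 1 → ∃ p ∈ Z, t = s p) ∧
      ∀ p ∈ Z, ∃ c > 0, ∃ k : ℤ, ∀ᶠ t in 𝓝 (s p), θ t = c * (e p * (t - s p)) + k * (2 * π) := by
  induction Z using Finset.induction_on_max_value s generalizing b with
  | empty => exact ⟨fun _ => π, 0, continuous_const, by simp, by simp, by norm_num, by simp⟩
  | insert p Z hp hmax ih =>
    have h2 : ∀ᶠ t in 𝓝[<] (s p), ∀ q ∈ Z, s q < t := by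
      refine (Z.eventually_all).2 fun q hq => nhdsWithin_le_nhds (lt_mem_nhds ?_)
      refine lt_of_le_of_ne (hmax q hq) fun h => hp ?_
      rwa [← hs (by simp [hq]) (by simp) h]
    obtain ⟨a, h3, h4⟩ := (h2.and self_mem_nhdsWithin).exists
    have h4' : a < s p := h4
    obtain ⟨θ, a₀, hθ, h5, h6, h7, h8⟩ := ih (hs.mono (by simp))
      (fun q hq => he q (Finset.mem_insert_of_mem hq)) a h3
    have hbp := hb p (by simp)
    obtain ⟨r, hr, hra, hrb⟩ : ∃ r > 0, r ≤ s p - a ∧ r ≤ b - s p :=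
      ⟨min (s p - a) (b - s p), lt_min (by linarith) (by linarith), min_le_left _ _,
        min_le_right _ _⟩
    set ρ : ℝ → ℝ := fun t => max 0 (min 1 ((t - s p + r) / (2 * r))) with hρ
    have hρ0 : ∀ t ≤ s p - r, ρ t = 0 := fun t ht => max_eq_left ((min_le_right _ _).trans
      (div_nonpos_of_nonpos_of_nonneg (by linarith) (by linarith)))
    have hρ1 : ∀ t, s p + r ≤ t → ρ t = 1 := fun t ht => by
      simp only [hρ]
      rw [min_eq_left ((one_le_div (by linarith)).2 (by linarith)), max_eq_right zero_le_one]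
    have hep := he p (by simp)
    obtain ⟨k, hk⟩ : ∃ k : ℤ, ∀ t, s p - r < t → t < s p + r →
        θ t + e p * ρ t * (2 * π) = π / r * (e p * (t - s p)) + k * (2 * π) := by
      have h9 : ∀ t, s p - r < t → t < s p + r → ρ t = (t - s p + r) / (2 * r) := by
        intro t h h'
        simp only [hρ]
        rw [min_eq_right ((div_le_one (by linarith)).2 (by linarith)),
          max_eq_right (div_nonneg (by linarith) (by linarith))]
      rcases hep with h | h
      · refine ⟨∑ q ∈ Z, e q + 1, fun t h1 h1' => ?_⟩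
        rw [h6 t (by linarith), h9 t h1 h1', h]
        push_cast
        field_simp
        ring
      · refine ⟨∑ q ∈ Z, e q, fun t h1 h1' => ?_⟩
        rw [h6 t (by linarith), h9 t h1 h1', h]
        push_cast
        field_simp
        ring
    have hend : ∀ t, s p + r ≤ t →
        θ t + e p * ρ t * (2 * π) = π + (∑ q ∈ insert p Z, e q : ℤ) * (2 * π) := by
      intro t ht
      rw [h6 t (by linarith), hρ1 t ht, Finset.sum_insert hp]
      push_cast
      ring
    refine ⟨fun t => θ t + e p * ρ t * (2 * π), min a₀ (s p - r), by fun_prop, fun t ht => ?_,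
      fun t ht => hend t (by linarith), fun t ht => ?_, fun q hq => ?_⟩
    · simp [h5 t (ht.trans (min_le_left _ _)), hρ0 t (ht.trans (min_le_right _ _))]
    · dsimp only at ht
      rcases le_or_gt t (s p - r) with h | h
      · obtain ⟨q, hq, h9⟩ := h7 t (by simpa [hρ0 t h] using ht)
        exact ⟨q, Finset.mem_insert_of_mem hq, h9⟩
      rcases le_or_gt (s p + r) t with h' | h'
      · rw [hend t h', cos_add_int_mul_two_pi, cos_pi] at ht
        norm_num at ht
      · refine ⟨p, by simp, ?_⟩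
        rw [hk t h h', cos_add_int_mul_two_pi] at ht
        have h9 : π / r * (e p * (t - s p)) = π * (e p * (t - s p) / r) := by ring
        have h10 : -1 < e p * (t - s p) / r ∧ e p * (t - s p) / r < 1 := by
          rw [lt_div_iff₀ hr, div_lt_one hr]
          rcases hep with h1 | h1 <;> rw [h1] <;> push_cast <;> constructor <;> linarith
        rw [h9, cos_eq_one_iff_of_lt_of_lt (by nlinarith [pi_pos]) (by nlinarith [pi_pos])] at ht
        rcases hep with h1 | h1 <;> simp [h1, pi_ne_zero, hr.ne'] at ht <;> linarith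
    · rcases Finset.mem_insert.1 hq with rfl | hq
      · refine ⟨π / r, div_pos pi_pos hr, k, ?_⟩
        filter_upwards [lt_mem_nhds (by linarith : s q - r < s q),
          gt_mem_nhds (by linarith : s q < s q + r)] with t h h' using hk t h h'
      · obtain ⟨c, hc, k', h9⟩ := h8 q hq
        refine ⟨c, hc, k', ?_⟩
        filter_upwards [h9, gt_mem_nhds (h3 q hq)] with t h h'
        rw [hρ0 t (by linarith), h]
        simp

end Pool.Agent.Lib.MP_ccffa6_gt
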