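import Pool.Agent.Lib.MP_ccffa6_gt.U.HBasic

/-!
Two sections with the same ray points and locally homotopic germs there are homotopic.
-/

open Set Filter Topology

noncomputable section

namespace Pool.Agent.Lib.MP_ccffa6_gt

variable {E : Type} [NormedAddCommGroup E] [NormedSpace ℝ E]

/-- Homotopy of germs at `p` through fields without zero except at `p`. -/
def LocHtpy (L : Set E) (p : ℝ × E) (a a' : ℝ × E → Cv E) : Prop :=
  ∃ A : ℝ × (ℝ × E) → Cv E, Continuous A ∧ ∀ᶠ q in 𝓝[univ ×ˢ L] p,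
    (∀ s ∈ Icc (0 : ℝ) 1, Van L q.2 (A (s, q)) → q = p) ∧
    ∀ v ∈ T1 L q.2, A (0, q) v = a q v ∧ A (1, q) v = a' q v

/-- The standard field. -/
def uStd (B : Bil E) (e : ℝ) (p q : ℝ × E) : Cv E :=
  (B (q.2 - p.2)).comp (ContinuousLinearMap.fst ℝ E ℝ) +
    (e * (q.1 - p.1)) • ContinuousLinearMap.snd ℝ E ℝ

theorem uStd_apply (B : Bil E) (e : ℝ) (p q : ℝ × E) (v : E × ℝ) :
    uStd B e p q v = B (q.2 - p.2) v.1 + e * (q.1 - p.1) * v.2 := by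
  simp [uStd]

theorem uStd_cont (B : Bil E) (e : ℝ) (p : ℝ × E) : Continuous (uStd B e p) := by
  unfold uStd
  fun_prop

theorem locSign_iff {L : Set E} {a : ℝ × E → Cv E} {p : ℝ × E} {e : ℤ} : LocSign L a p e ↔
    (e = 1 ∨ e = -1) ∧ ∃ B : Bil E, (∀ v, v ≠ 0 → 0 < B v v) ∧ LocHtpy L p a (uStd B e p) := by
  simp only [LocSign, LocHtpy, uStd_apply]
  exact ⟨fun ⟨h1, B, A, h2, h3⟩ => ⟨h1, B, h2, A, h3⟩, fun ⟨h1, B, h2, A, h3⟩ => ⟨h1, B, A, h2, h3⟩⟩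

theorem LocHtpy.symm {L : Set E} {p : ℝ × E} {a a' : ℝ × E → Cv E} (h : LocHtpy L p a a') :
    LocHtpy L p a' a := by
  obtain ⟨A, hA, h1⟩ := h
  refine ⟨fun z => A (1 - z.1, z.2), by fun_prop, ?_⟩
  filter_upwards [h1] with q hq
  refine ⟨fun s hs => hq.1 _ ⟨by linarith [hs.2], by linarith [hs.1]⟩, fun v hv => ?_⟩
  simpa using (hq.2 v hv).symm

theorem LocHtpy.trans {L : Set E} {p : ℝ × E} {a a' a'' : ℝ × E → Cv E} (h : LocHtpy L p a a')
    (h' : LocHtpy L p a' a'') : LocHtpy L p a a'' := by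
  obtain ⟨A, hA, h1⟩ := h
  obtain ⟨A', hA', h1'⟩ := h'
  refine ⟨fun z => A (min (2 * z.1) 1, z.2) + (A' (max (2 * z.1 - 1) 0, z.2) - A' (0, z.2)),
    by fun_prop, ?_⟩
  filter_upwards [h1, h1'] with q hq hq'
  refine ⟨fun s hs hv => ?_, fun v hv => ⟨by simpa using (hq.2 v hv).1, ?_⟩⟩
  · rcases le_total (2 * s) 1 with h4 | h4
    · simp only [min_eq_left h4, max_eq_right (sub_nonpos.2 h4), sub_self, add_zero] at hv
      exact hq.1 _ ⟨by linarith [hs.1], h4⟩ hv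
    · simp only [min_eq_right h4, max_eq_left (sub_nonneg.2 h4)] at hv
      refine hq'.1 (2 * s - 1) ⟨by linarith, by linarith [hs.2]⟩ fun v hv' => ?_
      simpa [(hq.2 v hv').2, (hq'.2 v hv').1] using hv v hv'
  · have h4 : max (2 * (1 : ℝ) - 1) 0 = 1 := by norm_num
    have h5 : min (2 * (1 : ℝ)) 1 = 1 := by norm_num
    simp only [h4, h5]
    simp [(hq.2 v hv).2, (hq'.2 v hv).1, (hq'.2 v hv).2]

/-- Straight homotopy of germs. -/
theorem LocHtpy.segment {L : Set E} {p : ℝ × E} {a a' : ℝ × E → Cv E} (ha : Continuous a)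
    (ha' : Continuous a') (h : ∀ᶠ q in 𝓝[univ ×ˢ L] p, ∀ s ∈ Icc (0 : ℝ) 1,
      (∀ v ∈ T1 L q.2, (1 - s) * a q v + s * a' q v = 0) → q = p) : LocHtpy L p a a' := by
  refine ⟨fun z => (1 - z.1) • a z.2 + z.1 • a' z.2, by fun_prop, ?_⟩
  filter_upwards [h] with q hq
  exact ⟨fun s hs hv => hq s hs fun v hv' => by simpa using hv v hv', fun v _ => by simp⟩

omit [NormedSpace ℝ E] in
theorem u_exists_bumps (Z : Finset (ℝ × E)) (U : ℝ × E → Set (ℝ × E)) (hU : ∀ p ∈ Z, U p ∈ 𝓝 p) :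
    ∃ (χ : ℝ × E → ℝ × E → ℝ) (T : ℝ), (∀ p, Continuous (χ p)) ∧
      (∀ p q, χ p q ∈ Icc (0 : ℝ) 1) ∧ (∀ p, χ p p = 1) ∧ ∀ q,
        (∀ p ∈ Z, χ p q = 0) ∨ ∃ p ∈ Z, q ∈ U p ∧ |q.1| < T ∧ ∀ p' ∈ Z, p' ≠ p → χ p' q = 0 := by
  obtain ⟨W, hW, hd⟩ := Z.finite_toSet.t2_separation
  have h1 : ∀ p, ∃ r > 0, r ≤ 1 ∧ (p ∈ Z → Metric.ball p r ⊆ U p ∩ W p) := by
    intro p
    by_cases hp : p ∈ Z
    · obtain ⟨r, hr, h2⟩ := Metric.mem_nhds_iff.1
        (inter_mem (hU p hp) ((hW p).2.mem_nhds (hW p).1))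
      exact ⟨min r 1, lt_min hr one_pos, min_le_right _ _,
        fun _ => (Metric.ball_subset_ball (min_le_left _ _)).trans h2⟩
    · exact ⟨1, one_pos, le_rfl, fun h => absurd h hp⟩
  choose r hr hr1 hrU using h1
  obtain ⟨T, hT⟩ := (Z.finite_toSet.image fun p => |p.1| + 1).bddAbove
  have h2 : ∀ p q : ℝ × E, max 0 (1 - dist q p / r p) ≠ 0 → q ∈ Metric.ball p (r p) := by
    intro p q h
    by_contra h3
    rw [Metric.mem_ball, not_lt] at h3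
    exact h (max_eq_left (sub_nonpos.2 ((one_le_div (hr p)).2 h3)))
  refine ⟨fun p q => max 0 (1 - dist q p / r p), T, fun p => by fun_prop, fun p q =>
    ⟨le_max_left _ _, max_le zero_le_one (sub_le_self _ (div_nonneg dist_nonneg (hr p).le))⟩,
    fun p => by simp, fun q => ?_⟩
  by_cases h : ∀ p ∈ Z, max 0 (1 - dist q p / r p) = 0
  · exact Or.inl h
  push Not at h
  obtain ⟨p, hp, h3⟩ := h
  have h4 := h2 p q h3
  refine Or.inr ⟨p, hp, (hrU p hp h4).1, ?_, fun p' hp' hne => ?_⟩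
  · have h5 : |p.1| + 1 ≤ T := hT ⟨p, hp, rfl⟩
    have h6 : dist q.1 p.1 < 1 :=
      lt_of_le_of_lt (le_max_left _ (dist q.2 p.2)) (lt_of_lt_of_le h4 (hr1 p))
    rw [Real.dist_eq] at h6
    have h7 := abs_sub_abs_le_abs_sub q.1 p.1
    linarith
  · by_contra h5
    exact Set.disjoint_left.1 (hd hp' hp hne) (hrU p' hp' (h2 p' q h5)).2 (hrU p hp h4).2

theorem u_recog {L : Set E} {l l' : ℝ × E → Cv E × ℝ} (h : Sec L l) (h' : Sec L l')
    (Z : Finset (ℝ × E))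
    (hZ : ∀ q : ℝ × E, q.2 ∈ L → Van L q.2 (l q).1 → (l q).2 < 0 → q ∈ Z)
    (hZ' : ∀ q : ℝ × E, q.2 ∈ L → Van L q.2 (l' q).1 → (l' q).2 < 0 → q ∈ Z)
    (hp : ∀ p ∈ Z, (l p).2 < 0 ∧ (l' p).2 < 0 ∧
      LocHtpy L p (fun q => (l q).1) fun q => (l' q).1) : SecHtpy L l l' := by
  have h1 : ∀ p, ∃ A : ℝ × (ℝ × E) → Cv E, Continuous A ∧ (p ∈ Z → ∀ᶠ q in 𝓝 p, q.2 ∈ L →
      (∀ s ∈ Icc (0 : ℝ) 1, Van L q.2 (A (s, q)) → q = p) ∧
      ∀ v ∈ T1 L q.2, A (0, q) v = (l q).1 v ∧ A (1, q) v = (l' q).1 v) := by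
    intro p
    by_cases hpZ : p ∈ Z
    · obtain ⟨A, hA, h2⟩ := (hp p hpZ).2.2
      refine ⟨A, hA, fun _ => ?_⟩
      filter_upwards [eventually_nhdsWithin_iff.1 h2] with q hq hqL using hq ⟨trivial, hqL⟩
    · exact ⟨0, continuous_const, fun h => absurd h hpZ⟩
  choose A hA hAZ using h1
  obtain ⟨χ, T, hχ, h01, hpp, hq⟩ := u_exists_bumps Z _ hAZ
  have hsum : ∀ q p : ℝ × E, p ∈ Z → (∀ p' ∈ Z, p' ≠ p → χ p' q = 0) → ∀ s : ℝ,
      ∑ p' ∈ Z, χ p' q • (A p' (s, q), (1 - s) * (l q).2 + s * (l' q).2) =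
        χ p q • (A p (s, q), (1 - s) * (l q).2 + s * (l' q).2) := by
    intro q p hpZ h2 s
    exact Finset.sum_eq_single_of_mem p hpZ fun p' h3 h4 => by rw [h2 p' h3 h4, zero_smul]
  have hs1 : ∀ q p : ℝ × E, p ∈ Z → (∀ p' ∈ Z, p' ≠ p → χ p' q = 0) →
      ∑ p' ∈ Z, χ p' q = χ p q := fun q p hpZ h2 => Finset.sum_eq_single_of_mem p hpZ h2
  have hc : ContinuousOn (fun q => ∑ p ∈ Z, χ p q) (univ ×ˢ L) :=
    (continuous_finsetSum _ fun p _ => hχ p).continuousOn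
  have hI : ∀ q : ℝ × E, q.2 ∈ L → ∑ p ∈ Z, χ p q ∈ Icc (0 : ℝ) 1 := by
    intro q _
    rcases hq q with h2 | ⟨p, hpZ, -, -, h2⟩
    · rw [Finset.sum_eq_zero h2]
      exact ⟨le_rfl, zero_le_one⟩
    · rw [hs1 q p hpZ h2]
      exact h01 p q
  have hone : ∀ q ∈ Z, ∑ p ∈ Z, χ p q = 1 := by
    intro q hqZ
    rcases hq q with h2 | ⟨p, hpZ, -, -, h2⟩
    · exact absurd ((hpp q).symm.trans (h2 q hqZ)) one_ne_zero
    · have h3 : q = p := by
        by_contra h3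
        exact one_ne_zero ((hpp q).symm.trans (h2 q hqZ h3))
      rw [hs1 q p hpZ h2, h3, hpp]
  refine (h.push hc hI fun q a b c => hone q (hZ q a b c)).trans (SecHtpy.trans ?_
    (h'.push hc hI fun q a b c => hone q (hZ' q a b c)).symm)
  have hm : MapsTo (Prod.snd : ℝ × (ℝ × E) → ℝ × E) (Icc (0 : ℝ) 1 ×ˢ (univ ×ˢ L))
      (univ ×ˢ L) := fun z hz => hz.2
  refine secHtpy_iff.2 ⟨fun z => ∑ p ∈ Z, χ p z.2 • (A p z, (1 - z.1) * (l z.2).2 +
    z.1 * (l' z.2).2) + (1 - ∑ p ∈ Z, χ p z.2) • ((0 : Cv E), (1 : ℝ)), T, ?_,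
    fun s hs q hqL => ?_, fun q hqL => ?_⟩
  · refine (continuousOn_finsetSum _ fun p _ => ((hχ p).comp continuous_snd).continuousOn.smul
      ((hA p).continuousOn.prodMk ?_)).add
      ((continuousOn_const.sub (hc.comp continuousOn_snd hm)).smul continuousOn_const)
    exact ((continuousOn_const.sub continuousOn_fst).mul (h.1.comp continuousOn_snd hm).snd).add
      (continuousOn_fst.mul (h'.1.comp continuousOn_snd hm).snd)
  · rcases hq q with h2 | ⟨p, hpZ, hU, hT, h2⟩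
    · have h3 : ∑ p ∈ Z, χ p q • (A p (s, q), (1 - s) * (l q).2 + s * (l' q).2) = 0 :=
        Finset.sum_eq_zero fun p hpZ => by rw [h2 p hpZ, zero_smul]
      simp only [h3, Finset.sum_eq_zero h2]
      exact ⟨fun _ => by simp, fun _ => ⟨fun v _ => by simp, by simp⟩⟩
    · simp only [hsum q p hpZ h2, hs1 q p hpZ h2]
      refine ⟨fun hv h3 => ?_, fun ht => absurd hT (not_lt.2 ht)⟩
      simp only [Prod.snd_add, Prod.smul_snd, smul_eq_mul, mul_one] at h3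
      have h4 : χ p q ≠ 0 := fun h4 => by
        rw [h4] at h3
        linarith
      have h5 : q = p := (hU hqL).1 s hs fun v hv' => by simpa [h4] using hv v hv'
      rw [h5, hpp] at h3
      obtain ⟨h6, h7, -⟩ := hp p hpZ
      rcases eq_or_lt_of_le hs.1 with h8 | h8
      · rw [← h8] at h3
        linarith
      · nlinarith [mul_neg_of_pos_of_neg h8 h7, mul_nonneg (sub_nonneg.2 hs.2) (neg_pos.2 h6).le]
  · rcases hq q with h2 | ⟨p, hpZ, hU, -, h2⟩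
    · have h3 : ∀ s : ℝ, ∑ p ∈ Z, χ p q • (A p (s, q), (1 - s) * (l q).2 + s * (l' q).2) = 0 :=
        fun s => Finset.sum_eq_zero fun p hpZ => by rw [h2 p hpZ, zero_smul]
      simp only [h3, Finset.sum_eq_zero h2]
      exact ⟨Agr.of_eq (by simp), Agr.of_eq (by simp)⟩
    · simp only [hsum q p hpZ h2, hs1 q p hpZ h2]
      exact ⟨⟨by simp, fun v hv => by simp [((hU hqL).2 v hv).1]⟩,
        ⟨by simp, fun v hv => by simp [((hU hqL).2 v hv).2]⟩⟩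

end Pool.Agent.Lib.MP_ccffa6_gt
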