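import Pool.Agent.Lib.MP_ccffa6_gt.U.HChart

/-!
The local sign is the sign of a determinant, up to a sign which depends only on the model space.
-/

open Set Filter Topology

noncomputable section

namespace Pool.Agent.Lib.MP_ccffa6_gt

variable {F : Type} [NormedAddCommGroup F] [NormedSpace ℝ F] [FiniteDimensional ℝ F]

theorem u_det_ne_zero {V : Type} [NormedAddCommGroup V] [NormedSpace ℝ V] [FiniteDimensional ℝ V]
    {A : V →L[ℝ] V} : A.det ≠ 0 ↔ Function.Injective A := by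
  rw [ContinuousLinearMap.det, Ne, LinearMap.det_eq_zero_iff_ker_ne_bot, not_not,
    LinearMap.ker_eq_bot]
  rfl

/-- The sign of the determinant is constant along a path of isomorphisms. -/
theorem u_det_path {V : Type} [NormedAddCommGroup V] [NormedSpace ℝ V] [FiniteDimensional ℝ V]
    {P : ℝ → V →L[ℝ] V} (hP : ContinuousOn P (Icc 0 1))
    (hi : ∀ s ∈ Icc (0 : ℝ) 1, Function.Injective (P s)) : 0 < (P 0).det * (P 1).det := by
  by_contra hc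
  have h0 : (P 0).det ≠ 0 := u_det_ne_zero.2 (hi 0 ⟨le_rfl, zero_le_one⟩)
  have hf : ContinuousOn (fun t => (P 0).det * (P t).det) (Icc 0 1) :=
    continuousOn_const.mul (ContinuousLinearMap.continuous_det.comp_continuousOn hP)
  obtain ⟨t, ht, h1⟩ := intermediate_value_Icc' zero_le_one hf
    (⟨not_lt.1 hc, mul_self_nonneg _⟩ : (0 : ℝ) ∈ Icc _ _)
  exact mul_ne_zero h0 (u_det_ne_zero.2 (hi t ht)) h1

theorem uStdD_det (j : Cv F ≃L[ℝ] (ℝ × F)) (B : Bil F) (e : ℝ) :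
    ((j : Cv F →L[ℝ] ℝ × F).comp (uStdD B e)).det =
      e * ((j : Cv F →L[ℝ] ℝ × F).comp (uStdD B 1)).det := by
  have h : (((j : Cv F →L[ℝ] ℝ × F).comp (uStdD B e) : (ℝ × F) →L[ℝ] ℝ × F) :
      (ℝ × F) →ₗ[ℝ] ℝ × F) = (((j : Cv F →L[ℝ] ℝ × F).comp (uStdD B 1) : (ℝ × F) →L[ℝ] ℝ × F) :
      (ℝ × F) →ₗ[ℝ] ℝ × F) ∘ₗ LinearMap.prodMap (e • LinearMap.id) LinearMap.id := by
    refine LinearMap.ext fun u => congrArg j (ContinuousLinearMap.ext fun v => ?_)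
    simp [uStdD_apply]
  rw [ContinuousLinearMap.det, h, LinearMap.det_comp, LinearMap.det_prodMap, LinearMap.det_smul]
  simp [ContinuousLinearMap.det, mul_comm]

theorem u_locSign_chart' (j : Cv F ≃L[ℝ] (ℝ × F)) : ∃ c : ℝ, c ≠ 0 ∧
    ∀ (E : Type) [NormedAddCommGroup E] [NormedSpace ℝ E] [FiniteDimensional ℝ E] (L : Set E)
      (φ : F → E) (ψ : E → F) (p : ℝ × E) (a : ℝ × E → Cv E) (D : (ℝ × F) →L[ℝ] Cv F) (e : ℤ),
      IsClosed L → p.2 ∈ L → Chart L p.2 φ ψ → ContinuousOn a (univ ×ˢ L) →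
      HasFDerivAt (uHat φ a) D (p.1, ψ p.2) → uHat φ a (p.1, ψ p.2) = 0 → (e = 1 ∨ e = -1) →
      0 < e * (c * ((j : Cv F →L[ℝ] ℝ × F).comp D).det) → LocSign L a p e := by
  obtain ⟨B, hB⟩ := u_exists_posdef F
  refine ⟨((j : Cv F →L[ℝ] ℝ × F).comp (uStdD B 1)).det,
    u_det_ne_zero.2 (j.injective.comp (uStdD_inj hB one_ne_zero)), ?_⟩
  intro E _ _ _ L φ ψ p a D e hL hp hc ha hD h0 he hpos
  obtain ⟨P, hP, hP0, hP1, hi⟩ := u_gl_path j (A := D) (B := uStdD B e) (by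
    rw [uStdD_det]
    linarith)
  exact u_locSign_of_path hL hp hc ha hB he hP hi (hP0 ▸ hD) h0 hP1

/-- Local sign from a chart. -/
theorem u_locSign_chart (j : Cv F ≃L[ℝ] (ℝ × F)) : ∃ ej : ℤ, (ej = 1 ∨ ej = -1) ∧
    ∀ (E : Type) [NormedAddCommGroup E] [NormedSpace ℝ E] [FiniteDimensional ℝ E] (L : Set E)
      (φ : F → E) (ψ : E → F) (p : ℝ × E) (a : ℝ × E → Cv E) (D : (ℝ × F) →L[ℝ] Cv F),
      IsClosed L → p.2 ∈ L → Chart L p.2 φ ψ → ContinuousOn a (univ ×ˢ L) →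
      HasFDerivAt (uHat φ a) D (p.1, ψ p.2) → uHat φ a (p.1, ψ p.2) = 0 →
      ((j : Cv F →L[ℝ] ℝ × F).comp D).det ≠ 0 →
      LocSign L a p (ej * (SignType.sign ((j : Cv F →L[ℝ] ℝ × F).comp D).det : ℤ)) := by
  obtain ⟨c, hc, h⟩ := u_locSign_chart' j
  refine ⟨SignType.sign c, by rcases lt_or_gt_of_ne hc with h | h <;> simp [h], ?_⟩
  intro E _ _ _ L φ ψ p a D hL hp hch ha hD h0 hd
  refine h E L φ ψ p a D _ hL hp hch ha hD h0 ?_ ?_
  · rcases lt_or_gt_of_ne hc with h | h <;> rcases lt_or_gt_of_ne hd with h' | h' <;> simp [h, h']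
  · rcases lt_or_gt_of_ne hc with h | h <;> rcases lt_or_gt_of_ne hd with h' | h' <;>
      simp only [h, h', sign_neg, sign_pos, SignType.coe_neg_one, SignType.coe_one] <;>
      push_cast <;> nlinarith

theorem u_exists_j (F : Type) [NormedAddCommGroup F] [NormedSpace ℝ F] [FiniteDimensional ℝ F] :
    Nonempty (Cv F ≃L[ℝ] (ℝ × F)) := by
  refine ⟨ContinuousLinearEquiv.ofFinrankEq ?_⟩
  rw [← (LinearMap.toContinuousLinearMap : ((F × ℝ) →ₗ[ℝ] ℝ) ≃ₗ[ℝ] Cv F).finrank_eq]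
  simp [Module.finrank_linearMap, add_comm]

variable {E : Type} [NormedAddCommGroup E] [NormedSpace ℝ E] [FiniteDimensional ℝ E]

theorem u_locSign_inj {L : Set E} (hL : IsClosed L) {φ : F → E} {ψ : E → F} {p : ℝ × E}
    (hp : p.2 ∈ L) (hc : Chart L p.2 φ ψ) {a : ℝ × E → Cv E} (ha : ContinuousOn a (univ ×ˢ L))
    {D : (ℝ × F) →L[ℝ] Cv F} (hD : HasFDerivAt (uHat φ a) D (p.1, ψ p.2))
    (h0 : uHat φ a (p.1, ψ p.2) = 0) (hi : Function.Injective D) : ∃ e, LocSign L a p e := by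
  obtain ⟨j⟩ := u_exists_j F
  obtain ⟨ej, -, h⟩ := u_locSign_chart j
  exact ⟨_, h E L φ ψ p a D hL hp hc ha hD h0 (u_det_ne_zero.2 (j.injective.comp hi))⟩

/-- A nondegenerate ambient zero has a local sign. -/
theorem u_locSign_amb {d : ℕ} {L : Set E} (hS : IsSub d L) (hL : IsClosed L) {p : ℝ × E}
    (hp : p.2 ∈ L) {a : ℝ × E → Cv E} (ha : ContinuousOn a (univ ×ˢ L))
    {D : (ℝ × E) →L[ℝ] Cv E} (hD : HasFDerivAt a D p) (h0 : a p = 0)
    (hi : ∀ u ∈ T1 L p.2, (∀ v ∈ T1 L p.2, D (u.2, u.1) v = 0) → u = 0) :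
    ∃ e, LocSign L a p e := by
  obtain ⟨φ, ψ, hc⟩ := hS p.2 hp
  have hpp : (p.1, φ (ψ p.2)) = p := by rw [hc.self hp]
  refine u_locSign_inj hL hp hc ha (uHat_hasFDerivAt hc.smφ (hpp.symm ▸ hD) (hpp.symm ▸ h0))
    (by rw [uHat, hpp, h0, ContinuousLinearMap.zero_comp]) ?_
  refine (injective_iff_map_eq_zero _).2 fun u hu => ?_
  have h1 := hi (fderiv ℝ φ (ψ p.2) u.2, u.1) ⟨(hc.mem_tan hp _).2 ⟨_, rfl⟩, trivial⟩
    fun v hv => by
      obtain ⟨y, hy⟩ := (hc.mem_tan hp _).1 hv.1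
      have h2 := uHatD_apply (fderiv ℝ φ (ψ p.2)) D u (y, v.2)
      rw [hu, hy] at h2
      exact h2.symm
  refine Prod.ext (congrArg (fun z : E × ℝ => z.2) h1) ?_
  have h2 : fderiv ℝ φ (ψ p.2) u.2 = 0 := congrArg (fun z : E × ℝ => z.1) h1
  rw [← hc.left_inv_fderiv hp u.2, h2, map_zero]
  rfl

end Pool.Agent.Lib.MP_ccffa6_gt
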