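import Pool.Agent.Lib.MP_ccffa6_gt.K.Htpy
import Pool.Agent.Lib.MP_ccffa6_gt.U.HBasic

/-! Formal properties of `SecHtpy` and `SecDeg`. `SecHtpy L l l` says that `l` is
(on `T1`) a continuous nowhere zero section with positive ends. -/

open Set Filter Topology

noncomputable section

namespace Pool.Agent.Lib.MP_ccffa6_gt

variable {E : Type} [NormedAddCommGroup E] [NormedSpace ℝ E]

theorem SecHtpy.refl {L : Set E} {l : ℝ × E → Cv E × ℝ} (hc : ContinuousOn l (univ ×ˢ L))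
    (hn : ∀ q : ℝ × E, q.2 ∈ L → Van L q.2 (l q).1 → (l q).2 ≠ 0) {T : ℝ}
    (he : ∀ q : ℝ × E, q.2 ∈ L → T ≤ |q.1| → Van L q.2 (l q).1 ∧ 0 < (l q).2) :
    SecHtpy L l l := Sec.htpy ⟨hc, T, fun q hq => ⟨hn q hq, he q hq⟩⟩

/-- The first component may be changed freely where the second one is negative. -/
theorem SecHtpy.modify {L : Set E} {l l' : ℝ × E → Cv E × ℝ} (h : SecHtpy L l l)
    (hc : ContinuousOn (fun q => (l' q).1 - (l q).1) (univ ×ˢ L))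
    (h2 : ∀ q : ℝ × E, q.2 ∈ L → (l' q).2 = (l q).2)
    (h1 : ∀ q : ℝ × E, q.2 ∈ L → 0 ≤ (l q).2 → ∀ v ∈ T1 L q.2, (l' q).1 v = (l q).1 v) :
    SecHtpy L l l' := by
  obtain ⟨m, ⟨hm, T, hT⟩, ha⟩ := h.exists_sec
  have hp : MapsTo (Prod.snd : ℝ × (ℝ × E) → ℝ × E) (Icc (0 : ℝ) 1 ×ˢ (univ ×ˢ L))
      (univ ×ˢ L) := fun z hz => hz.2
  refine secHtpy_iff.2 ⟨fun z => m z.2 + (z.1 • ((l' z.2).1 - (l z.2).1), 0), T,
    (hm.comp continuousOn_snd hp).add ((continuousOn_fst.smul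
      (hc.comp continuousOn_snd hp)).prodMk continuousOn_const), fun s _ q hq => ?_,
    fun q hq => ⟨(Agr.of_eq (by simp)).trans (ha q hq),
      ⟨by simp [(ha q hq).1, h2 q hq], fun v hv => by simp [(ha q hq).2 v hv]⟩⟩⟩
  rcases le_or_gt 0 (l q).2 with h3 | h3
  · exact (hT q hq).congr ⟨by simp, fun v hv => by simp [h1 q hq h3 v hv]⟩
  · refine ⟨fun _ => by simp [(ha q hq).1, h3.ne], fun ht => ?_⟩
    exact absurd ((ha q hq).1 ▸ ((hT q hq).2 ht).2) (not_lt.2 h3.le)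

theorem LocSign.affine {L : Set E} {a : ℝ × E → Cv E} {p : ℝ × E} {e ε : ℤ} {c : ℝ}
    (hε : ε = 1 ∨ ε = -1) (h : LocSign L a (ε * p.1 + c, p.2) e) :
    LocSign L (fun q => a (ε * q.1 + c, q.2)) p (ε * e) := by
  obtain ⟨he, B, A, hB, hA, h1⟩ := h
  have ht : Tendsto (fun q : ℝ × E => ((ε * q.1 + c, q.2) : ℝ × E)) (𝓝[univ ×ˢ L] p)
      (𝓝[univ ×ˢ L] (ε * p.1 + c, p.2)) :=
    (Continuous.continuousWithinAt (by fun_prop)).tendsto_nhdsWithin fun q hq => ⟨trivial, hq.2⟩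
  refine ⟨by rcases hε with h | h <;> rcases he with h' | h' <;> simp [h, h'], B,
    fun z => A (z.1, (ε * z.2.1 + c, z.2.2)), hB, by fun_prop, ?_⟩
  filter_upwards [ht.eventually h1] with q hq
  refine ⟨fun s hs hv => ?_, fun v hv => ⟨(hq.2 v hv).1, (hq.2 v hv).2.trans ?_⟩⟩
  · have h2 := Prod.ext_iff.1 (hq.1 s hs hv)
    refine Prod.ext ?_ h2.2
    rcases hε with h | h <;> simpa [h] using h2.1
  · push_cast
    ring

theorem SecHtpy.affine {L : Set E} {l l' : ℝ × E → Cv E × ℝ} (h : SecHtpy L l l') {ε : ℤ}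
    (hε : ε = 1 ∨ ε = -1) (c : ℝ) :
    SecHtpy L (fun q => l (ε * q.1 + c, q.2)) fun q => l' (ε * q.1 + c, q.2) := by
  obtain ⟨Λ, T, h1, h2, h3⟩ := secHtpy_iff.1 h
  refine secHtpy_iff.2 ⟨fun z => Λ (z.1, (ε * z.2.1 + c, z.2.2)), T + |c|,
    h1.comp (by fun_prop) fun z hz => ⟨hz.1, trivial, hz.2.2⟩, fun s hs q hq => ?_,
    fun q hq => h3 (ε * q.1 + c, q.2) hq⟩
  have h4 := h2 s hs (ε * q.1 + c, q.2) hq
  refine ⟨h4.1, fun ht => h4.2 ?_⟩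
  have h5 : |(ε : ℝ) * q.1| = |q.1| := by rcases hε with h | h <;> simp [h]
  have h6 := abs_sub (ε * q.1 + c) c
  rw [add_sub_cancel_right, h5] at h6
  linarith

/-- The inverse of `t ↦ ε t + c`. -/
def uAff {ε : ℤ} (hε : ε = 1 ∨ ε = -1) (c : ℝ) : ℝ × E ↪ ℝ × E :=
  ⟨fun p => (ε * (p.1 - c), p.2), fun p q h => by
    have h2 := Prod.ext_iff.1 h
    refine Prod.ext ?_ h2.2
    rcases hε with h | h <;> simpa [h] using h2.1⟩

omit [NormedAddCommGroup E] [NormedSpace ℝ E] in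
theorem uAff_inv {ε : ℤ} (hε : ε = 1 ∨ ε = -1) (c : ℝ) (p : ℝ × E) :
    ((ε * (uAff hε c p).1 + c, (uAff hε c p).2) : ℝ × E) = p := by
  refine Prod.ext ?_ rfl
  rcases hε with h | h <;> simp [uAff, h]

theorem RayData.affine {L : Set E} {l : ℝ × E → Cv E × ℝ} {Z : Finset (ℝ × E)} {e : ℝ × E → ℤ}
    (h : RayData L l Z e) {ε : ℤ} (hε : ε = 1 ∨ ε = -1) (c : ℝ) :
    RayData L (fun q => l (ε * q.1 + c, q.2)) (Z.map (uAff hε c))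
      fun q => ε * e (ε * q.1 + c, q.2) := by
  refine ⟨fun q hq h1 h2 => Finset.mem_map.2 ⟨_, h.1 (ε * q.1 + c, q.2) hq h1 h2, ?_⟩,
    fun p hp => ?_⟩
  · refine Prod.ext ?_ rfl
    rcases hε with h | h <;> simp [uAff, h]
  · obtain ⟨q, hq, rfl⟩ := Finset.mem_map.1 hp
    obtain ⟨h1, h2, h3⟩ := h.2 q hq
    refine ⟨h1, by simpa only [uAff_inv] using h2,
      LocSign.affine (a := fun q => (l q).1) hε ?_⟩
    rwa [uAff_inv]

theorem SecDeg.affine {L : Set E} {l : ℝ × E → Cv E × ℝ} {d : ℤ} (h : SecDeg L l d) {ε : ℤ}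
    (hε : ε = 1 ∨ ε = -1) (c : ℝ) : SecDeg L (fun q => l (ε * q.1 + c, q.2)) (ε * d) := by
  obtain ⟨l', Z, e, h1, h2, h3⟩ := h
  refine ⟨_, _, _, h1.affine hε c, h2.affine hε c, ?_⟩
  simp only [Finset.sum_map, uAff_inv, ← Finset.mul_sum, h3]

theorem SecDeg.neg {L : Set E} {l : ℝ × E → Cv E × ℝ} {d : ℤ} (h : SecDeg L l d) :
    SecDeg L (fun q => l (-q.1, q.2)) (-d) := by
  simpa using h.affine (ε := -1) (Or.inr rfl) 0

theorem SecDeg.shift {L : Set E} {l : ℝ × E → Cv E × ℝ} {d : ℤ} (h : SecDeg L l d) (c : ℝ) :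
    SecDeg L (fun q => l (q.1 + c, q.2)) d := by
  simpa using h.affine (ε := 1) (Or.inl rfl) c

theorem u_pos_comb {L : Set E} {x : E} {m a b : Cv E × ℝ} (h : Agr L x m a) {κ : ℝ}
    (hκ : κ ∈ Icc (0 : ℝ) 1) (ha : Van L x a.1 ∧ 0 < a.2) (hb : Van L x b.1 ∧ 0 < b.2) :
    Van L x (m + κ • (b - a)).1 ∧ 0 < (m + κ • (b - a)).2 := by
  refine ⟨fun v hv => by simp [h.2 v hv, ha.1 v hv, hb.1 v hv], ?_⟩
  simp only [Prod.snd_add, Prod.smul_snd, Prod.snd_sub, smul_eq_mul, h.1]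
  rcases eq_or_lt_of_le hκ.1 with h1 | h1
  · rw [← h1]
    linarith [ha.2]
  · nlinarith [mul_pos h1 hb.2, mul_nonneg (sub_nonneg.2 hκ.2) ha.2.le]

/-- Concatenation: for all large `c`, a section `l` which is `l₀ (t + c)` for `t ≤ -1`,
`l₁ (t - c)` for `1 ≤ t` and positive in between. -/
theorem SecDeg.concat {L : Set E} {l₀ l₁ : ℝ × E → Cv E × ℝ} {d₀ d₁ : ℤ} (h₀ : SecDeg L l₀ d₀)
    (h₁ : SecDeg L l₁ d₁) : ∃ c₀ : ℝ, ∀ c, c₀ ≤ c → ∀ l : ℝ × E → Cv E × ℝ, SecHtpy L l l →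
      (∀ q : ℝ × E, q.2 ∈ L → q.1 ≤ -1 → l q = l₀ (q.1 + c, q.2)) →
      (∀ q : ℝ × E, q.2 ∈ L → 1 ≤ q.1 → l q = l₁ (q.1 - c, q.2)) →
      (∀ q : ℝ × E, q.2 ∈ L → |q.1| ≤ 1 → Van L q.2 (l q).1 ∧ 0 < (l q).2) →
      SecDeg L l (d₀ + d₁) := by
  classical
  obtain ⟨m₀, Z₀, e₀, g₀, r₀, rfl⟩ := h₀
  obtain ⟨m₁, Z₁, e₁, g₁, r₁, rfl⟩ := h₁
  obtain ⟨Λ₀, T₀, c₀, o₀, a₀⟩ := secHtpy_iff.1 g₀
  obtain ⟨Λ₁, T₁, c₁, o₁, a₁⟩ := secHtpy_iff.1 g₁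
  refine ⟨|T₀| + |T₁| + 3, fun c hc l hl k₀ k₁ k => ?_⟩
  obtain ⟨m, ⟨hm, -⟩, ha⟩ := hl.exists_sec
  have b₀ := le_abs_self T₀
  have b₁ := le_abs_self T₁
  have b₀' := abs_nonneg T₀
  have b₁' := abs_nonneg T₁
  obtain ⟨κ, hκc, hκI, hκ0, hκ1⟩ : ∃ κ : ℝ → ℝ, Continuous κ ∧ (∀ t, κ t ∈ Icc (0 : ℝ) 1) ∧
      (∀ t ≤ 1, κ t = 0) ∧ ∀ t, 2 ≤ t → κ t = 1 :=
    ⟨fun t => max 0 (min 1 (t - 1)), by fun_prop,
      fun t => ⟨le_max_left _ _, max_le zero_le_one (min_le_left _ _)⟩,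
      fun t ht => max_eq_left ((min_le_right _ _).trans (by linarith)), fun t ht => by
        simp only [min_eq_left (by linarith : 1 ≤ t - 1), max_eq_right zero_le_one]⟩
  have i0 : (0 : ℝ) ∈ Icc (0 : ℝ) 1 := ⟨le_rfl, zero_le_one⟩
  obtain ⟨Λ, hΛc, hΛ⟩ : ∃ Λ : ℝ × (ℝ × E) → Cv E × ℝ,
      ContinuousOn Λ (Icc (0 : ℝ) 1 ×ˢ (univ ×ˢ L)) ∧ ∀ s q, Λ (s, q) = m q +
        κ (-q.1) • (Λ₀ (s, (q.1 + c, q.2)) - Λ₀ (0, (q.1 + c, q.2))) +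
        κ q.1 • (Λ₁ (s, (q.1 - c, q.2)) - Λ₁ (0, (q.1 - c, q.2))) := by
    have f0 : ContinuousOn (fun z : ℝ × (ℝ × E) => m z.2) (Icc (0 : ℝ) 1 ×ˢ (univ ×ˢ L)) :=
      hm.comp continuousOn_snd fun z hz => hz.2
    have f1 : ContinuousOn (fun z : ℝ × (ℝ × E) => Λ₀ (z.1, (z.2.1 + c, z.2.2)))
        (Icc (0 : ℝ) 1 ×ˢ (univ ×ˢ L)) :=
      c₀.comp (by fun_prop) fun z hz => ⟨hz.1, trivial, hz.2.2⟩
    have f2 : ContinuousOn (fun z : ℝ × (ℝ × E) => Λ₀ (0, (z.2.1 + c, z.2.2)))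
        (Icc (0 : ℝ) 1 ×ˢ (univ ×ˢ L)) :=
      c₀.comp (by fun_prop) fun z hz => ⟨i0, trivial, hz.2.2⟩
    have f3 : ContinuousOn (fun z : ℝ × (ℝ × E) => Λ₁ (z.1, (z.2.1 - c, z.2.2)))
        (Icc (0 : ℝ) 1 ×ˢ (univ ×ˢ L)) :=
      c₁.comp (by fun_prop) fun z hz => ⟨hz.1, trivial, hz.2.2⟩
    have f4 : ContinuousOn (fun z : ℝ × (ℝ × E) => Λ₁ (0, (z.2.1 - c, z.2.2)))
        (Icc (0 : ℝ) 1 ×ˢ (univ ×ˢ L)) :=
      c₁.comp (by fun_prop) fun z hz => ⟨i0, trivial, hz.2.2⟩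
    have f5 : Continuous fun z : ℝ × (ℝ × E) => κ (-z.2.1) := by fun_prop
    have f6 : Continuous fun z : ℝ × (ℝ × E) => κ z.2.1 := by fun_prop
    exact ⟨_, (f0.add (f5.continuousOn.smul (f1.sub f2))).add
      (f6.continuousOn.smul (f3.sub f4)), fun _ _ => rfl⟩
  have i1 : (1 : ℝ) ∈ Icc (0 : ℝ) 1 := ⟨zero_le_one, le_rfl⟩
  have m0 : ∀ q : ℝ × E, q.2 ∈ L → q.1 ≤ -1 → Agr L q.2 (m q) (Λ₀ (0, (q.1 + c, q.2))) :=
    fun q hq h => ((ha q hq).trans (Agr.of_eq (k₀ q hq h))).trans (a₀ (q.1 + c, q.2) hq).1.symm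
  have m1 : ∀ q : ℝ × E, q.2 ∈ L → 1 ≤ q.1 → Agr L q.2 (m q) (Λ₁ (0, (q.1 - c, q.2))) :=
    fun q hq h => ((ha q hq).trans (Agr.of_eq (k₁ q hq h))).trans (a₁ (q.1 - c, q.2) hq).1.symm
  have left : ∀ s (q : ℝ × E), q.2 ∈ L → q.1 ≤ -2 →
      Agr L q.2 (Λ₀ (s, (q.1 + c, q.2))) (Λ (s, q)) := by
    intro s q hq h
    have h1 := m0 q hq (by linarith)
    simp only [hΛ, hκ0 q.1 (by linarith), hκ1 (-q.1) (by linarith)]
    exact ⟨by simp [h1.1], fun v hv => by simp [h1.2 v hv]⟩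
  have right : ∀ s (q : ℝ × E), q.2 ∈ L → 2 ≤ q.1 →
      Agr L q.2 (Λ₁ (s, (q.1 - c, q.2))) (Λ (s, q)) := by
    intro s q hq h
    have h1 := m1 q hq (by linarith)
    simp only [hΛ, hκ0 (-q.1) (by linarith), hκ1 q.1 h]
    exact ⟨by simp [h1.1], fun v hv => by simp [h1.2 v hv]⟩
  have mid : ∀ s ∈ Icc (0 : ℝ) 1, ∀ q : ℝ × E, q.2 ∈ L → -2 ≤ q.1 → q.1 ≤ 2 →
      Van L q.2 (Λ (s, q)).1 ∧ 0 < (Λ (s, q)).2 := by
    intro s hs q hq h h'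
    rcases le_total q.1 (-1) with h1 | h1
    · have h2 : T₀ ≤ |q.1 + c| := le_trans (by linarith) (le_abs_self _)
      simp only [hΛ, hκ0 q.1 (by linarith), zero_smul, add_zero]
      exact u_pos_comb (m0 q hq h1) (hκI _) ((o₀ 0 i0 (q.1 + c, q.2) hq).2 h2)
        ((o₀ s hs (q.1 + c, q.2) hq).2 h2)
    simp only [hΛ, hκ0 (-q.1) (by linarith), zero_smul, add_zero]
    rcases le_total 1 q.1 with h2 | h2
    · have h3 : T₁ ≤ |q.1 - c| := le_trans (by linarith) (neg_le_abs _)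
      exact u_pos_comb (m1 q hq h2) (hκI _) ((o₁ 0 i0 (q.1 - c, q.2) hq).2 h3)
        ((o₁ s hs (q.1 - c, q.2) hq).2 h3)
    · have h3 := k q hq (abs_le.2 ⟨h1, h2⟩)
      simp only [hκ0 q.1 h2, zero_smul, add_zero]
      exact ⟨(ha q hq).symm.van h3.1, (ha q hq).1 ▸ h3.2⟩
  have s₀ := r₀.affine (ε := 1) (Or.inl rfl) c
  have s₁ := r₁.affine (ε := 1) (Or.inl rfl) (-c)
  simp only [Int.cast_one, one_mul, ← sub_eq_add_neg] at s₀ s₁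
  have z₀ : ∀ p ∈ Z₀.map (uAff (ε := 1) (Or.inl rfl) c), p.1 < -2 := by
    intro p hp
    by_contra h
    have h1 := s₀.2 p hp
    have h2 := ((o₀ 1 i1 (p.1 + c, p.2) h1.1).2 (le_trans (by linarith) (le_abs_self _))).2
    linarith [h1.2.1, (a₀ (p.1 + c, p.2) h1.1).2.1]
  have z₁ : ∀ p ∈ Z₁.map (uAff (ε := 1) (Or.inl rfl) (-c)), 2 < p.1 := by
    intro p hp
    by_contra h
    have h1 := s₁.2 p hp
    have h2 := ((o₁ 1 i1 (p.1 - c, p.2) h1.1).2 (le_trans (by linarith) (neg_le_abs _))).2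
    linarith [h1.2.1, (a₁ (p.1 - c, p.2) h1.1).2.1]
  have l0 : ∀ q : ℝ × E, q.2 ∈ L → q.1 ≤ -2 → Agr L q.2 (m₀ (q.1 + c, q.2)) (Λ (1, q)) :=
    fun q hq h => (a₀ (q.1 + c, q.2) hq).2.symm.trans (left 1 q hq h)
  have l1 : ∀ q : ℝ × E, q.2 ∈ L → 2 ≤ q.1 → Agr L q.2 (m₁ (q.1 - c, q.2)) (Λ (1, q)) :=
    fun q hq h => (a₁ (q.1 - c, q.2) hq).2.symm.trans (right 1 q hq h)
  refine ⟨fun q => Λ (1, q), Z₀.map (uAff (ε := 1) (Or.inl rfl) c) ∪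
    Z₁.map (uAff (ε := 1) (Or.inl rfl) (-c)),
    fun p => if p.1 ≤ 0 then e₀ (p.1 + c, p.2) else e₁ (p.1 - c, p.2),
    secHtpy_iff.2 ⟨Λ, |T₀| + |T₁| + c, hΛc, fun s hs q hq => ?_,
      fun q hq => ⟨(Agr.of_eq (by simp [hΛ])).trans (ha q hq), Agr.refl _ _ _⟩⟩,
    ⟨fun q hq hv h => ?_, fun p hp => ?_⟩, ?_⟩
  · rcases le_total q.1 (-2) with h | h
    · have h1 := o₀ s hs (q.1 + c, q.2) hq
      refine SOk.congr ⟨h1.1, fun ht => h1.2 ?_⟩ (left s q hq h)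
      rw [abs_of_nonpos (by linarith : q.1 ≤ 0)] at ht
      exact le_trans (by linarith) (neg_le_abs _)
    rcases le_total 2 q.1 with h' | h'
    · have h1 := o₁ s hs (q.1 - c, q.2) hq
      refine SOk.congr ⟨h1.1, fun ht => h1.2 ?_⟩ (right s q hq h')
      rw [abs_of_nonneg (by linarith : 0 ≤ q.1)] at ht
      exact le_trans (by linarith) (le_abs_self _)
    · exact ⟨fun _ => (mid s hs q hq h h').2.ne', fun _ => mid s hs q hq h h'⟩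
  · rcases le_total q.1 (-2) with h1 | h1
    · exact Finset.mem_union_left _
        (s₀.1 q hq ((l0 q hq h1).symm.van hv) ((l0 q hq h1).1 ▸ h))
    rcases le_total 2 q.1 with h2 | h2
    · exact Finset.mem_union_right _
        (s₁.1 q hq ((l1 q hq h2).symm.van hv) ((l1 q hq h2).1 ▸ h))
    · exact absurd (mid 1 i1 q hq h1 h2).2 (not_lt.2 h.le)
  · rcases Finset.mem_union.1 hp with h | h
    · obtain ⟨h1, h2, h3⟩ := s₀.2 p h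
      have h4 := z₀ p h
      refine ⟨h1, (l0 p h1 h4.le).1 ▸ h2, ?_⟩
      simp only [if_pos (by linarith : p.1 ≤ 0)]
      refine h3.congr ?_
      filter_upwards [nhdsWithin_le_nhds ((continuous_fst.tendsto p).eventually (gt_mem_nhds h4)),
        self_mem_nhdsWithin] with q h5 hq using (l0 q hq.2 h5.le).2
    · obtain ⟨h1, h2, h3⟩ := s₁.2 p h
      have h4 := z₁ p h
      refine ⟨h1, (l1 p h1 h4.le).1 ▸ h2, ?_⟩
      simp only [if_neg (by linarith : ¬p.1 ≤ 0)]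
      refine h3.congr ?_
      filter_upwards [nhdsWithin_le_nhds ((continuous_fst.tendsto p).eventually (lt_mem_nhds h4)),
        self_mem_nhdsWithin] with q h5 hq using (l1 q hq.2 h5.le).2
  · rw [Finset.sum_union (Finset.disjoint_left.2 fun p h h' => by linarith [z₀ p h, z₁ p h'])]
    congr 1
    · rw [Finset.sum_congr rfl fun p hp => if_pos (by linarith [z₀ p hp])]
      simp [Finset.sum_map, uAff]
    · rw [Finset.sum_congr rfl fun p hp => if_neg (by linarith [z₁ p hp])]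
      simp [Finset.sum_map, uAff]

end Pool.Agent.Lib.MP_ccffa6_gt
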