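import Pool.Agent.Lib.MP_ccffa6_gt.U.HPath
import Pool.Agent.Lib.MP_ccffa6_gt.U.SecAlg

/-!
Hopf's theorem for sections: if the local signs add up to zero, the section is homotopic to
`(0, 1)`.
-/

open Set Filter Topology Real

noncomputable section

namespace Pool.Agent.Lib.MP_ccffa6_gt

variable {E : Type} [NormedAddCommGroup E] [NormedSpace ℝ E]

/-- The model section, as a function of a chord `u` and an angle `θ`. -/
def uMod (B : Bil E) (δ : ℝ) (u : E) (θ : ℝ) : Cv E × ℝ :=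
  ((max 0 (1 - ‖u‖ / δ) * (1 + cos θ) / 2) • (B u).comp (ContinuousLinearMap.fst ℝ E ℝ) +
    (max 0 (1 - ‖u‖ / δ) * sin θ) • ContinuousLinearMap.snd ℝ E ℝ,
    1 - max 0 (1 - ‖u‖ / δ) * (1 + cos θ))

theorem uMod_cont (B : Bil E) (δ : ℝ) : Continuous fun z : E × ℝ => uMod B δ z.1 z.2 := by
  unfold uMod
  fun_prop

theorem uMod_apply (B : Bil E) (δ : ℝ) (u : E) (θ : ℝ) (v : E × ℝ) : (uMod B δ u θ).1 v =
    max 0 (1 - ‖u‖ / δ) * (1 + cos θ) / 2 * B u v.1 + max 0 (1 - ‖u‖ / δ) * sin θ * v.2 := by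
  simp [uMod]

theorem uMod_pi (B : Bil E) (δ : ℝ) (u : E) : uMod B δ u π = (0, 1) := by
  simp [uMod]

theorem uMod_ray {L : Set E} {B : Bil E} {δ : ℝ} (hδ : 0 < δ) {x y w : E} (hw : w ∈ Tan L x)
    (h : ‖x - y‖ < δ → x ≠ y → 0 < B (x - y) w) {θ : ℝ} (hv : Van L x (uMod B δ (x - y) θ).1)
    (h0 : (uMod B δ (x - y) θ).2 ≤ 0) : x = y ∧ cos θ = 1 := by
  have h1 : 1 ≤ max 0 (1 - ‖x - y‖ / δ) * (1 + cos θ) := sub_nonpos.1 h0
  have h2 : max 0 (1 - ‖x - y‖ / δ) ≠ 0 := fun h2 => by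
    rw [h2] at h1
    linarith
  have h3 : ‖x - y‖ < δ := by
    by_contra h3
    exact h2 (max_eq_left (sub_nonpos.2 ((one_le_div hδ).2 (not_lt.1 h3))))
  have h4 : x = y := by
    by_contra h4
    have h5 := hv (w, 0) ⟨hw, trivial⟩
    rw [uMod_apply] at h5
    nlinarith [h h3 h4]
  have h5 := hv (0, 1) ⟨Submodule.zero_mem _, trivial⟩
  rw [uMod_apply] at h5
  have h6 : sin θ = 0 := by simpa [h2] using h5
  refine ⟨h4, (sin_eq_zero_iff_cos_eq.1 h6).resolve_right fun h7 => ?_⟩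
  rw [h7] at h1
  linarith

variable [FiniteDimensional ℝ E]

/-- Hopf's theorem for sections. -/
theorem U.hopf {d : ℕ} {L : Set E} (hL : Closed d L) (hc : IsConnected L)
    {l : ℝ × E → Cv E × ℝ} (h : SecDeg L l 0) : SecHtpy L l fun _ => (0, 1) := by
  classical
  obtain ⟨l', Z, e, hl', h1, hZ, hsum⟩ := h.exists_sec
  refine h1.trans ?_
  obtain ⟨f, hf⟩ := u_exists_shear Z
  set σ : ℝ × E → ℝ := fun q => q.1 - f q.2 with hσ
  have hσc : Continuous σ := by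
    rw [hσ]
    fun_prop
  obtain ⟨γ, hγ, hγL, hγZ⟩ := u_exists_path hc.nonempty
    (fun x hx y hy => u_joinedIn hL.sub hc.isPreconnected hx hy) σ Prod.snd Z
    (fun p hp => (hZ.2 p hp).1) hf
  obtain ⟨b, hb⟩ := (Z.finite_toSet.image fun p => σ p + 1).bddAbove
  obtain ⟨θ, a, hθ, ha, hb', hcos, hθZ⟩ := u_exists_theta σ e Z hf
    (fun p hp => (hZ.2 p hp).2.2.1) b fun p hp => lt_of_lt_of_le (lt_add_one _) (hb ⟨p, hp, rfl⟩)
  obtain ⟨w, hw, hwB⟩ := u_exists_chord hL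
  obtain ⟨B, hB⟩ := u_exists_posdef E
  obtain ⟨δ, hδ, hδB⟩ := hwB B hB
  obtain ⟨C, hC⟩ := hL.cpt.exists_bound_of_continuousOn f.continuous.continuousOn
  have hray : ∀ (q : ℝ × E) (t : ℝ), q.2 ∈ L → Van L q.2 (uMod B δ (q.2 - γ (σ q)) t).1 →
      (uMod B δ (q.2 - γ (σ q)) t).2 ≤ 0 → q.2 = γ (σ q) ∧ cos t = 1 := fun q t hq =>
    uMod_ray hδ (hw _ hq _) (hδB _ hq _ (hγL _))
  have hok : ∀ (s : ℝ) (q : ℝ × E), q.2 ∈ L → SOk L (|a| + |b| + C) q
      (uMod B δ (q.2 - γ (σ q)) ((1 - s) * θ (σ q) + s * π)) := by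
    intro s q hq
    refine ⟨fun hv h0 => ?_, fun ht => ?_⟩
    · obtain ⟨h2, h3⟩ := hray q _ hq hv h0.le
      rw [uMod, ← h2, h3] at h0
      norm_num at h0
    · have h2 : θ (σ q) = π := by
        have h3 := abs_le.1 ((Real.norm_eq_abs _).symm.trans_le (hC _ hq))
        have h4 := abs_nonneg a
        have h5 := abs_nonneg b
        rcases le_abs'.1 ht with h6 | h6
        · exact ha _ (by simp only [hσ]; linarith [neg_abs_le a])
        · simpa [hsum] using hb' (σ q) (by simp only [hσ]; linarith [le_abs_self b])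
      rw [h2, show (1 - s) * π + s * π = π by ring, uMod_pi]
      exact ⟨fun _ _ => rfl, one_pos⟩
  have hm : Continuous fun q : ℝ × E => uMod B δ (q.2 - γ (σ q)) (θ (σ q)) :=
    (uMod_cont B δ).comp (by fun_prop : Continuous fun q : ℝ × E => (q.2 - γ (σ q), θ (σ q)))
  refine SecHtpy.trans (l₁ := fun q => uMod B δ (q.2 - γ (σ q)) (θ (σ q))) ?_
    (secHtpy_iff.2 ⟨fun z => uMod B δ (z.2.2 - γ (σ z.2)) ((1 - z.1) * θ (σ z.2) + z.1 * π), _,
      ((uMod_cont B δ).comp (by fun_prop : Continuous fun z : ℝ × (ℝ × E) =>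
        (z.2.2 - γ (σ z.2), (1 - z.1) * θ (σ z.2) + z.1 * π))).continuousOn,
      fun s _ q hq => hok s q hq, fun q _ => ⟨Agr.of_eq (by simp), Agr.of_eq (by simp [uMod_pi])⟩⟩)
  refine u_recog hl' ⟨hm.continuousOn, _, fun q hq => by simpa using hok 0 q hq⟩ Z hZ.1
    (fun q hq hv h0 => ?_) fun p hp => ?_
  · obtain ⟨h2, h3⟩ := hray q _ hq hv h0.le
    obtain ⟨p, hp, h4⟩ := hcos _ h3
    have h5 : q.2 = p.2 := by rw [h2, h4, (hγZ p hp).self_of_nhds]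
    have h6 : q = p := Prod.ext (by simpa [hσ, h5] using h4) h5
    rwa [h6]
  obtain ⟨hpL, h2, h3⟩ := hZ.2 p hp
  obtain ⟨he, B', hB', h4⟩ := locSign_iff.1 h3
  obtain ⟨c, hc0, k, hk⟩ := hθZ p hp
  have h5 : cos (θ (σ p)) = 1 := by simp [hk.self_of_nhds]
  have h6 := (hγZ p hp).self_of_nhds
  refine ⟨h2, by norm_num [uMod, h5, h6], h4.trans
    (LocHtpy.segment (uStd_cont _ _ _) hm.fst ?_)⟩
  obtain ⟨δ', hδ', hδB'⟩ := hwB B' hB'
  have e1 : ∀ᶠ q : ℝ × E in 𝓝 p, ‖q.2 - p.2‖ < min δ δ' :=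
    (by fun_prop : Continuous fun q : ℝ × E => ‖q.2 - p.2‖).continuousAt.eventually_lt
      continuousAt_const (by simp [hδ, hδ'])
  have e2 : ∀ᶠ q : ℝ × E in 𝓝 p, |c * (e p * (σ q - σ p))| < π :=
    (by fun_prop : Continuous fun q : ℝ × E => |c * (e p * (σ q - σ p))|).continuousAt.eventually_lt
      continuousAt_const (by simp [pi_pos])
  have e3 : ∀ᶠ q : ℝ × E in 𝓝 p, 0 < cos (θ (σ q)) :=
    continuousAt_const.eventually_lt
      (by fun_prop : Continuous fun q : ℝ × E => cos (θ (σ q))).continuousAt (by simp [h5])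
  filter_upwards [nhdsWithin_le_nhds e1, nhdsWithin_le_nhds e2, nhdsWithin_le_nhds e3,
    nhdsWithin_le_nhds ((hσc.tendsto p).eventually (hγZ p hp)),
    nhdsWithin_le_nhds ((hσc.tendsto p).eventually hk), self_mem_nhdsWithin]
    with q q1 q2 q3 q4 q5 hq s hs hv
  have q6 : 0 < max 0 (1 - ‖q.2 - p.2‖ / δ) :=
    lt_max_of_lt_right (sub_pos.2 ((div_lt_one hδ).2 (q1.trans_le (min_le_left _ _))))
  have hpos : ∀ x y : ℝ, 0 < x → 0 < y → (1 - s) * x + s * y ≠ 0 := by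
    intro x y hx hy h0
    rcases eq_or_lt_of_le hs.1 with h7 | h7
    · rw [← h7] at h0
      linarith
    · nlinarith [mul_pos h7 hy, mul_nonneg (sub_nonneg.2 hs.2) hx.le]
  have q7 : q.2 = p.2 := by
    by_contra h7
    have h8 := hv (w q.2 p.2, 0) ⟨hw _ hq.2 _, trivial⟩
    rw [uStd_apply, uMod_apply, q4] at h8
    simp only [mul_zero, add_zero] at h8
    refine hpos _ _ (hδB' _ hq.2 _ hpL (q1.trans_le (min_le_right _ _)) h7) ?_ h8
    have h9 := hδB _ hq.2 _ hpL (q1.trans_le (min_le_left _ _)) h7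
    positivity
  refine Prod.ext ?_ q7
  by_contra h7
  have h8 := hv (0, 1) ⟨Submodule.zero_mem _, trivial⟩
  have h9 : σ q - σ p = q.1 - p.1 := by simp [hσ, q7]
  rw [uStd_apply, uMod_apply, q4, q5, sin_add_int_mul_two_pi, h9] at h8
  rw [h9] at q2
  simp only [map_zero, mul_zero, zero_add, mul_one] at h8
  have h10 : (e p : ℝ) * (q.1 - p.1) ≠ 0 :=
    mul_ne_zero (by rcases he with h | h <;> simp [h]) (sub_ne_zero.2 h7)
  rcases lt_or_gt_of_ne h10 with h11 | h11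
  · have h12 := sin_neg_of_neg_of_neg_pi_lt (mul_neg_of_pos_of_neg hc0 h11) (abs_lt.1 q2).1
    exact hpos _ _ (neg_pos.2 h11) (neg_pos.2 (mul_neg_of_pos_of_neg q6 h12)) (by linarith)
  · exact hpos _ _ h11 (mul_pos q6 (sin_pos_of_pos_of_lt_pi (mul_pos hc0 h11) (abs_lt.1 q2).2)) h8

end Pool.Agent.Lib.MP_ccffa6_gt
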