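import Pool.Agent.Lib.MP_ccffa6_gt.U.RAlg
import Pool.Agent.Lib.MP_ccffa6_gt.U.DRed
import Pool.Agent.Lib.MP_ccffa6_gt.K.Proj

/-! Removing the last plane when the section is null-homotopic. -/

set_option maxSynthPendingDepth 3

open Set Filter Topology
open scoped ContDiff

noncomputable section

namespace Pool.Agent.Lib.MP_ccffa6_gt.U

open P (bp bp_apply CS)
open ContinuousLinearMap (inl inr fst snd)

variable {E : Type} [NormedAddCommGroup E] [NormedSpace ℝ E] [FiniteDimensional ℝ E]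

/-- Smooth projectors onto `T1 ⊕ ℝ²` over `ℝ × L`. -/
theorem lift_proj {d : ℕ} {L : Set E} (hL : Closed d L) (I : Set ℝ) :
    u_SP (I ×ˢ L) fun q : ℝ × E => pl (T1 L q.2) (ℝ × ℝ) := by
  obtain ⟨P, O, h1, -, h2, h3⟩ := hL.sub.exists_proj hL.cpt Subset.rfl
  exact u_SP.plus (T := fun q : ℝ × E => T1 L q.2) (u_SP.plus (T := fun q : ℝ × E => Tan L q.2)
    ⟨fun q => P q.2, h1.comp contDiff_snd, fun q hq => h3 q.2 ⟨hq.2, h2 hq.2⟩⟩)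

theorem lift_split {V : Type} [NormedAddCommGroup V] [NormedSpace ℝ V] :
    ELI.Split (inl ℝ V (ℝ × ℝ)) (fst ℝ V (ℝ × ℝ)) (0, (1, 0)) (0, (0, 1))
      ((fst ℝ ℝ ℝ).comp (snd ℝ V (ℝ × ℝ))) ((snd ℝ ℝ ℝ).comp (snd ℝ V (ℝ × ℝ))) := by
  refine ⟨fun u => ?_, fun _ => rfl, rfl, rfl, fun _ => rfl, fun _ => rfl, rfl, rfl, rfl, rfl⟩
  refine Prod.ext ?_ (Prod.ext ?_ ?_) <;> simp

theorem lift_cov {V : Type} [NormedAddCommGroup V] [NormedSpace ℝ V] {w : Bil (V × (ℝ × ℝ))}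
    (h : w (0, (1, 0)) (0, (1, 0)) = 0) (v : V × (ℝ × ℝ)) :
    w (0, (1, 0)) v = (cov1 w).1 v.1 + (cov1 w).2 * v.2.2 := by
  conv_lhs => rw [(lift_split (V := V)).dec v]
  simp only [map_add, map_smul, h, cov1_fst, cov1_snd, smul_eq_mul]
  simp [mul_comm]

theorem lift {d : ℕ} {L : Set E} (hL : Closed d L) {Ω₀ Ω₁ : E → Bil (E × ℝ)}
    {H : ℝ × E → Bil ((E × ℝ) × (ℝ × ℝ))} (h : SP L Ω₀ Ω₁ H)
    (hs : SecHtpy L (fun q => cov1 (H q)) (fun _ => (0, 1))) : Htpy L Ω₀ Ω₁ := by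
  obtain ⟨Λ, T, cΛ, nz, en⟩ := hs
  obtain ⟨A, hA⟩ := h.ends
  obtain ⟨r, hr0, hrA, hrT⟩ : ∃ r : ℝ, 0 ≤ r ∧ A ≤ r ∧ T ≤ r :=
    ⟨max 0 (max A T), by simp, by simp, by simp⟩
  let θ : ℝ → ℝ := fun t => max 0 (min 1 (|t| - r))
  have cθ : Continuous θ := by fun_prop
  have θ1 : ∀ t, 0 ≤ θ t ∧ θ t ≤ 1 := fun t =>
    ⟨le_max_left _ _, max_le zero_le_one (min_le_left _ _)⟩
  have θ2 : ∀ t, |t| ≤ r → θ t = 0 := fun t ht =>
    max_eq_left (min_le_of_right_le (by linarith))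
  have e1 : ∀ q : ℝ × E, ((0, (1, 0)) : (E × ℝ) × (ℝ × ℝ)) ∈ pl (T1 L q.2) (ℝ × ℝ) := fun q =>
    mem_pl.2 (Submodule.zero_mem _)
  have e2 : ∀ q : ℝ × E, ((0, (0, 1)) : (E × ℝ) × (ℝ × ℝ)) ∈ pl (T1 L q.2) (ℝ × ℝ) := fun q =>
    mem_pl.2 (Submodule.zero_mem _)
  have hend : ∀ q : ℝ × E, q.2 ∈ L → r ≤ |q.1| → ∀ v ∈ pl (T1 L q.2) (ℝ × ℝ),
      H q (0, (1, 0)) v = v.2.2 := fun q hq hr v hv => by
    rcases le_abs.1 hr with h1 | h1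
    · rw [(hA q hq _ (e1 q) v hv).2 (by linarith)]; simp
    · rw [(hA q hq _ (e1 q) v hv).1 (by linarith)]; simp
  let b : (E × ℝ) × (ℝ × ℝ) →L[ℝ] ℝ := (snd ℝ ℝ ℝ).comp (snd ℝ _ _)
  let l : ℝ × (ℝ × E) → (E × ℝ) × (ℝ × ℝ) →L[ℝ] ℝ := fun z =>
    (Λ z).1.comp (fst ℝ _ _) + ((1 - θ z.2.1) * (Λ z).2 + θ z.2.1) • b
  have hl : ∀ z v, l z v = (Λ z).1 v.1 + ((1 - θ z.2.1) * (Λ z).2 + θ z.2.1) * v.2.2 :=
    fun z v => by simp [l, b]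
  have hsub : Icc (-(r + 1)) (r + 1) ×ˢ L ⊆ univ ×ˢ L := fun q hq => ⟨trivial, hq.2⟩
  have cΛ' := cΛ.mono (prod_mono Subset.rfl hsub)
  have cθ' : Continuous fun z : ℝ × (ℝ × E) => θ z.2.1 := by fun_prop
  obtain ⟨w, n, a1, a2⟩ := u_lift (isCompact_Icc.prod hL.cpt) (lift_proj hL _).cs
    (⟨h.nd.cont.mono hsub, fun q hq => h.nd.nd q (hsub hq)⟩ :
      NDField (Icc (-(r + 1)) (r + 1) ×ˢ L) _ H) (fun q _ => e1 q) (l := l)
    ((cΛ'.fst.clm_comp continuousOn_const).add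
      ((((continuousOn_const.sub cθ'.continuousOn).mul cΛ'.snd).add cθ'.continuousOn).smul
        continuousOn_const))
    (fun s _ q _ => by simp [hl]) (fun s hs q hq => by
      by_cases hv : Van L q.2 (Λ (s, q)).1
      · refine ⟨_, e2 q, ?_⟩
        simp only [hl, map_zero, zero_add, mul_one]
        rcases le_total |q.1| r with h1 | h1
        · simpa [θ2 _ h1] using (nz s hs q hq.2).1 hv
        · have h2 := ((nz s hs q hq.2).2 (hrT.trans h1)).2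
          obtain ⟨h3, h4⟩ := θ1 q.1
          rcases h3.eq_or_lt with h5 | h5
          · simpa [← h5] using h2.ne'
          · nlinarith [mul_nonneg (sub_nonneg.2 h4) h2.le]
      · simp only [Van, not_forall] at hv
        obtain ⟨v, hv, hv'⟩ := hv
        exact ⟨(v, 0), mem_pl.2 hv, by simpa [hl] using hv'⟩) (fun q hq v hv => by
      rw [lift_cov ((h.nd.nd q (hsub hq)).1 _ (e1 q)), hl, ((en q hq.2).2 _ (mem_pl.1 hv)).1,
        (en q hq.2).1.1]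
      rcases le_total |q.1| r with h1 | h1
      · simp [θ2 _ h1]
      · simp [hend q hq.2 h1 _ (e2 q)])
  have n' : NDField (Icc (-(r + 1)) (r + 1) ×ˢ L) (fun q => T1 L q.2)
      fun q => bp (inl ℝ _ _) (w q) := ⟨ELI.ds_cont_bp _ n.cont, fun q hq =>
    u_nd_res lift_split (fun v hv => mem_pl.2 hv) (fun v hv => mem_pl.1 hv) (e1 q) (n.nd q hq)
      fun v hv => by
        rw [a1 q hq v hv, hl, ((en q hq.2).2 _ (mem_pl.1 hv)).2, (en q hq.2).1.2]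
        simp⟩
  have a3 : ∀ q ∈ Icc (-(r + 1)) (r + 1) ×ˢ L, |q.1| = r + 1 → ∀ u ∈ T1 L q.2, ∀ v ∈ T1 L q.2,
      w q (u, 0) (v, 0) = H q (u, 0) (v, 0) := fun q hq h1 u hu v hv => by
    refine a2 q hq (fun s hs v hv => ?_) _ (mem_pl.2 hu) _ (mem_pl.2 hv)
    have h2 : θ q.1 = 1 := by simp [θ, h1]
    rw [hl, hend q hq.2 (by linarith) v hv, h2,
      ((nz s hs q hq.2).2 (by linarith)).1 _ (mem_pl.1 hv)]
    simp
  have m : MapsTo (fun q : ℝ × E => ((r + 1) * (2 * q.1 - 1), q.2)) (Icc 0 1 ×ˢ L)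
      (Icc (-(r + 1)) (r + 1) ×ˢ L) := fun q hq =>
    ⟨⟨by nlinarith [hq.1.1], by nlinarith [hq.1.2]⟩, hq.2⟩
  refine ⟨fun q => bp (inl ℝ _ _) (w ((r + 1) * (2 * q.1 - 1), q.2)),
    ⟨n'.cont.comp (by fun_prop) m, fun q hq => n'.nd _ (m hq)⟩, fun x hx u hu v hv => ⟨?_, ?_⟩⟩
  · have h1 : (r + 1) * (2 * (0 : ℝ) - 1) = -(r + 1) := by ring
    simp only [h1, bp_apply, ContinuousLinearMap.inl_apply]
    rw [a3 (-(r + 1), x) ⟨⟨le_rfl, by linarith⟩, hx⟩ (by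
      rw [abs_neg, abs_of_nonneg (by linarith)]) u hu v hv,
      (hA (-(r + 1), x) hx (u, 0) (mem_pl.2 hu) (v, 0) (mem_pl.2 hv)).1 (by linarith)]
    simp
  · have h1 : (r + 1) * (2 * (1 : ℝ) - 1) = r + 1 := by ring
    simp only [h1, bp_apply, ContinuousLinearMap.inl_apply]
    rw [a3 (r + 1, x) ⟨⟨by linarith, le_rfl⟩, hx⟩ (abs_of_nonneg (by linarith)) u hu v hv,
      (hA (r + 1, x) hx (u, 0) (mem_pl.2 hu) (v, 0) (mem_pl.2 hv)).2 (by linarith)]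
    simp

end Pool.Agent.Lib.MP_ccffa6_gt.U
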