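import Pool.Agent.Lib.MP_ccffa6_gt.U.SecAlg
import Pool.Agent.Lib.MP_ccffa6_gt.U.HSign

/-! Local signs from charts. -/

open Set Filter Topology

noncomputable section

namespace Pool.Agent.Lib.MP_ccffa6_gt.U

variable {E : Type} [NormedAddCommGroup E] [NormedSpace ℝ E] [FiniteDimensional ℝ E]

/-- A continuous factor does not destroy differentiability at a zero. -/
theorem hasFDerivAt_of_zero {X Y Z : Type} [NormedAddCommGroup X] [NormedSpace ℝ X]
    [NormedAddCommGroup Y] [NormedSpace ℝ Y] [NormedAddCommGroup Z] [NormedSpace ℝ Z]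
    {A : X → Y} {A' : X →L[ℝ] Y} {z : X} (h : HasFDerivAt A A' z) (h0 : A z = 0)
    {B : X → Y →L[ℝ] Z} (hB : ContinuousAt B z) :
    HasFDerivAt (fun x => B x (A x)) ((B z).comp A') z := by
  have h1 : HasFDerivAt (fun x => (B x - B z) (A x)) (0 : X →L[ℝ] Z) z := by
    rw [hasFDerivAt_iff_isLittleO]
    have h2 : (fun x => B x - B z) =o[𝓝 z] fun _ => (1 : ℝ) :=
      (Asymptotics.isLittleO_one_iff ℝ).2 (tendsto_sub_nhds_zero_iff.2 hB)
    have h3 : (fun x => A x) =O[𝓝 z] fun x => x - z := by simpa [h0] using h.isBigO_sub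
    have h4 : (fun x => (B x - B z) (A x)) =O[𝓝 z] fun x => ‖B x - B z‖ * ‖A x‖ :=
      Asymptotics.IsBigO.of_norm_le fun x => (B x - B z).le_opNorm _
    have h5 := (h4.trans_isLittleO (h2.norm_left.mul_isBigO h3.norm_norm)).congr_right
      (g₂ := fun x => ‖x - z‖) fun x => one_mul _
    simpa using h5
  have h6 := h1.add ((B z).hasFDerivAt.comp z h)
  rw [zero_add] at h6
  refine h6.congr_of_eventuallyEq (Eventually.of_forall fun x => ?_)
  simp

theorem uHat_eq_zero {F : Type} [NormedAddCommGroup F] [NormedSpace ℝ F] [FiniteDimensional ℝ F]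
    {L : Set E} {φ : F → E} {ψ : E → F} {a : ℝ × E → Cv E} {p : ℝ × E} (hp : p.2 ∈ L)
    (hc : Chart L p.2 φ ψ) (h0 : Van L p.2 (a p)) : uHat φ a (p.1, ψ p.2) = 0 := by
  refine ContinuousLinearMap.ext fun w => ?_
  have h := h0 (fderiv ℝ φ (ψ p.2) w.1, w.2) ⟨(hc.mem_tan hp _).2 ⟨_, rfl⟩, trivial⟩
  simpa [uHat, hc.self hp, Prod.map] using h

/-- The sign of a nondegenerate zero is the sign of a determinant, up to a constant which depends
only on the model space and on `j`. -/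
theorem locSign_chart (F : Type) [NormedAddCommGroup F] [NormedSpace ℝ F] [FiniteDimensional ℝ F]
    (j : Cv F ≃L[ℝ] (ℝ × F)) : ∃ c : ℤ, (c = 1 ∨ c = -1) ∧
      ∀ (E : Type) [NormedAddCommGroup E] [NormedSpace ℝ E] [FiniteDimensional ℝ E]
        (L : Set E) (φ : F → E) (ψ : E → F) (a : ℝ × E → Cv E) (p : ℝ × E)
        (D : (ℝ × F) →L[ℝ] Cv F), IsClosed L → p.2 ∈ L → Chart L p.2 φ ψ →
        ContinuousOn a (univ ×ˢ L) →
        HasFDerivAt (fun z : ℝ × F => (a (z.1, φ z.2)).comp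
          ((fderiv ℝ φ z.2).prodMap (ContinuousLinearMap.id ℝ ℝ))) D (p.1, ψ p.2) →
        Van L p.2 (a p) → ((j : Cv F →L[ℝ] (ℝ × F)).comp D).det ≠ 0 →
        LocSign L a p (c * (SignType.sign ((j : Cv F →L[ℝ] (ℝ × F)).comp D).det : ℤ)) := by
  obtain ⟨c, hc, h⟩ := u_locSign_chart j
  exact ⟨c, hc, fun E _ _ _ L φ ψ a p D h1 h2 h3 h4 h5 h6 h7 =>
    h E L φ ψ p a D h1 h2 h3 h4 h5 (uHat_eq_zero h2 h3 h6) h7⟩

/-- Version without determinants. -/
theorem locSign_ex {F : Type} [NormedAddCommGroup F] [NormedSpace ℝ F] [FiniteDimensional ℝ F]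
    {L : Set E} {φ : F → E} {ψ : E → F} {a : ℝ × E → Cv E} {p : ℝ × E}
    {D : (ℝ × F) →L[ℝ] Cv F} (hL : IsClosed L) (hp : p.2 ∈ L) (hc : Chart L p.2 φ ψ)
    (ha : ContinuousOn a (univ ×ˢ L))
    (hd : HasFDerivAt (fun z : ℝ × F => (a (z.1, φ z.2)).comp
      ((fderiv ℝ φ z.2).prodMap (ContinuousLinearMap.id ℝ ℝ))) D (p.1, ψ p.2))
    (h0 : Van L p.2 (a p)) (hi : Function.Injective D) : ∃ e : ℤ, LocSign L a p e :=
  u_locSign_inj hL hp hc ha hd (uHat_eq_zero hp hc h0) hi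

end Pool.Agent.Lib.MP_ccffa6_gt.U
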