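import Mathlib

/-! The profile with two critical points and the slow cut-off. -/

open Set
open scoped ContDiff

namespace Pool.Agent.Lib.MP_ccffa6_gt.U

structure Prof (f : ℝ → ℝ) : Prop where
  sm : ContDiff ℝ ∞ f
  far : ∀ τ, 3 ≤ |τ| → f τ = τ
  up : ∀ τ ∈ Icc (-2 : ℝ) (-1 / 2), f τ = 3 - (τ + 1) ^ 2
  mid : ∀ τ ∈ Icc (-1 / 4 : ℝ) (1 / 4), f τ = -5 * τ
  low : ∀ τ ∈ Icc (1 / 2 : ℝ) 2, f τ = -3 + (τ - 1) ^ 2
  pos : ∀ τ, 1 < |τ| → 0 < deriv f τ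
  neg : ∀ τ, |τ| < 1 → deriv f τ < 0

structure Cut (k : ℝ → ℝ) (R₁ : ℝ) : Prop where
  sm : ContDiff ℝ ∞ k
  lt : 20 ≤ R₁
  one : ∀ s, s ≤ 16 → k s = 1
  zero : ∀ s, R₁ ≤ s → k s = 0
  mem : ∀ s, k s ∈ Icc (0 : ℝ) 1
  slow : ∀ s, |deriv k s| ≤ 1 / 12

theorem prof_out {θ : ℝ → ℝ} {a b : ℝ} (h0 : ∀ τ, τ ≤ a → θ τ = 0) (h1 : ∀ τ, b ≤ τ → θ τ = 1)
    {τ : ℝ} (h : τ < a ∨ b < τ) : deriv θ τ = 0 := by
  rcases h with h | h
  · rw [Filter.EventuallyEq.deriv_eq (f := fun _ => 0)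
      ((gt_mem_nhds h).mono fun s hs => h0 s hs.le), deriv_const]
  · rw [Filter.EventuallyEq.deriv_eq (f := fun _ => 1)
      ((lt_mem_nhds h).mono fun s hs => h1 s hs.le), deriv_const]

/-- A smooth monotone step. -/
structure ProfStep (θ : ℝ → ℝ) (a b : ℝ) : Prop where
  sm : ContDiff ℝ ∞ θ
  zero : ∀ τ, τ ≤ a → θ τ = 0
  one : ∀ τ, b ≤ τ → θ τ = 1
  ge : ∀ τ, 0 ≤ θ τ
  le : ∀ τ, θ τ ≤ 1
  mono : ∀ τ, 0 ≤ deriv θ τ

theorem prof_step {a b : ℝ} (hab : a < b) : ∃ θ, ProfStep θ a b := by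
  have h := sub_pos.2 hab
  refine ⟨fun τ => Real.smoothTransition ((τ - a) / (b - a)),
    Real.smoothTransition.contDiff.comp ((contDiff_id.sub contDiff_const).div_const _),
    fun τ hτ => Real.smoothTransition.zero_of_nonpos
      (div_nonpos_of_nonpos_of_nonneg (sub_nonpos.2 hτ) h.le),
    fun τ hτ => Real.smoothTransition.one_of_one_le ((one_le_div h).2 (by linarith)),
    fun _ => Real.smoothTransition.nonneg _, fun _ => Real.smoothTransition.le_one _,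
    fun _ => Monotone.deriv_nonneg fun s t hst => Real.smoothTransition.monotone ?_⟩
  gcongr

theorem ProfStep.lo {θ : ℝ → ℝ} {a b : ℝ} (h : ProfStep θ a b) {τ : ℝ} (hτ : τ < a) :
    θ τ = 0 ∧ deriv θ τ = 0 := ⟨h.zero τ hτ.le, prof_out h.zero h.one (.inl hτ)⟩

theorem ProfStep.hi {θ : ℝ → ℝ} {a b : ℝ} (h : ProfStep θ a b) {τ : ℝ} (hτ : b < τ) :
    θ τ = 1 ∧ deriv θ τ = 0 := ⟨h.one τ hτ.le, prof_out h.zero h.one (.inr hτ)⟩

theorem ProfStep.der {θ : ℝ → ℝ} {a b : ℝ} (h : ProfStep θ a b) (τ : ℝ) :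
    HasDerivAt θ (deriv θ τ) τ := (h.sm.differentiable (by simp) τ).hasDerivAt

theorem ProfStep.sign {θ : ℝ → ℝ} {a b : ℝ} (h : ProfStep θ a b) {τ c : ℝ}
    (hc : a ≤ τ → τ ≤ b → 0 ≤ c) : 0 ≤ deriv θ τ * c := by
  rcases lt_or_ge τ a with h1 | h1
  · rw [(h.lo h1).2, zero_mul]
  rcases lt_or_ge b τ with h2 | h2
  · rw [(h.hi h2).2, zero_mul]
  exact mul_nonneg (h.mono τ) (hc h1 h2)

theorem ProfStep.mix {θ : ℝ → ℝ} {a b : ℝ} (h : ProfStep θ a b) (τ : ℝ) {p q : ℝ} (hp : 0 < p)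
    (hq : 0 < q) : 0 < (1 - θ τ) * p + θ τ * q := by
  rcases (h.ge τ).eq_or_lt with e | e
  · rw [← e]
    linarith
  · exact add_pos_of_nonneg_of_pos (mul_nonneg (sub_nonneg.2 (h.le τ)) hp.le) (mul_pos e hq)

/-- With `p₂ = 3 - (τ+1)²`, `p₃ = -3 + (τ-1)²` and `θ₁ … θ₄` smooth transitions on `[-3,-2]`,
`[-1/2,-1/4]`, `[1/4,1/2]`, `[2,3]` (`Real.smoothTransition`, monotone, so `θ' ≥ 0`):
`f = τ + θ₁ (p₂ - τ) + θ₂ (-5τ - p₂) + θ₃ (p₃ + 5τ) + θ₄ (τ - p₃)`. On each transition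
`f' = (1-θ) g' + θ h' + θ' (h - g)` and `h - g` has the sign of `g'`, `h'`. -/
theorem exists_prof : ∃ f, Prof f := by
  obtain ⟨θ₁, h₁⟩ := prof_step (a := -3) (b := -2) (by norm_num)
  obtain ⟨θ₂, h₂⟩ := prof_step (a := -1 / 2) (b := -1 / 4) (by norm_num)
  obtain ⟨θ₃, h₃⟩ := prof_step (a := 1 / 4) (b := 1 / 2) (by norm_num)
  obtain ⟨θ₄, h₄⟩ := prof_step (a := 2) (b := 3) (by norm_num)
  let f : ℝ → ℝ := fun τ => τ + θ₁ τ * (2 - 3 * τ - τ * τ) + θ₂ τ * (τ * τ - 3 * τ - 2) +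
    θ₃ τ * (τ * τ + 3 * τ - 2) + θ₄ τ * (2 + 3 * τ - τ * τ)
  have hd : ∀ τ, deriv f τ = 1 + (deriv θ₁ τ * (2 - 3 * τ - τ * τ) + θ₁ τ * (-3 - 2 * τ)) +
      (deriv θ₂ τ * (τ * τ - 3 * τ - 2) + θ₂ τ * (2 * τ - 3)) +
      (deriv θ₃ τ * (τ * τ + 3 * τ - 2) + θ₃ τ * (2 * τ + 3)) +
      (deriv θ₄ τ * (2 + 3 * τ - τ * τ) + θ₄ τ * (3 - 2 * τ)) := fun τ => by
    have i := hasDerivAt_id' τ
    have q := i.fun_mul i
    have l := i.const_mul 3
    refine ((((i.fun_add ((h₁.der τ).fun_mul ((l.const_sub 2).fun_sub q))).fun_add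
      ((h₂.der τ).fun_mul ((q.fun_sub l).sub_const 2))).fun_add
      ((h₃.der τ).fun_mul ((q.fun_add l).sub_const 2))).fun_add
      ((h₄.der τ).fun_mul ((l.const_add 2).fun_sub q))).deriv.trans ?_
    ring
  have s₁ := h₁.sm
  have s₂ := h₂.sm
  have s₃ := h₃.sm
  have s₄ := h₄.sm
  refine ⟨f, by fun_prop, fun τ h => ?_, fun τ h => ?_, fun τ h => ?_, fun τ h => ?_,
    fun τ h => ?_, fun τ h => ?_⟩
  · rcases le_abs'.1 h with h | h
    · simp only [f, h₁.zero τ h, h₂.zero τ (by linarith), h₃.zero τ (by linarith),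
        h₄.zero τ (by linarith)]
      ring
    · simp only [f, h₁.one τ (by linarith), h₂.one τ (by linarith), h₃.one τ (by linarith),
        h₄.one τ h]
      ring
  · simp only [f, h₁.one τ h.1, h₂.zero τ h.2, h₃.zero τ (by linarith [h.2]),
      h₄.zero τ (by linarith [h.2])]
    ring
  · simp only [f, h₁.one τ (by linarith [h.1]), h₂.one τ h.1, h₃.zero τ h.2,
      h₄.zero τ (by linarith [h.2])]
    ring
  · simp only [f, h₁.one τ (by linarith [h.1]), h₂.one τ (by linarith [h.1]), h₃.one τ h.1,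
      h₄.zero τ h.2]
    ring
  · rw [hd]
    rcases lt_abs.1 h with h | h
    · obtain ⟨a1, b1⟩ := h₁.hi (τ := τ) (by linarith)
      obtain ⟨a2, b2⟩ := h₂.hi (τ := τ) (by linarith)
      obtain ⟨a3, b3⟩ := h₃.hi (τ := τ) (by linarith)
      have c1 := h₄.sign (τ := τ) (c := 2 + 3 * τ - τ * τ) fun _ _ => by nlinarith
      have c2 := h₄.mix τ (p := 2 * (τ - 1)) (q := 1) (by linarith) one_pos
      rw [a1, b1, a2, b2, a3, b3]
      linarith
    · obtain ⟨a2, b2⟩ := h₂.lo (τ := τ) (by linarith)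
      obtain ⟨a3, b3⟩ := h₃.lo (τ := τ) (by linarith)
      obtain ⟨a4, b4⟩ := h₄.lo (τ := τ) (by linarith)
      have c1 := h₁.sign (τ := τ) (c := 2 - 3 * τ - τ * τ) fun _ _ => by nlinarith
      have c2 := h₁.mix τ (p := 1) (q := -2 * (τ + 1)) one_pos (by linarith)
      rw [a2, b2, a3, b3, a4, b4]
      linarith
  · rw [hd]
    obtain ⟨k1, k2⟩ := abs_lt.1 h
    obtain ⟨a1, b1⟩ := h₁.hi (τ := τ) (by linarith)
    obtain ⟨a4, b4⟩ := h₄.lo (τ := τ) (by linarith)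
    rw [a1, b1, a4, b4]
    rcases le_total τ 0 with h | h
    · obtain ⟨a3, b3⟩ := h₃.lo (τ := τ) (by linarith)
      have c1 := h₂.sign (τ := τ) (c := -(τ * τ - 3 * τ - 2)) fun _ _ => by nlinarith
      have c2 := h₂.mix τ (p := 2 * (τ + 1)) (q := 5) (by linarith) (by norm_num)
      rw [a3, b3]
      linarith
    · obtain ⟨a2, b2⟩ := h₂.hi (τ := τ) (by linarith)
      have c1 := h₃.sign (τ := τ) (c := -(τ * τ + 3 * τ - 2)) fun _ _ => by nlinarith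
      have c2 := h₃.mix τ (p := 5) (q := 2 * (1 - τ)) (by norm_num) (by linarith)
      rw [a2, b2]
      linarith

/-- `k s = smoothTransition ((R₁ - s) / (R₁ - 16))`; the derivative of `smoothTransition` is
bounded (continuous with compact support). -/
theorem exists_cut : ∃ k R₁, Cut k R₁ := by
  obtain ⟨θ, h⟩ := prof_step (a := 0) (b := 1) one_pos
  obtain ⟨B, hB⟩ := isCompact_Icc.exists_bound_of_continuousOn (s := Icc (0 : ℝ) 1)
    (h.sm.continuous_deriv (by simp)).continuousOn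
  have B0 : 0 ≤ B := (norm_nonneg _).trans (hB 0 ⟨le_rfl, zero_le_one⟩)
  have hB' : ∀ s, |deriv θ s| ≤ B := fun s => by
    rcases lt_or_ge s 0 with h1 | h1
    · rwa [(h.lo h1).2, abs_zero]
    rcases lt_or_ge 1 s with h2 | h2
    · rwa [(h.hi h2).2, abs_zero]
    exact hB s ⟨h1, h2⟩
  have hp : 0 < 4 + 12 * B := by positivity
  refine ⟨fun s => θ ((20 + 12 * B - s) / (4 + 12 * B)), 20 + 12 * B,
    h.sm.comp ((contDiff_const.sub contDiff_id).div_const _), by linarith,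
    fun s hs => h.one _ ((one_le_div hp).2 (by linarith)),
    fun s hs => h.zero _ (div_nonpos_of_nonpos_of_nonneg (sub_nonpos.2 hs) hp.le),
    fun s => ⟨h.ge _, h.le _⟩, fun s => ?_⟩
  have e := ((h.der _).comp s
    (((hasDerivAt_id' s).const_sub (20 + 12 * B)).div_const (4 + 12 * B))).deriv
  rw [show deriv (fun s => θ ((20 + 12 * B - s) / (4 + 12 * B))) s = _ from e, abs_mul, abs_div,
    abs_neg, abs_one, abs_of_pos hp, mul_one_div, div_le_iff₀ hp]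
  linarith [hB' ((20 + 12 * B - s) / (4 + 12 * B))]

theorem prof_mono {f : ℝ → ℝ} (h : Prof f) : StrictMonoOn f (Iic (-1)) ∧
    StrictAntiOn f (Icc (-1) 1) ∧ StrictMonoOn f (Ici 1) := by
  have c := h.sm.continuous
  refine ⟨strictMonoOn_of_deriv_pos (convex_Iic _) c.continuousOn fun x hx => h.pos x ?_,
    strictAntiOn_of_deriv_neg (convex_Icc _ _) c.continuousOn fun x hx => h.neg x ?_,
    strictMonoOn_of_deriv_pos (convex_Ici _) c.continuousOn fun x hx => h.pos x ?_⟩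
  · rw [interior_Iic, mem_Iio] at hx
    exact lt_abs.2 (.inr (by linarith))
  · rw [interior_Icc] at hx
    exact abs_lt.2 hx
  · rw [interior_Ici] at hx
    exact lt_abs.2 (.inl hx)

theorem prof_val {f : ℝ → ℝ} (h : Prof f) : f (-3) = -3 ∧ f (-1) = 3 ∧ f 1 = -3 ∧ f 3 = 3 :=
  ⟨h.far _ (by norm_num), (h.up _ (by norm_num)).trans (by norm_num),
    (h.low _ (by norm_num)).trans (by norm_num), h.far _ (by norm_num)⟩

theorem Prof.le_three {f : ℝ → ℝ} (h : Prof f) {τ : ℝ} (hτ : τ ≤ 3) : f τ ≤ 3 := by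
  obtain ⟨m1, m2, m3⟩ := prof_mono h
  obtain ⟨-, v2, -, v4⟩ := prof_val h
  rcases le_total τ (-1) with h1 | h1
  · exact (m1.monotoneOn h1 self_mem_Iic h1).trans v2.le
  rcases le_total τ 1 with h2 | h2
  · exact (m2.antitoneOn (by norm_num) ⟨h1, h2⟩ h1).trans v2.le
  · exact (m3.monotoneOn h2 (by norm_num) hτ).trans v4.le

theorem Prof.ge_three {f : ℝ → ℝ} (h : Prof f) {τ : ℝ} (hτ : -3 ≤ τ) : -3 ≤ f τ := by
  obtain ⟨m1, m2, m3⟩ := prof_mono h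
  obtain ⟨v1, -, v3, -⟩ := prof_val h
  rcases le_total τ (-1) with h1 | h1
  · exact v1.ge.trans (m1.monotoneOn (by norm_num) h1 hτ)
  rcases le_total τ 1 with h2 | h2
  · exact v3.ge.trans (m2.antitoneOn ⟨h1, h2⟩ (by norm_num) h2)
  · exact v3.ge.trans (m3.monotoneOn self_mem_Ici h2 h2)

theorem Prof.abs_le {f : ℝ → ℝ} (h : Prof f) (τ : ℝ) : |τ - f τ| ≤ 6 := by
  rcases le_total 3 |τ| with h1 | h1
  · rw [h.far τ h1, sub_self, abs_zero]
    norm_num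
  · obtain ⟨h2, h3⟩ := _root_.abs_le.1 h1
    exact _root_.abs_le.2 ⟨by linarith [h.le_three h3], by linarith [h.ge_three h2]⟩

theorem Prof.anti {f : ℝ → ℝ} (h : Prof f) : StrictAntiOn f (Icc (-1) 1) :=
  (prof_mono h).2.1

theorem Prof.deriv_far {f : ℝ → ℝ} (h : Prof f) {τ : ℝ} (hτ : 3 < |τ|) : deriv f τ = 1 := by
  rw [Filter.EventuallyEq.deriv_eq (f := fun s => s)
    ((continuous_abs.continuousAt.eventually (lt_mem_nhds hτ)).mono fun s hs => h.far s hs.le),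
    deriv_id'']

theorem Prof.deriv_mid {f : ℝ → ℝ} (h : Prof f) {τ : ℝ} (hτ : |τ| < 1 / 4) :
    deriv f τ = -5 := by
  rw [Filter.EventuallyEq.deriv_eq (f := fun s => -5 * s)
    ((continuous_abs.continuousAt.eventually (gt_mem_nhds hτ)).mono fun s hs =>
      h.mid s ⟨by linarith [(abs_lt.1 hs).1], (abs_lt.1 hs).2.le⟩),
    ((hasDerivAt_id' τ).const_mul (-5)).deriv, mul_one]

theorem Prof.deriv_zero {f : ℝ → ℝ} (h : Prof f) {τ : ℝ} (hτ : |τ| = 1) : deriv f τ = 0 := by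
  obtain ⟨-, v2, v3, -⟩ := prof_val h
  rcases (abs_eq zero_le_one).1 hτ with rfl | rfl
  · exact IsLocalMin.deriv_eq_zero ((lt_mem_nhds (show (-3 : ℝ) < 1 by norm_num)).mono
      fun s hs => v3.le.trans (h.ge_three hs.le))
  · exact IsLocalMax.deriv_eq_zero ((gt_mem_nhds (show (-1 : ℝ) < 3 by norm_num)).mono
      fun s hs => (h.le_three hs.le).trans v2.ge)

theorem Cut.deriv_one {k : ℝ → ℝ} {R₁ : ℝ} (h : Cut k R₁) {s : ℝ} (hs : s < 16) :
    deriv k s = 0 := by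
  rw [Filter.EventuallyEq.deriv_eq (f := fun _ => 1)
    ((gt_mem_nhds hs).mono fun t ht => h.one t ht.le), deriv_const]

end Pool.Agent.Lib.MP_ccffa6_gt.U
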