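import Pool.Agent.Lib.MP_ccffa6_gt.Defs
import Pool.Agent.Lib.MP_ccffa6_gt.U.Prof

/-! The model function on `ℝ^p × ℝ^q × ℝ`: with `τ = T - Q w` it is
`T - (τ - f τ) k(|w|²)`, and `Q w + f τ` for `|w|² ≤ 16`. -/

open Set Filter Topology
open scoped ContDiff RealInnerProductSpace

noncomputable section

namespace Pool.Agent.Lib.MP_ccffa6_gt.U

abbrev Fm (p q : ℕ) : Type := Rd p × Rd q

variable {p q : ℕ}

def Qf (w : Fm p q) : ℝ := -‖w.1‖ ^ 2 + ‖w.2‖ ^ 2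

def Nf (w : Fm p q) : ℝ := ‖w.1‖ ^ 2 + ‖w.2‖ ^ 2

def tau (z : Fm p q × ℝ) : ℝ := z.2 - Qf z.1

def Gm (f k : ℝ → ℝ) (z : Fm p q × ℝ) : ℝ := (tau z - f (tau z)) * k (Nf z.1)

def Fmod (f k : ℝ → ℝ) (z : Fm p q × ℝ) : ℝ := z.2 - Gm f k z

variable {f k : ℝ → ℝ} {R₁ : ℝ}

theorem contDiff_Qf : ContDiff ℝ ∞ (Qf : Fm p q → ℝ) := 
  (contDiff_fst.norm_sq ℝ).neg.add (contDiff_snd.norm_sq ℝ)

theorem contDiff_Nf : ContDiff ℝ ∞ (Nf : Fm p q → ℝ) := 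
  (contDiff_fst.norm_sq ℝ).add (contDiff_snd.norm_sq ℝ)

theorem contDiff_tau : ContDiff ℝ ∞ (tau : Fm p q × ℝ → ℝ) := 
  contDiff_snd.sub (contDiff_Qf.comp contDiff_fst)

theorem fderiv_Qf (w v : Fm p q) : fderiv ℝ Qf w v = -2 * ⟪w.1, v.1⟫ + 2 * ⟪w.2, v.2⟫ := by
  have h : HasFDerivAt Qf _ w := (hasFDerivAt_fst (𝕜 := ℝ) (p := w)).norm_sq.neg.add
    (hasFDerivAt_snd (𝕜 := ℝ) (p := w)).norm_sq
  rw [h.fderiv]
  simp

theorem model_fderiv_Nf (w v : Fm p q) :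
    fderiv ℝ Nf w v = 2 * ⟪w.1, v.1⟫ + 2 * ⟪w.2, v.2⟫ := by
  have h : HasFDerivAt Nf _ w := (hasFDerivAt_fst (𝕜 := ℝ) (p := w)).norm_sq.add
    (hasFDerivAt_snd (𝕜 := ℝ) (p := w)).norm_sq
  rw [h.fderiv]
  simp



theorem abs_Qf_le (w : Fm p q) : |Qf w| ≤ Nf w := by
  have h1 := sq_nonneg ‖w.1‖
  have h2 := sq_nonneg ‖w.2‖
  unfold Qf Nf
  exact abs_le.2 ⟨by linarith, by linarith⟩

theorem norm_sq_le_Nf (w : Fm p q) : ‖w‖ ^ 2 ≤ Nf w := by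
  have h1 := sq_nonneg ‖w.1‖
  have h2 := sq_nonneg ‖w.2‖
  unfold Nf
  rw [Prod.norm_def]
  rcases max_choice ‖w.1‖ ‖w.2‖ with h | h <;> rw [h] <;> linarith

theorem Nf_le (w : Fm p q) : Nf w ≤ 2 * ‖w‖ ^ 2 := by
  have h1 := pow_le_pow_left₀ (norm_nonneg _) (norm_fst_le w) 2
  have h2 := pow_le_pow_left₀ (norm_nonneg _) (norm_snd_le w) 2
  unfold Nf
  linarith

theorem contDiff_Gm (hf : Prof f) (hk : Cut k R₁) :
    ContDiff ℝ ∞ (Gm f k : Fm p q × ℝ → ℝ) := 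
  (contDiff_tau.sub (hf.sm.comp contDiff_tau)).mul (hk.sm.comp (contDiff_Nf.comp contDiff_fst))

theorem contDiff_Fmod (hf : Prof f) (hk : Cut k R₁) :
    ContDiff ℝ ∞ (Fmod f k : Fm p q × ℝ → ℝ) := 
  contDiff_snd.sub (contDiff_Gm hf hk)

theorem Gm_out (hk : Cut k R₁) {z : Fm p q × ℝ} (h : R₁ ≤ Nf z.1) : Gm f k z = 0 := by
  rw [Gm, hk.zero _ h, mul_zero]

theorem Gm_out' (hk : Cut k R₁) {z : Fm p q × ℝ} (h : R₁ ≤ ‖z.1‖) : Gm f k z = 0 := by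
  have h1 := hk.lt
  exact Gm_out hk (le_trans (by nlinarith) (norm_sq_le_Nf z.1))

theorem Gm_far (hf : Prof f) (hk : Cut k R₁) {z : Fm p q × ℝ} (h : R₁ + 3 ≤ |z.2|) :
    Gm f k z = 0 := by
  rcases le_total R₁ (Nf z.1) with h1 | h1
  · exact Gm_out hk h1
  · have h2 := abs_Qf_le z.1
    have h3 : |z.2| - |Qf z.1| ≤ |tau z| := abs_sub_abs_le_abs_sub _ _
    rw [Gm, hf.far _ (by linarith), sub_self, zero_mul]

theorem abs_Gm_le (hf : Prof f) (hk : Cut k R₁) (z : Fm p q × ℝ) : |Gm f k z| ≤ 6 := by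
  have h := hk.mem (Nf z.1)
  rw [Gm, abs_mul, abs_of_nonneg h.1]
  exact (mul_le_of_le_one_right (abs_nonneg _) h.2).trans (hf.abs_le _)

theorem Fmod_pure (hk : Cut k R₁) {z : Fm p q × ℝ} (h : Nf z.1 ≤ 16) :
    Fmod f k z = Qf z.1 + f (tau z) := by
  rw [Fmod, Gm, hk.one _ h, mul_one]
  unfold tau
  ring

theorem fderiv_Fmod (hf : Prof f) (hk : Cut k R₁) (z v : Fm p q × ℝ) :
    fderiv ℝ (Fmod f k) z v =
      v.2 - ((1 - deriv f (tau z)) * (v.2 - (-2 * ⟪z.1.1, v.1.1⟫ + 2 * ⟪z.1.2, v.1.2⟫)) * k (Nf z.1) +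
        (tau z - f (tau z)) * (deriv k (Nf z.1) * (2 * ⟪z.1.1, v.1.1⟫ + 2 * ⟪z.1.2, v.1.2⟫))) := by
  have hQ := ((contDiff_Qf (p := p) (q := q)).differentiable (by simp) z.1).hasFDerivAt.comp z
    (hasFDerivAt_fst (𝕜 := ℝ) (p := z))
  have hN := ((contDiff_Nf (p := p) (q := q)).differentiable (by simp) z.1).hasFDerivAt.comp z
    (hasFDerivAt_fst (𝕜 := ℝ) (p := z))
  have ht : HasFDerivAt tau _ z := (hasFDerivAt_snd (𝕜 := ℝ) (p := z)).sub hQ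
  have h1 := (hf.sm.differentiable (by simp) (tau z)).hasDerivAt.comp_hasFDerivAt z ht
  have h2 := (hk.sm.differentiable (by simp) (Nf z.1)).hasDerivAt.comp_hasFDerivAt z hN
  have h : HasFDerivAt (Fmod f k) _ z :=
    (hasFDerivAt_snd (𝕜 := ℝ) (p := z)).sub ((ht.sub h1).mul h2)
  rw [h.fderiv]
  simp only [sub_apply, add_apply, smul_apply,
    ContinuousLinearMap.comp_apply, ContinuousLinearMap.coe_fst',
    ContinuousLinearMap.coe_snd', fderiv_Qf, model_fderiv_Nf, smul_eq_mul, Function.comp_apply,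
    Pi.sub_apply]
  ring

/-- Where `dF` is a nonpositive multiple of `dT`. `(1 - f') k ≥ 1 > 1/2 ≥ |(τ - f τ) k'|`; test
with `v = (z.1.1, 0)` and `v = (0, z.1.2)`. -/
theorem Fmod_ray (hf : Prof f) (hk : Cut k R₁) {z : Fm p q × ℝ}
    (h : ∀ v : Fm p q, fderiv ℝ (Fmod f k) z (v, 0) = 0) (h' : fderiv ℝ (Fmod f k) z (0, 1) ≤ 0) :
    z.1 = 0 ∧ |z.2| ≤ 1 := by
  have h1 := h (z.1.1, 0)
  have h2 := h (0, z.1.2)
  rw [fderiv_Fmod hf hk] at h' h1 h2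
  simp only [Prod.fst_zero, Prod.snd_zero, inner_zero_right, real_inner_self_eq_norm_sq] at h' h1 h2
  have hB : |(tau z - f (tau z)) * deriv k (Nf z.1)| ≤ 6 * (1 / 12) := by
    rw [abs_mul]
    exact mul_le_mul (hf.abs_le _) (hk.slow _) (abs_nonneg _) (by norm_num)
  obtain ⟨b1, b2⟩ := abs_le.1 hB
  have hA : 1 ≤ (1 - deriv f (tau z)) * k (Nf z.1) := by linarith
  have a1 : ‖z.1.1‖ ^ 2 = 0 := (mul_eq_zero.1 (show ((1 - deriv f (tau z)) * k (Nf z.1) +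
    (tau z - f (tau z)) * deriv k (Nf z.1)) * ‖z.1.1‖ ^ 2 = 0 by linarith)).resolve_left
      (by linarith)
  have a2 : ‖z.1.2‖ ^ 2 = 0 := (mul_eq_zero.1 (show ((1 - deriv f (tau z)) * k (Nf z.1) -
    (tau z - f (tau z)) * deriv k (Nf z.1)) * ‖z.1.2‖ ^ 2 = 0 by linarith)).resolve_left
      (by linarith)
  have ht : tau z = z.2 := by rw [tau, Qf, a1, a2]; ring
  rw [ht, Nf, a1, a2, hk.one _ (by norm_num)] at hA
  refine ⟨Prod.ext (by simpa using a1) (by simpa using a2), not_lt.1 fun h3 => ?_⟩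
  linarith [hf.pos _ h3]

theorem fderiv_Fmod_axis (hf : Prof f) (hk : Cut k R₁) (T : ℝ) (v : Fm p q × ℝ) :
    fderiv ℝ (Fmod f k) (0, T) v = deriv f T * v.2 := by
  rw [fderiv_Fmod hf hk]
  simp only [tau, Qf, Nf, Prod.fst_zero, Prod.snd_zero, inner_zero_left, norm_zero]
  norm_num [hk.one 0 (by norm_num)]
  ring

theorem model_axis (hk : Cut k R₁) (T : ℝ) : Fmod f k ((0 : Fm p q), T) = f T := by
  rw [Fmod_pure hk (by simp [Nf])]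
  simp [tau, Qf]



theorem Fmod_crit (hf : Prof f) (hk : Cut k R₁) {z : Fm p q × ℝ}
    (h : fderiv ℝ (Fmod f k) z = 0) (h0 : 0 ≤ Fmod f k z) : z = (0, -1) := by
  obtain ⟨h1, h2⟩ := Fmod_ray hf hk (z := z) (fun v => by simp [h]) (by simp [h])
  obtain ⟨w, T⟩ := z
  obtain rfl : w = 0 := h1
  have h3 := fderiv_Fmod_axis (p := p) (q := q) hf hk T (0, 1)
  rw [h, mul_one] at h3
  have h4 : |T| = 1 := le_antisymm h2 (not_lt.1 fun h5 => (hf.neg _ h5).ne h3.symm)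
  rcases abs_eq zero_le_one |>.1 h4 with rfl | rfl
  · rw [model_axis hk, hf.low 1 ⟨by norm_num, by norm_num⟩] at h0
    norm_num at h0
  · rfl

/-- On the zero level there is one such point. -/
theorem Fmod_ray_zero (hf : Prof f) (hk : Cut k R₁) {z : Fm p q × ℝ} (h0 : Fmod f k z = 0)
    (h : ∀ v : Fm p q, fderiv ℝ (Fmod f k) z (v, 0) = 0) (h' : fderiv ℝ (Fmod f k) z (0, 1) ≤ 0) :
    z = 0 := by
  obtain ⟨h1, h2⟩ := Fmod_ray hf hk h h'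
  obtain ⟨w, T⟩ := z
  obtain rfl : w = 0 := h1
  rw [model_axis hk] at h0
  obtain rfl : T = 0 := hf.anti.injOn (abs_le.1 h2) ⟨by norm_num, by norm_num⟩
    (by rw [h0, hf.mid 0 ⟨by norm_num, by norm_num⟩, mul_zero])
  rfl

theorem Fmod_up (hf : Prof f) (hk : Cut k R₁) {w : Fm p q} (hw : Nf w ≤ 16) {σ : ℝ}
    (hσ : |σ| ≤ 1 / 2) : Fmod f k (w, σ - 1 + Qf w) = 3 - (‖w.1‖ ^ 2 + σ ^ 2) + ‖w.2‖ ^ 2 := by
  obtain ⟨h1, h2⟩ := abs_le.1 hσ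
  have ht : tau (w, σ - 1 + Qf w) = σ - 1 := add_sub_cancel_right _ _
  rw [Fmod_pure (z := (w, σ - 1 + Qf w)) hk hw, ht, hf.up _ ⟨by linarith, by linarith⟩]
  simp only [Qf]
  ring

/-- Near the axis the zero level is the graph `T = (6/5) Q w`. -/
theorem Fmod_mid (hf : Prof f) (hk : Cut k R₁) {z : Fm p q × ℝ} (hw : Nf z.1 ≤ 16)
    (hτ : |tau z| ≤ 1 / 4) : Fmod f k z = 6 * Qf z.1 - 5 * z.2 := by
  obtain ⟨h1, h2⟩ := abs_le.1 hτ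
  rw [Fmod_pure hk hw, hf.mid _ ⟨by linarith, h2⟩]
  unfold tau
  ring

end Pool.Agent.Lib.MP_ccffa6_gt.U
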