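import Pool.Agent.Lib.MP_ccffa6_gt.U.Slab

/-! Morse charts at the critical point, charts of the middle level. -/

open Set Filter Topology
open scoped ContDiff

noncomputable section

namespace Pool.Agent.Lib.MP_ccffa6_gt.U

variable {E : Type} [NormedAddCommGroup E] [NormedSpace ℝ E] [FiniteDimensional ℝ E]

variable {n p q : ℕ} {M : Set E} {φ : Fm p q → E} {ψ : E → Fm p q} {ρ : E → ℝ} {f k : ℝ → ℝ}
  {R₁ : ℝ}

/-- A linear isometry in the sense of squares of norms. -/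
theorem exists_snoc (p : ℕ) : ∃ e : Rd (p + 1) ≃L[ℝ] (Rd p × ℝ),
    ∀ a, ‖a‖ ^ 2 = ‖(e a).1‖ ^ 2 + (e a).2 ^ 2 := by
  let l : Rd (p + 1) →ₗ[ℝ] Rd p × ℝ :=
    { toFun := fun a => (WithLp.toLp 2 fun i => a i.castSucc, a (Fin.last p))
      map_add' := fun x y => by ext <;> simp
      map_smul' := fun c x => by ext <;> simp }
  have hl : Function.Injective l := fun x y h => by
    ext i
    exact Fin.lastCases (congrArg Prod.snd h) (fun j => congrArg (fun z => z.1 j) h) i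
  refine ⟨(l.linearEquivOfInjective hl (by simp)).toContinuousLinearEquiv, fun a => ?_⟩
  rw [EuclideanSpace.real_norm_sq_eq, EuclideanSpace.real_norm_sq_eq, Fin.sum_univ_castSucc]
  rfl

omit [NormedSpace ℝ E] [FiniteDimensional ℝ E] in
theorem morse_fst {S : Set (E × ℝ)} (h : ∀ y ∈ S, y.1 ∈ M) (z : E × ℝ) :
    Tendsto Prod.fst (𝓝[S] z) (𝓝[M] z.1) :=
  continuousWithinAt_fst.tendsto_nhdsWithin h

/-- The chart of `M × ℝ` at the critical point. -/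
theorem Mod.chart_up (h : Mod n M φ ψ ρ f k R₁) :
    Chart (M ×ˢ (univ : Set ℝ)) (φ 0, -1)
      (fun z : Fm p q × ℝ => (φ z.1, z.2 - 1 + Qf z.1))
      (fun z : E × ℝ => (ψ z.1, z.2 + 1 - Qf (ψ z.1))) := by
  have hc := h.bc.chart 0 (by rw [norm_zero]; linarith [h.ct.lt])
  refine ⟨(hc.smφ.comp contDiff_fst).prodMk
      ((contDiff_snd.sub contDiff_const).add (contDiff_Qf.comp contDiff_fst)),
    (hc.smψ.comp contDiff_fst).prodMk ((contDiff_snd.add contDiff_const).sub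
      (contDiff_Qf.comp (hc.smψ.comp contDiff_fst))),
    ((morse_fst (fun _ hy => hy.1) _).eventually hc.left).mono fun y hy => Prod.ext hy (by ring),
    ((continuous_fst.tendsto _).eventually hc.right).mono fun z hz =>
      ⟨⟨hz.1, trivial⟩, Prod.ext hz.2 ?_⟩⟩
  simp only [hz.2]
  ring

theorem morse_equiv (p q : ℕ) : ∃ A : (Rd (p + 1) × Rd q) ≃L[ℝ] (Fm p q × ℝ),
    ∀ z, ‖z.1‖ ^ 2 = ‖(A z).1.1‖ ^ 2 + (A z).2 ^ 2 ∧ (A z).1.2 = z.2 := by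
  obtain ⟨e, he⟩ := exists_snoc p
  exact ⟨(e.prodCongr (.refl ℝ _)).trans ((ContinuousLinearEquiv.prodAssoc ℝ _ _ _).trans
    (((ContinuousLinearEquiv.refl ℝ _).prodCongr (.prodComm ℝ _ _)).trans
      (ContinuousLinearEquiv.prodAssoc ℝ _ _ _).symm)), fun z => ⟨he z.1, rfl⟩⟩

theorem morse_chart (h : Mod n M φ ψ ρ f k R₁) {G : Type} [NormedAddCommGroup G] [NormedSpace ℝ G]
    [FiniteDimensional ℝ G] (A : G ≃L[ℝ] (Fm p q × ℝ)) :
    ∃ (Φ : G → E × ℝ) (Ψ : E × ℝ → G), Chart (M ×ˢ (univ : Set ℝ)) (φ 0, -1) Φ Ψ ∧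
      Ψ (φ 0, -1) = 0 ∧ ∀ᶠ z in 𝓝 (0 : G), Fg ψ ρ f k (Φ z) = Fg ψ ρ f k (φ 0, -1) -
        (‖(A z).1.1‖ ^ 2 + (A z).2 ^ 2) + ‖(A z).1.2‖ ^ 2 := by
  have hR := h.ct.lt
  have h1 : ∀ z : Fm p q × ℝ, ‖z‖ ≤ 1 / 2 → Fg ψ ρ f k (φ z.1, z.2 - 1 + Qf z.1) =
      3 - (‖z.1.1‖ ^ 2 + z.2 ^ 2) + ‖z.1.2‖ ^ 2 := fun z hz => by
    have a1 := (norm_fst_le z).trans hz
    rw [h.in_eq (by linarith), Fmod_up h.pf h.ct
      (by nlinarith [Nf_le z.1, norm_nonneg z.1]) ((norm_snd_le z).trans hz)]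
  have h2 : Fg ψ ρ f k (φ 0, -1) = 3 := by simpa [Qf] using h1 0 (by simp)
  refine ⟨_, _, tan_equiv h.chart_up A.symm, ?_, ?_⟩
  · simp [h.bc.inv 0 (by rw [norm_zero]; linarith), Qf, Prod.mk_zero_zero]
  · have h3 : ∀ᶠ z in 𝓝 (0 : G), ‖A z‖ < 1 / 2 :=
      A.continuous.norm.continuousAt.eventually_lt continuousAt_const (by simp)
    exact h3.mono fun z hz => h2 ▸ h1 (A z) hz.le

/-- The index of the critical point is `p + 1`. -/
theorem Mod.morse (h : Mod n M φ ψ ρ f k R₁) :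
    MorseLe (p + 1) (M ×ˢ univ) (Fg ψ ρ f k) 0 (R₁ + 10) := by
  rintro x ⟨hx, h0, -⟩ hc
  obtain rfl := h.crit hx.1 h0 (tan_cyl h.cl.sub hx.1 ▸ hc)
  obtain ⟨A, hA⟩ := morse_equiv p q
  obtain ⟨Φ, Ψ, h1, h2, h3⟩ := morse_chart h A
  refine ⟨p + 1, q, Φ, Ψ, le_rfl, h1, h2, h3.mono fun z hz => ?_⟩
  rw [hz, (hA z).1, (hA z).2]

theorem Mod.morse_neg (h : Mod n M φ ψ ρ f k R₁) :
    MorseLe q (M ×ˢ univ) (fun z => -Fg ψ ρ f k z) (-(R₁ + 10)) (-0) := by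
  rintro x ⟨hx, -, h0⟩ hc
  obtain rfl := h.crit hx.1 (neg_le_neg_iff.1 h0) fun v hv => by
    have := hc v (tan_cyl h.cl.sub hx.1 ▸ hv)
    rwa [fderiv_fun_neg, neg_apply, neg_eq_zero] at this
  obtain ⟨A, hA⟩ := morse_equiv p q
  obtain ⟨Φ, Ψ, h1, h2, h3⟩ := morse_chart h ((ContinuousLinearEquiv.prodComm ℝ _ _).trans A)
  refine ⟨q, p + 1, Φ, Ψ, le_rfl, h1, h2, h3.mono fun z hz => ?_⟩
  have a1 : ‖z.2‖ ^ 2 = _ := (hA z.swap).1
  have a2 : _ = z.1 := (hA z.swap).2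
  have a3 : ((ContinuousLinearEquiv.prodComm ℝ _ _).trans A) z = A z.swap := rfl
  simp only [hz, a3, a1, a2]
  ring

/-- Chart of the middle level near the axis (`Fmod_mid`). -/
theorem Mod.chart_mid (h : Mod n M φ ψ ρ f k R₁) {w : Fm p q} (hw : Nf w < 5 / 4) :
    (φ w, 6 / 5 * Qf w) ∈ M1 M ψ ρ f k ∧
      Chart (M1 M ψ ρ f k) (φ w, 6 / 5 * Qf w) (fun w' => (φ w', 6 / 5 * Qf w'))
        (fun z => ψ z.1) := by
  have hR := h.ct.lt
  have h1 : ∀ w : Fm p q, Nf w < 5 / 4 → ‖w‖ < R₁ + 3 := fun w hw => by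
    nlinarith [norm_sq_le_Nf w, norm_nonneg w]
  have h2 : ∀ w : Fm p q, Nf w < 5 / 4 → |tau (w, 6 / 5 * Qf w)| < 1 / 4 := fun w hw => by
    have := _root_.abs_le.1 (abs_Qf_le w)
    rw [tau, abs_lt]
    constructor <;> linarith
  have h3 : ∀ w : Fm p q, Nf w < 5 / 4 → (φ w, 6 / 5 * Qf w) ∈ M1 M ψ ρ f k := fun w hw => by
    refine ⟨⟨h.bc.mem w (by linarith [h1 w hw]), trivial⟩, ?_⟩
    change Fg ψ ρ f k _ = 0
    rw [h.in_eq (h1 w hw).le, Fmod_mid h.pf h.ct (by linarith) (h2 w hw).le]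
    ring
  have hc := h.bc.chart w (by linarith [h1 w hw])
  have hi := h.bc.inv w (by linarith [h1 w hw])
  have cψ : Continuous fun z : E × ℝ => ψ z.1 := hc.smψ.continuous.comp continuous_fst
  refine ⟨h3 w hw, hc.smφ.prodMk (contDiff_const.mul contDiff_Qf), hc.smψ.comp contDiff_fst, ?_, ?_⟩
  · have a1 : ∀ᶠ y : E × ℝ in 𝓝 (φ w, 6 / 5 * Qf w), Nf (ψ y.1) < 5 / 4 :=
      (contDiff_Nf.continuous.comp cψ).continuousAt.eventually_lt continuousAt_const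
        (by simpa only [Function.comp, hi] using hw)
    have a2 : ∀ᶠ y : E × ℝ in 𝓝 (φ w, 6 / 5 * Qf w), |tau (ψ y.1, y.2)| < 1 / 4 :=
      (contDiff_tau.continuous.comp (cψ.prodMk continuous_snd)).abs.continuousAt.eventually_lt
        continuousAt_const (by simpa only [Function.comp, hi] using h2 w hw)
    filter_upwards [(morse_fst (fun _ hy => hy.1.1) _).eventually hc.left, self_mem_nhdsWithin,
      nhdsWithin_le_nhds a1, nhdsWithin_le_nhds a2] with y b1 b2 b3 b4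
    have b5 : Fg ψ ρ f k (y.1, y.2) = 0 := b2.2
    rw [← b1, h.in_eq (h1 _ b3).le, Fmod_mid h.pf h.ct (by linarith) b4.le] at b5
    exact Prod.ext b1 (by linarith)
  · have a1 : ∀ᶠ z in 𝓝 (ψ (φ w)), Nf z < 5 / 4 :=
      contDiff_Nf.continuous.continuousAt.eventually_lt continuousAt_const (by rwa [hi])
    filter_upwards [a1, hc.right] with z b1 b2
    exact ⟨h3 z b1, b2.2⟩

/-- Chart of the middle level outside the support (`Mod.out_near`). -/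
theorem Mod.chart_out (h : Mod n M φ ψ ρ f k R₁) {w : Fm p q} (hw : R₁ < ‖w‖)
    (hw' : ‖w‖ < R₁ + 3) :
    (φ w, 0) ∈ M1 M ψ ρ f k ∧
      Chart (M1 M ψ ρ f k) (φ w, 0) (fun w' => (φ w', (0 : ℝ))) (fun z => ψ z.1) := by
  have h3 : ∀ w : Fm p q, R₁ < ‖w‖ → ‖w‖ < R₁ + 3 → (φ w, 0) ∈ M1 M ψ ρ f k := fun w a b =>
    have hm := h.bc.mem w (by linarith)
    ⟨⟨hm, trivial⟩, (h.out_near a b).self_of_nhdsWithin hm 0⟩
  have hc := h.bc.chart w (by linarith)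
  have hi := h.bc.inv w (by linarith)
  refine ⟨h3 w hw hw', hc.smφ.prodMk contDiff_const, hc.smψ.comp contDiff_fst, ?_, ?_⟩
  · filter_upwards [(morse_fst (fun _ hy => hy.1.1) _).eventually hc.left, self_mem_nhdsWithin,
      (morse_fst (fun _ hy => hy.1.1) _).eventually (h.out_near hw hw')] with y b1 b2 b3
    exact Prod.ext b1 ((b3 y.2).symm.trans b2.2).symm
  · have a1 : ∀ᶠ z in 𝓝 (ψ (φ w)), R₁ < ‖z‖ :=
      continuousAt_const.eventually_lt continuous_norm.continuousAt (by rwa [hi])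
    have a2 : ∀ᶠ z in 𝓝 (ψ (φ w)), ‖z‖ < R₁ + 3 :=
      continuous_norm.continuousAt.eventually_lt continuousAt_const (by rwa [hi])
    filter_upwards [a1, a2, hc.right] with z b1 b2 b3
    exact ⟨h3 z b1 b2, b3.2⟩

end Pool.Agent.Lib.MP_ccffa6_gt.U
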