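import Pool.Agent.Lib.MP_ccffa6_gt.U.RAlg
import Pool.Agent.Lib.MP_ccffa6_gt.U.Model
import Pool.Agent.Lib.MP_ccffa6_gt.U.Det

/-! The odd case: self-dual forms on a four dimensional summand, gaps of the model, signs. -/

open Set Filter Topology

noncomputable section

namespace Pool.Agent.Lib.MP_ccffa6_gt.U

section

variable {V : Type} [NormedAddCommGroup V] [NormedSpace ℝ V] [FiniteDimensional ℝ V]

def wedge (a b : V →L[ℝ] ℝ) : Bil V := a.smulRight b - b.smulRight a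

def ee1 (V : Type) [NormedAddCommGroup V] [NormedSpace ℝ V] : (V × (ℝ × ℝ)) →L[ℝ] ℝ :=
  (ContinuousLinearMap.fst ℝ ℝ ℝ).comp (ContinuousLinearMap.snd ℝ V (ℝ × ℝ))

def ee2 (V : Type) [NormedAddCommGroup V] [NormedSpace ℝ V] : (V × (ℝ × ℝ)) →L[ℝ] ℝ :=
  (ContinuousLinearMap.snd ℝ ℝ ℝ).comp (ContinuousLinearMap.snd ℝ V (ℝ × ℝ))

/-- The form ` (u₁ - 1) ω₁ + u₂ ω₂ + u₃ ω₃` in the dual basis `α, β, e₁^*, e₂^*`. -/
def sd (α β : V →L[ℝ] ℝ) (u : ℝ × ℝ × ℝ) : Bil (V × (ℝ × ℝ)) :=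
  (u.1 - 1) • (wedge (α.comp (ContinuousLinearMap.fst ℝ V (ℝ × ℝ)))
      (β.comp (ContinuousLinearMap.fst ℝ V (ℝ × ℝ))) + wedge (ee1 V) (ee2 V)) +
    u.2.1 • (wedge (α.comp (ContinuousLinearMap.fst ℝ V (ℝ × ℝ))) (ee1 V) +
      wedge (ee2 V) (β.comp (ContinuousLinearMap.fst ℝ V (ℝ × ℝ)))) +
    u.2.2 • (wedge (α.comp (ContinuousLinearMap.fst ℝ V (ℝ × ℝ))) (ee2 V) +
      wedge (β.comp (ContinuousLinearMap.fst ℝ V (ℝ × ℝ))) (ee1 V))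

omit [FiniteDimensional ℝ V] in
theorem odda_apply (α β : V →L[ℝ] ℝ) (u : ℝ × ℝ × ℝ) (z y : V × (ℝ × ℝ)) : sd α β u z y =
    (u.1 - 1) * (α z.1 * β y.1 - β z.1 * α y.1 + (z.2.1 * y.2.2 - z.2.2 * y.2.1)) +
      u.2.1 * (α z.1 * y.2.1 - z.2.1 * α y.1 + (z.2.2 * β y.1 - β z.1 * y.2.2)) +
      u.2.2 * (α z.1 * y.2.2 - z.2.2 * α y.1 + (β z.1 * y.2.1 - z.2.1 * β y.1)) := rfl

theorem sd_one (α β : V →L[ℝ] ℝ) : sd α β (1, 0, 0) = 0 :=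
  ContinuousLinearMap.ext fun z => ContinuousLinearMap.ext fun y => by
    rw [odda_apply]
    simp

theorem sd_cov1 (α β : V →L[ℝ] ℝ) (u : ℝ × ℝ × ℝ) :
    cov1 (sd α β u) = (-(u.2.1 • α) - u.2.2 • β, u.1 - 1) := by
  refine Prod.ext (ContinuousLinearMap.ext fun v => ?_) ?_
  · rw [cov1_fst, odda_apply]
    simp [sub_eq_add_neg]
  · rw [cov1_snd, odda_apply]
    simp

theorem continuous_sd (α : V →L[ℝ] ℝ) :
    Continuous fun z : (V →L[ℝ] ℝ) × (ℝ × ℝ × ℝ) => sd α z.1 z.2 := by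
  refine continuous_clm_apply.2 fun y => continuous_clm_apply.2 fun y' => ?_
  simp only [odda_apply]
  fun_prop

/-- Take `X` with `w X = -α` (`ND.exists_dual`), so `w v X = α v`, `α X = 0`, `w ν X = 1`. If
`z = (v, (a, b))` is in the kernel, test with ` (ν,0), (X,0), e₁, e₂`: four linear equations in
`α v, w ν v, a, b` whose matrix has square `-|u|²`; so these vanish, then `w v = 0`. -/
theorem sd_nd {w : Bil V} (hw : ND ⊤ w) {α : V →L[ℝ] ℝ} {ν : V} (h : α ν = 1) {u : ℝ × ℝ × ℝ}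
    (hu : u ≠ 0) : ND ⊤ (osum w eta0 + sd α (w ν) u) := by
  obtain ⟨X, ⟨-, hX⟩, -⟩ := hw.exists_dual (-α)
  have x1 : ∀ v, w v X = α v := fun v => by
    rw [hw.skew trivial trivial, hX v trivial]
    simp
  have x2 : α X = 0 := by rw [← x1, hw.1 X trivial]
  have x4 : w ν ν = 0 := hw.1 ν trivial
  have hN : u.1 ^ 2 + u.2.1 ^ 2 + u.2.2 ^ 2 ≠ 0 := fun e => hu (by
    have a1 := sq_nonneg u.1
    have a2 := sq_nonneg u.2.1
    have a3 := sq_nonneg u.2.2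
    exact Prod.ext (pow_eq_zero_iff two_ne_zero |>.1 (by linarith))
      (Prod.ext (pow_eq_zero_iff two_ne_zero |>.1 (by linarith))
        (pow_eq_zero_iff two_ne_zero |>.1 (by linarith))))
  refine ⟨fun z _ => ?_, fun z _ h0 => ?_⟩
  · rw [add_apply, add_apply, osum_apply, odda_apply, eta0_apply, hw.1 _ trivial]
    ring
  have key : ∀ y, _ := fun y => h0 y trivial
  simp only [add_apply, osum_apply, odda_apply, eta0_apply] at key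
  have e1 := key (ν, 0, 0)
  have e2 := key (X, 0, 0)
  have e3 := key (0, 1, 0)
  have e4 := key (0, 0, 1)
  simp only [hw.skew (u := z.1) (v := ν) trivial trivial, x1, x2, x4, h, map_zero] at e1 e2 e3 e4
  have a1 : α z.1 = 0 := mul_left_cancel₀ hN (by
    linear_combination u.1 * e2 + u.2.1 * e3 + u.2.2 * e4)
  have a2 : w ν z.1 = 0 := mul_left_cancel₀ hN (by
    linear_combination -u.1 * e1 + u.2.2 * e3 - u.2.1 * e4)
  have a3 : z.2.1 = 0 := mul_left_cancel₀ hN (by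
    linear_combination -u.2.1 * e1 - u.2.2 * e2 + u.1 * e4)
  have a4 : z.2.2 = 0 := mul_left_cancel₀ hN (by
    linear_combination -u.2.2 * e1 + u.2.1 * e2 - u.1 * e3)
  refine Prod.ext (hw.2 _ trivial fun v _ => ?_) (Prod.ext a3 a4)
  have e5 := key (v, 0, 0)
  rw [a1, a2, a3, a4] at e5
  linear_combination e5

end

variable {p q : ℕ} {f k : ℝ → ℝ} {R₁ : ℝ}

/-- `Nf ≤ 10`, `Fmod_pure`. -/
theorem gapA (hf : Prof f) (hk : Cut k R₁) {z : Fm p q × ℝ} (h0 : 0 ≤ Fmod f k z)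
    (hy : ‖z.1.2‖ < 1) (hx : ‖z.1.1‖ ≤ 3) (hτ : tau z ≤ 1) : tau z ≤ 1 / 2 ∧ ‖z.1.1‖ ≤ 2 := by
  have a1 : ‖z.1.2‖ ^ 2 < 1 := by nlinarith [norm_nonneg z.1.2]
  have a2 : ‖z.1.1‖ ^ 2 ≤ 9 := by nlinarith [norm_nonneg z.1.1]
  rw [Fmod_pure hk (by rw [Nf]; linarith), Qf] at h0
  have a3 := hf.le_three (τ := tau z) (by linarith)
  refine ⟨le_of_not_gt fun h => ?_, by nlinarith [norm_nonneg z.1.1]⟩
  rw [hf.low _ ⟨h.le, by linarith⟩] at h0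
  nlinarith [sq_nonneg ‖z.1.1‖]

/-- `Fmod = Q + (1 - k) τ + k f τ`. -/
theorem gapB (hf : Prof f) (hk : Cut k R₁) {z : Fm p q × ℝ} (h0 : Fmod f k z = 0)
    (hx : ‖z.1.1‖ ≤ 1) (hτ : -1 ≤ tau z) : -1 / 2 ≤ tau z ∧ ‖z.1.2‖ ≤ 2 := by
  have a1 : ‖z.1.1‖ ^ 2 ≤ 1 := by nlinarith [norm_nonneg z.1.1]
  have a2 := hf.ge_three (τ := tau z) (by linarith)
  obtain ⟨k0, k1⟩ := hk.mem (Nf z.1)
  have a3 : ‖z.1.2‖ ^ 2 ≤ 4 := by
    have e : z.2 = tau z + (-‖z.1.1‖ ^ 2 + ‖z.1.2‖ ^ 2) := by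
      rw [tau, Qf]
      ring
    have h1 := h0
    rw [Fmod, Gm] at h1
    nlinarith [mul_nonneg (sub_nonneg.2 k1) (sub_nonneg.2 hτ), mul_nonneg k0 (sub_nonneg.2 a2)]
  rw [Fmod_pure hk (by rw [Nf]; linarith), Qf] at h0
  refine ⟨le_of_not_gt fun h => ?_, by nlinarith [norm_nonneg z.1.2]⟩
  rw [hf.up _ ⟨by linarith, h.le⟩] at h0
  nlinarith [sq_nonneg ‖z.1.2‖]

/-- `f τ = -‖y‖² = f (‖y‖² / 5)` and `Prof.anti`. -/
theorem gapC (hf : Prof f) (hk : Cut k R₁) {z : Fm p q × ℝ} (h0 : Fmod f k z = 0)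
    (hx : z.1.1 = 0) (hy : ‖z.1.2‖ < 1) (hτ : |tau z| ≤ 1) : z.2 = 6 / 5 * Qf z.1 := by
  have a1 : ‖z.1.2‖ ^ 2 < 1 := by nlinarith [norm_nonneg z.1.2]
  have a0 := sq_nonneg ‖z.1.2‖
  have q : Qf z.1 = ‖z.1.2‖ ^ 2 := by simp [Qf, hx]
  rw [Fmod_pure hk (by simp only [Nf, hx, norm_zero]; linarith), q] at h0
  have a2 := hf.mid (‖z.1.2‖ ^ 2 / 5) ⟨by linarith, by linarith⟩
  have a3 : tau z = ‖z.1.2‖ ^ 2 / 5 :=
    hf.anti.injOn (abs_le.1 hτ) ⟨by linarith, by linarith⟩ (by linarith)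
  rw [tau, q] at a3
  linarith

theorem exists_shuffle (q : ℕ) : ∃ e : (ℝ × Fm 1 q) ≃L[ℝ] ((Rd q × ℝ) × ℝ),
    ∀ z, e z = ((z.2.2, z.1), z.2.1 0) := by
  let e : (ℝ × Fm 1 q) ≃ₗ[ℝ] ((Rd q × ℝ) × ℝ) :=
    { toFun := fun z => ((z.2.2, z.1), z.2.1 0)
      invFun := fun y => (y.1.2, WithLp.toLp 2 fun _ => y.2, y.1.1)
      map_add' := fun _ _ => rfl
      map_smul' := fun _ _ => rfl
      left_inv := fun z => Prod.ext rfl (Prod.ext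
        (PiLp.ext fun i => congrArg z.2.1 (Subsingleton.elim _ _)) rfl)
      right_inv := fun _ => rfl }
  exact ⟨e.toContinuousLinearEquiv, fun _ => rfl⟩

/-- `D = M ∘ s ∘ e` with `s ((y,t),x) = ((-τ y, -t), -x)` of determinant `τ^(2n) > 0`. -/
theorem odd_sign {n : ℕ} {Y : Type} [NormedAddCommGroup Y] [NormedSpace ℝ Y]
    [FiniteDimensional ℝ Y] (j : Y ≃L[ℝ] (ℝ × Fm 1 (2 * n)))
    (e : (ℝ × Fm 1 (2 * n)) ≃L[ℝ] ((Rd (2 * n) × ℝ) × ℝ))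
    (he : ∀ z, e z = ((z.2.2, z.1), z.2.1 0)) (M : ((Rd (2 * n) × ℝ) × ℝ) →L[ℝ] Y)
    (D : (ℝ × Fm 1 (2 * n)) →L[ℝ] Y) {τ : ℝ} (hτ : τ ≠ 0)
    (hD : ∀ z, D z = -M ((τ • z.2.2, z.1), z.2.1 0)) :
    ∃ c : ℝ, 0 < c ∧ ((j : Y →L[ℝ] (ℝ × Fm 1 (2 * n))).comp D).det =
      c * (((j.trans e : Y ≃L[ℝ] _) : Y →L[ℝ] ((Rd (2 * n) × ℝ) × ℝ)).comp M).det := by
  let A : (Rd (2 * n) × ℝ) →L[ℝ] (Rd (2 * n) × ℝ) :=
    ((-τ) • ContinuousLinearMap.id ℝ _).prodMap (-ContinuousLinearMap.id ℝ ℝ)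
  let s : ((Rd (2 * n) × ℝ) × ℝ) →L[ℝ] ((Rd (2 * n) × ℝ) × ℝ) :=
    A.prodMap (-ContinuousLinearMap.id ℝ ℝ)
  have hA : A.det = (-τ) ^ (2 * n) * -1 := by
    rw [det_lower ((-τ) • ContinuousLinearMap.id ℝ _) 0 (-1) (M := A) fun z => by simp [A, Prod.map],
      det_smul_id, finrank_euclideanSpace_fin]
  have hs : s.det = (-τ) ^ (2 * n) := by
    rw [det_lower A 0 (-1) (M := s) fun z => by simp [s, Prod.map], hA]
    ring
  have e1 : (j : Y →L[ℝ] (ℝ × Fm 1 (2 * n))).comp D =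
      (((j : Y →L[ℝ] (ℝ × Fm 1 (2 * n))).comp M).comp s).comp
        (e : (ℝ × Fm 1 (2 * n)) →L[ℝ] ((Rd (2 * n) × ℝ) × ℝ)) :=
    ContinuousLinearMap.ext fun z => by
      change j (D z) = j (M (s (e z)))
      rw [hD, he, ← map_neg]
      simp [s, A]
  refine ⟨(-τ) ^ (2 * n), (even_two_mul n).pow_pos (neg_ne_zero.2 hτ), ?_⟩
  rw [e1, ← det_swap, ← hs, mul_comm s.det, ← det_comp]
  rfl

end Pool.Agent.Lib.MP_ccffa6_gt.U
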