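import Pool.Agent.Lib.MP_ccffa6_gt.U.OddA

/-! The odd case in the model space. -/

set_option maxSynthPendingDepth 3

open Set Filter Topology

noncomputable section

namespace Pool.Agent.Lib.MP_ccffa6_gt.U

/-- Clamping to the unit interval. -/
def oddm_cl (r : ℝ) : ℝ := max 0 (min 1 r)

theorem oddm_cont : Continuous oddm_cl := by unfold oddm_cl; fun_prop

theorem oddm_zero {r : ℝ} (h : r ≤ 0) : oddm_cl r = 0 := max_eq_left (min_le_of_right_le h)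

theorem oddm_one {r : ℝ} (h : 1 ≤ r) : oddm_cl r = 1 := by
  rw [oddm_cl, min_eq_left h, max_eq_right zero_le_one]

theorem oddm_nonneg (r : ℝ) : 0 ≤ oddm_cl r := le_max_left _ _

theorem oddm_le (r : ℝ) : oddm_cl r ≤ 1 := max_le zero_le_one (min_le_left _ _)

theorem oddm_norm (x : Rd 1) : ‖x‖ = |x 0| := by
  simp [EuclideanSpace.norm_eq, Real.sqrt_sq_eq_abs]

variable {q : ℕ}

/-- Cut-off for the forms on the slab. -/
def oddm_c (z : Fm 1 q × ℝ) : ℝ := oddm_cl (2 - 2 * tau z) * oddm_cl (3 - ‖z.1.1‖)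

/-- Cut-off for the path. -/
def oddm_x (y : ℝ × (Fm 1 q × ℝ)) : ℝ := oddm_cl (2 - 2 * max |y.2.1.1 0| |y.1|) *
  (oddm_cl (2 * tau y.2 + 2) * oddm_cl (3 - ‖y.2.1.2‖))

theorem oddm_cont_c : Continuous (oddm_c : Fm 1 q × ℝ → ℝ) := by
  have h1 := oddm_cont
  have h2 := (contDiff_tau (p := 1) (q := q)).continuous
  unfold oddm_c
  fun_prop

theorem oddm_cont_x : Continuous (oddm_x : ℝ × (Fm 1 q × ℝ) → ℝ) := by
  have h1 := oddm_cont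
  have h2 := (contDiff_tau (p := 1) (q := q)).continuous
  unfold oddm_x
  fun_prop

theorem oddm_x_le (y : ℝ × (Fm 1 q × ℝ)) : oddm_x y ≤ 1 :=
  mul_le_one₀ (oddm_le _) (mul_nonneg (oddm_nonneg _) (oddm_nonneg _))
    (mul_le_one₀ (oddm_le _) (oddm_nonneg _) (oddm_le _))

theorem oddm_x_zero {t : ℝ} {z : Fm 1 q × ℝ} (h : 3 ≤ ‖z.1‖ ∨ 1 ≤ |t|) : oddm_x (t, z) = 0 := by
  rcases h with h | h
  · rcases le_max_iff.1 (h.trans_eq (Prod.norm_def z.1)) with h | h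
    · rw [oddm_norm] at h
      rw [oddm_x, oddm_zero (by linarith [le_max_left |z.1.1 0| |t|]), zero_mul]
    · rw [oddm_x, oddm_zero (r := 3 - _) (by linarith), mul_zero, mul_zero]
  · rw [oddm_x, oddm_zero (by linarith [le_max_right |z.1.1 0| |t|]), zero_mul]

theorem oddm_gapA {f k : ℝ → ℝ} {R₁ : ℝ} (hf : Prof f) (hk : Cut k R₁) {z : Fm 1 q × ℝ}
    (h : 0 ≤ Fmod f k z) : 1 ≤ ‖z.1.2‖ ∨ oddm_c z = 0 ∨ (oddm_c z = 1 ∧ tau z ≤ 1 / 2) := by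
  rcases le_or_gt 1 ‖z.1.2‖ with h1 | h1
  · exact Or.inl h1
  rcases le_total 3 ‖z.1.1‖ with h2 | h2
  · exact Or.inr (Or.inl (by rw [oddm_c, oddm_zero (r := 3 - _) (by linarith), mul_zero]))
  rcases le_total 1 (tau z) with h3 | h3
  · exact Or.inr (Or.inl (by rw [oddm_c, oddm_zero (by linarith), zero_mul]))
  obtain ⟨h4, h5⟩ := gapA hf hk h h1 h2 h3
  exact Or.inr (Or.inr ⟨by rw [oddm_c, oddm_one (by linarith), oddm_one (by linarith), mul_one],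
    h4⟩)

theorem oddm_gapB {f k : ℝ → ℝ} {R₁ : ℝ} (hf : Prof f) (hk : Cut k R₁) {t : ℝ} {z : Fm 1 q × ℝ}
    (h : Fmod f k z = 0) (hx : z.1.1 0 = 0) (ht : |t| ≤ 1 / 2) :
    oddm_x (t, z) = 0 ∨ (oddm_x (t, z) = 1 ∧ -1 / 2 ≤ tau z) := by
  rcases le_total (tau z) (-1) with h1 | h1
  · exact Or.inl (by rw [oddm_x, oddm_zero (r := 2 * _ + 2) (by linarith), zero_mul, mul_zero])
  obtain ⟨h2, h3⟩ := gapB hf hk h (by rw [oddm_norm, hx]; simp) h1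
  have h4 : max |z.1.1 0| |t| ≤ 1 / 2 := max_le (by rw [hx]; simp) ht
  refine Or.inr ⟨?_, h2⟩
  rw [oddm_x, oddm_one (by linarith), oddm_one (by linarith), oddm_one (by linarith)]
  simp

/-- Both cut-offs are one along the graph near the axis. -/
theorem oddm_graph {y : ℝ × Fm 1 q} (h1 : |y.1| < 1 / 2) (h2 : ‖y.2.1‖ < 1 / 2) (h3 : ‖y.2.2‖ < 1) :
    oddm_c (y.2, 6 / 5 * Qf y.2) = 1 ∧ oddm_x (y.1, (y.2, 6 / 5 * Qf y.2)) = 1 := by
  have h4 : tau (y.2, 6 / 5 * Qf y.2) = (-‖y.2.1‖ ^ 2 + ‖y.2.2‖ ^ 2) / 5 := by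
    simp only [tau, Qf]; ring
  have h5 : ‖y.2.1‖ ^ 2 ≤ 1 := by nlinarith [norm_nonneg y.2.1]
  have h6 : ‖y.2.2‖ ^ 2 ≤ 1 := by nlinarith [norm_nonneg y.2.2]
  have h7 := sq_nonneg ‖y.2.1‖
  have h8 := sq_nonneg ‖y.2.2‖
  have h9 : max |y.2.1 0| |y.1| ≤ 1 / 2 := max_le (by rw [← oddm_norm]; exact h2.le) h1.le
  constructor
  · rw [oddm_c, oddm_one (by rw [h4]; linarith), oddm_one (by linarith), mul_one]
  · rw [oddm_x, oddm_one (by linarith), oddm_one (by rw [h4]; linarith), oddm_one (by linarith)]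
    simp

/-- The period of the odd case in the model space. -/
theorem oddM {n : ℕ} (hB : BottStmt n) (hn : 1 ≤ n) {f k : ℝ → ℝ} {R₁ : ℝ} (hf : Prof f)
    (hk : Cut k R₁) {w₀ : Bil (Fm 1 (2 * n) × ℝ)} (hw : ND ⊤ w₀)
    (j : Cv (Fm 1 (2 * n)) ≃L[ℝ] (ℝ × Fm 1 (2 * n))) :
    ∃ (B : Fm 1 (2 * n) × ℝ → Bil (Fm 1 (2 * n) × ℝ))
      (Δ : ℝ × (Fm 1 (2 * n) × ℝ) → Bil ((Fm 1 (2 * n) × ℝ) × (ℝ × ℝ)))
      (a : ℝ × (Fm 1 (2 * n) × ℝ) → Cv (Fm 1 (2 * n))) (Z : Finset (ℝ × Fm 1 (2 * n)))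
      (D : ℝ × Fm 1 (2 * n) → (ℝ × Fm 1 (2 * n)) →L[ℝ] Cv (Fm 1 (2 * n))),
      Continuous B ∧ (∀ z, 0 ≤ Fmod f k z → ND ⊤ (B z)) ∧
      (∀ z, 3 ≤ ‖z.1‖ ∨ 20 ≤ z.2 → B z = w₀) ∧
      Continuous Δ ∧ (∀ t z, 3 ≤ ‖z.1‖ ∨ 1 ≤ |t| → Δ (t, z) = 0) ∧
      (∀ t z, Fmod f k z = 0 → ND ⊤ (osum (B z) eta0 + Δ (t, z))) ∧
      Continuous a ∧ (∀ y, 0 ≤ 1 + (cov1 (Δ y)).2 → a y = (cov1 (Δ y)).1) ∧
      (∀ t z, Fmod f k z = 0 → a (t, z) = 0 → 1 + (cov1 (Δ (t, z))).2 < 0 →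
        (t, z.1) ∈ Z ∧ z.2 = 6 / 5 * Qf z.1) ∧
      (∀ y ∈ Z, Nf y.2 < 1 ∧ 1 + (cov1 (Δ (y.1, (y.2, 6 / 5 * Qf y.2)))).2 < 0 ∧
        a (y.1, (y.2, 6 / 5 * Qf y.2)) = 0 ∧
        HasFDerivAt (fun y' : ℝ × Fm 1 (2 * n) => a (y'.1, (y'.2, 6 / 5 * Qf y'.2))) (D y) y ∧
        ((j : Cv (Fm 1 (2 * n)) →L[ℝ] (ℝ × Fm 1 (2 * n))).comp (D y)).det ≠ 0) ∧
      ∑ y ∈ Z, (SignType.sign
        ((j : Cv (Fm 1 (2 * n)) →L[ℝ] (ℝ × Fm 1 (2 * n))).comp (D y)).det : ℤ) ≠ 0 := by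
  classical
  obtain ⟨e, he⟩ := exists_shuffle (2 * n)
  let α : Cv (Fm 1 (2 * n)) := ContinuousLinearMap.snd ℝ _ _
  let ν : Fm 1 (2 * n) × ℝ := (0, 1)
  obtain ⟨b, c, Z, D, M, cb, nb, ob, c0, c1, hZ, hD, hsum⟩ :=
    hB _ (Rd (2 * n)) w₀ ν α (j.trans e) (by simp) hw rfl
  choose! m hm using fun y (hy : y ∈ Z) => (hZ y).2 hy
  have m0 : ∀ y ∈ Z, m y ≠ 0 := fun y hy h => by
    have := (nb y).2 ν trivial fun v _ => by rw [hm y hy, h, zero_smul]; rfl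
    simp [ν] at this
  have w0 : ∀ r : ℝ, w₀ ν ≠ r • c := fun r h => by
    have h1 : ‖(EuclideanSpace.single ⟨0, by omega⟩ 1 : Rd (2 * n))‖ = 1 := by simp
    exact (hD _ ((hZ _).1 ⟨r, by rw [ob _ h1.ge, h]⟩)).1.ne h1
  obtain ⟨κ, hκ, κ0⟩ : ∃ κ : ℝ, (∀ y ∈ Z, κ ≤ |m y| / 8) ∧ κ ∈ Ioi 0 :=
    (((eventually_all_finset Z).2 fun y hy => mem_nhdsWithin_of_mem_nhds
      (ge_mem_nhds (div_pos (abs_pos.2 (m0 y hy)) (by norm_num)))).and
      (self_mem_nhdsWithin (a := (0 : ℝ)) (s := Ioi 0))).exists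
  have κ1 : 0 < κ := κ0
  have t0 : ∀ y ∈ Z, |κ / m y| ≤ 1 / 8 := fun y hy => by
    rw [abs_div, abs_of_pos κ1, div_le_iff₀ (abs_pos.2 (m0 y hy))]
    linarith [hκ y hy]
  let B : Fm 1 (2 * n) × ℝ → Bil (Fm 1 (2 * n) × ℝ) := fun z => w₀ + oddm_c z • (b z.1.2 - w₀)
  have cB : Continuous B :=
    continuous_const.add (oddm_cont_c.smul ((cb.comp (by fun_prop)).sub continuous_const))
  have hBz : ∀ z, 0 ≤ Fmod f k z → B z = w₀ ∨ (B z = b z.1.2 ∧ tau z ≤ 1 / 2) := fun z h => by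
    rcases oddm_gapA hf hk h with h1 | h1 | h1
    · exact Or.inl (by simp [B, ob _ h1])
    · exact Or.inl (by simp [B, h1])
    · exact Or.inr ⟨by simp [B, h1.1], h1.2⟩
  have nB : ∀ z, 0 ≤ Fmod f k z → ND ⊤ (B z) := fun z h => by
    rcases hBz z h with h1 | h1
    · rwa [h1]
    · rw [h1.1]; exact nb _
  let Δ : ℝ × (Fm 1 (2 * n) × ℝ) → Bil ((Fm 1 (2 * n) × ℝ) × (ℝ × ℝ)) := fun y =>
    sd α (B y.2 ν) (1 - 2 * oddm_x y, oddm_x y * y.2.1.1 0, oddm_x y * y.1)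
  have cx := oddm_cont_x (q := 2 * n)
  have cΔ : Continuous Δ := (continuous_sd α).comp (f := fun y : ℝ × (Fm 1 (2 * n) × ℝ) =>
    (B y.2 ν, (1 - 2 * oddm_x y, oddm_x y * y.2.1.1 0, oddm_x y * y.1)))
    (((cB.comp continuous_snd).clm_apply continuous_const).prodMk (by fun_prop))
  have Δ1 : ∀ y, (cov1 (Δ y)).1 = -((oddm_x y * y.2.1.1 0) • α) - (oddm_x y * y.1) • B y.2 ν :=
    fun y => by simp only [Δ, sd_cov1]
  have Δ2 : ∀ y, 1 + (cov1 (Δ y)).2 = 1 - 2 * oddm_x y := fun y => by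
    simp only [Δ, sd_cov1]; ring
  let a : ℝ × (Fm 1 (2 * n) × ℝ) → Cv (Fm 1 (2 * n)) := fun y =>
    (cov1 (Δ y)).1 + (κ * max 0 (2 * oddm_x y - 1)) • c
  have ag : ∀ y : ℝ × Fm 1 (2 * n), |y.1| < 1 / 2 → ‖y.2.1‖ < 1 / 2 → ‖y.2.2‖ < 1 →
      a (y.1, (y.2, 6 / 5 * Qf y.2)) = -(y.2.1 0 • α) - y.1 • b y.2.2 ν + κ • c :=
    fun y h1 h2 h3 => by
      obtain ⟨h4, h5⟩ := oddm_graph h1 h2 h3
      simp only [a, Δ1, B, h4, h5]
      norm_num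
  let x0 : ℝ × Fm 1 (2 * n) →L[ℝ] ℝ := (EuclideanSpace.proj (0 : Fin 1)).comp
    ((ContinuousLinearMap.fst ℝ _ _).comp (ContinuousLinearMap.snd ℝ _ _))
  let y0 : ℝ × Fm 1 (2 * n) →L[ℝ] Rd (2 * n) :=
    (ContinuousLinearMap.snd ℝ _ _).comp (ContinuousLinearMap.snd ℝ _ _)
  let D' : ℝ × Fm 1 (2 * n) → (ℝ × Fm 1 (2 * n)) →L[ℝ] Cv (Fm 1 (2 * n)) := fun y =>
    -(M y.2.2).comp (((y.1 • y0).prod (ContinuousLinearMap.fst ℝ _ _)).prod x0)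
  have sg : ∀ y ∈ Z, ∃ r : ℝ, 0 < r ∧ ((j : Cv (Fm 1 (2 * n)) →L[ℝ] (ℝ × Fm 1 (2 * n))).comp
      (D' (κ / m y, (0, y)))).det = r * (((j.trans e : Cv (Fm 1 (2 * n)) ≃L[ℝ] _) :
        Cv (Fm 1 (2 * n)) →L[ℝ] ((Rd (2 * n) × ℝ) × ℝ)).comp (M y)).det := fun y hy =>
    odd_sign j e he (M y) _ (div_ne_zero κ1.ne' (m0 y hy)) fun z => rfl
  refine ⟨B, Δ, a, Z.image fun y => (κ / m y, (0, y)), D', cB, nB, fun z h => ?_, cΔ,
    fun t z h => by simp only [Δ, oddm_x_zero h]; simpa using sd_one α _, fun t z h => ?_,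
    (continuous_cov1.comp cΔ).fst.add ((by fun_prop : Continuous fun y =>
      κ * max 0 (2 * oddm_x y - 1)).smul continuous_const), fun y h => ?_, fun t z h h1 h2 => ?_,
    fun p hp => ?_, ?_⟩
  · rcases le_or_gt 1 ‖z.1.2‖ with h1 | h1
    · simp [B, ob _ h1]
    have h2 : oddm_c z = 0 := by
      rcases h with h | h
      · rcases le_max_iff.1 (h.trans_eq (Prod.norm_def z.1)) with h | h
        · rw [oddm_c, oddm_zero (r := 3 - _) (by linarith), mul_zero]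
        · linarith
      · rw [oddm_c, oddm_zero (by
          simp only [tau, Qf]; nlinarith [norm_nonneg z.1.2, sq_nonneg ‖z.1.1‖]), zero_mul]
    simp [B, h2]
  · refine sd_nd (α := α) (ν := ν) (u := (1 - 2 * oddm_x (t, z), oddm_x (t, z) * z.1.1 0,
      oddm_x (t, z) * t)) (nB z h.ge) rfl fun hu => ?_
    simp only [Prod.mk_eq_zero, mul_eq_zero] at hu
    obtain ⟨h1, h2, h3⟩ := hu
    have h4 : oddm_x (t, z) ≠ 0 := fun h => by simp [h] at h1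
    rcases oddm_gapB hf hk h (h2.resolve_left h4) (t := t)
      (by rw [h3.resolve_left h4]; simp) with h5 | h5
    · exact h4 h5
    · linarith [h5.1]
  · rw [Δ2] at h
    simp only [a]
    rw [max_eq_left (by linarith), mul_zero, zero_smul, add_zero]
  · rw [Δ2] at h2
    have h3 := oddm_x_le (t, z)
    have h4 : 0 < oddm_x (t, z) := by linarith
    simp only [a, Δ1] at h1
    rw [max_eq_right (by linarith)] at h1
    have hx : z.1.1 0 = 0 := by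
      have := congrArg (fun l : Cv (Fm 1 (2 * n)) => l ν) h1
      simpa [(nB z h.ge).1 ν trivial, c0, show α ν = 1 from rfl, h4.ne'] using this
    rw [hx, mul_zero, zero_smul, neg_zero, zero_sub, neg_add_eq_zero] at h1
    have h5 : 0 < κ * (2 * oddm_x (t, z) - 1) := mul_pos κ1 (by linarith)
    have h6 : oddm_x (t, z) * t ≠ 0 := fun h => by
      rw [h, zero_smul, eq_comm, smul_eq_zero] at h1
      exact h1.elim h5.ne' c1
    have h7 : B z ν = ((oddm_x (t, z) * t)⁻¹ * (κ * (2 * oddm_x (t, z) - 1))) • c := by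
      rw [mul_smul, ← h1, smul_smul, inv_mul_cancel₀ h6, one_smul]
    obtain ⟨h8, h9⟩ := (hBz z h.ge).resolve_left fun h => w0 _ (h ▸ h7)
    have hy : z.1.2 ∈ Z := (hZ _).1 ⟨_, h8 ▸ h7⟩
    rw [h8, hm _ hy, smul_smul] at h1
    have h10 := smul_left_injective ℝ c1 h1
    have h11 : |t| ≤ 1 / 2 := by
      have h12 := congrArg abs h10
      rw [abs_mul, abs_mul, abs_of_pos h4, abs_of_pos h5] at h12
      by_contra! h13
      have h14 := hκ _ hy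
      have h15 : oddm_x (t, z) * (1 / 2) * (8 * κ) ≤ oddm_x (t, z) * |t| * |m z.1.2| := by
        gcongr
        linarith
      linarith [mul_pos κ1 h4]
    obtain ⟨h13, h14⟩ := (oddm_gapB hf hk h hx h11).resolve_left h4.ne'
    have hx' : z.1.1 = 0 := norm_eq_zero.1 (by rw [oddm_norm, hx, abs_zero])
    refine ⟨Finset.mem_image.2 ⟨_, hy, Prod.ext ?_ (Prod.ext hx'.symm rfl)⟩,
      gapC hf hk h hx' (hD _ hy).1 (abs_le.2 ⟨by linarith, by linarith⟩)⟩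
    rw [h13] at h10
    simp only
    rw [div_eq_iff (m0 _ hy)]
    linarith
  · obtain ⟨y, hy, rfl⟩ := Finset.mem_image.1 hp
    obtain ⟨d1, d2, d3, d4⟩ := hD y hy
    have g1 : |κ / m y| < 1 / 2 := (t0 y hy).trans_lt (by norm_num)
    have g2 : ‖(0 : Rd 1)‖ < 1 / 2 := by simp
    refine ⟨?_, ?_, ?_, ?_, ?_⟩
    · simp only [Nf, norm_zero]
      nlinarith [norm_nonneg y]
    · rw [Δ2, (oddm_graph (y := (κ / m y, (0, y))) g1 g2 d1).2]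
      norm_num
    · rw [ag (κ / m y, (0, y)) g1 g2 d1, hm y hy, smul_smul, div_mul_cancel₀ _ (m0 y hy)]
      simp
    · have e1 : ∀ᶠ y' : ℝ × Fm 1 (2 * n) in 𝓝 (κ / m y, (0, y)),
          |y'.1| < 1 / 2 ∧ ‖y'.2.1‖ < 1 / 2 ∧ ‖y'.2.2‖ < 1 :=
        ((isOpen_lt continuous_fst.abs continuous_const).eventually_mem g1).and
          (((isOpen_lt continuous_snd.fst.norm continuous_const).eventually_mem g2).and
            ((isOpen_lt continuous_snd.snd.norm continuous_const).eventually_mem d1))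
      have e2 := (((x0.hasFDerivAt (x := (κ / m y, (0, y)))).smul_const α).neg.sub
        (hasFDerivAt_fst.smul (d2.comp (κ / m y, ((0 : Rd 1), y)) y0.hasFDerivAt))).add_const
          (κ • c)
      have e3 : (fun y' : ℝ × Fm 1 (2 * n) => a (y'.1, (y'.2, 6 / 5 * Qf y'.2))) =ᶠ[
          𝓝 (κ / m y, (0, y))] fun y' => -(y'.2.1 0 • α) - y'.1 • b y'.2.2 ν + κ • c :=
        e1.mono fun y' h => ag y' h.1 h.2.1 h.2.2
      refine HasFDerivAt.congr_of_eventuallyEq (e2.congr_fderiv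
        (ContinuousLinearMap.ext fun z => ?_)) e3
      simp [D', d3, x0, y0]
      abel
    · obtain ⟨r, hr, hr'⟩ := sg y hy
      rw [hr']
      exact mul_ne_zero hr.ne' d4
  · rw [Finset.sum_image fun y _ y' _ h => congrArg (fun p : ℝ × Fm 1 (2 * n) => p.2.2) h]
    refine ne_of_eq_of_ne (Finset.sum_congr rfl fun y hy => ?_) hsum
    obtain ⟨r, hr, hr'⟩ := sg y hy
    rw [hr', sign_mul, sign_pos hr, one_mul]

end Pool.Agent.Lib.MP_ccffa6_gt.U
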