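import Pool.Agent.Lib.MP_ccffa6_gt.U.Defs
import Pool.Agent.Lib.MP_ccffa6_gt.U.SecAlg

/-! (A) Formal properties of `R`. -/

set_option maxSynthPendingDepth 3

open Set Filter Topology
open scoped ContDiff

noncomputable section

namespace Pool.Agent.Lib.MP_ccffa6_gt.U

variable {E : Type} [NormedAddCommGroup E] [NormedSpace ℝ E] [FiniteDimensional ℝ E]

@[simp] theorem cov1_fst {V : Type} [NormedAddCommGroup V] [NormedSpace ℝ V]
    (w : Bil (V × (ℝ × ℝ))) (v : V) : (cov1 w).1 v = w (0, (1, 0)) (v, 0) := rfl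

@[simp] theorem cov1_snd {V : Type} [NormedAddCommGroup V] [NormedSpace ℝ V]
    (w : Bil (V × (ℝ × ℝ))) : (cov1 w).2 = w (0, (1, 0)) (0, (0, 1)) := rfl

theorem continuous_cov1 {V : Type} [NormedAddCommGroup V] [NormedSpace ℝ V] :
    Continuous (cov1 : Bil (V × (ℝ × ℝ)) → (V →L[ℝ] ℝ) × ℝ) :=
  ((continuous_id.clm_apply continuous_const).clm_comp continuous_const).prodMk
    ((continuous_id.clm_apply continuous_const).clm_apply continuous_const)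

theorem ralg_mem (T : Submodule ℝ (E × ℝ)) (p : ℝ × ℝ) : ((0, p) : (E × ℝ) × (ℝ × ℝ)) ∈
    pl T (ℝ × ℝ) := mem_pl.2 T.zero_mem

/-- A form which is `Ω ⊕ η₀` on `T1 ⊕ ℝ²` has the covector `(0, 1)`. -/
theorem ralg_end {L : Set E} {x : E} {w : Bil ((E × ℝ) × (ℝ × ℝ))} {o : Bil (E × ℝ)}
    (h : ∀ u ∈ pl (T1 L x) (ℝ × ℝ), ∀ v ∈ pl (T1 L x) (ℝ × ℝ), w u v = osum o eta0 u v) :
    Van L x (cov1 w).1 ∧ (cov1 w).2 = 1 :=
  ⟨fun v hv => by rw [cov1_fst, h _ (ralg_mem _ _) (v, 0) (mem_pl.2 hv)]; simp,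
    by rw [cov1_snd, h _ (ralg_mem _ _) _ (ralg_mem _ _)]; simp⟩

/-- `H (e₁, ·)` is not zero on `T1 ⊕ ℝ²` and kills `e₁`; at the ends it is `(0, 1)`. -/
theorem SP.sec {L : Set E} {Ω₀ Ω₁ : E → Bil (E × ℝ)} {H : ℝ × E → Bil ((E × ℝ) × (ℝ × ℝ))}
    (h : SP L Ω₀ Ω₁ H) : SecHtpy L (fun q => cov1 (H q)) (fun q => cov1 (H q)) := by
  obtain ⟨A, hA⟩ := h.ends
  refine SecHtpy.refl (continuous_cov1.comp_continuousOn h.nd.cont) (fun q hq hv h0 => ?_)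
    (T := A) fun q hq hT => ?_
  · have n := h.nd.nd q ⟨trivial, hq⟩
    have := n.2 (0, (1, 0)) (ralg_mem _ _) fun v hv' => by
      have e : v = (v.1, 0) + v.2.1 • (0, (1, 0)) + v.2.2 • (0, (0, 1)) := by
        refine Prod.ext ?_ (Prod.ext ?_ ?_) <;> simp
      have h1 := hv v.1 (mem_pl.1 hv')
      rw [cov1_fst] at h1
      rw [cov1_snd] at h0
      rw [e]
      simp only [map_add, map_smul, h1, h0, n.1 _ (ralg_mem _ _), smul_zero, add_zero]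
    simp at this
  · rcases le_abs.1 hT with h1 | h1
    · have := ralg_end fun u hu v hv => (hA q hq u hu v hv).2 h1
      exact ⟨this.1, by rw [this.2]; exact one_pos⟩
    · have := ralg_end fun u hu v hv => (hA q hq u hu v hv).1 (by linarith)
      exact ⟨this.1, by rw [this.2]; exact one_pos⟩

/-- A homotopy gives a path without ray points. -/
theorem R_of_htpy {L : Set E} {Ω₀ Ω₁ : E → Bil (E × ℝ)} (h : Htpy L Ω₀ Ω₁) : R L 0 Ω₀ Ω₁ := by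
  obtain ⟨K, hK, en⟩ := h
  have m : MapsTo (fun q : ℝ × E => (max 0 (min 1 q.1), q.2)) (univ ×ˢ L) (Icc 0 1 ×ˢ L) :=
    fun q hq => ⟨⟨le_max_left _ _, max_le zero_le_one (min_le_left _ _)⟩, hq.2⟩
  have n : NDField (univ ×ˢ L) (fun q : ℝ × E => T1 L q.2) fun q => K (max 0 (min 1 q.1), q.2) :=
    ⟨hK.cont.comp (by fun_prop) m, fun q hq => hK.nd _ (m hq)⟩
  have s : SP L Ω₀ Ω₁ fun q => osum (K (max 0 (min 1 q.1), q.2)) eta0 :=
    ⟨n.plus nd_eta0, 1, fun q hq u hu v hv => ⟨fun h1 => by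
      rw [max_eq_left (min_le_of_right_le (by linarith)), osum_apply, osum_apply,
        (en q.2 hq _ (mem_pl.1 hu) _ (mem_pl.1 hv)).1], fun h1 => by
      rw [min_eq_left h1, max_eq_right zero_le_one, osum_apply, osum_apply,
        (en q.2 hq _ (mem_pl.1 hu) _ (mem_pl.1 hv)).2]⟩⟩
  refine ⟨_, s, _, ∅, fun _ => 0, s.sec, ⟨fun q _ _ h => ?_, by simp⟩, by simp⟩
  simp at h
  linarith

theorem R.neg {L : Set E} {d : ℤ} {Ω₀ Ω₁ : E → Bil (E × ℝ)} (h : R L d Ω₀ Ω₁) :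
    R L (-d) Ω₁ Ω₀ := by
  obtain ⟨H, s, hd⟩ := h
  obtain ⟨A, hA⟩ := s.ends
  refine ⟨fun q => H (-q.1, q.2), ⟨⟨s.nd.cont.comp (by fun_prop) fun q hq => ⟨trivial, hq.2⟩,
    fun q hq => s.nd.nd (-q.1, q.2) ⟨trivial, hq.2⟩⟩, A, fun q hq u hu v hv =>
    ⟨fun h1 => (hA (-q.1, q.2) hq u hu v hv).2 (by linarith),
      fun h1 => (hA (-q.1, q.2) hq u hu v hv).1 (by linarith)⟩⟩, hd.neg⟩

/-- Concatenation of paths. -/
theorem R.add {L : Set E} {d d' : ℤ} {Ω₀ Ω₁ Ω₂ : E → Bil (E × ℝ)} (h : R L d Ω₀ Ω₁)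
    (h' : R L d' Ω₁ Ω₂) : R L (d + d') Ω₀ Ω₂ := by
  obtain ⟨H, s, hd⟩ := h
  obtain ⟨G, r, hd'⟩ := h'
  obtain ⟨A, hA⟩ := s.ends
  obtain ⟨B, hB⟩ := r.ends
  obtain ⟨c₀, hc⟩ := hd.concat hd'
  obtain ⟨c, c0, c1, c2, c3⟩ : ∃ c : ℝ, c₀ ≤ c ∧ A + 1 ≤ c ∧ B + 1 ≤ c ∧ 0 ≤ c :=
    ⟨max (max c₀ 0) (max (A + 1) (B + 1)), by simp, by simp, by simp, by simp⟩
  let θ : ℝ → ℝ := fun t => max 0 (min 1 ((t + 1) / 2))
  have θ0 : ∀ t ≤ -1, θ t = 0 := fun t ht => max_eq_left (min_le_of_right_le (by linarith))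
  have θ1 : ∀ t, 1 ≤ t → θ t = 1 := fun t ht => by
    simp only [θ]
    rw [min_eq_left (by linarith), max_eq_right zero_le_one]
  let K : ℝ × E → Bil ((E × ℝ) × (ℝ × ℝ)) := fun q =>
    (1 - θ q.1) • H (q.1 + c, q.2) + θ q.1 • G (q.1 - c, q.2)
  have K0 : ∀ q : ℝ × E, q.1 ≤ -1 → K q = H (q.1 + c, q.2) := fun q h => by simp [K, θ0 _ h]
  have K1 : ∀ q : ℝ × E, 1 ≤ q.1 → K q = G (q.1 - c, q.2) := fun q h => by simp [K, θ1 _ h]
  have K2 : ∀ q : ℝ × E, q.2 ∈ L → -1 ≤ q.1 → ∀ u ∈ pl (T1 L q.2) (ℝ × ℝ),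
      ∀ v ∈ pl (T1 L q.2) (ℝ × ℝ), q.1 ≤ 1 → K q u v = osum (Ω₁ q.2) eta0 u v :=
    fun q hq h1 u hu v hv h2 => by
      simp only [K, add_apply, smul_apply, smul_eq_mul]
      rw [(hA (q.1 + c, q.2) hq u hu v hv).2 (by linarith),
        (hB (q.1 - c, q.2) hq u hu v hv).1 (by linarith)]
      ring
  have cθ : Continuous fun q : ℝ × E => θ q.1 := by fun_prop
  have t : SP L Ω₀ Ω₂ K := by
    refine ⟨⟨((continuousOn_const.sub cθ.continuousOn).smul (s.nd.cont.comp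
      (f := fun q : ℝ × E => (q.1 + c, q.2)) (by fun_prop) fun q hq => ⟨trivial, hq.2⟩)).add
      (cθ.continuousOn.smul (r.nd.cont.comp (f := fun q : ℝ × E => (q.1 - c, q.2)) (by fun_prop)
      fun q hq => ⟨trivial, hq.2⟩)), fun q hq => ?_⟩, |A| + |B| + c + 1, fun q hq u hu v hv =>
      ⟨fun h1 => ?_, fun h1 => ?_⟩⟩
    · rcases le_total q.1 (-1) with h1 | h1
      · rw [K0 q h1]; exact s.nd.nd (q.1 + c, q.2) ⟨trivial, hq.2⟩
      rcases le_total 1 q.1 with h2 | h2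
      · rw [K1 q h2]; exact r.nd.nd (q.1 - c, q.2) ⟨trivial, hq.2⟩
      refine (s.nd.nd (q.1 + c, q.2) ⟨trivial, hq.2⟩).congr fun u hu v hv => ?_
      rw [K2 q hq.2 h1 u hu v hv h2, (hA (q.1 + c, q.2) hq.2 u hu v hv).2 (by linarith)]
    · rw [K0 q (by linarith [abs_nonneg A, abs_nonneg B])]
      exact (hA (q.1 + c, q.2) hq u hu v hv).1 (by linarith [le_abs_self A, abs_nonneg B])
    · rw [K1 q (by linarith [abs_nonneg A, abs_nonneg B])]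
      exact (hB (q.1 - c, q.2) hq u hu v hv).2 (by linarith [le_abs_self B, abs_nonneg A])
  refine ⟨K, t, hc c c0 _ t.sec (fun q _ h => by rw [K0 q h]) (fun q _ h => by rw [K1 q h])
    fun q hq h => ?_⟩
  have := ralg_end fun u hu v hv => K2 q hq (abs_le.1 h).1 u hu v hv (abs_le.1 h).2
  exact ⟨this.1, by rw [this.2]; exact one_pos⟩

theorem R.congr {L : Set E} {d : ℤ} {Ω₀ Ω₁ Ω₀' Ω₁' : E → Bil (E × ℝ)} (h : R L d Ω₀ Ω₁)
    (h0 : ∀ x ∈ L, ∀ u ∈ T1 L x, ∀ v ∈ T1 L x, Ω₀ x u v = Ω₀' x u v)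
    (h1 : ∀ x ∈ L, ∀ u ∈ T1 L x, ∀ v ∈ T1 L x, Ω₁ x u v = Ω₁' x u v) : R L d Ω₀' Ω₁' := by
  obtain ⟨H, ⟨n, A, hA⟩, hd⟩ := h
  refine ⟨H, ⟨n, A, fun q hq u hu v hv => ?_⟩, hd⟩
  rw [osum_apply, osum_apply, ← h0 _ hq _ (mem_pl.1 hu) _ (mem_pl.1 hv),
    ← h1 _ hq _ (mem_pl.1 hu) _ (mem_pl.1 hv), ← osum_apply, ← osum_apply]
  exact hA q hq u hu v hv

theorem R.mul {L : Set E} {p : ℤ} {Ω : E → Bil (E × ℝ)} (hΩ : Formal L Ω) (h : R L p Ω Ω)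
    (k : ℤ) : R L (k * p) Ω Ω := by
  induction k using Int.induction_on with
  | zero => simpa using R_of_htpy (NDField.htpy hΩ fun _ _ _ _ _ _ => rfl)
  | succ k ih => simpa [add_mul] using ih.add h
  | pred k ih => simpa [sub_mul, sub_eq_add_neg, add_mul] using ih.add h.neg

end Pool.Agent.Lib.MP_ccffa6_gt.U
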