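import Pool.Agent.Lib.MP_ccffa6_gt.U.RAlg
import Pool.Agent.Lib.MP_ccffa6_gt.U.Loc

/-! Reflections, and the path between two reflections. -/

open Set Filter Topology
open scoped ContDiff

noncomputable section

namespace Pool.Agent.Lib.MP_ccffa6_gt.U

variable {E : Type} [NormedAddCommGroup E] [NormedSpace ℝ E] [FiniteDimensional ℝ E]

/-- Pull-back of a form by an endomorphism. -/
abbrev bp {V V' : Type} [NormedAddCommGroup V] [NormedSpace ℝ V] [NormedAddCommGroup V']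
    [NormedSpace ℝ V'] (w : Bil V') (A : V →L[ℝ] V') : Bil V := w.bilinearComp A A

/-- The reflection which fixes `ker m` and sends `w` to `-w`. -/
def refl {V : Type} [NormedAddCommGroup V] [NormedSpace ℝ V] (m : V →L[ℝ] ℝ) (w : V) :
    V →L[ℝ] V := ContinuousLinearMap.id ℝ V - (2 / m w) • m.smulRight w

/-- A covector field and a vector field on which it is positive. -/
structure Pair (L : Set E) (m : E → Cv E) (w : E → E × ℝ) : Prop where
  cm : ContinuousOn m L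
  cw : ContinuousOn w L
  mem : ∀ x ∈ L, w x ∈ T1 L x
  pos : ∀ x ∈ L, 0 < m x (w x)

/-- The covector `ds`. -/
abbrev ds (E : Type) [NormedAddCommGroup E] [NormedSpace ℝ E] : Cv E :=
  ContinuousLinearMap.snd ℝ E ℝ

/-- The reflection `(v, s) ↦ (v, -s)`. -/
abbrev rho (E : Type) [NormedAddCommGroup E] [NormedSpace ℝ E] : (E × ℝ) →L[ℝ] (E × ℝ) :=
  refl (ds E) (0, 1)

section

variable {V : Type} [NormedAddCommGroup V] [NormedSpace ℝ V]

theorem refl_apply (m : V →L[ℝ] ℝ) (w v : V) : refl m w v = v - (2 / m w * m v) • w := by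
  simp [refl, mul_smul]

theorem refl_refl {m : V →L[ℝ] ℝ} {w : V} (h : m w ≠ 0) (v : V) :
    refl m w (refl m w v) = v := by
  rw [refl_apply, refl_apply, map_sub, map_smul, smul_eq_mul, sub_sub, ← add_smul]
  have e : 2 / m w * m v + 2 / m w * (m v - 2 / m w * m v * m w) = 0 := by
    field_simp
    ring
  rw [e, zero_smul, sub_zero]

theorem refl_mem {T : Submodule ℝ V} (m : V →L[ℝ] ℝ) {w v : V} (hw : w ∈ T) (hv : v ∈ T) :
    refl m w v ∈ T := by
  rw [refl_apply]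
  exact T.sub_mem hv (T.smul_mem _ hw)

theorem refl_bijOn {T : Submodule ℝ V} {m : V →L[ℝ] ℝ} {w : V} (h : m w ≠ 0) (hw : w ∈ T) :
    BijOn (refl m w) T T :=
  InvOn.bijOn (f' := refl m w) ⟨fun v _ => refl_refl h v, fun v _ => refl_refl h v⟩
    (fun _ hv => refl_mem m hw hv) fun _ hv => refl_mem m hw hv

theorem continuousOn_refl {X : Type} [TopologicalSpace X] {S : Set X} {m : X → V →L[ℝ] ℝ}
    {w : X → V} (hm : ContinuousOn m S) (hw : ContinuousOn w S) (h : ∀ x ∈ S, m x (w x) ≠ 0) :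
    ContinuousOn (fun x => refl (m x) (w x)) S :=
  continuousOn_const.sub ((continuousOn_const.div (hm.clm_apply hw) h).smul
    (((ContinuousLinearMap.smulRightL ℝ V V).continuous.comp_continuousOn hm).clm_apply hw))

/-- The covector `m ⊕ c e₂^*`. -/
def refl_M (m : V →L[ℝ] ℝ) (c : ℝ) : (V × (ℝ × ℝ)) →L[ℝ] ℝ :=
  m.comp (ContinuousLinearMap.fst ℝ V (ℝ × ℝ)) +
    c • (ContinuousLinearMap.snd ℝ ℝ ℝ).comp (ContinuousLinearMap.snd ℝ V (ℝ × ℝ))

theorem refl_M_apply (m : V →L[ℝ] ℝ) (c : ℝ) (v : V × (ℝ × ℝ)) :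
    refl_M m c v = m v.1 + c * v.2.2 := rfl

variable [FiniteDimensional ℝ V]

theorem refl_end (o : Bil V) (m : V →L[ℝ] ℝ) (w : V) (u v : V × (ℝ × ℝ)) :
    bp (osum o eta0) (refl (refl_M m 0) (w, (0, 0))) u v = osum (bp o (refl m w)) eta0 u v := by
  simp [refl_apply, refl_M_apply]
  ring

theorem refl_cov1 (o : Bil V) (m : V →L[ℝ] ℝ) (w : V) (c : ℝ) (v : V) :
    (cov1 (bp (osum o eta0) (refl (refl_M m c) (w, (0, c))))).1 v =
      -(2 / (m w + c * c) * m v * c) := by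
  simp [refl_apply, refl_M_apply]

theorem refl_cov2 (o : Bil V) (m : V →L[ℝ] ℝ) (w : V) (c : ℝ) :
    (cov1 (bp (osum o eta0) (refl (refl_M m c) (w, (0, c))))).2 =
      1 - 2 / (m w + c * c) * c * c := by
  simp [refl_apply, refl_M_apply]

end

@[simp] theorem rho_apply (v : E × ℝ) : rho E v = (v.1, -v.2) := by
  rw [refl_apply]
  refine Prod.ext (by simp) ?_
  simp
  ring

theorem pair_ds (L : Set E) : Pair L (fun _ => ds E) (fun _ => (0, 1)) :=
  ⟨continuousOn_const, continuousOn_const, fun x _ => mem_T1.2 (Tan L x).zero_mem,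
    fun _ _ => one_pos⟩

theorem Pair.formal {L : Set E} {m : E → Cv E} {w : E → E × ℝ} (h : Pair L m w)
    {Ω : E → Bil (E × ℝ)} (hΩ : Formal L Ω) :
    Formal L (fun x => bp (Ω x) (refl (m x) (w x))) :=
  NDField.comp hΩ (r := id) continuousOn_id (mapsTo_id L)
    (continuousOn_refl h.cm h.cw fun x hx => (h.pos x hx).ne')
    fun x hx => refl_bijOn (h.pos x hx).ne' (h.mem x hx)

/-- If `l.1` is a positive multiple of `a` where `l.2 < 0`, the signs may be read on `a`. -/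
theorem secDeg_of_ray {L : Set E} {l : ℝ × E → Cv E × ℝ} (h : SecHtpy L l l)
    (hl : ContinuousOn l (univ ×ˢ L)) {a : ℝ × E → Cv E} (ha : ContinuousOn a (univ ×ˢ L))
    (hr : ∀ q : ℝ × E, q.2 ∈ L → (l q).2 < 0 →
      ∃ κ : ℝ, 0 < κ ∧ ∀ v ∈ T1 L q.2, (l q).1 v = κ * a q v)
    {Z : Finset (ℝ × E)} {e : ℝ × E → ℤ}
    (hZ : ∀ q : ℝ × E, q.2 ∈ L → Van L q.2 (a q) → (l q).2 < 0 → q ∈ Z)
    (hp : ∀ p ∈ Z, p.2 ∈ L ∧ (l p).2 < 0 ∧ LocSign L a p (e p)) :
    SecDeg L l (∑ p ∈ Z, e p) := by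
  have h0 : ∀ᶠ δ in 𝓝[>] (0 : ℝ), ∀ p ∈ Z, δ < -(l p).2 := (eventually_all_finset Z).2 fun p h1 =>
    mem_nhdsWithin_of_mem_nhds (gt_mem_nhds (neg_pos.2 (hp p h1).2.1))
  obtain ⟨δ, hδ, δ0⟩ := (h0.and self_mem_nhdsWithin).exists
  have δ0 : 0 < δ := δ0
  have cμ : ContinuousOn (fun q => max 0 (min 1 (-(l q).2 / δ))) (univ ×ˢ L) :=
    (show Continuous fun t : ℝ => max 0 (min 1 (-t / δ)) by fun_prop).comp_continuousOn hl.snd
  refine ⟨fun q => ((l q).1 + max 0 (min 1 (-(l q).2 / δ)) • (a q - (l q).1), (l q).2), Z, e,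
    h.modify ((hl.fst.add (cμ.smul (ha.sub hl.fst))).sub hl.fst) (fun _ _ => rfl)
      fun q _ h1 v _ => ?_, ⟨fun q hq hv h1 => hZ q hq (fun v hv' => ?_) h1, fun p h1 =>
      ⟨(hp p h1).1, (hp p h1).2.1, (hp p h1).2.2.congr ?_⟩⟩, rfl⟩
  · rw [max_eq_left (min_le_of_right_le (div_nonpos_of_nonpos_of_nonneg (neg_nonpos.2 h1) δ0.le))]
    simp
  · obtain ⟨κ, κ0, hκ⟩ := hr q hq h1
    have h2 := hv v hv'
    have h3 : 0 ≤ max 0 (min 1 (-(l q).2 / δ)) := le_max_left _ _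
    have h4 : max 0 (min 1 (-(l q).2 / δ)) ≤ 1 := max_le zero_le_one (min_le_left _ _)
    simp only [add_apply, smul_apply, sub_apply, smul_eq_mul, hκ v hv'] at h2
    generalize max 0 (min 1 (-(l q).2 / δ)) = μ at h2 h3 h4
    have h5 : 0 < (1 - μ) * κ + μ := by
      rcases h3.eq_or_lt with rfl | h6
      · linarith
      · have := mul_nonneg (sub_nonneg.2 h4) κ0.le
        linarith
    exact (mul_eq_zero.1 (by linarith : ((1 - μ) * κ + μ) * a q v = 0)).resolve_left h5.ne'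
  · have h2 : ∀ᶠ q in 𝓝[univ ×ˢ L] p, δ < -(l q).2 :=
      (hl.snd.neg p ⟨trivial, (hp p h1).1⟩).eventually (lt_mem_nhds (hδ p h1))
    filter_upwards [h2] with q hq v _
    rw [min_eq_left ((one_le_div δ0).2 hq.le), max_eq_right zero_le_one]
    simp

/-- The path of reflections in `m ⊕ c e₂^*`, `c² = K s (1 - s)`. -/
theorem R_refl {L : Set E} (hL : IsCompact L) {m₀ m₁ : E → Cv E} {w₀ w₁ : E → E × ℝ}
    (h₀ : Pair L m₀ w₀) (h₁ : Pair L m₁ w₁) {p : ℝ × E} (hp : p.2 ∈ L) (ht : p.1 ∈ Ioo (0 : ℝ) 1)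
    (hz : ∀ q : ℝ × E, q.2 ∈ L → q.1 ∈ Icc (0 : ℝ) 1 →
      (Van L q.2 ((1 - q.1) • m₀ q.2 + q.1 • m₁ q.2) ↔ q = p)) {e : ℤ}
    (hs : LocSign L (fun q => -((1 - q.1) • m₀ q.2 + q.1 • m₁ q.2)) p e)
    {Ω : E → Bil (E × ℝ)} (hΩ : Formal L Ω) :
    R L e (fun x => bp (Ω x) (refl (m₀ x) (w₀ x))) (fun x => bp (Ω x) (refl (m₁ x) (w₁ x))) := by
  obtain ⟨K, hK⟩ := hL.exists_bound_of_continuousOn
    ((h₀.cm.clm_apply h₁.cw).add (h₁.cm.clm_apply h₀.cw))
  have K0 : 0 ≤ K := (norm_nonneg _).trans (hK _ hp)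
  obtain ⟨s, cs, s01, s0, s1, si⟩ : ∃ s : ℝ → ℝ, Continuous s ∧ (∀ t, s t ∈ Icc (0 : ℝ) 1) ∧
      (∀ t ≤ 0, s t = 0) ∧ (∀ t, 1 ≤ t → s t = 1) ∧ ∀ t ∈ Icc (0 : ℝ) 1, s t = t :=
    ⟨fun t => max 0 (min 1 t), by fun_prop,
      fun t => ⟨le_max_left _ _, max_le zero_le_one (min_le_left _ _)⟩,
      fun t h => max_eq_left (min_le_of_right_le h),
      fun t h => by simp only [min_eq_left h, max_eq_right zero_le_one],
      fun t h => by simp only [min_eq_right h.2, max_eq_right h.1]⟩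
  obtain ⟨c, cc, c0, c2⟩ : ∃ c : ℝ → ℝ, Continuous c ∧ (∀ t, 0 ≤ c t) ∧
      ∀ t, c t * c t = K * (s t * (1 - s t)) :=
    ⟨fun t => √(K * (s t * (1 - s t))), by fun_prop, fun t => Real.sqrt_nonneg _, fun t =>
      Real.mul_self_sqrt (mul_nonneg K0 (mul_nonneg (s01 t).1 (sub_nonneg.2 (s01 t).2)))⟩
  have cz : ∀ t, t ≤ 0 ∨ 1 ≤ t → c t = 0 := fun t h => mul_self_eq_zero.1 (by
    rcases h with h | h
    · rw [c2, s0 t h, zero_mul, mul_zero]
    · rw [c2, s1 t h, sub_self, mul_zero, mul_zero])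
  let m : ℝ × E → Cv E := fun q => (1 - s q.1) • m₀ q.2 + s q.1 • m₁ q.2
  let w : ℝ × E → E × ℝ := fun q => (1 - s q.1) • w₀ q.2 + s q.1 • w₁ q.2
  have up : ∀ {Y : Type} [TopologicalSpace Y] {g : E → Y}, ContinuousOn g L →
      ContinuousOn (fun q : ℝ × E => g q.2) (univ ×ˢ L) := fun hg =>
    hg.comp continuousOn_snd fun _ hq => hq.2
  have cs' : ContinuousOn (fun q : ℝ × E => s q.1) (univ ×ˢ L) := (cs.comp continuous_fst).continuousOn
  have cc' : ContinuousOn (fun q : ℝ × E => c q.1) (univ ×ˢ L) := (cc.comp continuous_fst).continuousOn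
  have cm : ContinuousOn m (univ ×ˢ L) :=
    ((continuousOn_const.sub cs').smul (up h₀.cm)).add (cs'.smul (up h₁.cm))
  have cw : ContinuousOn w (univ ×ˢ L) :=
    ((continuousOn_const.sub cs').smul (up h₀.cw)).add (cs'.smul (up h₁.cw))
  have mw : ∀ q : ℝ × E, q.2 ∈ L → w q ∈ T1 L q.2 := fun q hq =>
    Submodule.add_mem _ (Submodule.smul_mem _ _ (h₀.mem _ hq)) (Submodule.smul_mem _ _ (h₁.mem _ hq))
  have hD : ∀ q : ℝ × E, q.2 ∈ L → 0 < m q (w q) + c q.1 * c q.1 := by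
    intro q hq
    have a₀ := h₀.pos _ hq
    have a₁ := h₁.pos _ hq
    have a₂ : -K ≤ m₀ q.2 (w₁ q.2) + m₁ q.2 (w₀ q.2) := (abs_le.1 (hK _ hq)).1
    have a₃ := mul_nonneg (mul_nonneg (s01 q.1).1 (sub_nonneg.2 (s01 q.1).2)) (sub_nonneg.2 a₂)
    have a₄ := mul_nonneg (sq_nonneg (1 - s q.1)) a₀.le
    have a₅ := mul_nonneg (sq_nonneg (s q.1)) a₁.le
    simp only [m, w, c2, add_apply, smul_apply, map_add, map_smul, smul_eq_mul]
    rcases eq_or_ne (s q.1) 0 with h | h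
    · rw [h]
      linarith
    · have := mul_pos (sq_pos_of_ne_zero h) a₁
      nlinarith
  have sp : SP L (fun x => bp (Ω x) (refl (m₀ x) (w₀ x))) (fun x => bp (Ω x) (refl (m₁ x) (w₁ x)))
      fun q => bp (osum (Ω q.2) eta0) (refl (refl_M (m q) (c q.1)) (w q, (0, c q.1))) := by
    refine ⟨NDField.comp (NDField.plus hΩ nd_eta0) (r := Prod.snd) continuousOn_snd
      (fun _ hq => hq.2) (continuousOn_refl ((cm.clm_comp continuousOn_const).add
        (cc'.smul continuousOn_const)) (cw.prodMk (continuousOn_const.prodMk cc'))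
        fun q hq => (hD q hq.2).ne') fun q hq => refl_bijOn (hD q hq.2).ne' (mem_pl.2 (mw q hq.2)),
      1, fun q hq u _ v _ => ⟨fun h => ?_, fun h => ?_⟩⟩
    · have h' : q.1 ≤ 0 := by linarith
      simp only [m, w, cz _ (Or.inl h'), s0 _ h', sub_zero, one_smul, zero_smul, add_zero]
      exact refl_end _ _ _ _ _
    · simp only [m, w, cz _ (Or.inr h), s1 _ h, sub_self, one_smul, zero_smul, zero_add]
      exact refl_end _ _ _ _ _
  have neg : ∀ q : ℝ × E, (cov1 (bp (osum (Ω q.2) eta0)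
      (refl (refl_M (m q) (c q.1)) (w q, (0, c q.1))))).2 < 0 → 0 < c q.1 ∧ q.1 ∈ Icc (0 : ℝ) 1 := by
    intro q h
    have h1 : c q.1 ≠ 0 := fun h1 => by
      rw [refl_cov2, h1] at h
      linarith
    exact ⟨(c0 _).lt_of_ne' h1, (not_le.1 fun h2 => h1 (cz _ (Or.inl h2))).le,
      (not_le.1 fun h2 => h1 (cz _ (Or.inr h2))).le⟩
  have key := secDeg_of_ray sp.sec (continuous_cov1.comp_continuousOn sp.nd.cont)
    (a := fun q => -((1 - q.1) • m₀ q.2 + q.1 • m₁ q.2))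
    (((continuousOn_const.sub continuousOn_fst).smul (up h₀.cm)).add
      (continuousOn_fst.smul (up h₁.cm))).neg (Z := {p}) (e := fun _ => e)
    (fun q hq h => ⟨2 / (m q (w q) + c q.1 * c q.1) * c q.1,
      mul_pos (div_pos two_pos (hD q hq)) (neg q h).1, fun v _ => by
        have h1 : m q = (1 - q.1) • m₀ q.2 + q.1 • m₁ q.2 := by simp only [m, si _ (neg q h).2]
        rw [refl_cov1, ← h1, neg_apply]
        ring⟩)
    (fun q hq hv h => Finset.mem_singleton.2 ((hz q hq (neg q h).2).1 fun v hv' =>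
      neg_eq_zero.1 (hv v hv')))
    fun q hq => by
      obtain rfl := Finset.mem_singleton.1 hq
      refine ⟨hp, ?_, hs⟩
      have h1 : m q = (1 - q.1) • m₀ q.2 + q.1 • m₁ q.2 := by
        simp only [m, si _ (Ioo_subset_Icc_self ht)]
      have h2 : m q (w q) = 0 := by
        rw [h1]
        exact (hz q hp (Ioo_subset_Icc_self ht)).2 rfl _ (mw q hp)
      have h3 := hD q hp
      rw [refl_cov2]
      rw [h2, zero_add] at h3 ⊢
      rw [mul_assoc, div_mul_cancel₀ _ h3.ne']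
      norm_num
  rw [Finset.sum_singleton] at key
  exact ⟨_, sp, key⟩

/-- The same with the sign taken from a chart (`locSign_ex` for the negative field). -/
theorem R_refl_chart {F : Type} [NormedAddCommGroup F] [NormedSpace ℝ F] [FiniteDimensional ℝ F]
    {L : Set E} (hL : IsCompact L) {m₀ m₁ : E → Cv E} {w₀ w₁ : E → E × ℝ}
    (h₀ : Pair L m₀ w₀) (h₁ : Pair L m₁ w₁) {p : ℝ × E} (hp : p.2 ∈ L) (ht : p.1 ∈ Ioo (0 : ℝ) 1)
    (hz : ∀ q : ℝ × E, q.2 ∈ L → q.1 ∈ Icc (0 : ℝ) 1 →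
      (Van L q.2 ((1 - q.1) • m₀ q.2 + q.1 • m₁ q.2) ↔ q = p))
    {φ : F → E} {ψ : E → F} (hc : Chart L p.2 φ ψ) {D : (ℝ × F) →L[ℝ] Cv F}
    (hd : HasFDerivAt (fun z : ℝ × F => ((1 - z.1) • m₀ (φ z.2) + z.1 • m₁ (φ z.2)).comp
      ((fderiv ℝ φ z.2).prodMap (ContinuousLinearMap.id ℝ ℝ))) D (p.1, ψ p.2))
    (hi : Function.Injective D) : ∃ e : ℤ, (e = 1 ∨ e = -1) ∧ ∀ Ω, Formal L Ω →
      R L e (fun x => bp (Ω x) (refl (m₀ x) (w₀ x))) (fun x => bp (Ω x) (refl (m₁ x) (w₁ x))) := by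
  have up : ∀ {g : E → Cv E}, ContinuousOn g L →
      ContinuousOn (fun q : ℝ × E => g q.2) (univ ×ˢ L) := fun hg =>
    hg.comp continuousOn_snd fun _ hq => hq.2
  obtain ⟨e, he⟩ := locSign_ex (a := fun q => -((1 - q.1) • m₀ q.2 + q.1 • m₁ q.2)) (D := -D)
    hL.isClosed hp hc (((continuousOn_const.sub continuousOn_fst).smul (up h₀.cm)).add
      (continuousOn_fst.smul (up h₁.cm))).neg
    (hd.neg.congr_of_eventuallyEq (Eventually.of_forall fun z => ContinuousLinearMap.neg_comp _ _))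
    (fun v hv => neg_eq_zero.2 ((hz p hp (Ioo_subset_Icc_self ht)).2 rfl v hv))
    fun u v h => hi (neg_injective h)
  exact ⟨e, he.1, fun Ω hΩ => R_refl hL h₀ h₁ hp ht hz he hΩ⟩

end Pool.Agent.Lib.MP_ccffa6_gt.U
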