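import Pool.Agent.Lib.MP_ccffa6_gt.U.SStep
import Pool.Agent.Lib.MP_ccffa6_gt.U.Conn
import Pool.Agent.Lib.MP_ccffa6_gt.U.Hopf
import Pool.Agent.Lib.MP_ccffa6_gt.U.Lift

/-! Step (S): one defect of a fixed sign can be removed. -/

open Set Filter Topology
open scoped ContDiff

noncomputable section

namespace Pool.Agent.Lib.MP_ccffa6_gt.U

variable {E : Type} [NormedAddCommGroup E] [NormedSpace ℝ E] [FiniteDimensional ℝ E]

theorem R.htpy {d : ℕ} {L : Set E} (hL : Closed d L) (hc : IsConnected L)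
    {Ω₀ Ω₁ : E → Bil (E × ℝ)} (h : R L 0 Ω₀ Ω₁) : Htpy L Ω₀ Ω₁ := by
  obtain ⟨H, h1, h2⟩ := h
  exact lift hL h1 (hopf hL hc h2)

theorem rho_rho (v : E × ℝ) : rho E (rho E v) = v := by simp

theorem S_main {n : ℕ} (hE : ELIKStmt n) (hn : 1 ≤ n) {M : Set E} (hM : Closed (2 * n + 1) M)
    (hc : IsConnected M) : ∃ e : ℤ, (e = 1 ∨ e = -1) ∧ ∀ Ω, Formal M Ω →
      ∃ Ω', Formal M Ω' ∧ R M e Ω' Ω ∧ (UG n M Ω' → UG n M Ω) := by
  obtain ⟨φ, ψ, ρ, f, k, R₁, h⟩ := exists_mod n (n + 1) (by omega) hM hc.nonempty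
  obtain ⟨ν, hν, hs⟩ := h.slab
  obtain ⟨e', he', hd⟩ := h.defect hν hs
  obtain ⟨mb, vb, e, e₁, hp, he, he₁, hb, hb₁⟩ := h.bubble (by omega) hν hs
  have hc1 := h.conn hc hn (by omega)
  have hcl := h.closed1 hs
  have hrho : ∀ Ω, Formal M Ω → Formal M fun x => bp (Ω x) (rho E) :=
    fun Ω hΩ => (pair_ds M).formal hΩ
  have hsb : ∀ x ∈ M, ∀ v, refl (mb x) (vb x) (refl (mb x) (vb x) v) = v :=
    fun x hx v => refl_refl (hp.pos x hx).ne' v
  -- the common end of the argument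
  have key : ∀ Ω Ω', Formal M Ω → Formal M Ω' →
      R (M1 M ψ ρ f k) e' (lev ν fun z => Ω' z.1) (lev ν fun z => Ω z.1) →
      UG n M Ω' → UG n M Ω := by
    intro Ω Ω' hΩ hΩ' hR hg
    have h1 := h.down hE le_rfl hs hΩ' hg
    have h2 := hd _ (h.formalL hs (hrho _ hΩ'))
    have h3 : R (M1 M ψ ρ f k) e' (lev ν fun z => Ω' z.1)
        (fun z => bp (lev ν (fun z => bp (Ω' z.1) (rho E)) z) (rho (E × ℝ))) := by
      refine h2.congr (fun z _ u _ v _ => ?_) fun _ _ _ _ _ _ => rfl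
      simp only [lev, ContinuousLinearMap.bilinearComp_apply, inc_refl, rho_rho]
    have h4 := h3.neg.add hR
    rw [neg_add_cancel] at h4
    refine h.up hE le_rfl hs (Θ := fun z => Ω z.1) ⟨hΩ.cont.comp continuousOn_fst
      fun z hz => hz.1.1, fun z hz => hΩ.nd _ hz.1.1⟩ hΩ (fun _ _ _ _ _ _ => rfl)
      (h1.htpy (h4.htpy hcl hc1))
  have hM1 : ∀ z ∈ M1 M ψ ρ f k, z.1 ∈ M := fun z hz => hz.1.1
  by_cases hee : e₁ = e'
  · refine ⟨e, he, fun Ω hΩ => ⟨fun x => bp (bp (Ω x) (rho E)) (refl (mb x) (vb x)),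
      hp.formal (hrho _ hΩ), ?_, key _ _ hΩ (hp.formal (hrho _ hΩ)) ?_⟩⟩
    · refine (hb _ (hrho _ hΩ)).congr (fun _ _ _ _ _ _ => rfl) fun x _ u _ v _ => ?_
      simp only [ContinuousLinearMap.bilinearComp_apply, rho_rho]
    · rw [← hee]
      refine (hb₁ _ (h.formalL hs (hrho _ hΩ))).congr (fun z _ u _ v _ => ?_) fun z _ u _ v _ => ?_
      · simp only [lev, ContinuousLinearMap.bilinearComp_apply, inc_refl]
      · simp only [lev, ContinuousLinearMap.bilinearComp_apply, inc_refl, rho_rho]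
  · have hee' : -e₁ = e' := by omega
    refine ⟨-e, by omega, fun Ω hΩ => ⟨fun x => bp (bp (Ω x) (refl (mb x) (vb x))) (rho E),
      hrho _ (hp.formal hΩ), ?_, key _ _ hΩ (hrho _ (hp.formal hΩ)) ?_⟩⟩
    · refine (hb _ (hp.formal hΩ)).neg.congr (fun _ _ _ _ _ _ => rfl) fun x hx u _ v _ => ?_
      simp only [ContinuousLinearMap.bilinearComp_apply, hsb x hx]
    · rw [← hee']
      refine (hb₁ _ (h.formalL hs (hp.formal hΩ))).neg.congr (fun z _ u _ v _ => ?_)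
        fun z hz u _ v _ => ?_
      · simp only [lev, ContinuousLinearMap.bilinearComp_apply, inc_refl]
      · simp only [lev, ContinuousLinearMap.bilinearComp_apply, inc_refl, hsb _ (hM1 z hz)]

end Pool.Agent.Lib.MP_ccffa6_gt.U
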