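import Pool.Agent.Lib.MP_ccffa6_gt.U.Morse
import Pool.Agent.Lib.MP_ccffa6_gt.U.Bub

/-! Step (S): the two defects on the middle level. -/

open Set Filter Topology
open scoped ContDiff RealInnerProductSpace

noncomputable section

namespace Pool.Agent.Lib.MP_ccffa6_gt.U

variable {E : Type} [NormedAddCommGroup E] [NormedSpace ℝ E] [FiniteDimensional ℝ E]

/-- A pair on `M`, seen on a level of `g` in `M × ℝ`. -/
def mL (ν : E × ℝ → E × ℝ) (m : E → Cv E) (z : E × ℝ) : Cv (E × ℝ) := (m z.1).comp (inc (ν z))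

def wL (g : E × ℝ → ℝ) (ν : E × ℝ → E × ℝ) (w : E → E × ℝ) (z : E × ℝ) : (E × ℝ) × ℝ :=
  jnc (fderiv ℝ g z) (ν z) (w z.1)

theorem inc_refl (g : E × ℝ → ℝ) (ν : E × ℝ → E × ℝ) (m : E → Cv E) (w : E → E × ℝ) (z : E × ℝ)
    (v : (E × ℝ) × ℝ) :
    inc (ν z) (refl (mL ν m z) (wL g ν w z) v) = refl (m z.1) (w z.1) (inc (ν z) v) := by
  simp only [refl_apply, map_sub, map_smul, mL, wL, ContinuousLinearMap.comp_apply, inc_jnc]

variable {n p q : ℕ} {M : Set E} {φ : Fm p q → E} {ψ : E → Fm p q} {ρ : E → ℝ} {f k : ℝ → ℝ}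
  {R₁ : ℝ}

variable {ν : E × ℝ → E × ℝ}

theorem Mod.closed1 (h : Mod n M φ ψ ρ f k R₁)
    (hs : Slab (2 * n + 2) (M ×ˢ univ) (Fg ψ ρ f k) 0 (R₁ + 10) ν) :
    Closed (2 * n + 1) (M1 M ψ ρ f k) := hs.closed (Or.inl rfl)

theorem sdef_nu (h : Mod n M φ ψ ρ f k R₁)
    (hs : Slab (2 * n + 2) (M ×ˢ univ) (Fg ψ ρ f k) 0 (R₁ + 10) ν) {z : E × ℝ}
    (hz : z ∈ M1 M ψ ρ f k) : ν z ∈ T1 M z.1 ∧ fderiv ℝ (Fg ψ ρ f k) z (ν z) = 1 := by
  have := hs.tν z ⟨hz.1, Or.inl hz.2⟩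
  rwa [tan_cyl h.cl.sub hz.1.1] at this

theorem sdef_tan (h : Mod n M φ ψ ρ f k R₁)
    (hs : Slab (2 * n + 2) (M ×ˢ univ) (Fg ψ ρ f k) 0 (R₁ + 10) ν) {z : E × ℝ}
    (hz : z ∈ M1 M ψ ρ f k) (v : E × ℝ) :
    v ∈ Tan (M1 M ψ ρ f k) z ↔ v ∈ T1 M z.1 ∧ fderiv ℝ (Fg ψ ρ f k) z v = 0 := by
  have := hs.mem_tan (Or.inl rfl) hz v
  rwa [tan_cyl h.cl.sub hz.1.1] at this

/-- `slab_jnc_mem`, `tan_cyl`, `inc_jnc`. -/
theorem Mod.pairL (h : Mod n M φ ψ ρ f k R₁)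
    (hs : Slab (2 * n + 2) (M ×ˢ univ) (Fg ψ ρ f k) 0 (R₁ + 10) ν) {m : E → Cv E}
    {w : E → E × ℝ} (hp : Pair M m w) :
    Pair (M1 M ψ ρ f k) (mL ν m) (wL (Fg ψ ρ f k) ν w) := by
  have cν : ContinuousOn ν (M1 M ψ ρ f k) := hs.cν.mono fun z hz => ⟨hz.1, Or.inl hz.2⟩
  have cw : ContinuousOn (fun z : E × ℝ => w z.1) (M1 M ψ ρ f k) :=
    hp.cw.comp continuousOn_fst fun z hz => hz.1.1
  have cg := (h.sm.continuous_fderiv (by simp)).continuousOn (s := M1 M ψ ρ f k) |>.clm_apply cw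
  refine ⟨(hp.cm.comp continuousOn_fst fun z hz => hz.1.1).clm_comp
    (continuous_inc.comp_continuousOn cν), (cw.sub (cg.smul cν)).prodMk cg, fun z hz => ?_,
    fun z hz => ?_⟩
  · exact slab_jnc_mem hs (Or.inl rfl) hz (by rw [tan_cyl h.cl.sub hz.1.1]; exact hp.mem _ hz.1.1)
  · simpa only [mL, wL, ContinuousLinearMap.comp_apply, inc_jnc] using hp.pos _ hz.1.1

theorem Mod.formalL (h : Mod n M φ ψ ρ f k R₁)
    (hs : Slab (2 * n + 2) (M ×ˢ univ) (Fg ψ ρ f k) 0 (R₁ + 10) ν) {Ω : E → Bil (E × ℝ)}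
    (hΩ : Formal M Ω) : Formal (M1 M ψ ρ f k) (lev ν fun z => Ω z.1) :=
  slab_lev_formal hs (Or.inl rfl) ⟨hΩ.cont.comp continuousOn_fst fun z hz => hz.1.1,
    fun z hz => by rw [tan_cyl h.cl.sub hz.1.1]; exact hΩ.nd _ hz.1.1⟩

/-- The form `(6/5) dQ_w`. -/
def sdefB (p q : ℕ) : Fm p q →L[ℝ] Cv (Fm p q) :=
  (-12 / 5 : ℝ) • (innerSL ℝ : Rd p →L[ℝ] Rd p →L[ℝ] ℝ).bilinearComp (ContinuousLinearMap.fst ℝ _ _)
      ((ContinuousLinearMap.fst ℝ _ _).comp (ContinuousLinearMap.fst ℝ _ _)) +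
    (12 / 5 : ℝ) • (innerSL ℝ : Rd q →L[ℝ] Rd q →L[ℝ] ℝ).bilinearComp
      (ContinuousLinearMap.snd ℝ _ _)
      ((ContinuousLinearMap.snd ℝ _ _).comp (ContinuousLinearMap.fst ℝ _ _))

theorem sdefB_apply (w : Fm p q) (v : Fm p q × ℝ) :
    sdefB p q w v = -12 / 5 * ⟪w.1, v.1.1⟫ + 12 / 5 * ⟪w.2, v.1.2⟫ := by
  simp [sdefB]

theorem sdef_axis (h : Mod n M φ ψ ρ f k R₁) {v : E × ℝ} (hv : v ∈ T1 M (φ 0)) :
    fderiv ℝ (Fg ψ ρ f k) (φ 0, 0) v = -5 * v.2 := by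
  rw [h.in_fderiv (by rw [norm_zero]; linarith [h.ct.lt]) 0 hv, fderiv_Fmod_axis h.pf h.ct,
    h.pf.deriv_mid (by norm_num), d1_apply]

/-- One defect at `(1/6, (φ 0, 0))`. -/
theorem Mod.defect (h : Mod n M φ ψ ρ f k R₁) (hν : ContDiff ℝ ∞ ν)
    (hs : Slab (2 * n + 2) (M ×ˢ univ) (Fg ψ ρ f k) 0 (R₁ + 10) ν) :
    ∃ e : ℤ, (e = 1 ∨ e = -1) ∧ ∀ Θ, Formal (M1 M ψ ρ f k) Θ →
      R (M1 M ψ ρ f k) e
        (fun z => bp (Θ z) (refl (mL ν (fun _ => ds E) z) (wL (Fg ψ ρ f k) ν (fun _ => (0, 1)) z)))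
        (fun z => bp (Θ z) (rho (E × ℝ))) := by
  have q0 : Qf (0 : Fm p q) = 0 := by simp [Qf]
  obtain ⟨hm, hc⟩ := h.chart_mid (w := 0) (by simp [Nf])
  rw [q0, mul_zero] at hm hc
  have n0 : (ν (φ 0, 0)).2 = -1 / 5 := by
    have := sdef_nu h hs hm
    linarith [(sdef_axis h this.1).symm.trans this.2]
  let φ₁ : Fm p q → E × ℝ := fun w => (φ w, 6 / 5 * Qf w)
  have hn : HasFDerivAt (fun w => (ν (φ₁ w)).2) (fderiv ℝ (fun w => (ν (φ₁ w)).2) 0) 0 :=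
    ((hν.comp hc.smφ).snd.differentiable (by simp) 0).hasFDerivAt
  have hn' : HasFDerivAt (fun z : ℝ × Fm p q => (ν (φ₁ z.2)).2) _ (1 / 6, 0) :=
    HasFDerivAt.comp ((1 / 6 : ℝ), (0 : Fm p q)) (g := fun w => (ν (φ₁ w)).2) hn hasFDerivAt_snd
  have hD := (((hasFDerivAt_const (1 : ℝ) ((1 / 6 : ℝ), (0 : Fm p q))).sub hasFDerivAt_fst).smul
    (((sdefB p q).hasFDerivAt.comp _ hasFDerivAt_snd).add
      (hn'.smul_const (ds (Fm p q))))).add
    (hasFDerivAt_fst.smul_const (ds (Fm p q)))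
  refine R_refl_chart (h.closed1 hs).cpt (h.pairL hs (pair_ds M)) (pair_ds _)
    (p := (1 / 6, (φ 0, 0))) hm (by norm_num) (fun z hz ht => ⟨fun hv => ?_, ?_⟩) hc
    (D := _) (by
      rw [show ψ (φ 0, (0 : ℝ)).1 = 0 from h.bc.inv 0 (by rw [norm_zero]; linarith [h.ct.lt])]
      refine hD.congr_of_eventuallyEq (Eventually.of_forall fun z => ?_)
      have e : fderiv ℝ (fun w => (φ w, 6 / 5 * Qf w)) z.2 =
          (fderiv ℝ φ z.2).prod ((6 / 5 : ℝ) • fderiv ℝ Qf z.2) :=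
        ((h.bc.smφ.differentiable (by simp) _).hasFDerivAt.prodMk
          ((contDiff_Qf.differentiable (by simp) _).hasFDerivAt.const_mul _)).fderiv
      refine ContinuousLinearMap.ext fun v => ?_
      simp [mL, e, fderiv_Qf, sdefB_apply, φ₁]
      ring) ?_
  · have key : ∀ u ∈ Tan (M1 M ψ ρ f k) z.2, ∀ r : ℝ,
        (1 - z.1) * (u.2 + r * (ν z.2).2) + z.1 * r = 0 := fun u hu r => by
      simpa [mL] using hv (u, r) (mem_T1.2 hu)
    have hν' := sdef_nu h hs hz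
    have k1 := key 0 (Submodule.zero_mem _) 1
    have k0 : 1 - z.1 ≠ 0 := fun e => by rw [e] at k1; simp at k1; rw [k1] at e; simp at e
    have k2 : ∀ u ∈ T1 M z.2.1, u.2 = fderiv ℝ (Fg ψ ρ f k) z.2 u * (ν z.2).2 := fun u hu => by
      have := key (u - fderiv ℝ (Fg ψ ρ f k) z.2 u • ν z.2) ((sdef_tan h hs hz _).2
        ⟨Submodule.sub_mem _ hu (Submodule.smul_mem _ _ hν'.1), by simp [hν'.2]⟩) 0
      simpa [k0, sub_eq_zero] using this
    have k3 := k2 (0, 1) (mem_T1.2 (Submodule.zero_mem _))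
    have k4 : (ν z.2).2 ≠ 0 := fun e => by rw [e] at k3; simp at k3
    have k5 : 0 < 1 - z.1 := lt_of_le_of_ne (sub_nonneg.2 ht.2) k0.symm
    have k6 : (ν z.2).2 < 0 := by
      refine lt_of_le_of_ne (not_lt.1 fun e => ?_) k4
      simp only [Prod.snd_zero, zero_add, one_mul, mul_one] at k1
      nlinarith [mul_pos k5 e, ht.1]
    have k7 : z.2 = (φ 0, 0) := h.ray hz
      (fun v hv => by simpa [k4] using (k2 (v, 0) (mem_T1.2 hv)).symm)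
      (not_lt.1 fun e => by simp only at k3; nlinarith [mul_pos e (neg_pos.2 k6)])
    refine Prod.ext ?_ k7
    rw [k7, n0] at k1
    simp only [Prod.snd_zero] at k1 ⊢
    linarith
  · rintro rfl u hu
    have h1 := (sdef_tan h hs hm _).1 (mem_T1.1 hu)
    have h2 : u.1.2 = 0 := by linarith [(sdef_axis h h1.1).symm.trans h1.2]
    simp [mL, h2, n0]
    ring
  · refine (injective_iff_map_eq_zero _).2 fun z hz => ?_
    have h1 := congrArg (fun a : Cv (Fm p q) => a ((z.2.1, 0), 0)) hz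
    have h2 := congrArg (fun a : Cv (Fm p q) => a ((0, z.2.2), 0)) hz
    simp [sdefB_apply] at h1 h2
    have h3 : z.2 = 0 := Prod.ext (h1.resolve_left (by norm_num)) (h2.resolve_left (by norm_num))
    have h4 := congrArg (fun a : Cv (Fm p q) => a (0, 1)) hz
    simp [sdefB_apply, h3, φ₁, q0, n0] at h4
    exact Prod.ext (by simp only [Prod.fst_zero]; linarith) h3

/-- A bubble far from the support, seen on `M` and on the middle level. -/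
theorem Mod.bubble (h : Mod n M φ ψ ρ f k R₁) (hq : 1 ≤ q) (hν : ContDiff ℝ ∞ ν)
    (hs : Slab (2 * n + 2) (M ×ˢ univ) (Fg ψ ρ f k) 0 (R₁ + 10) ν) :
    ∃ (mb : E → Cv E) (vb : E → E × ℝ) (e e₁ : ℤ), Pair M mb vb ∧ (e = 1 ∨ e = -1) ∧
      (e₁ = 1 ∨ e₁ = -1) ∧
      (∀ Θ, Formal M Θ →
        R M e (fun x => bp (Θ x) (refl (mb x) (vb x))) (fun x => bp (Θ x) (rho E))) ∧
      ∀ Θ, Formal (M1 M ψ ρ f k) Θ → R (M1 M ψ ρ f k) e₁
        (fun z => bp (Θ z) (refl (mL ν mb z) (wL (Fg ψ ρ f k) ν vb z)))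
        (fun z => bp (Θ z) (refl (mL ν (fun _ => ds E) z)
          (wL (Fg ψ ρ f k) ν (fun _ => (0, 1)) z))) := by
  have hR := h.ct.lt
  obtain ⟨c, hc⟩ : ∃ c : Fm p q, ‖c‖ = R₁ + 1 :=
    ⟨(0, EuclideanSpace.single ⟨0, hq⟩ (R₁ + 1)), by
      simp [Prod.norm_def, abs_of_nonneg (show 0 ≤ R₁ + 1 by linarith)]; linarith⟩
  obtain ⟨mb, vb, D, hp, hz, hD, hi⟩ := h.bc.bub (c := c) (by linarith)
  have c1 : ‖c‖ < R₁ + 3 + 1 := by linarith
  obtain ⟨e, he, hRe⟩ := R_refl_chart h.cl.cpt hp (pair_ds M) (p := (1 / 2, φ c))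
    (h.bc.mem c c1) (by norm_num) (fun z hz' ht => hz z.1 ht z.2 hz') (h.bc.chart c c1) (D := D)
    (by rw [show ψ (φ c) = c from h.bc.inv c c1]; exact hD) hi
  obtain ⟨hm, hch⟩ := h.chart_out (w := c) (by linarith) (by linarith)
  have ho := h.out_near (w := c) (by linarith) (by linarith)
  let J : Fm p q → (Fm p q × ℝ) →L[ℝ] (Fm p q × ℝ) := fun w =>
    (d1 ψ (φ w)).comp ((inc (ν (φ w, 0))).comp (d1 (fun w' => (φ w', (0 : ℝ))) w))
  have cJ : Continuous J := ((continuous_d1 h.bc.smψ).comp h.bc.smφ.continuous).clm_comp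
    ((continuous_inc.comp (hν.continuous.comp hch.smφ.continuous)).clm_comp (continuous_d1 hch.smφ))
  have e1 : ∀ w, fderiv ℝ (fun w' => (φ w', (0 : ℝ))) w = (fderiv ℝ φ w).prod 0 := fun w =>
    ((h.bc.smφ.differentiable (by simp) _).hasFDerivAt.prodMk (hasFDerivAt_const _ _)).fderiv
  let B : ℝ × Fm p q → Cv (Fm p q) →L[ℝ] Cv (Fm p q) := fun z =>
    (ContinuousLinearMap.compL ℝ (Fm p q × ℝ) (Fm p q × ℝ) ℝ).flip (J z.2)
  have cB : Continuous B :=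
    (ContinuousLinearMap.compL ℝ (Fm p q × ℝ) (Fm p q × ℝ) ℝ).flip.continuous.comp
      (cJ.comp continuous_snd)
  have hD' := hasFDerivAt_of_zero hD (ContinuousLinearMap.ext fun v =>
    (hz (1 / 2) (by norm_num) _ (h.bc.mem c c1)).2 rfl _ (h.bc.d1_mem c1 v)) cB.continuousAt
  obtain ⟨e₁, he₁, hR₁⟩ := R_refl_chart (h.closed1 hs).cpt (h.pairL hs hp) (h.pairL hs (pair_ds M))
    (p := (1 / 2, (φ c, 0))) hm (by norm_num) (fun z hz' ht => by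
      have hb := slab_inc_bijOn hs (Or.inl rfl) hz'
      rw [tan_cyl h.cl.sub hz'.1.1] at hb
      have h1 : Van (M1 M ψ ρ f k) z.2 ((1 - z.1) • mL ν mb z.2 + z.1 • mL ν (fun _ => ds E) z.2) ↔
          Van M z.2.1 ((1 - z.1) • mb z.2.1 + z.1 • ds E) :=
        ⟨fun a v hv => by obtain ⟨u, hu, rfl⟩ := hb.surjOn hv; exact a u hu,
          fun a u hu => a _ (hb.mapsTo hu)⟩
      rw [h1, hz z.1 ht _ hz'.1.1]
      refine ⟨fun a => ?_, fun a => by rw [a]⟩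
      obtain ⟨a1, a2⟩ := Prod.mk.inj a
      have h2 : Fg ψ ρ f k (z.2.1, z.2.2) = 0 := hz'.2
      rw [a2, ho.self_of_nhdsWithin (h.bc.mem c c1)] at h2
      exact Prod.ext a1 (Prod.ext a2 h2)) hch (D := (B (1 / 2, c)).comp D) (by
      rw [show ψ (φ c, (0 : ℝ)).1 = c from h.bc.inv c c1]
      refine hD'.congr_of_eventuallyEq ?_
      have hn : ∀ᶠ z : ℝ × Fm p q in 𝓝 (1 / 2, c), ‖z.2‖ ∈ Ioo R₁ (R₁ + 3) :=
        continuous_snd.norm.continuousAt.eventually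
          (isOpen_Ioo.mem_nhds ⟨by simp [hc], by simp [hc]⟩)
      filter_upwards [hn] with z hz'
      refine ContinuousLinearMap.ext fun v => ?_
      have c2 : ‖z.2‖ < R₁ + 3 + 1 := by linarith [hz'.2]
      have h1 : inc (ν (φ z.2, 0)) (d1 (fun w' => (φ w', (0 : ℝ))) z.2 v) ∈ T1 M (φ z.2) := by
        rw [inc_apply, d1_apply, e1]
        exact Submodule.add_mem _ (h.bc.d1_mem c2 (v.1, 0))
          (Submodule.smul_mem _ _ (sdef_nu h hs (h.chart_out hz'.1 hz'.2).1).1)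
      exact congrArg (((1 - z.1) • mb (φ z.2) + z.1 • ds E : Cv E)) (h.bc.d1_right c2 h1).symm)
    (by
      refine Function.Injective.comp (g := B (1 / 2, c)) ?_ hi
      refine (injective_iff_map_eq_zero _).2 fun a ha => ContinuousLinearMap.ext fun v => ?_
      have h1 := sdef_nu h hs hm
      have h2 : (ν (φ c, 0)).2 = 1 := (h.out_fderiv (h.bc.mem c c1) ho 0 h1.1).symm.trans h1.2
      have h3 : J c (v.1 - v.2 • fderiv ℝ ψ (φ c) (ν (φ c, 0)).1, v.2) = v := by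
        have := fun u => congrArg Prod.fst (h.bc.d1_left c1 (u, 0))
        simp only [d1_apply] at this
        simp [J, e1, this, h2]
      rw [← h3]
      exact congrArg (fun b : Cv (Fm p q) =>
        b (v.1 - v.2 • fderiv ℝ ψ (φ c) (ν (φ c, 0)).1, v.2)) ha)
  exact ⟨mb, vb, e, e₁, hp, he, he₁, hRe, hR₁⟩

end Pool.Agent.Lib.MP_ccffa6_gt.U
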