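import Pool.Agent.Lib.MP_ccffa6_gt.U.SDef

/-! The slab, upwards and downwards. -/

open Set Filter Topology
open scoped ContDiff

noncomputable section

namespace Pool.Agent.Lib.MP_ccffa6_gt.U

variable {E : Type} [NormedAddCommGroup E] [NormedSpace ℝ E] [FiniteDimensional ℝ E]

variable {n p q : ℕ} {M : Set E} {φ : Fm p q → E} {ψ : E → Fm p q} {ρ : E → ℝ} {f k : ℝ → ℝ}
  {R₁ : ℝ}

variable {ν : E × ℝ → E × ℝ}

theorem sstep_mem (h : Mod n M φ ψ ρ f k R₁) {z : E × ℝ} (hz : z ∈ M ×ˢ ({R₁ + 10} : Set ℝ)) :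
    z ∈ Lev (M ×ˢ univ) (Fg ψ ρ f k) (R₁ + 10) := h.top ▸ hz

theorem sstep_nu (h : Mod n M φ ψ ρ f k R₁)
    (hs : Slab (2 * n + 2) (M ×ˢ univ) (Fg ψ ρ f k) 0 (R₁ + 10) ν) :
    ContinuousOn ν (M ×ˢ {R₁ + 10}) ∧
      ∀ x ∈ M, ν (x, R₁ + 10) ∈ T1 M x ∧ (ν (x, R₁ + 10)).2 = 1 := by
  have m : M ×ˢ ({R₁ + 10} : Set ℝ) ⊆ M ×ˢ univ ∩ Fg ψ ρ f k ⁻¹' {0, R₁ + 10} := fun z hz =>
    ⟨(sstep_mem h hz).1, Or.inr (sstep_mem h hz).2⟩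
  refine ⟨hs.cν.mono m, fun x hx => ?_⟩
  have h1 := hs.tν (x, R₁ + 10) (m ⟨hx, rfl⟩)
  rwa [tan_cyl h.cl.sub (z := (x, R₁ + 10)) hx, h.top_fderiv] at h1

/-- Upwards through the handle of index `p + 1`. -/
theorem Mod.up (h : Mod n M φ ψ ρ f k R₁) (hE : ELIKStmt n) (hp : p ≤ n)
    (hs : Slab (2 * n + 2) (M ×ˢ univ) (Fg ψ ρ f k) 0 (R₁ + 10) ν)
    {Θ : E × ℝ → Bil (E × ℝ)}
    (hΘ : NDField (M ×ˢ univ ∩ Fg ψ ρ f k ⁻¹' Icc 0 (R₁ + 10)) (fun z => T1 M z.1) Θ)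
    {Ω : E → Bil (E × ℝ)} (hΩ : Formal M Ω)
    (he : ∀ x ∈ M, ∀ u ∈ T1 M x, ∀ v ∈ T1 M x, Θ (x, R₁ + 10) u v = Ω x u v)
    (hg : UG n (M1 M ψ ρ f k) (lev ν Θ)) : UG n M Ω := by
  have h1 := eliU hE hs (morseLe_mono h.morse (by omega)) (Ω := Θ)
    ⟨hΘ.cont, fun z hz => by rw [tan_cyl h.cl.sub hz.1.1]; exact hΘ.nd z hz⟩ hg
  have h2 : ∀ x ∈ M, ∀ u ∈ T1 (M ×ˢ ({R₁ + 10} : Set ℝ)) (x, R₁ + 10),
      inc (ν (x, R₁ + 10)) u ∈ T1 M x := fun x hx u hu => by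
    have := (slab_inc_bijOn hs (Or.inr rfl) (sstep_mem h (z := (x, R₁ + 10)) ⟨hx, rfl⟩)).mapsTo
      (x := u) (by rwa [h.top])
    rwa [tan_cyl h.cl.sub (z := (x, R₁ + 10)) hx] at this
  rw [h.top] at h1
  exact (ug_top h.cl _ (sstep_nu h hs).1 (sstep_nu h hs).2 hΩ fun x hx u hu v hv =>
    he x hx _ (h2 x hx u hu) _ (h2 x hx v hv)).1 h1

/-- Downwards, through the dual handle of index `q`. -/
theorem Mod.down (h : Mod n M φ ψ ρ f k R₁) (hE : ELIKStmt n) (hq : q ≤ n + 1)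
    (hs : Slab (2 * n + 2) (M ×ˢ univ) (Fg ψ ρ f k) 0 (R₁ + 10) ν)
    {Ω : E → Bil (E × ℝ)} (hΩ : Formal M Ω) (hg : UG n M Ω) :
    UG n (M1 M ψ ρ f k)
      (fun z => bp (lev ν (fun z => bp (Ω z.1) (rho E)) z) (rho (E × ℝ))) := by
  have hΩ' : Formal M fun x => bp (Ω x) (rho E) := (pair_ds M).formal hΩ
  obtain ⟨c1, c2⟩ := sstep_nu h hs
  have h2 : ∀ x ∈ M, ∀ u ∈ T1 (M ×ˢ ({R₁ + 10} : Set ℝ)) (x, R₁ + 10),
      rho E (inc (-ν (x, R₁ + 10)) u) = inc (rho E (-ν (x, R₁ + 10))) u := fun x hx u hu => by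
    have h3 := (hs.mem_tan (Or.inr rfl) (sstep_mem h (z := (x, R₁ + 10)) ⟨hx, rfl⟩) u.1).1
      (by rw [h.top]; exact mem_T1.1 hu)
    rw [h.top_fderiv] at h3
    rw [inc_apply, inc_apply, map_add, map_smul, rho_apply u.1, h3.2, neg_zero, ← h3.2]
  have h3 : UG n (M ×ˢ {R₁ + 10}) (lev (fun z => -ν z) fun z => bp (Ω z.1) (rho E)) :=
    (ug_top h.cl _ (ν := fun z => rho E (-ν z)) ((rho E).continuous.comp_continuousOn c1.neg)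
      (fun x hx => ⟨by simpa using (c2 x hx).1, by simp [(c2 x hx).2]⟩) hΩ
      fun x hx u hu v hv => by rw [← h2 x hx u hu, ← h2 x hx v hv]; rfl).2 hg
  have h1 := eliU hE (slab_neg hs) (morseLe_mono h.morse_neg hq)
    (Ω := fun z => bp (Ω z.1) (rho E))
    ⟨hΩ'.cont.comp continuousOn_fst fun z hz => hz.1.1,
      fun z hz => by rw [tan_cyl h.cl.sub hz.1.1]; exact hΩ'.nd z.1 hz.1.1⟩
    (by rwa [lev_neg, h.top])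
  rw [lev_neg] at h1
  refine h1.congr fun z _ u _ v _ => ?_
  have e : ∀ u : (E × ℝ) × ℝ, inc (ν z) (rho (E × ℝ) u) = inc (-ν z) u := fun u => by simp
  simp only [lev, ContinuousLinearMap.bilinearComp_apply, e]

end Pool.Agent.Lib.MP_ccffa6_gt.U
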